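import Mathlib

set_option autoImplicit false

namespace Pool.Agent.P.MP_422cad_co

variable {V : Type}

/-- `p 0, ..., p (k-1)` is a path for the relation `R`. -/
def IsP (R : V → V → Prop) (p : ℤ → V) (k : ℤ) : Prop :=
  (∀ i, 0 ≤ i → i + 1 < k → R (p i) (p (i + 1))) ∧
  (∀ i j, 0 ≤ i → i < j → j < k → p i ≠ p j)

/-- A cycle of length `c`, as a periodic sequence. -/
structure Cyc (R : V → V → Prop) (f : ℤ → V) (c : ℤ) : Prop where
  adj : ∀ i, R (f i) (f (i + 1))
  per : ∀ i, f (i + c) = f i
  inj : ∀ i j, i < j → j < i + c → f i ≠ f j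

def slen (s : ℤ × ℤ) : ℤ := max s.1 s.2 - min s.1 s.2 + 1

def sat (s : ℤ × ℤ) (i : ℤ) : ℤ := if s.1 ≤ s.2 then s.1 + i else s.1 - i

def sig : List (ℤ × ℤ) → ℤ → ℤ
  | [], _ => 0
  | s :: t, i => if i < slen s then sat s i else sig t (i - slen s)

def tot : List (ℤ × ℤ) → ℤ
  | [] => 0
  | s :: t => slen s + tot t

def sdis (s t : ℤ × ℤ) : Prop := max s.1 s.2 < min t.1 t.2 ∨ max t.1 t.2 < min s.1 s.2

lemma slen_pos (s : ℤ × ℤ) : 0 < slen s := by unfold slen; omega

lemma tot_nonneg (l : List (ℤ × ℤ)) : 0 ≤ tot l := by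
  induction l with
  | nil => simp [tot]
  | cons s t ih => have := slen_pos s; simp only [tot]; omega

lemma tot_append (l m : List (ℤ × ℤ)) : tot (l ++ m) = tot l + tot m := by
  induction l with
  | nil => simp [tot]
  | cons s t ih => simp only [List.cons_append, tot, ih]; omega

lemma sig_mem (l : List (ℤ × ℤ)) (i : ℤ) (h0 : 0 ≤ i) (h1 : i < tot l) :
    ∃ s ∈ l, min s.1 s.2 ≤ sig l i ∧ sig l i ≤ max s.1 s.2 := by
  induction l generalizing i with
  | nil => simp [tot] at h1; omega
  | cons s t ih =>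
    by_cases h : i < slen s
    · refine ⟨s, by simp, ?_⟩
      simp only [sig, h, if_true, sat]
      unfold slen at h
      split_ifs <;> omega
    · simp only [tot] at h1
      obtain ⟨u, hu, h2⟩ := ih (i - slen s) (by omega) (by omega)
      refine ⟨u, by simp [hu], ?_⟩
      simpa only [sig, h, if_false] using h2

lemma sig_inj (l : List (ℤ × ℤ)) (hd : l.Pairwise sdis) (i j : ℤ) (h0 : 0 ≤ i) (hij : i < j)
    (h1 : j < tot l) : sig l i ≠ sig l j := by
  induction l generalizing i j with
  | nil => simp [tot] at h1; omega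
  | cons s t ih =>
    rw [List.pairwise_cons] at hd
    simp only [tot] at h1
    by_cases hj : j < slen s
    · have hi : i < slen s := by omega
      simp only [sig, hi, hj, if_true, sat]
      split_ifs <;> omega
    · by_cases hi : i < slen s
      · obtain ⟨u, hu, h2⟩ := sig_mem t (j - slen s) (by omega) (by omega)
        have h3 := hd.1 u hu
        simp only [sig, hi, hj, if_true, if_false, sat]
        unfold slen at hi
        unfold sdis at h3
        split_ifs <;> omega
      · simp only [sig, hi, hj, if_false]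
        exact ih hd.2 _ _ (by omega) (by omega) (by omega)

lemma sig_zero (s : ℤ × ℤ) (t : List (ℤ × ℤ)) : sig (s :: t) 0 = s.1 := by
  have := slen_pos s
  simp [sig, this, sat]

lemma sig_append (l m : List (ℤ × ℤ)) (i : ℤ) (h : 0 ≤ i) :
    sig (l ++ m) (tot l + i) = sig m i := by
  induction l with
  | nil => simp [tot]
  | cons s t ih =>
    have h1 := tot_nonneg t
    have : ¬ (slen s + tot t + i < slen s) := by omega
    simp only [List.cons_append, sig, tot, this, if_false]
    rw [← ih]; congr 1; omega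

lemma sig_last (l : List (ℤ × ℤ)) (s : ℤ × ℤ) : sig (l ++ [s]) (tot (l ++ [s]) - 1) = s.2 := by
  have h := slen_pos s
  have : tot (l ++ [s]) - 1 = tot l + (slen s - 1) := by
    rw [tot_append]; simp only [tot]; omega
  rw [this, sig_append _ _ _ (by omega)]
  have h2 : slen s - 1 < slen s := by omega
  simp only [sig, h2, if_true, sat]
  unfold slen
  split_ifs <;> omega

lemma sig_step (R : ℤ → ℤ → Prop) (lo hi : ℤ)
    (hs : ∀ i, lo ≤ i → i < hi → R i (i + 1) ∧ R (i + 1) i)
    (l : List (ℤ × ℤ)) (hin : ∀ s ∈ l, lo ≤ min s.1 s.2 ∧ max s.1 s.2 ≤ hi)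
    (hj : l.IsChain (fun s t => R s.2 t.1)) (i : ℤ) (h0 : 0 ≤ i) (h1 : i + 1 < tot l) :
    R (sig l i) (sig l (i + 1)) := by
  induction l generalizing i with
  | nil => simp [tot] at h1; omega
  | cons s t ih =>
    have hs' := hin s (by simp)
    simp only [tot] at h1
    by_cases hi : i + 1 < slen s
    · have hi' : i < slen s := by omega
      simp only [sig, hi, hi', if_true, sat]
      unfold slen at hi
      split_ifs with h
      · rw [← add_assoc]; exact (hs _ (by omega) (by omega)).1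
      · have := (hs (s.1 - (i + 1)) (by omega) (by omega)).2
        rwa [show s.1 - (i + 1) + 1 = s.1 - i by ring] at this
    · by_cases hi' : i < slen s
      · have he : i + 1 - slen s = 0 := by omega
        simp only [sig, hi, hi', if_true, if_false, he]
        cases t with
        | nil => simp only [tot] at h1; omega
        | cons u t' =>
          rw [sig_zero]
          have h2 : sat s i = s.2 := by
            unfold sat; unfold slen at he; split_ifs <;> omega
          rw [h2]
          exact (List.isChain_cons_cons.1 hj).1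
      · simp only [sig, hi, hi', if_false]
        have := ih (fun u hu => hin u (by simp [hu])) (List.IsChain.tail hj) (i - slen s)
          (by omega) (by omega)
        rwa [show i - slen s + 1 = i + 1 - slen s by ring] at this

/-- A path built from segments of an injective sequence. -/
lemma segs_path (R : V → V → Prop) (f : ℤ → V) (lo hi : ℤ)
    (hs : ∀ i, lo ≤ i → i < hi → R (f i) (f (i + 1)) ∧ R (f (i + 1)) (f i))
    (hinj : ∀ i j, lo ≤ i → i < j → j ≤ hi → f i ≠ f j)
    (l : List (ℤ × ℤ)) (hin : ∀ s ∈ l, lo ≤ min s.1 s.2 ∧ max s.1 s.2 ≤ hi)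
    (hd : l.Pairwise sdis) (hj : l.IsChain (fun s t => R (f s.2) (f t.1))) :
    IsP R (fun i => f (sig l i)) (tot l) := by
  refine ⟨fun i h0 h1 => sig_step (fun a b => R (f a) (f b)) lo hi hs l hin hj i h0 h1, ?_⟩
  intro i j h0 hij h1
  have h2 := sig_inj l hd i j h0 hij h1
  obtain ⟨s, hs1, hs2⟩ := sig_mem l i h0 (by omega)
  obtain ⟨t, ht1, ht2⟩ := sig_mem l j (by omega) h1
  have := hin s hs1
  have := hin t ht1
  rcases lt_or_gt_of_ne h2 with h | h
  · exact hinj _ _ (by omega) h (by omega)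
  · exact (hinj _ _ (by omega) h (by omega)).symm

lemma IsP.surj [DecidableEq V] {R : V → V → Prop} {p : ℤ → V} {k : ℤ} (h : IsP R p k)
    (W : Finset V) (hW : ∀ i, 0 ≤ i → i < k → p i ∈ W) (hc : (W.card : ℤ) ≤ k) :
    ∀ w ∈ W, ∃ i, 0 ≤ i ∧ i < k ∧ p i = w := by
  have hinj : Set.InjOn p (Finset.Ico (0 : ℤ) k : Set ℤ) := by
    intro i hi j hj hij
    simp only [Finset.coe_Ico, Set.mem_Ico] at hi hj
    by_contra hne
    rcases lt_or_gt_of_ne hne with h1 | h1
    · exact h.2 i j hi.1 h1 hj.2 hij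
    · exact h.2 j i hj.1 h1 hi.2 hij.symm
  have hsub : (Finset.Ico (0 : ℤ) k).image p ⊆ W := by
    intro w hw
    obtain ⟨i, hi, rfl⟩ := Finset.mem_image.1 hw
    rw [Finset.mem_Ico] at hi
    exact hW i hi.1 hi.2
  have hcard : ((Finset.Ico (0 : ℤ) k).image p).card = (Finset.Ico (0 : ℤ) k).card :=
    Finset.card_image_of_injOn hinj
  have he : (Finset.Ico (0 : ℤ) k).image p = W := by
    apply Finset.eq_of_subset_of_card_le hsub
    rw [hcard, Int.card_Ico]
    omega
  intro w hw
  rw [← he] at hw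
  obtain ⟨i, hi, rfl⟩ := Finset.mem_image.1 hw
  rw [Finset.mem_Ico] at hi
  exact ⟨i, hi.1, hi.2, rfl⟩

lemma IsP.mono {R R' : V → V → Prop} {p : ℤ → V} {k : ℤ} (h : IsP R p k)
    (hR : ∀ a b, R a b → R' a b) : IsP R' p k :=
  ⟨fun i h0 h1 => hR _ _ (h.1 i h0 h1), h.2⟩

lemma IsP.eq {R : V → V → Prop} {p : ℤ → V} {k : ℤ} (h : IsP R p k) {i j : ℤ}
    (hi : 0 ≤ i) (hi' : i < k) (hj : 0 ≤ j) (hj' : j < k) (e : p i = p j) : i = j := by
  by_contra hne
  rcases lt_or_gt_of_ne hne with h1 | h1
  · exact h.2 i j hi h1 hj' e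
  · exact h.2 j i hj h1 hi' e.symm

lemma IsP.cyc {R : V → V → Prop} {p : ℤ → V} {k : ℤ} (h : IsP R p k) (hk : 0 < k)
    (hc : R (p (k - 1)) (p 0)) : Cyc R (fun i => p (i % k)) k := by
  refine ⟨fun i => ?_, fun i => by simp, fun i j hij hj e => ?_⟩
  · have h0 := Int.emod_nonneg i hk.ne'
    have h1 := Int.emod_lt_of_pos i hk
    by_cases h2 : i % k + 1 < k
    · have : (i + 1) % k = i % k + 1 := by
        rw [Int.add_emod, Int.emod_eq_of_lt (a := 1) (by omega) (by omega)]
        exact Int.emod_eq_of_lt (by omega) h2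
      simp only [this]
      exact h.1 _ h0 h2
    · have e1 : i % k = k - 1 := by omega
      have : (i + 1) % k = 0 := by
        have h3 := Int.emod_add_mul_ediv i k
        have : i + 1 = k * (i / k + 1) := by rw [mul_add]; omega
        rw [this]; simp
      simp only [this, e1]
      exact hc
  · have h0 := Int.emod_nonneg i hk.ne'
    have h1 := Int.emod_lt_of_pos i hk
    have h2 := Int.emod_nonneg j hk.ne'
    have h3 := Int.emod_lt_of_pos j hk
    have h4 := h.eq h0 h1 h2 h3 e
    have h5 : k ∣ j - i := Int.ModEq.dvd h4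
    have := Int.le_of_dvd (by omega) h5
    omega

lemma Cyc.per_sub {R : V → V → Prop} {f : ℤ → V} {c : ℤ} (h : Cyc R f c) (i : ℤ) :
    f (i - c) = f i := by
  have := h.per (i - c)
  rw [sub_add_cancel] at this
  exact this.symm

lemma Cyc.per_mul {R : V → V → Prop} {f : ℤ → V} {c : ℤ} (h : Cyc R f c) (i t : ℤ) :
    f (i + c * t) = f i := by
  induction t using Int.induction_on with
  | zero => simp
  | succ t ih => rw [mul_add, mul_one, ← add_assoc, h.per, ih]
  | pred t ih =>
    rw [mul_sub, mul_one, ← add_sub_assoc, h.per_sub, ih]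

/-- Every index has a representative in any window. -/
lemma Cyc.win {R : V → V → Prop} {f : ℤ → V} {c : ℤ} (h : Cyc R f c) (hc : 0 < c) (w i : ℤ) :
    ∃ j, w ≤ j ∧ j < w + c ∧ ∀ t, f (j + t) = f (i + t) := by
  refine ⟨w + (i - w) % c, ?_, ?_, fun t => ?_⟩
  · have := Int.emod_nonneg (i - w) hc.ne'; omega
  · have := Int.emod_lt_of_pos (i - w) hc; omega
  · have h3 := Int.emod_add_mul_ediv (i - w) c
    rw [← h.per_mul (w + (i - w) % c + t) ((i - w) / c)]
    congr 1; omega

lemma Cyc.eq {R : V → V → Prop} {f : ℤ → V} {c : ℤ} (h : Cyc R f c) {i j : ℤ}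
    (h1 : i < j + c) (h2 : j < i + c) (e : f i = f j) : i = j := by
  by_contra hne
  rcases lt_or_gt_of_ne hne with h3 | h3
  · exact h.inj i j h3 h2 e
  · exact h.inj j i h3 h1 e.symm

lemma Cyc.shift {R : V → V → Prop} {f : ℤ → V} {c : ℤ} (h : Cyc R f c) (hc : 0 < c) {i j : ℤ}
    (e : f i = f j) (t : ℤ) : f (i + t) = f (j + t) := by
  obtain ⟨j', h1, h2, h3⟩ := h.win hc i j
  have : i = j' := h.eq (by omega) (by omega) (by rw [e]; simpa using (h3 0).symm)
  subst this
  exact h3 t

lemma Cyc.rev {R : V → V → Prop} {f : ℤ → V} {c : ℤ} (h : Cyc R f c)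
    (hR : ∀ a b, R a b → R b a) : Cyc R (fun i => f (-i)) c := by
  refine ⟨fun i => ?_, fun i => ?_, fun i j h1 h2 => ?_⟩
  · have := h.adj (-(i + 1))
    rw [show -(i + 1) + 1 = -i by ring] at this
    exact hR _ _ this
  · rw [show -(i + c) = -i - c by ring, h.per_sub]
  · exact (h.inj (-j) (-i) (by omega) (by omega)).symm

lemma Cyc.path {R : V → V → Prop} {f : ℤ → V} {c : ℤ} (h : Cyc R f c) (w : ℤ) :
    IsP R (fun i => f (w + i)) c :=
  ⟨fun i _ _ => by simpa only [add_assoc] using h.adj (w + i),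
   fun i j _ h1 h2 => h.inj _ _ (by omega) (by omega)⟩

end Pool.Agent.P.MP_422cad_co
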