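import Pool.Agent.P.MP_422cad_co.Reduce

set_option autoImplicit false

namespace Pool.Agent.P.MP_422cad_co

open SimpleGraph Classical

variable {V : Type} [Fintype V] {G : SimpleGraph V}

/-- The successor map of a Hamilton path from `a` to `b`, closed up by `b ↦ a`. -/
structure Phi (G : SimpleGraph V) (a b : V) (φ : V ≃ V) : Prop where
  last : φ b = a
  adj : ∀ s, s ≠ b → G.Adj s (φ s)
  cross : ∀ s, G.Adj b s → ¬ G.Adj a (φ s)
  inv : ∀ B : V → Prop, (∃ w, B w) → (∀ w, B w → B (φ w)) → ∀ w, B w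

lemma MNH.phi' (h : MNH G) {a b : V} (hab : a ≠ b) (hna : ¬ G.Adj a b) :
    ∃ φ, Phi G a b φ := by
  obtain ⟨p, hp, ha, hb⟩ := h.mx a b hab hna
  have hn : 0 < ord V := by
    have : 0 < Fintype.card V := Fintype.card_pos_iff.2 ⟨a⟩
    unfold ord; omega
  have hc : Cyc (fun s t => G.Adj s t ∨ (s = b ∧ t = a)) (fun i => p (i % ord V)) (ord V) :=
    (hp.mono fun _ _ x => Or.inl x).cyc hn (Or.inr ⟨hb, ha⟩)
  choose ix hix0 hix1 hix using hp.surj_univ
  have hmod : ∀ i, 0 ≤ i → i < ord V → i % ord V = i := fun i h0 h1 => Int.emod_eq_of_lt h0 h1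
  let F : ℤ → V := fun i => p (i % ord V)
  have hF : ∀ w, F (ix w) = w := fun w => by simp only [F, hmod _ (hix0 w) (hix1 w), hix]
  let φ : V → V := fun w => F (ix w + 1)
  have hφ : ∀ i, φ (F i) = F (i + 1) := fun i => hc.shift hn (hF (F i)) 1
  have hsurj : Function.Surjective φ := fun w => ⟨F (ix w - 1), by rw [hφ, sub_add_cancel, hF]⟩
  have hlt : ∀ w, w ≠ b → ix w + 1 < ord V := by
    intro w hw
    by_contra h1
    have : ix w = ord V - 1 := by have := hix1 w; omega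
    apply hw
    rw [← hix w, this, hb]
  have hφ' : ∀ w, w ≠ b → φ w = p (ix w + 1) := fun w hw => by
    simp only [φ, F, hmod _ (by have := hix0 w; omega) (hlt w hw)]
  refine ⟨Equiv.ofBijective φ (Finite.surjective_iff_bijective.1 hsurj), ?_, ?_, ?_, ?_⟩
  · have : F (ord V - 1) = b := by simp only [F, hmod (ord V - 1) (by omega) (by omega), hb]
    show φ b = a
    rw [← this, hφ]
    simp [F, ha]
  · intro s hs
    show G.Adj s (φ s)
    rw [hφ' s hs]
    have := hp.1 (ix s) (hix0 s) (hlt s hs)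
    rwa [hix] at this
  · intro s hs h2
    have hsb : s ≠ b := fun e => G.irrefl (e ▸ hs)
    change G.Adj a (φ s) at h2
    rw [hφ' s hsb] at h2
    have h0 := hix0 s
    have h1 := hlt s hsb
    apply h.nh
    refine hp.hamS [(0, ix s), (ord V - 1, ix s + 1)]
      (by simp only [ok, inw, dis, dis1, sdis, tot, slen, and_true]; omega)
      ⟨by simpa only [hix, hb] using hs.symm, trivial⟩ hn ?_
    simpa only [lst, fst, ha] using h2.symm
  · rintro B ⟨w, hw⟩ hB u
    have key : ∀ k : ℕ, B (F (ix w + k)) := by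
      intro k
      induction k with
      | zero => simpa [hF] using hw
      | succ k ih =>
        have := hB _ ih
        change B (φ _) at this
        rw [hφ] at this
        push_cast
        rwa [← add_assoc]
    obtain ⟨j, j0, j1, j2⟩ := hc.win hn (ix w) (ix u)
    have h1 := key (j - ix w).toNat
    rw [show ix w + ((j - ix w).toNat : ℤ) = j by omega] at h1
    have h2 : F j = F (ix u) := by simpa using j2 0
    rwa [h2, hF] at h1

lemma Phi.inv' {a b : V} {φ : V ≃ V} (h : Phi G a b φ) (B : V → Prop) (hne : ∃ w, B w)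
    (hB : ∀ w, B w → B (φ.symm w)) (w : V) : B w := by
  by_contra hw
  obtain ⟨u, hu⟩ := hne
  refine h.inv (fun x => ¬ B x) ⟨w, hw⟩ (fun x hx hx' => hx ?_) u hu
  simpa using hB _ hx'

/-- Every vertex has at least `d` non-neighbours. -/
lemma nonnb_card (hM : MNH G) (hU : NoU G) {d : ℤ} (hd : ∀ w, d ≤ (nb G w).card) (u : V)
    (W : Finset V) (hW : ∀ w, w ≠ u → ¬ G.Adj u w → w ∈ W) : d ≤ W.card := by
  obtain ⟨r, hr, hur⟩ := hU u
  obtain ⟨φ, h⟩ := hM.phi' hr.symm hur
  have h1 : (nb G r).image φ ⊆ W := by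
    intro z hz
    obtain ⟨s, hs, rfl⟩ := Finset.mem_image.1 hz
    rw [mem_nb] at hs
    refine hW _ (fun e => ?_) (h.cross s hs)
    rw [← h.last, Equiv.apply_eq_iff_eq] at e
    exact G.irrefl (e ▸ hs)
  have h2 := Finset.card_le_card h1
  rw [Finset.card_image_of_injective _ φ.injective] at h2
  have := hd r
  omega

/-- The two vertices of a two-cut are adjacent. -/
lemma cut_adj (hM : MNH G) (Q : V → Prop) {c1 c2 : V} (hne : c1 ≠ c2) (h1 : ¬ Q c1) (h2 : ¬ Q c2)
    (hQ : ∃ w, Q w) (hW : ∃ w, ¬ Q w ∧ w ≠ c1 ∧ w ≠ c2)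
    (hN : ∀ w x, Q w → G.Adj w x → Q x ∨ x = c1 ∨ x = c2) : G.Adj c1 c2 := by
  by_contra hna
  obtain ⟨φ, h⟩ := hM.phi' hne hna
  have a1 : Q (φ c1) := by
    by_contra a
    refine h1 (h.inv' Q hQ (fun w hw => ?_) c1)
    have b : φ.symm w ≠ c2 := fun e => h1 (by
      rw [Equiv.symm_apply_eq, h.last] at e; exact e ▸ hw)
    have := h.adj _ b
    rw [Equiv.apply_symm_apply] at this
    rcases hN _ _ hw this.symm with c | c | c
    · exact c
    · rw [Equiv.symm_apply_eq] at c; exact absurd (c ▸ hw) a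
    · exact absurd c b
  obtain ⟨w, w1, w2, w3⟩ := hW
  have := h.inv (fun x => Q x ∨ x = c1 ∨ x = c2) ⟨c1, Or.inr (Or.inl rfl)⟩ (by
    rintro x (hx | rfl | rfl)
    · exact hN _ _ hx (h.adj x (fun e => h2 (e ▸ hx)))
    · exact Or.inl a1
    · exact Or.inr (Or.inl h.last)) w
  tauto

/-- The number of edges of the closed path between `K` and `S`. -/
noncomputable def slots (φ : V ≃ V) (S : Finset V) (K : V → Prop) : ℕ :=
  {b | K b ∧ φ b ∈ S}.ncard + {b | K b ∧ φ.symm b ∈ S}.ncard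

lemma slots_mono (φ : V ≃ V) (S : Finset V) {K K' : V → Prop} (h : ∀ w, K w → K' w) :
    slots φ S K ≤ slots φ S K' := by
  unfold slots
  apply add_le_add <;> exact Set.ncard_le_ncard (fun x hx => ⟨h _ hx.1, hx.2⟩) (Set.toFinite _)

lemma slots_add (φ : V ≃ V) (S : Finset V) {K K' : V → Prop} (h : ∀ w, K w → ¬ K' w) :
    slots φ S (fun w => K w ∨ K' w) = slots φ S K + slots φ S K' := by
  have key : ∀ P : V → Prop, {b | (K b ∨ K' b) ∧ P b}.ncard =
      {b | K b ∧ P b}.ncard + {b | K' b ∧ P b}.ncard := by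
    intro P
    rw [← Set.ncard_union_eq]
    · congr 1; ext x; simp [or_and_right]
    · rw [Set.disjoint_left]
      intro x hx hx'
      exact h x hx.1 hx'.1
  unfold slots
  have h1 := key (fun b => φ b ∈ S)
  have h2 := key (fun b => φ.symm b ∈ S)
  beta_reduce at h1 h2 ⊢
  omega

lemma slots_le (φ : V ≃ V) (S : Finset V) (K : V → Prop) : slots φ S K ≤ 2 * S.card := by
  unfold slots
  have h1 : {b | K b ∧ φ b ∈ S}.ncard ≤ (S : Set V).ncard :=
    Set.ncard_le_ncard_of_injOn φ (fun x hx => hx.2) φ.injective.injOn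
  have h2 : {b | K b ∧ φ.symm b ∈ S}.ncard ≤ (S : Set V).ncard :=
    Set.ncard_le_ncard_of_injOn φ.symm (fun x hx => hx.2) φ.symm.injective.injOn
  rw [Set.ncard_coe_finset] at h1 h2
  omega

lemma slots_sum {ι : Type} (φ : V ≃ V) (S : Finset V) (I : Finset ι) (K : ι → V → Prop)
    (h : ∀ i ∈ I, ∀ j ∈ I, ∀ w, K i w → K j w → i = j) :
    ∑ i ∈ I, slots φ S (K i) ≤ slots φ S (fun w => ∃ i ∈ I, K i w) := by
  induction I using Finset.induction_on with
  | empty => simp
  | insert a I ha ih =>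
    rw [Finset.sum_insert ha]
    have h1 := ih (fun i hi j hj => h i (Finset.mem_insert_of_mem hi) j (Finset.mem_insert_of_mem hj))
    have h2 := slots_add φ S (K := K a) (K' := fun w => ∃ i ∈ I, K i w) (by
      rintro w hw ⟨i, hi, hw'⟩
      exact ha (h a (by simp) i (Finset.mem_insert_of_mem hi) w hw hw' ▸ hi))
    have h3 := slots_mono φ S (K := fun w => K a w ∨ ∃ i ∈ I, K i w)
      (K' := fun w => ∃ i ∈ insert a I, K i w) (by
        rintro w (hw | ⟨i, hi, hw⟩)
        · exact ⟨a, by simp, hw⟩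
        · exact ⟨i, Finset.mem_insert_of_mem hi, hw⟩)
    omega

/-- A nonempty set outside `S` whose neighbours lie in itself, in `S`, or are the vertex `c`. -/
def Bl (G : SimpleGraph V) (S : V → Prop) (B : V → Prop) (c : V) : Prop :=
  (∃ w, B w) ∧ (∀ w, B w → ¬ S w) ∧ ∀ w x, B w → G.Adj w x → B x ∨ S x ∨ x = c

/-- A nonempty set outside `S` whose neighbours lie in itself or in `S`. -/
def Bl2 (G : SimpleGraph V) (S : V → Prop) (B : V → Prop) : Prop :=
  (∃ w, B w) ∧ (∀ w, B w → ¬ S w) ∧ ∀ w x, B w → G.Adj w x → B x ∨ S x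

lemma Phi.slot2 {a b : V} {φ : V ≃ V} (h : Phi G a b φ) {S : Finset V} (ha : a ∈ S)
    {B : V → Prop} (hB : Bl2 G (· ∈ S) B) : 2 ≤ slots φ S B := by
  obtain ⟨h1, h2, h3⟩ := hB
  have a1 : ∃ w, B w ∧ φ w ∈ S := by
    by_contra hc
    push Not at hc
    refine h2 a (h.inv B h1 (fun w hw => ?_) a) ha
    have : w ≠ b := fun e => hc w hw (by rw [e, h.last]; exact ha)
    exact (h3 _ _ hw (h.adj w this)).resolve_right (hc w hw)
  have a2 : ∃ w, B w ∧ φ.symm w ∈ S := by
    by_contra hc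
    push Not at hc
    refine h2 a (h.inv' B h1 (fun w hw => ?_) a) ha
    have : φ.symm w ≠ b := fun e => h2 w hw (by
      rw [Equiv.symm_apply_eq, h.last] at e; exact e ▸ ha)
    have := h.adj _ this
    rw [Equiv.apply_symm_apply] at this
    exact (h3 _ _ hw this.symm).resolve_right (hc w hw)
  obtain ⟨w1, a1⟩ := a1
  obtain ⟨w2, a2⟩ := a2
  have b1 : 0 < {b | B b ∧ φ b ∈ S}.ncard := (Set.ncard_pos (Set.toFinite _)).2 ⟨w1, a1⟩
  have b2 : 0 < {b | B b ∧ φ.symm b ∈ S}.ncard := (Set.ncard_pos (Set.toFinite _)).2 ⟨w2, a2⟩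
  unfold slots
  omega

lemma Phi.slot1 {a b : V} {φ : V ≃ V} (h : Phi G a b φ) {S : Finset V} (ha : a ∈ S)
    {B : V → Prop} {c : V} (hB : Bl G (· ∈ S) B c) : 1 ≤ slots φ S B := by
  obtain ⟨h1, h2, h3⟩ := hB
  by_cases hc : c ∈ S
  · have := h.slot2 ha (B := B) ⟨h1, h2, fun w x hw hx => by
      rcases h3 w x hw hx with e | e | e
      exacts [Or.inl e, Or.inr e, Or.inr (e ▸ hc)]⟩
    omega
  by_contra hcon
  have z1 : ∀ w, B w → φ w ∉ S := by
    intro w hw hs
    have : 0 < {b | B b ∧ φ b ∈ S}.ncard := (Set.ncard_pos (Set.toFinite _)).2 ⟨w, hw, hs⟩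
    unfold slots at hcon
    omega
  have z2 : ∀ w, B w → φ.symm w ∉ S := by
    intro w hw hs
    have : 0 < {b | B b ∧ φ.symm b ∈ S}.ncard :=
      (Set.ncard_pos (Set.toFinite _)).2 ⟨w, hw, hs⟩
    unfold slots at hcon
    omega
  have a1 : B (φ c) := by
    by_contra a1
    refine h2 a (h.inv' B h1 (fun w hw => ?_) a) ha
    have : φ.symm w ≠ b := fun e => h2 w hw (by
      rw [Equiv.symm_apply_eq, h.last] at e; exact e ▸ ha)
    have := h.adj _ this
    rw [Equiv.apply_symm_apply] at this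
    rcases h3 _ _ hw this.symm with e | e | e
    · exact e
    · exact absurd e (z2 w hw)
    · rw [Equiv.symm_apply_eq] at e; exact absurd (e ▸ hw) a1
  have := h.inv (fun x => B x ∨ x = c) ⟨c, Or.inr rfl⟩ (by
    rintro x (hx | rfl)
    · have : x ≠ b := fun e => z1 x hx (by rw [e, h.last]; exact ha)
      rcases h3 _ _ hx (h.adj x this) with e | e | e
      exacts [Or.inl e, absurd e (z1 x hx), Or.inr e]
    · exact Or.inl a1) a
  rcases this with e | e
  · exact h2 a e ha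
  · exact hc (e ▸ ha)

/-- The part of the cycle after position `i` up to the next vertex of `S`. -/
def Arc (f : ℤ → V) (S : V → Prop) (i : ℤ) (w : V) : Prop :=
  ∃ k, i < k ∧ f k = w ∧ ∀ t, i < t → t ≤ k → ¬ S (f t)

/-- The arc after position `i` contains one closed piece or two pendant pieces. -/
def ArcOK (G : SimpleGraph V) (f : ℤ → V) (S : V → Prop) (i : ℤ) : Prop :=
  (∃ B, Bl2 G S B ∧ ∀ w, B w → Arc f S i w) ∨
  (∃ B1 B2 c1 c2, Bl G S B1 c1 ∧ Bl G S B2 c2 ∧ (∀ w, B1 w → ¬ B2 w) ∧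
    (∀ w, B1 w → Arc f S i w) ∧ ∀ w, B2 w → Arc f S i w)

/-- The toughness argument along a cycle. -/
lemma arcs_blob (hM : MNH G) (hU : NoU G) {f : ℤ → V} {c : ℤ} (hf : Cyc G.Adj f c) (hc : 0 < c)
    (S : V → Prop) (hS : ∀ x, S x → ∃ k, f k = x) (hne : ∃ x, S x)
    (hA : ∀ i, S (f i) → ArcOK G f S i) (O : V → Prop) (o : V) (hO : Bl G S O o)
    (hO' : ∀ k, ¬ O (f k)) : False := by
  obtain ⟨a, ha⟩ := hne
  obtain ⟨b, hb, hab⟩ := hU a
  obtain ⟨φ, h⟩ := hM.phi' hb.symm hab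
  let S' : Finset V := Finset.univ.filter S
  have hS' : (fun x => x ∈ S') = S := by funext x; simp [S']
  have ha' : a ∈ S' := by simpa [S'] using ha
  let K : V → V → Prop := fun x w => ∃ i, f i = x ∧ Arc f S i w
  have h1 : ∀ x ∈ S', 2 ≤ slots φ S' (K x) := by
    intro x hx
    have hx' : S x := by simpa [S'] using hx
    obtain ⟨i, rfl⟩ := hS x hx'
    rcases hA i hx' with ⟨B, b1, b2⟩ | ⟨B1, B2, c1, c2, b1, b2, b3, b4, b5⟩
    · exact (h.slot2 ha' (hS' ▸ b1)).trans (slots_mono φ S' fun w hw => ⟨i, rfl, b2 w hw⟩)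
    · have e1 := h.slot1 ha' (hS' ▸ b1)
      have e2 := h.slot1 ha' (hS' ▸ b2)
      have e3 := slots_add φ S' b3
      have e4 := slots_mono φ S' (K := fun w => B1 w ∨ B2 w) (K' := K (f i)) (by
        rintro w (hw | hw)
        exacts [⟨i, rfl, b4 w hw⟩, ⟨i, rfl, b5 w hw⟩])
      omega
  have h2 := slots_sum φ S' S' K (by
    rintro x hx y hy w ⟨i, rfl, k, k1, rfl, k2⟩ ⟨j, rfl, l, l1, e, l2⟩
    have hx' : S (f i) := by simpa [S'] using hx
    have hy' : S (f j) := by simpa [S'] using hy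
    have e1 := hf.shift hc e (j - l)
    have e2 := hf.shift hc e (i - k)
    rw [show l + (j - l) = j by ring] at e1
    rw [show k + (i - k) = i by ring] at e2
    rcases lt_trichotomy (k - i) (l - j) with h3 | h3 | h3
    · exact absurd (e2 ▸ hx') (l2 _ (by omega) (by omega))
    · rw [e1]; congr 1; omega
    · exact absurd (e1 ▸ hy') (k2 _ (by omega) (by omega)))
  have h3 := Finset.card_nsmul_le_sum S' (fun x => slots φ S' (K x)) 2 h1
  have h4 := h.slot1 ha' (hS' ▸ hO)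
  have h5 := slots_add φ S' (K := fun w => ∃ x ∈ S', K x w) (K' := O) (by
    rintro w ⟨x, -, i, -, k, -, rfl, -⟩
    exact hO' k)
  have h6 := slots_le φ S' (fun w => (∃ x ∈ S', K x w) ∨ O w)
  simp only [smul_eq_mul] at h3
  omega

/-- Two cut vertices, one closed piece and three pendant vertices. -/
lemma blob_five (hM : MNH G) (hU : NoU G) (c1 c2 : V) (B : V → Prop) (w1 w2 w3 z1 z2 z3 : V)
    (hB : Bl2 G (fun x => x = c1 ∨ x = c2) B)
    (h1 : Bl G (fun x => x = c1 ∨ x = c2) (· = w1) z1)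
    (h2 : Bl G (fun x => x = c1 ∨ x = c2) (· = w2) z2)
    (h3 : Bl G (fun x => x = c1 ∨ x = c2) (· = w3) z3)
    (n1 : ¬ B w1) (n2 : ¬ B w2) (n3 : ¬ B w3) (n12 : w1 ≠ w2) (n13 : w1 ≠ w3) (n23 : w2 ≠ w3) :
    False := by
  obtain ⟨b, hb, hab⟩ := hU c1
  obtain ⟨φ, h⟩ := hM.phi' hb.symm hab
  have hS : (fun x => x ∈ ({c1, c2} : Finset V)) = fun x => x = c1 ∨ x = c2 := by
    funext x; simp
  have ha : c1 ∈ ({c1, c2} : Finset V) := by simp
  have e0 := h.slot2 ha (hS ▸ hB)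
  have e1 := h.slot1 ha (hS ▸ h1)
  have e2 := h.slot1 ha (hS ▸ h2)
  have e3 := h.slot1 ha (hS ▸ h3)
  have a1 := slots_add φ {c1, c2} (K := B) (K' := (· = w1)) (by rintro w hw rfl; exact n1 hw)
  have a2 := slots_add φ {c1, c2} (K := fun w => B w ∨ w = w1) (K' := (· = w2)) (by
    rintro w (hw | hw) rfl
    exacts [n2 hw, n12 hw.symm])
  have a3 := slots_add φ {c1, c2} (K := fun w => (B w ∨ w = w1) ∨ w = w2) (K' := (· = w3)) (by
    rintro w ((hw | hw) | hw) rfl
    exacts [n3 hw, n13 hw.symm, n23 hw.symm])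
  have a4 := slots_le φ {c1, c2} (fun w => ((B w ∨ w = w1) ∨ w = w2) ∨ w = w3)
  have := Finset.card_le_two (a := c1) (b := c2)
  omega

end Pool.Agent.P.MP_422cad_co
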