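import Pool.Agent.P.MP_422cad_co.Two

set_option autoImplicit false

namespace Pool.Agent.P.MP_422cad_co

open SimpleGraph Classical

variable {V : Type}

/-- Disjoint blocks on a cycle. -/
lemma Cyc.gap_count {R : V → V → Prop} {f : ℤ → V} {c : ℤ} (h : Cyc R f c) (hc : 0 < c)
    (J : Finset ℤ) (g : ℤ → ℤ) (hg : ∀ i ∈ J, 0 ≤ g i)
    (hJ : ∀ i ∈ J, ∀ j ∈ J, f i = f j → i = j)
    (hb : ∀ i ∈ J, ∀ j ∈ J, ∀ t, 0 < t → t ≤ g i → f (i + t) ≠ f j) :
    ∑ i ∈ J, (g i + 1) ≤ c ∧ (∑ i ∈ J, (g i + 1) = c →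
      ∀ k, ∃ i ∈ J, ∃ t, 0 ≤ t ∧ t ≤ g i ∧ f (i + t) = f k) := by
  let P : Finset (Σ _ : ℤ, ℤ) := J.sigma (fun i => Finset.Icc 0 (g i))
  have hP : (P.card : ℤ) = ∑ i ∈ J, (g i + 1) := by
    simp only [P, Finset.card_sigma, Int.card_Icc]
    push_cast
    refine Finset.sum_congr rfl fun i hi => ?_
    have := hg i hi
    omega
  have hinj : Set.InjOn (fun x : (Σ _ : ℤ, ℤ) => f (x.1 + x.2)) P := by
    rintro ⟨i, t⟩ hx ⟨j, u⟩ hy e
    simp only [P, Finset.coe_sigma, Set.mem_sigma_iff, Finset.mem_coe, Finset.mem_Icc] at hx hy e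
    have e1 := h.shift hc e (-u)
    have e2 := h.shift hc e (-t)
    rw [show j + u + -u = j by ring, show i + t + -u = i + (t - u) by ring] at e1
    rw [show i + t + -t = i by ring, show j + u + -t = j + (u - t) by ring] at e2
    rcases lt_trichotomy t u with h1 | h1 | h1
    · exact absurd e2.symm (hb j hy.1 i hx.1 _ (by omega) (by omega))
    · subst h1
      rw [sub_self, add_zero] at e1
      rw [hJ i hx.1 j hy.1 e1]
    · exact absurd e1 (hb i hx.1 j hy.1 _ (by omega) (by omega))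
  have hsub : P.image (fun x => f (x.1 + x.2)) ⊆ (Finset.Ico 0 c).image f := by
    intro w hw
    obtain ⟨x, -, rfl⟩ := Finset.mem_image.1 hw
    obtain ⟨j, j0, j1, j2⟩ := h.win hc 0 (x.1 + x.2)
    exact Finset.mem_image.2 ⟨j, by simp; omega, by simpa using j2 0⟩
  have h1 := Finset.card_image_of_injOn hinj
  have h2 : ((Finset.Ico 0 c).image f).card ≤ (Finset.Ico 0 c).card := Finset.card_image_le
  rw [Int.card_Ico] at h2
  have h3 := Finset.card_le_card hsub
  refine ⟨by omega, fun e k => ?_⟩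
  have h4 := Finset.eq_of_subset_of_card_le hsub (by omega)
  obtain ⟨j, j0, j1, j2⟩ := h.win hc 0 k
  have : f k ∈ (Finset.Ico 0 c).image f :=
    Finset.mem_image.2 ⟨j, by simp; omega, by simpa using j2 0⟩
  rw [← h4] at this
  obtain ⟨⟨i, t⟩, hx, e⟩ := Finset.mem_image.1 this
  simp only [P, Finset.mem_sigma, Finset.mem_Icc] at hx
  exact ⟨i, hx.1, t, hx.2.1, hx.2.2, e⟩

/-- The vertices of the stick. -/
def InQ (s : ℤ → V) (q : ℤ) (w : V) : Prop := ∃ t, 0 ≤ t ∧ t < q ∧ s t = w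

variable [Fintype V]

/-- The standing assumptions. -/
structure Ctx (G : SimpleGraph V) (d : ℤ) : Prop where
  mnh : MNH G
  nou : NoU G
  deg : ∀ w, d ≤ (nb G w).card
  g2 : ord V ≤ 3 * d + 2
  n3 : 3 ≤ ord V

/-- A cycle `f` of length `c` and a path `s` on the remaining `q` vertices, where no lollipop
has a stick shorter than `q`. -/
structure CS (G : SimpleGraph V) (s f : ℤ → V) (q c : ℤ) : Prop where
  stick : IsP G.Adj s q
  cyc : Cyc G.Adj f c
  dis : ∀ i t, 0 ≤ t → t < q → f i ≠ s t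
  tot : q + c = ord V
  q2 : 2 ≤ q
  c0 : 0 < c
  min : ∀ p' q', Lol G p' q' → q ≤ q'

def Stick (G : SimpleGraph V) (s : ℤ → V) (q : ℤ) : Prop := ∃ f c, CS G s f q c

variable {G : SimpleGraph V} {s f : ℤ → V} {q c d : ℤ}

lemma Ctx.deg_le (h : Ctx G d) (w : V) (W : Finset V) (hW : ∀ x, G.Adj w x → x ∈ W) :
    d ≤ W.card := by
  have h1 : nb G w ⊆ W := fun x hx => hW x (mem_nb.1 hx)
  have := Finset.card_le_card h1
  have := h.deg w
  omega

lemma CS.mk2 (h : CS G s f q c) (lo k : ℤ) (l : List TS) (hl : tok q lo (lo + c - 1) k l)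
    (hj : tchn G.Adj s f l) (hk : 0 < k) :
    IsP G.Adj (tpath s f lo l) k ∧ tpath s f lo l 0 = tfst s f l ∧
      tpath s f lo l (k - 1) = tlst s f l :=
  mkpath2 G s f q lo (lo + c - 1) k h.stick (fun i _ _ => h.cyc.adj i)
    (fun i j _ h1 h2 => h.cyc.inj i j h1 (by omega)) (fun i t _ _ h1 h2 => h.dis i t h1 h2)
    l hl hj hk

/-- The list `l ++ x :: m` describes a lollipop with stick `l` and cycle `x :: m`. -/
lemma CS.short (h : CS G s f q c) (lo : ℤ) (l : List TS) (x : TS) (m : List TS)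
    (hl : tok q lo (lo + c - 1) (q + c) (l ++ x :: m)) (hj : tchn G.Adj s f (l ++ x :: m))
    (hc : G.Adj (tlst s f (l ++ x :: m)) (tv s f x.1 x.2.1)) : q ≤ ttot l := by
  have h0 := ttot_nonneg l
  have h4 := hl.2.2
  have h5 := slen_pos x.2
  have h6 := ttot_nonneg m
  have hx : tin q lo (lo + c - 1) x := (tinw_iff _ _ _ _).1 hl.1 x (by simp)
  rw [ttot_append] at h4
  simp only [ttot] at h4
  rw [h.tot] at hl h4
  obtain ⟨h1, -, h3⟩ := h.mk2 lo _ _ hl hj (by omega)
  refine h.min _ _ ⟨h1, h0, by omega, ?_⟩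
  have := tpath_append s f lo l (x :: m) 0 le_rfl
  rw [add_zero, tpath_head s f x m hx 0 le_rfl h5] at this
  rw [h3, this]
  simpa [sat] using hc

lemma CS.surj (h : CS G s f q c) (lo : ℤ) (w : V) :
    InQ s q w ∨ ∃ i, lo ≤ i ∧ i < lo + c ∧ f i = w := by
  have h1 : IsP (fun _ _ => True) (fun i => if i < q then s i else f (lo + (i - q))) (ord V) := by
    refine ⟨fun _ _ _ => trivial, fun i j i0 hij j1 => ?_⟩
    have := h.tot
    simp only
    split_ifs with a b b
    · exact h.stick.2 i j i0 hij b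
    · exact (h.dis _ _ i0 a).symm
    · omega
    · exact h.cyc.inj _ _ (by omega) (by omega)
  obtain ⟨i, i0, i1, e⟩ := h1.surj_univ w
  have := h.tot
  split_ifs at e with a
  · exact Or.inl ⟨i, i0, a, e⟩
  · exact Or.inr ⟨_, by omega, by omega, e⟩

lemma CS.notQ (h : CS G s f q c) (i : ℤ) : ¬ InQ s q (f i) :=
  fun ⟨t, t0, t1, e⟩ => h.dis i t t0 t1 e.symm

lemma CS.per (h : CS G s f q c) (i : ℤ) : f (i + c) = f i := h.cyc.per i

lemma CS.ne (h : CS G s f q c) {i j : ℤ} (h1 : i ≠ j) (h2 : i < j + c) (h3 : j < i + c) :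
    f i ≠ f j := fun e => h1 (h.cyc.eq h2 h3 e)

lemma CS.revC (h : CS G s f q c) : CS G s (fun i => f (-i)) q c :=
  ⟨h.stick, h.cyc.rev (fun _ _ a => a.symm), fun _ => h.dis _, h.tot, h.q2, h.c0, h.min⟩

lemma CS.revS (h : CS G s f q c) : CS G (fun t => s (q - 1 - t)) f q c := by
  refine ⟨⟨fun t t0 t1 => ?_, fun t u t0 t1 t2 => ?_⟩, h.cyc,
    fun i t t0 t1 => h.dis i _ (by omega) (by omega), h.tot, h.q2, h.c0, h.min⟩
  · have := h.stick.1 (q - 1 - (t + 1)) (by omega) (by omega)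
    rw [show q - 1 - (t + 1) + 1 = q - 1 - t by ring] at this
    exact this.symm
  · exact (h.stick.2 _ _ (by omega) (by omega) (by omega)).symm

omit [Fintype V] in
lemma inQ_rev {w : V} : InQ (fun t => s (q - 1 - t)) q w ↔ InQ s q w := by
  constructor
  · rintro ⟨t, t0, t1, e⟩
    exact ⟨q - 1 - t, by omega, by omega, e⟩
  · rintro ⟨t, t0, t1, e⟩
    exact ⟨q - 1 - t, by omega, by omega, by simpa using e⟩

/-- Another Hamilton path of the stick. -/
lemma CS.restick (h : CS G s f q c) (l : List (ℤ × ℤ)) (hl : ok 0 (q - 1) q l)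
    (hj : chn G.Adj s l) :
    ∃ s', CS G s' f q c ∧ s' 0 = s (fst l) ∧ s' (q - 1) = s (lst l) := by
  have hq := h.q2
  obtain ⟨a, b, e, g⟩ := mkpath G.Adj s 0 (q - 1) q h.stick.steps h.stick.injs l hl hj (by omega)
  exact ⟨_, ⟨a, h.cyc, fun i t t0 t1 => h.dis i _ (g t t0 t1).1
    (by have := (g t t0 t1).2; omega), h.tot, h.q2, h.c0, h.min⟩, b, e⟩

lemma CS.inQ_iff {s' : ℤ → V} (h : CS G s f q c) (h' : CS G s' f q c) (w : V) :
    InQ s' q w ↔ InQ s q w := by
  constructor
  · intro a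
    rcases h.surj 0 w with b | ⟨i, -, -, rfl⟩
    exacts [b, absurd a (h'.notQ i)]
  · intro a
    rcases h'.surj 0 w with b | ⟨i, -, -, rfl⟩
    exacts [b, absurd a (h.notQ i)]

lemma CS.newStick (h : CS G s f q c) (lo : ℤ) (y x : TS) (m : List TS) (hy : slen y.2 = q)
    (hl : tok q lo (lo + c - 1) (q + c) (y :: x :: m)) (hj : tchn G.Adj s f (y :: x :: m))
    (hc : G.Adj (tlst s f (x :: m)) (tv s f x.1 x.2.1)) :
    Stick G (fun t => tv s f y.1 (sat y.2 t)) q := by
  have hq := h.q2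
  have hc0 := h.c0
  obtain ⟨h1, -, h3⟩ := h.mk2 lo _ _ hl hj (by omega)
  set P := tpath s f lo (y :: x :: m) with hP
  have e1 : ∀ t, 0 ≤ t → t < q → P t = tv s f y.1 (sat y.2 t) := fun t t0 t1 =>
    tpath_head s f y _ hl.1.1 t t0 (by omega)
  have e2 : P q = tv s f x.1 x.2.1 := by
    have := tpath_append s f lo [y] (x :: m) 0 le_rfl
    rw [tpath_head s f x m hl.1.2.1 0 le_rfl (slen_pos _)] at this
    simp only [ttot, add_zero, hy, List.cons_append, List.nil_append] at this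
    rw [hP, this]; simp [sat]
  have h4 : IsP G.Adj (fun i => P (i + q)) c :=
    ⟨fun i i0 i1 => by
      have := h1.1 (i + q) (by omega) (by omega)
      rwa [show i + q + 1 = i + 1 + q by ring] at this,
     fun i j i0 i1 i2 => h1.2 _ _ (by omega) (by omega) (by omega)⟩
  have h5 := h4.cyc hc0 (by
    simp only [zero_add, e2]
    rw [show c - 1 + q = q + c - 1 by ring, h3]
    exact hc)
  refine ⟨_, c, ⟨fun t t0 t1 => ?_, fun t u t0 t1 t2 => ?_⟩, h5, fun i t t0 t1 => ?_, h.tot, hq,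
    hc0, h.min⟩
  · simp only
    rw [← e1 t t0 (by omega), ← e1 (t + 1) (by omega) t1]
    exact h1.1 t t0 (by omega)
  · simp only
    rw [← e1 t t0 (by omega), ← e1 u (by omega) t2]
    exact h1.2 t u t0 t1 (by omega)
  · show _
    rw [← e1 t t0 t1]
    have := Int.emod_nonneg i hc0.ne'
    have := Int.emod_lt_of_pos i hc0
    exact (h1.2 t _ t0 (by omega) (by omega)).symm

lemma Stick.rev (h : Stick G s q) : Stick G (fun t => s (q - 1 - t)) q := by
  obtain ⟨f, c, h⟩ := h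
  exact ⟨f, c, h.revS⟩

/-- The arc `a, ..., a + q - 1` of the cycle is a stick; its last vertex is joined to the first
vertex of the new cycle `x :: m`. -/
lemma CS.stick_up (h : CS G s f q c) (lo a : ℤ) (x : TS) (m : List TS)
    (hl : tok q lo (lo + c - 1) (q + c) ((false, a, a + q - 1) :: x :: m))
    (hj : tchn G.Adj s f ((false, a, a + q - 1) :: x :: m))
    (hc : G.Adj (tlst s f (x :: m)) (tv s f x.1 x.2.1)) : Stick G (fun t => f (a + t)) q := by
  have hq := h.q2
  have := h.newStick lo _ x m (by simp only [slen]; omega) hl hj hc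
  simp only [tv, sat] at this
  rwa [show (fun t => f (if a ≤ a + q - 1 then a + t else a - t)) = fun t => f (a + t) by
    funext t; rw [if_pos (by omega)]] at this

/-- The same with the first vertex of the arc joined to the first vertex of the new cycle. -/
lemma CS.stick_dn (h : CS G s f q c) (lo a : ℤ) (x : TS) (m : List TS)
    (hl : tok q lo (lo + c - 1) (q + c) ((false, a + q - 1, a) :: x :: m))
    (hj : tchn G.Adj s f ((false, a + q - 1, a) :: x :: m))
    (hc : G.Adj (tlst s f (x :: m)) (tv s f x.1 x.2.1)) : Stick G (fun t => f (a + t)) q := by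
  have hq := h.q2
  have := (h.newStick lo _ x m (by simp only [slen]; omega) hl hj hc).rev
  simp only [tv, sat] at this
  rwa [show (fun t => f (if a + q - 1 ≤ a then a + q - 1 + (q - 1 - t)
      else a + q - 1 - (q - 1 - t))) = fun t => f (a + t) by
    funext t; rw [if_neg (by omega)]; congr 1; ring] at this

/-- The stick joins the positions `k` and `l` of the cycle. -/
def Conn (G : SimpleGraph V) (s f : ℤ → V) (q k l : ℤ) : Prop :=
  ∃ a b, ((a = 0 ∧ b = q - 1) ∨ (a = q - 1 ∧ b = 0)) ∧ G.Adj (f k) (s a) ∧ G.Adj (s b) (f l)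

omit [Fintype V] in
lemma Conn.symm {k l : ℤ} (h : Conn G s f q k l) : Conn G s f q l k := by
  obtain ⟨a, b, h1, h2, h3⟩ := h
  exact ⟨b, a, by omega, h3.symm, h2.symm⟩

omit [Fintype V] in
lemma conn_of {k l : ℤ} (h1 : G.Adj (s 0) (f k)) (h2 : G.Adj (s (q - 1)) (f l)) :
    Conn G s f q k l := ⟨0, q - 1, Or.inl ⟨rfl, rfl⟩, h1.symm, h2⟩

lemma CS.gap (h : CS G s f q c) {i j : ℤ} (hc : Conn G s f q i j) (h1 : i < j) (h2 : j < i + c) :
    q ≤ j - i - 1 := by
  obtain ⟨a, b, h3, h4, h5⟩ := hc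
  have hq := h.q2
  by_cases e : j = i + 1
  · have := h.short j [] (false, j, i + c) [(true, a, b)]
      (by simp only [tok, tinw, tin, tdisA, tdis1, tdis, ttot, slen, List.nil_append, and_true,
        true_and]; omega)
      ⟨by simpa only [tv, h.per] using h4, trivial⟩ h5
    simp only [ttot] at this
    omega
  · have := h.short (i + 1) [(false, i + 1, j - 1)] (false, j, i + c) [(true, a, b)]
      (by simp only [tok, tinw, tin, tdisA, tdis1, tdis, ttot, slen, List.nil_append,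
        List.cons_append, and_true, true_and]; omega)
      ⟨by simpa only [tv, sub_add_cancel] using h.cyc.adj (j - 1),
        by simpa only [tv, h.per] using h4, trivial⟩ h5
    simp only [ttot, slen] at this
    omega

lemma CS.nocons (h : CS G s f q c) (i : ℤ) (h1 : G.Adj (s 0) (f i))
    (h2 : G.Adj (s 0) (f (i + 1))) : False := by
  have hq := h.q2
  have hc := h.c0
  have := h.short (i + 1) [(true, q - 1, 1)] (true, 0, 0) [(false, i + 1, i + c)]
    (by simp only [tok, tinw, tin, tdisA, tdis1, tdis, ttot, slen, List.nil_append,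
      List.cons_append, and_true, true_and]; omega)
    ⟨(h.stick.1 0 le_rfl (by omega)).symm, h2, trivial⟩
    (by simpa only [tlst, tv, h.per, List.cons_append, List.nil_append] using h1.symm)
  simp only [ttot, slen] at this
  omega

/-- All neighbours of the stick outside it are among `u1`, `u2`. -/
def S2 (G : SimpleGraph V) (s : ℤ → V) (q : ℤ) (u1 u2 : V) : Prop :=
  ∀ t w, 0 ≤ t → t < q → G.Adj (s t) w → InQ s q w ∨ w = u1 ∨ w = u2

/-- The sporadic case on eleven vertices. -/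
def S11 (G : SimpleGraph V) (s : ℤ → V) (q d : ℤ) (u1 u2 : V) : Prop :=
  q = 3 ∧ d = 3 ∧ ord V = 11 ∧ (∀ w, G.Adj (s 0) w → w = s 1 ∨ w = u1 ∨ w = u2) ∧
    ∀ w, G.Adj (s 2) w → w = s 1 ∨ w = u1 ∨ w = u2

/-- All vertices of the stick have the same `d - q + 1 ≥ 3` neighbours outside it. -/
def Kh (G : SimpleGraph V) (s : ℤ → V) (q d : ℤ) : Prop :=
  ∃ X : Finset V, 3 ≤ X.card ∧ d = q - 1 + X.card ∧ (∀ x ∈ X, ¬ InQ s q x) ∧
    (∀ t, 0 ≤ t → t < q → ∀ x ∈ X, G.Adj (s t) x) ∧
    ∀ t w, 0 ≤ t → t < q → G.Adj (s t) w → InQ s q w ∨ w ∈ X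

/-- The ends of the stick have two different neighbours outside it. -/
def Lk (G : SimpleGraph V) (s : ℤ → V) (q : ℤ) (u1 u2 : V) : Prop :=
  u1 ≠ u2 ∧ ¬ InQ s q u1 ∧ ¬ InQ s q u2 ∧ G.Adj (s 0) u1 ∧ G.Adj (s (q - 1)) u2

/-- The stick as a finite set. -/
noncomputable def QQ (s : ℤ → V) (q : ℤ) : Finset V := (Finset.Ico 0 q).image s

omit [Fintype V] in
lemma mem_QQ {w : V} : w ∈ QQ s q ↔ InQ s q w := by
  simp [QQ, InQ, and_assoc]

omit [Fintype V] in
lemma card_QQ (h : 0 ≤ q) : ((QQ s q).card : ℤ) ≤ q := by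
  have : (QQ s q).card ≤ (Finset.Ico 0 q).card := Finset.card_image_le
  rw [Int.card_Ico] at this
  omega

/-- In the case `S2` with `d = q + 1` every vertex of the stick is joined to everything. -/
lemma S2.full (hx : Ctx G d) {u1 u2 : V} (h : S2 G s q u1 u2) (hd : q + 1 ≤ d) (t : ℤ)
    (t0 : 0 ≤ t) (t1 : t < q) (w : V) (hw : InQ s q w ∨ w = u1 ∨ w = u2) (hne : w ≠ s t) :
    G.Adj (s t) w := by
  by_contra hn
  have h1 := hx.deg_le (s t) (((insert u1 (insert u2 (QQ s q))).erase (s t)).erase w) (by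
    intro x a
    simp only [Finset.mem_erase, Finset.mem_insert, mem_QQ]
    refine ⟨fun e => hn (e ▸ a), a.ne', ?_⟩
    have := h t x t0 t1 a
    tauto)
  have m1 : s t ∈ insert u1 (insert u2 (QQ s q)) := by
    simp only [Finset.mem_insert, mem_QQ]; exact Or.inr (Or.inr ⟨t, t0, t1, rfl⟩)
  have m2 : w ∈ (insert u1 (insert u2 (QQ s q))).erase (s t) := by
    simp only [Finset.mem_erase, Finset.mem_insert, mem_QQ]; tauto
  rw [Finset.card_erase_of_mem m2, Finset.card_erase_of_mem m1] at h1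
  have := Finset.card_insert_le u1 (insert u2 (QQ s q))
  have := Finset.card_insert_le u2 (QQ s q)
  have := card_QQ (s := s) (q := q) (by omega)
  have := Finset.card_pos.2 ⟨_, m2⟩
  rw [Finset.card_erase_of_mem m1] at this
  omega

lemma S2.deg_le (hx : Ctx G d) {u1 u2 : V} (h : S2 G s q u1 u2) (hq : 0 < q) : d ≤ q + 1 := by
  have h1 := hx.deg_le (s 0) ((insert u1 (insert u2 (QQ s q))).erase (s 0)) (by
    intro x a
    simp only [Finset.mem_erase, Finset.mem_insert, mem_QQ]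
    refine ⟨a.ne', ?_⟩
    have := h 0 x le_rfl hq a
    tauto)
  have m1 : s 0 ∈ insert u1 (insert u2 (QQ s q)) := by
    simp only [Finset.mem_insert, mem_QQ]; exact Or.inr (Or.inr ⟨0, le_rfl, hq, rfl⟩)
  rw [Finset.card_erase_of_mem m1] at h1
  have := Finset.card_insert_le u1 (insert u2 (QQ s q))
  have := Finset.card_insert_le u2 (QQ s q)
  have := card_QQ (s := s) (q := q) (by omega)
  omega

end Pool.Agent.P.MP_422cad_co
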