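import Pool.Agent.P.MP_422cad_co.CS

set_option autoImplicit false

namespace Pool.Agent.P.MP_422cad_co

open SimpleGraph Classical

variable {V : Type} [Fintype V] {G : SimpleGraph V} {d : ℤ}

/-- The vertices of the cycle of a lollipop other than the first one. -/
def InC (p : ℤ → V) (q : ℤ) (w : V) : Prop := ∃ t, q < t ∧ t < ord V ∧ p t = w

lemma cb_tri {p : ℤ → V} (hp : IsP G.Adj p (ord V)) (q : ℤ) (w : V) :
    InQ p q w ∨ w = p q ∨ InC p q w := by
  obtain ⟨t, t0, t1, rfl⟩ := hp.surj_univ w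
  rcases lt_trichotomy t q with h | h | h
  · exact Or.inl ⟨t, t0, h, rfl⟩
  · exact Or.inr (Or.inl (by rw [h]))
  · exact Or.inr (Or.inr ⟨t, h, t1, rfl⟩)

lemma cb_QC {p : ℤ → V} (hp : IsP G.Adj p (ord V)) {q : ℤ} {w : V} (h1 : InQ p q w)
    (h2 : InC p q w) : False := by
  obtain ⟨t, t0, t1, rfl⟩ := h1
  obtain ⟨u, u0, u1, e⟩ := h2
  exact hp.2 t u t0 (by omega) u1 e.symm

lemma cb_cC {p : ℤ → V} (hp : IsP G.Adj p (ord V)) {q : ℤ} (hq : 0 ≤ q)
    (h2 : InC p q (p q)) : False := by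
  obtain ⟨u, u0, u1, e⟩ := h2
  exact hp.2 q u hq u0 u1 e.symm

lemma cb_Qc {p : ℤ → V} (hp : IsP G.Adj p (ord V)) {q : ℤ} (hq : q < ord V)
    (h2 : InQ p q (p q)) : False := by
  obtain ⟨u, u0, u1, e⟩ := h2
  exact hp.2 u q u0 u1 hq e

lemma cb_idx {R : ℤ → V} (hR : IsP G.Adj R (ord V)) (I : Finset ℤ) (W : Finset V)
    (hI : ∀ i ∈ I, 0 ≤ i ∧ i < ord V ∧ R i ∈ W) : I.card ≤ W.card :=
  Finset.card_le_card_of_injOn R (fun i hi => (hI i hi).2.2) fun i hi j hj e =>
    hR.eq (hI i hi).1 (hI i hi).2.1 (hI j hj).1 (hI j hj).2.1 e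

lemma cb_idx' {R : ℤ → V} (hR : IsP G.Adj R (ord V)) (I : Finset ℤ) (W : Finset V)
    (hI : ∀ i, 0 ≤ i → i < ord V → R i ∈ W → i ∈ I) : W.card ≤ I.card := by
  refine le_trans (Finset.card_le_card (t := I.image R) fun w hw => ?_) Finset.card_image_le
  obtain ⟨i, i0, i1, rfl⟩ := hR.surj_univ w
  exact Finset.mem_image.2 ⟨i, hI i i0 i1 hw, rfl⟩

lemma cb_rev {R : ℤ → V} (hR : IsP G.Adj R (ord V)) :
    IsP G.Adj (fun i => R (ord V - 1 - i)) (ord V) := by
  refine ⟨fun t t0 t1 => ?_, fun t u t0 t1 t2 => ?_⟩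
  · have := hR.1 (ord V - 1 - (t + 1)) (by omega) (by omega)
    rw [show ord V - 1 - (t + 1) + 1 = ord V - 1 - t by ring] at this
    exact this.symm
  · exact (hR.2 _ _ (by omega) (by omega) (by omega)).symm

lemma cb_side (hx : Ctx G d) {p : ℤ → V} {q : ℤ} (h : MinLol G p q) {R : ℤ → V}
    (hR : IsP G.Adj R (ord V)) {a b : ℤ} (a0 : 0 ≤ a) (hab0 : a ≤ b) (hab : a + d + 1 ≤ b)
    (hmid : ∀ i, a ≤ i → i ≤ b → ¬ InC p q (R i)) (hu : InC p q (R 0))
    (hN : ∀ w, G.Adj (R 0) w → ¬ InQ p q w) :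
    d ≤ ((Finset.Ico 0 a).filter fun i => InC p q (R i)).card ∨ 2 * d + 2 ≤ ord V - q := by
  have hp := h.lol.1
  set I1 := (Finset.Ico 0 a).filter fun i => InC p q (R i) with hI1
  by_cases hr : d ≤ I1.card
  · exact Or.inl hr
  right
  have a1 : a ≠ 0 := fun e => hmid 0 (by omega) (by omega) hu
  have m0 : (0 : ℤ) ∈ I1 := by
    simp only [hI1, Finset.mem_filter, Finset.mem_Ico]
    exact ⟨⟨le_rfl, by omega⟩, hu⟩
  obtain ⟨ic, -, -, hic⟩ := hR.surj_univ (p q)
  obtain ⟨ic, ic0, ic1, hic⟩ := hR.surj_univ (p q)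
  set N2 := (nbi G R (R 0)).filter fun i => b < i with hN2
  have hsub : nbi G R (R 0) ⊆ insert ic (I1.erase 0) ∪ N2 := by
    intro i hi
    have hi' := mem_nbi.1 hi
    have i0 : i ≠ 0 := by rintro rfl; exact G.irrefl hi'.2.2
    simp only [hI1, hN2, Finset.mem_union, Finset.mem_insert, Finset.mem_erase,
      Finset.mem_filter, Finset.mem_Ico, hi, true_and]
    rcases cb_tri hp q (R i) with e | e | e
    · exact absurd e (hN _ hi'.2.2)
    · exact Or.inl (Or.inl (hR.eq hi'.1 hi'.2.1 ic0 ic1 (e.trans hic.symm)))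
    · by_cases c1 : b < i
      · exact Or.inr c1
      · refine Or.inl (Or.inr ⟨i0, ⟨hi'.1, ?_⟩, e⟩)
        by_contra c2
        exact hmid i (by omega) (by omega) e
  have c1 := (Finset.card_le_card hsub).trans (Finset.card_union_le _ _)
  have c2 := Finset.card_insert_le ic (I1.erase 0)
  rw [Finset.card_erase_of_mem m0] at c2
  rw [card_nbi hR] at c1
  have c3 := hx.deg (R 0)
  have c4 := Finset.card_pos.2 ⟨_, m0⟩
  have c5 : I1.card ≤ (Finset.Ico 0 a).card := Finset.card_filter_le _ _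
  rw [Int.card_Ico] at c5
  have hne : N2.Nonempty := Finset.card_pos.1 (by omega)
  obtain ⟨m, hm, hmax⟩ := exists_max_int (fun i => i ∈ N2) (ord V)
    (fun t ht => (mem_nbi.1 (Finset.mem_filter.1 ht).1).2.1.le) hne
  have c6 : N2.card ≤ (Finset.Ioc b m).card := Finset.card_le_card fun i hi =>
    Finset.mem_Ioc.2 ⟨(Finset.mem_filter.1 hi).2, hmax i hi⟩
  rw [Int.card_Ioc] at c6
  have hm1 := mem_nbi.1 (Finset.mem_filter.1 hm).1
  have hm2 : b < m := (Finset.mem_filter.1 hm).2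
  have := h.min _ _ (hR.lol1 (ord V - 1, 0) [] (ord V - 1 - m) m
    (by simp only [ok, inw, dis, dis1, tot, slen, and_true, true_and]; omega)
    trivial (by simp only [slen, sat]; omega) hm1.2.2)
  omega

lemma cb_fin {p : ℤ → V} {q : ℤ} (h : MinLol G p q) (hq : 2 ≤ q) {R : ℤ → V}
    (hR : IsP G.Adj R (ord V)) {a : ℤ} (a0 : 0 ≤ a) (a1 : a + q < ord V) (hc : R (a + q) = p q)
    (hmid : ∀ i, a ≤ i → i ≤ a + q → ¬ InC p q (R i)) :
    ∃ p', MinLol G p' q ∧ (∀ t, q ≤ t → t < ord V → p' t = p t) ∧ p' 0 = R a := by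
  have hp := h.lol.1
  have hl := h.lt
  refine ⟨fun t => if t < q then R (a + t) else p t, ⟨⟨⟨fun t t0 t1 => ?_, fun t u t0 t1 t2 => ?_⟩,
    by omega, by omega, ?_⟩, h.min⟩, fun t t0 _ => if_neg (by omega), ?_⟩
  · simp only
    split_ifs with c1 c2 c2
    · rw [← add_assoc]; exact hR.1 _ (by omega) (by omega)
    · have e : t + 1 = q := by omega
      rw [e, ← hc, ← e, ← add_assoc]
      exact hR.1 _ (by omega) (by omega)
    · omega
    · exact hp.1 t t0 t1
  · simp only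
    split_ifs with c1 c2 c2
    · exact hR.2 _ _ (by omega) (by omega) (by omega)
    · intro e
      by_cases c3 : u = q
      · rw [c3, ← hc] at e
        exact hR.2 _ _ (by omega) (by omega) (by omega) e
      · exact hmid (a + t) (by omega) (by omega) ⟨u, by omega, t2, e.symm⟩
    · omega
    · exact hp.2 t u t0 t1 t2
  · simp only
    rw [if_neg (by omega), if_neg (by omega)]
    exact h.lol.2.2.2
  · simp only
    rw [if_pos (by omega), add_zero]

lemma cb_done {p : ℤ → V} {q : ℤ} (h : MinLol G p q) (hq : 2 ≤ q) {t : ℤ} (t0 : q < t)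
    (t1 : t < ord V) (ha : G.Adj (p 0) (p t)) : ∃ s u1 u2, Stick G s q ∧ Lk G s q u1 u2 := by
  have hp := h.lol.1
  have hl := h.lt
  have h3 : IsP G.Adj (fun i => p (i + q)) (ord V - q) :=
    ⟨fun i i0 i1 => by
      have := hp.1 (i + q) (by omega) (by omega)
      rwa [show i + q + 1 = i + 1 + q by ring] at this,
     fun i j i0 i1 i2 => hp.2 _ _ (by omega) (by omega) (by omega)⟩
  have h5 := h3.cyc (by omega) (by
    simp only [zero_add]
    rw [show ord V - q - 1 + q = ord V - 1 by ring]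
    exact h.lol.2.2.2)
  refine ⟨p, p t, p q, ⟨_, _, ⟨fun i i0 i1 => hp.1 i i0 (by omega),
    fun i j i0 i1 i2 => hp.2 i j i0 i1 (by omega)⟩, h5, fun i u u0 u1 => ?_, by ring, hq,
    by omega, h.min⟩, (hp.2 q t (by omega) t0 t1).symm, fun a => cb_QC hp a ⟨t, t0, t1, rfl⟩,
    cb_Qc hp (by omega), ha, ?_⟩
  · have := Int.emod_nonneg i (show ord V - q ≠ 0 by omega)
    have := Int.emod_lt_of_pos i (show 0 < ord V - q by omega)
    exact (hp.2 u _ u0 (by omega) (by omega)).symm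
  · have := hp.1 (q - 1) (by omega) (by omega)
    rwa [sub_add_cancel] at this

lemma exists_min_int' (P : ℤ → Prop) (N : ℤ) (hN : ∀ t, P t → N ≤ t) (h : ∃ t, P t) :
    ∃ t, P t ∧ ∀ s, P s → t ≤ s :=
  Int.exists_least_of_bdd ⟨N, hN⟩ h

theorem caseB (hx : Ctx G d) {p : ℤ → V} {q : ℤ} (h : MinLol G p q) (hq : 2 ≤ q) :
    ∃ s u1 u2, Stick G s q ∧ Lk G s q u1 u2 := by
  have hp := h.lol.1
  have hc := h.lol.2.2.2
  have hl := h.lt
  have hg := hx.g2
  by_contra hcon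
  set Z : Finset V := Finset.univ.filter fun z =>
    ∃ p', MinLol G p' q ∧ (∀ t, q ≤ t → t < ord V → p' t = p t) ∧ p' 0 = z with hZ
  have mZ : ∀ z, z ∈ Z ↔
      ∃ p', MinLol G p' q ∧ (∀ t, q ≤ t → t < ord V → p' t = p t) ∧ p' 0 = z := by
    intro z; simp only [hZ, Finset.mem_filter, Finset.mem_univ, true_and]
  have ZN : ∀ z ∈ Z, ∀ w, G.Adj z w → ¬ InC p q w := by
    rintro z hz w a ⟨t, t0, t1, rfl⟩
    obtain ⟨p', h1, h2, rfl⟩ := (mZ z).1 hz
    exact hcon (cb_done h1 hq t0 t1 (by rwa [h2 t t0.le t1]))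
  have ZQ : ∀ z ∈ Z, InQ p q z := by
    intro z hz
    obtain ⟨p', h1, h2, rfl⟩ := (mZ z).1 hz
    obtain ⟨t, t0, t1, e⟩ := hp.surj_univ (p' 0)
    refine ⟨t, t0, ?_, e⟩
    by_contra c1
    rw [← h2 t (by omega) t1] at e
    exact h1.lol.1.2 0 t le_rfl (by omega) t1 e.symm
  have Z0 : p 0 ∈ Z := (mZ _).2 ⟨p, h, fun _ _ _ => rfl, rfl⟩
  have Zd : d ≤ Z.card := by
    have h1 : (nbi G p (p 0)).card ≤ Z.card := by
      have key : ∀ s ∈ nbi G p (p 0), 1 ≤ s ∧ s ≤ q := by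
        intro s hs
        have hs' := mem_nbi.1 hs
        have s0 : s ≠ 0 := by rintro rfl; exact G.irrefl hs'.2.2
        refine ⟨by omega, ?_⟩
        by_contra c1
        exact ZN _ Z0 _ hs'.2.2 ⟨s, by omega, hs'.2.1, rfl⟩
      refine Finset.card_le_card_of_injOn (fun s => p (s - 1)) (fun s hs => ?_)
        fun s hs t ht e => ?_
      · have hs' := mem_nbi.1 hs
        have k := key s hs
        have hsig : ∀ t, s ≤ t → t < ord V → sig [(s - 1, 0), (s, ord V - 1)] t = t := by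
          intro t t0 t1
          simp only [sig, slen, sat]
          omega
        obtain ⟨r1, r2, r3⟩ := hp.re [(s - 1, 0), (s, ord V - 1)]
          (by simp only [ok, inw, dis, dis1, sdis, tot, slen, and_true]; omega)
          ⟨hs'.2.2, trivial⟩ (by omega)
        refine (mZ _).2 ⟨_, ⟨⟨r1, by omega, by omega, ?_⟩, h.min⟩, fun t t0 t1 => ?_, r2⟩
        · rw [hsig _ (by omega) (by omega), hsig _ (by omega) (by omega)]
          exact hc
        · rw [hsig _ (by omega) t1]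
      · have k1 := key s hs
        have k2 := key t ht
        have := hp.eq (by omega) (by omega) (by omega) (by omega) e
        omega
    rw [card_nbi hp] at h1
    have := hx.deg (p 0)
    omega
  have hB : ∃ t, q < t ∧ t < ord V ∧ ∃ j, 0 ≤ j ∧ j < q ∧ G.Adj (p t) (p j) := by
    obtain ⟨x, y, -, hy, ⟨j, j0, j1, rfl⟩, py, a⟩ :=
      hx.mnh.cross hx.nou (p q) (InQ p q) (x := p 0) (y := p (q + 1))
      (hp.2 0 q le_rfl (by omega) (by omega))
      (hp.2 q (q + 1) (by omega) (by omega) (by omega)).symm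
      ⟨0, le_rfl, by omega, rfl⟩ (fun a => cb_QC hp a ⟨q + 1, by omega, by omega, rfl⟩)
    rcases cb_tri hp q y with e | e | ⟨t, t0, t1, rfl⟩
    · exact absurd e py
    · exact absurd e hy
    · exact ⟨t, t0, t1, j, j0, j1, a.symm⟩
  obtain ⟨b, ⟨b1, b2, j, j0, j1, b3⟩, bmax⟩ :=
    exists_max_int _ (ord V) (fun t ht => ht.2.1.le) hB
  have b4 : b < ord V - 1 := by
    by_contra h1
    rw [show b = ord V - 1 by omega] at b3
    exact h.last j j0 j1 b3
  have hu2 : ∀ i, 0 ≤ i → i < q → ¬ G.Adj (p (b + 1)) (p i) := fun i i0 i1 a => by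
    have := bmax (b + 1) ⟨by omega, by omega, i, i0, i1, a⟩
    omega
  have hcount := h.count hq b j b1 b4 j0 j1 b3 hu2 ∅ (by simp)
  have d1 := hx.deg (p (q + 1))
  have d2 := hx.deg (p (b + 1))
  simp only [Finset.card_empty] at hcount
  have hy : p j ∉ Z := fun a => ZN _ a _ b3.symm ⟨b, b1, b2, rfl⟩
  have hna : ¬ G.Adj (p (q + 1)) (p (b + 1)) := fun a => by
    have := h.min _ _ (hp.lol1 (0, q) [(ord V - 1, b + 1), (q + 1, b)] j j
      (by simp only [ok, inw, dis, dis1, sdis, tot, slen, and_true]; omega)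
      ⟨hc.symm, a.symm, trivial⟩ (by simp only [slen, sat]; omega) b3)
    omega
  obtain ⟨R, hR, R0, R1⟩ := hx.mnh.mx _ _ (hp.2 (q + 1) (b + 1) (by omega) (by omega) (by omega))
    hna
  have C0 : InC p q (R 0) := ⟨q + 1, by omega, by omega, R0.symm⟩
  have C1 : InC p q (R (ord V - 1)) := ⟨b + 1, by omega, by omega, R1.symm⟩
  have N0 : ∀ w, G.Adj (R 0) w → ¬ InQ p q w := by
    rintro w a ⟨t, t0, t1, rfl⟩
    rw [R0] at a
    exact h.u1 t t0 t1 a
  have N1 : ∀ w, G.Adj (R (ord V - 1)) w → ¬ InQ p q w := by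
    rintro w a ⟨t, t0, t1, rfl⟩
    rw [R1] at a
    exact hu2 t t0 t1 a
  have cQ := card_QQ (s := p) (q := q) (by omega)
  have ZQ' : Z ⊆ QQ p q := fun z hz => mem_QQ.2 (ZQ z hz)
  have yQ : p j ∈ QQ p q := mem_QQ.2 ⟨j, j0, j1, rfl⟩
  have Zq : (Z.card : ℤ) ≤ q - 1 := by
    have h1 : Z ⊆ (QQ p q).erase (p j) := fun z hz =>
      Finset.mem_erase.2 ⟨fun e => hy (e ▸ hz), ZQ' hz⟩
    have h2 := Finset.card_le_card h1
    rw [Finset.card_erase_of_mem yQ] at h2
    have := Finset.card_pos.2 ⟨_, yQ⟩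
    omega
  set B : Finset V := insert (p q) (QQ p q \ Z) with hBdef
  have cB0 := Finset.card_sdiff_add_card_eq_card ZQ'
  have cB := Finset.card_insert_le (p q) (QQ p q \ Z)
  rw [← hBdef] at cB
  have inB : ∀ w, ¬ InC p q w → w ∉ Z → w ∈ B := by
    intro w h1 h2
    rcases cb_tri hp q w with e | e | e
    · exact Finset.mem_insert_of_mem (Finset.mem_sdiff.2 ⟨mem_QQ.2 e, h2⟩)
    · exact Finset.mem_insert.2 (Or.inl e)
    · exact absurd e h1
  have hex : ∃ i, 0 ≤ i ∧ i < ord V ∧ R i ∈ Z := by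
    obtain ⟨i, i0, i1, e⟩ := hR.surj_univ (p 0)
    exact ⟨i, i0, i1, e ▸ Z0⟩
  obtain ⟨fi, ⟨f0, f1, f2⟩, fmin⟩ := exists_min_int' _ 0 (fun t ht => ht.1) hex
  obtain ⟨la, ⟨l0, l1, l2⟩, lmax⟩ := exists_max_int _ (ord V) (fun t ht => ht.2.1.le) hex
  have ZC : ∀ z ∈ Z, ¬ InC p q z := fun z hz => cb_QC hp (ZQ z hz)
  have f3 : fi ≠ 0 := fun e => ZC _ f2 (e ▸ C0)
  have l3 : la ≠ ord V - 1 := fun e => ZC _ l2 (e ▸ C1)
  have fl := fmin la ⟨l0, l1, l2⟩
  have up : ∀ i, 0 ≤ i → i + 1 < ord V → R i ∈ Z → ¬ InC p q (R (i + 1)) :=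
    fun i i0 i1 a => ZN _ a _ (hR.1 i i0 i1)
  have dn : ∀ i, 1 ≤ i → i < ord V → R i ∈ Z → ¬ InC p q (R (i - 1)) := fun i i0 i1 a =>
    ZN _ a _ (by
      have := hR.1 (i - 1) (by omega) (by omega)
      rw [sub_add_cancel] at this
      exact this.symm)
  have Ba : R (fi - 1) ∈ B := inB _ (dn fi (by omega) f1 f2) fun a => by
    have := fmin (fi - 1) ⟨by omega, by omega, a⟩
    omega
  have Bb : R (la + 1) ∈ B := inB _ (up la l0 (by omega) l2) fun a => by
    have := lmax (la + 1) ⟨by omega, by omega, a⟩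
    omega
  have hmid : ∀ i, fi - 1 ≤ i → i ≤ la + 1 → ¬ InC p q (R i) := by
    intro k k0 k1 hk
    have e1 : k ≠ fi - 1 := fun e => dn fi (by omega) f1 f2 (e ▸ hk)
    have e2 : k ≠ la + 1 := fun e => up la l0 (by omega) l2 (e ▸ hk)
    have e3 : k ≠ fi := fun e => ZC _ f2 (e ▸ hk)
    have e4 : k ≠ la := fun e => ZC _ l2 (e ▸ hk)
    obtain ⟨k1, ⟨x0, x1, x2⟩, xmax⟩ := exists_max_int (fun i => fi ≤ i ∧ i < k ∧ R i ∈ Z) k
      (fun t ht => ht.2.1.le) ⟨fi, le_rfl, by omega, f2⟩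
    obtain ⟨k2, ⟨y0, y1, y2⟩, ymin⟩ := exists_min_int' (fun i => k < i ∧ i ≤ la ∧ R i ∈ Z) k
      (fun t ht => ht.1.le) ⟨la, by omega, le_rfl, l2⟩
    have x3 := up k1 (by omega) (by omega) x2
    have y3 := dn k2 (by omega) (by omega) y2
    have x4 : k1 + 1 ≠ k := fun e => x3 (e ▸ hk)
    have y4 : k2 - 1 ≠ k := fun e => y3 (e ▸ hk)
    have x5 : R (k1 + 1) ∈ B := inB _ x3 fun a => by
      have := xmax (k1 + 1) ⟨by omega, by omega, a⟩
      omega
    have y5 : R (k2 - 1) ∈ B := inB _ y3 fun a => by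
      have := ymin (k2 - 1) ⟨by omega, by omega, a⟩
      omega
    have h4 := cb_idx hR {fi - 1, k1 + 1, k2 - 1, la + 1} B (by
      intro i hi
      simp only [Finset.mem_insert, Finset.mem_singleton] at hi
      rcases hi with rfl | rfl | rfl | rfl
      exacts [⟨by omega, by omega, Ba⟩, ⟨by omega, by omega, x5⟩, ⟨by omega, by omega, y5⟩,
        ⟨by omega, by omega, Bb⟩])
    rw [Finset.card_insert_of_notMem (by simp; omega), Finset.card_insert_of_notMem
      (by simp; omega), Finset.card_pair (by omega)] at h4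
    omega
  have hlen : (Z.card : ℤ) ≤ la - fi + 1 := by
    have := cb_idx' hR (Finset.Icc fi la) Z fun i i0 i1 a =>
      Finset.mem_Icc.2 ⟨fmin i ⟨i0, i1, a⟩, lmax i ⟨i0, i1, a⟩⟩
    rw [Int.card_Icc] at this
    omega
  have hmid' : ∀ i, ord V - 1 - (la + 1) ≤ i → i ≤ ord V - 1 - (fi - 1) →
      ¬ InC p q (R (ord V - 1 - i)) := fun i i0 i1 => hmid _ (by omega) (by omega)
  have s1 := cb_side hx h hR (a := fi - 1) (b := la + 1) (by omega) (by omega) (by omega)
    hmid C0 N0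
  have s2 := cb_side hx h (cb_rev hR) (a := ord V - 1 - (la + 1)) (b := ord V - 1 - (fi - 1))
    (by omega) (by omega) (by omega) hmid' (by simpa using C1) (by simpa using N1)
  set I1 := (Finset.Ico 0 (fi - 1)).filter fun i => InC p q (R i) with hI1
  set I2 := (Finset.Ico 0 (ord V - 1 - (la + 1))).filter
    fun i => InC p q (R (ord V - 1 - i)) with hI2
  have hsum : (I1.card : ℤ) + I2.card ≤ ord V - q - 1 := by
    have h1 := cb_idx hR (I1 ∪ I2.image fun i => ord V - 1 - i)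
      ((Finset.Ioo q (ord V)).image p) (by
        intro i hi
        simp only [hI1, hI2, Finset.mem_union, Finset.mem_image, Finset.mem_filter,
          Finset.mem_Ico, Finset.mem_Ioo] at hi ⊢
        rcases hi with ⟨⟨a1, a2⟩, t, t0, t1, e⟩ | ⟨i, ⟨⟨a1, a2⟩, t, t0, t1, e⟩, rfl⟩
        · exact ⟨a1, by omega, t, ⟨t0, t1⟩, e⟩
        · exact ⟨by omega, by omega, t, ⟨t0, t1⟩, e⟩)
    rw [Finset.card_union_of_disjoint, Finset.card_image_of_injective _
      (fun i j e => by simpa using e)] at h1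
    · have h2 : ((Finset.Ioo q (ord V)).image p).card ≤ (Finset.Ioo q (ord V)).card :=
        Finset.card_image_le
      rw [Int.card_Ioo] at h2
      omega
    · rw [Finset.disjoint_left]
      intro i hi hi'
      simp only [hI1, hI2, Finset.mem_image, Finset.mem_filter, Finset.mem_Ico] at hi hi'
      obtain ⟨i', ⟨⟨a1, a2⟩, -⟩, rfl⟩ := hi'
      omega
  have hqd : q ≤ d + 1 := by omega
  have yB : p j ∈ QQ p q \ Z := Finset.mem_sdiff.2 ⟨yQ, hy⟩
  have Bs : ∀ w ∈ B, w = p q ∨ w = p j := by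
    intro w hw
    rcases Finset.mem_insert.1 hw with e | e
    · exact Or.inl e
    · exact Or.inr (Finset.card_le_one.1 (by omega) _ e _ yB)
  have hne : R (fi - 1) ≠ R (la + 1) := hR.2 _ _ (by omega) (by omega) (by omega)
  have hlen' : la - fi + 1 ≤ Z.card := by
    have := cb_idx hR (Finset.Icc fi la) Z (by
      intro i hi
      rw [Finset.mem_Icc] at hi
      refine ⟨by omega, by omega, ?_⟩
      by_contra a
      have n1 : R (fi - 1) ≠ R i := hR.2 _ _ (by omega) (by omega) (by omega)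
      have n2 : R i ≠ R (la + 1) := hR.2 _ _ (by omega) (by omega) (by omega)
      rcases Bs _ (inB _ (hmid i (by omega) (by omega)) a) with e | e <;>
        rcases Bs _ Ba with e1 | e1 <;> rcases Bs _ Bb with e2 | e2 <;>
        first
          | exact n1 (e1.trans e.symm)
          | exact n2 (e.trans e2.symm)
          | exact hne (e1.trans e2.symm))
    rw [Int.card_Icc] at this
    omega
  have hqq : la + 1 = fi - 1 + q := by omega
  rcases Bs _ Ba with e1 | e1 <;> rcases Bs _ Bb with e2 | e2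
  · exact hne (e1.trans e2.symm)
  · obtain ⟨p', h1, h2, h3⟩ := cb_fin h hq (cb_rev hR) (a := ord V - 1 - (la + 1)) (by omega)
      (by omega) (by rw [← e1]; congr 1; omega)
      (fun i i0 i1 => hmid' i i0 (by omega))
    refine hy ((mZ _).2 ⟨p', h1, h2, ?_⟩)
    rw [h3, ← e2]
    congr 1
    omega
  · obtain ⟨p', h1, h2, h3⟩ := cb_fin h hq hR (a := fi - 1) (by omega) (by omega)
      (by rw [← hqq, e2]) (fun i i0 i1 => hmid i i0 (by omega))
    exact hy ((mZ _).2 ⟨p', h1, h2, h3.trans e1⟩)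
  · exact hne (e1.trans e2.symm)

end Pool.Agent.P.MP_422cad_co
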