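import Pool.Agent.P.MP_422cad_co.Sets

set_option autoImplicit false

namespace Pool.Agent.P.MP_422cad_co

open SimpleGraph Classical

variable {V : Type} [Fintype V]

/-- A chord from a successor of `X` forward to a predecessor of `X`. -/
structure Ch (G : SimpleGraph V) (f : ℤ → V) (Y : Finset V) (i j : ℤ) : Prop where
  lt : i < j
  le : j ≤ i + ord V - 3
  x1 : NX G Y (f (i - 1))
  y1 : f i ∉ Y
  x2 : NX G Y (f (j + 1))
  y2 : f j ∉ Y
  adj : G.Adj (f i) (f j)

variable {G : SimpleGraph V} {f : ℤ → V} {v : V} {Y : Finset V} {ν : V ≃ V} {d : ℤ}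

lemma St.ch_noY (h : St G f v Y ν d) {i j : ℤ} (c : Ch G f Y i j)
    (hu : IsU G Y (f (i - 1)) ∨ IsU G Y (f (j + 1))) (s : ℤ) (h1 : i ≤ s) (h2 : s ≤ j) :
    f s ∉ Y := by
  intro hs
  have := c.lt
  have := c.le
  have n1 : s ≠ i := by rintro rfl; exact c.y1 hs
  have n2 : s ≠ j := by rintro rfl; exact c.y2 hs
  have hx := (h.hop.nbr s hs).1
  rcases hu with hu | hu
  · refine h.hop.toHop.seg h.n2 i [(j + 1, i + ord V - 2), (s, j), (i, s - 1)]
      (by simp only [ok, inw, dis, dis1, sdis, tot, slen, and_true]; omega)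
      ⟨?_, good_of c.adj.symm c.y2 c.y1, trivial⟩ c.x2 hx
    simp only [h.per']
    exact good_u (hu _ hs).symm (h.nmem c.x1) (h.isU_adj hu)
  · refine h.hop.toHop.seg h.n2 i [(i + ord V - 2, j + 1), (s, j), (i, s - 1)]
      (by simp only [ok, inw, dis, dis1, sdis, tot, slen, and_true]; omega)
      ⟨good_u (hu _ hs).symm (h.nmem c.x2) (h.isU_adj hu), good_of c.adj.symm c.y2 c.y1,
        trivial⟩ ?_ hx
    simpa only [fst, h.per'] using c.x1

lemma St.ch_e1 (h : St G f v Y ν d) {i j s : ℤ} (c : Ch G f Y i j) (h1 : i < s) (h2 : s < j)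
    (hx : NX G Y (f s)) (hy : f (s + 1) ∉ Y) : ¬ G.Adj (f (s + 1)) (f (i - 1)) := by
  intro a
  have := c.le
  refine h.hop.toHop.seg h.n2 i [(j + 1, i + ord V - 2), (s + 1, j), (i, s)]
    (by simp only [ok, inw, dis, dis1, sdis, tot, slen, and_true]; omega)
    ⟨?_, good_of c.adj.symm c.y2 c.y1, trivial⟩ c.x2 hx
  simp only [h.per']
  exact good_of a.symm (h.nmem c.x1) hy

lemma St.ch_e2 (h : St G f v Y ν d) {i j s : ℤ} (c : Ch G f Y i j) (h1 : i < s) (h2 : s < j)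
    (hx : NX G Y (f s)) (hy : f (s + 1) ∉ Y) : ¬ G.Adj (f (s + 1)) (f (j + 1)) := by
  intro a
  have := c.le
  refine h.hop.toHop.seg h.n2 i [(i + ord V - 2, j + 1), (s + 1, j), (i, s)]
    (by simp only [ok, inw, dis, dis1, sdis, tot, slen, and_true]; omega)
    ⟨good_of a.symm (h.nmem c.x2) hy, good_of c.adj.symm c.y2 c.y1, trivial⟩ ?_ hx
  simpa only [fst, h.per'] using c.x1

lemma St.ch_yp (h : St G f v Y ν d) {i j s t : ℤ} (c : Ch G f Y i j) (h1 : i < s) (h2 : s < j)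
    (hx : NX G Y (f s)) (hy : f (s + 1) ∉ Y) (hu : IsU G Y (f (i - 1)))
    (t1 : j + 1 < t) (t2 : t < i + ord V - 2) (ht : f t ∈ Y) :
    ¬ G.Adj (f (s + 1)) (f (t + 1)) := by
  intro a
  refine h.hop.toHop.seg h.n2 i [(s, i), (j, s + 1), (t + 1, i + ord V - 2), (t, j + 1)]
    (by simp only [ok, inw, dis, dis1, sdis, tot, slen, and_true]; omega)
    ⟨good_of c.adj c.y1 c.y2, good_of a hy (h.nmem (h.hop.nbr t ht).2), ?_, trivial⟩ hx c.x2
  simp only [h.per']
  exact good_u (hu _ ht).symm (h.nmem c.x1) (h.isU_adj hu)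

lemma St.ch_ym (h : St G f v Y ν d) {i j s t : ℤ} (c : Ch G f Y i j) (h1 : i < s) (h2 : s < j)
    (hx : NX G Y (f s)) (hy : f (s + 1) ∉ Y) (hu : IsU G Y (f (j + 1)))
    (t1 : j + 1 < t) (t2 : t < i + ord V - 2) (ht : f t ∈ Y) :
    ¬ G.Adj (f (s + 1)) (f (t - 1)) := by
  intro a
  refine h.hop.toHop.seg h.n2 i [(s, i), (j, s + 1), (t - 1, j + 1), (t, i + ord V - 2)]
    (by simp only [ok, inw, dis, dis1, sdis, tot, slen, and_true]; omega)
    ⟨good_of c.adj c.y1 c.y2, good_of a hy (h.nmem (h.hop.nbr t ht).1),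
      good_u (hu _ ht).symm (h.nmem c.x2) (h.isU_adj hu), trivial⟩ hx ?_
  simpa only [lst, h.per'] using c.x1

lemma St.ch_out (h : St G f v Y ν d) {i j : ℤ} (c : Ch G f Y i j)
    (hu : IsU G Y (f (i - 1)) ∨ IsU G Y (f (j + 1))) {y : V} (hy : y ∈ Y.erase v) :
    ∃ t, j + 1 < t ∧ t < i + ord V - 2 ∧ f t = y := by
  obtain ⟨hv, hy⟩ := Finset.mem_erase.1 hy
  obtain ⟨t, t0, t1, rfl⟩ := h.surj i hv
  refine ⟨t, ?_, ?_, rfl⟩
  · by_contra h1
    by_cases h2 : t = j + 1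
    · exact h.nmem c.x2 (h2 ▸ hy)
    · exact h.ch_noY c hu t t0 (by omega) hy
  · by_contra h1
    rw [show t = i + ord V - 2 by omega, h.per'] at hy
    exact h.nmem c.x1 hy

lemma St.ch_poor (h : St G f v Y ν d) {i j s : ℤ} (c : Ch G f Y i j)
    (hu : IsU G Y (f (i - 1)) ∨ IsU G Y (f (j + 1))) (h1 : i < s) (h2 : s < j)
    (hx : NX G Y (f s)) : Poor G Y (f (s + 1)) := by
  have hy := h.ch_noY c hu (s + 1) (by omega) (by omega)
  have hc : 0 < Y.card := Finset.card_pos.2 ⟨v, h.hop.mem⟩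
  rcases hu with hu' | hu'
  · refine poor_of_miss (insert (f (j + 1)) ((Y.erase v).image ν)) ?_ ?_
    · intro z hz
      rcases Finset.mem_insert.1 hz with rfl | hz
      · exact ⟨c.x2, h.ch_e2 c h1 h2 hx hy⟩
      · obtain ⟨y, hy', rfl⟩ := Finset.mem_image.1 hz
        obtain ⟨t, t1, t2, rfl⟩ := h.ch_out c (Or.inl hu') hy'
        have ht := (Finset.mem_erase.1 hy').2
        rw [h.nu]
        exact ⟨(h.hop.nbr t ht).2, h.ch_yp c h1 h2 hx hy hu' t1 t2 ht⟩
    · rw [Finset.card_insert_of_notMem, Finset.card_image_of_injective _ ν.injective,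
        Finset.card_erase_of_mem h.hop.mem]
      · omega
      · rw [← h.nu]
        simp only [Finset.mem_image, Equiv.apply_eq_iff_eq, exists_eq_right, Finset.mem_erase]
        exact fun a => c.y2 a.2
  · refine poor_of_miss (insert (f (i - 1)) ((Y.erase v).image ν.symm)) ?_ ?_
    · intro z hz
      rcases Finset.mem_insert.1 hz with rfl | hz
      · exact ⟨c.x1, h.ch_e1 c h1 h2 hx hy⟩
      · obtain ⟨y, hy', rfl⟩ := Finset.mem_image.1 hz
        obtain ⟨t, t1, t2, rfl⟩ := h.ch_out c (Or.inr hu') hy'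
        have ht := (Finset.mem_erase.1 hy').2
        rw [h.nus]
        exact ⟨(h.hop.nbr t ht).1, h.ch_ym c h1 h2 hx hy hu' t1 t2 ht⟩
    · rw [Finset.card_insert_of_notMem, Finset.card_image_of_injective _ ν.symm.injective,
        Finset.card_erase_of_mem h.hop.mem]
      · omega
      · rw [← h.nus]
        simp only [Finset.mem_image, Equiv.apply_eq_iff_eq, exists_eq_right, Finset.mem_erase]
        exact fun a => c.y1 a.2

/-- A neighbour in `B'` gives a chord. -/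
lemma St.ch_of (h : St G f v Y ν d) {i : ℤ} (ha : f i ∈ AA G Y ν) {b : V}
    (hb : b ∈ AA G Y ν.symm) (a : G.Adj (f i) b) : ∃ j, f j = b ∧ Ch G f Y i j := by
  obtain ⟨j, j0, j1, rfl⟩ := h.surj i (h.ne_of_nmem (mem_AA.1 hb).2)
  have n1 : j ≠ i := by rintro rfl; exact G.irrefl a
  have n2 : j ≠ i + ord V - 2 := by
    rintro rfl
    exact h.rev.aa_nx hb (by rw [h.per']; exact (h.aa_idx.1 ha).1)
  exact ⟨j, rfl, by omega, by omega, (h.aa_idx.1 ha).1, (h.aa_idx.1 ha).2, (h.bb_idx.1 hb).1,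
    (h.bb_idx.1 hb).2, a⟩

/-- Proper chords with an end next to a vertex complete to `Y`. -/
def PCh (G : SimpleGraph V) (f : ℤ → V) (Y : Finset V) (i j : ℤ) : Prop :=
  Ch G f Y i j ∧ (IsU G Y (f (i - 1)) ∨ IsU G Y (f (j + 1))) ∧ ∃ s, i < s ∧ s < j ∧ NX G Y (f s)

lemma St.pch_of_two (h : St G f v Y ν d) {i : ℤ} (ha : f i ∈ AA G Y ν)
    (h2 : (TT G Y).card + 2 ≤ (nb G (f i) ∩ AA G Y ν.symm).card) : ∃ j, PCh G f Y i j := by
  have h3 : 1 < ((nb G (f i) ∩ AA G Y ν.symm) \ (TT G Y).image ν.symm).card := by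
    have := Finset.le_card_sdiff ((TT G Y).image ν.symm) (nb G (f i) ∩ AA G Y ν.symm)
    rw [Finset.card_image_of_injective _ ν.symm.injective] at this
    omega
  obtain ⟨b1, hb1, b2, hb2, hne⟩ := Finset.one_lt_card.1 h3
  have key : ∀ b ∈ (nb G (f i) ∩ AA G Y ν.symm) \ (TT G Y).image ν.symm,
      ∃ j, f j = b ∧ Ch G f Y i j ∧ IsU G Y (f (j + 1)) ∧ ¬ NX G Y (f j) := by
    intro b hb
    simp only [Finset.mem_sdiff, Finset.mem_inter, mem_nb] at hb
    obtain ⟨j, rfl, c⟩ := h.ch_of ha hb.1.2 hb.1.1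
    refine ⟨j, rfl, c, ?_, h.rev.aa_nx hb.1.2⟩
    by_contra h4
    exact hb.2 (Finset.mem_image.2 ⟨f (j + 1), mem_TT.2 ⟨c.x2, h4⟩, by
      rw [h.nus, add_sub_cancel_right]⟩)
  obtain ⟨j1, rfl, c1, u1, n1⟩ := key b1 hb1
  obtain ⟨j2, rfl, c2, u2, n2⟩ := key b2 hb2
  have hj : j1 ≠ j2 := fun e => hne (by rw [e])
  rcases lt_or_gt_of_ne hj with hj | hj
  · have : j1 + 1 ≠ j2 := fun e => n2 (e ▸ c1.x2)
    exact ⟨j2, c2, Or.inr u2, j1 + 1, by have := c1.lt; omega, by omega, c1.x2⟩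
  · have : j2 + 1 ≠ j1 := fun e => n1 (e ▸ c2.x2)
    exact ⟨j1, c1, Or.inr u1, j2 + 1, by have := c2.lt; omega, by omega, c2.x2⟩

lemma St.poor_bb (h : St G f v Y ν d) {a : V} (ha : a ∈ AA G Y ν) (hp : Poor G Y a) :
    d + Y.card ≤ (XX G Y).card + (nb G a ∩ AA G Y ν.symm).card + (nb G a ∩ RR G Y ν).card := by
  have := h.deg_AA ha
  unfold Poor at hp
  omega

/-- The extremal chord argument. -/
lemma St.no_poor (h : St G f v Y ν d) (hy : 2 ≤ Y.card)
    (hl : (XX G Y).card + (RR G Y ν).card + (TT G Y).card + 2 ≤ d + Y.card)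
    {a : V} (ha : a ∈ AA G Y ν) : ¬ Poor G Y a := by
  intro hp
  have step : ∀ i, f i ∈ AA G Y ν → Poor G Y (f i) → ∃ j, PCh G f Y i j := by
    intro i hi hp
    apply h.pch_of_two hi
    have := h.poor_bb hi hp
    have := Finset.card_le_card (Finset.inter_subset_right (s₁ := nb G (f i)) (s₂ := RR G Y ν))
    omega
  obtain ⟨y, hy1, hy2⟩ := Finset.exists_mem_ne (by omega : 1 < Y.card) v
  obtain ⟨t, -, -, rfl⟩ := h.surj 0 hy2
  obtain ⟨i, i0, i1, rfl⟩ := h.surj t (h.ne_of_nmem (mem_AA.1 ha).2)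
  obtain ⟨i', ⟨j0, j1, j, c, hu, s, s0, s1, hs⟩, hmax⟩ := exists_max_int
    (fun i => t ≤ i ∧ i < t + (ord V - 1) ∧ ∃ j, PCh G f Y i j) (t + (ord V - 1))
    (fun _ a => a.2.1.le) ⟨i, i0, i1, step i ha hp⟩
  have hj : j < t + (ord V - 1) := by
    by_contra h1
    exact h.ch_noY c hu (t + (ord V - 1)) (by omega) (by omega) (by rwa [h.per])
  have := hmax (s + 1) ⟨by omega, by omega, step _ (h.aa_idx.2 ⟨by simpa using hs,
    h.ch_noY c hu (s + 1) (by omega) (by omega)⟩) (h.ch_poor c hu s0 s1 hs)⟩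
  omega

/-- If every vertex complete to `Y` has few non-neighbours outside `X ∪ Y` we are done. -/
lemma St.finish (h : St G f v Y ν d) (hg : ord V ≤ 3 * d + 2) (hd : 0 < d)
    (hM : ∀ u, IsU G Y u → ((MM G Y u).card : ℤ) + (XX G Y).card ≤ Y.card + d) : False := by
  have c1 := h.card_all
  have c2 := h.card_TT
  have c3 := h.d_le_x
  have c4 := h.card_AA
  have c5 : 0 < Y.card := Finset.card_pos.2 ⟨v, h.hop.mem⟩
  have hU : ∃ u, IsU G Y u := by
    by_contra h1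
    push Not at h1
    have : TT G Y = XX G Y := Finset.filter_true_of_mem (fun x _ => h1 x)
    rw [this] at c2
    nlinarith
  have hin : ∀ u r, IsU G Y u → r ≠ u → ¬ G.Adj u r → IsU G Y r := by
    intro u r hu hr hur
    have h0 : MM G Y u = ∅ := by
      by_contra h1
      obtain ⟨w, hw⟩ := Finset.nonempty_iff_ne_empty.2 h1
      obtain ⟨w1, w2, w3⟩ := mem_MM.1 hw
      have := h.deg_of_nadj hu (r := w) (fun e => w1 (e ▸ h.isU_nx hu)) w3
      have h2 : nb G w ∩ Y = ∅ := by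
        rw [Finset.eq_empty_iff_forall_notMem]
        intro z hz
        simp only [Finset.mem_inter, mem_nb] at hz
        exact w1 ⟨z, hz.2, hz.1.symm⟩
      rw [h2, Finset.card_empty] at this
      have := hM u hu
      have := h.deg w
      omega
    have h1 : NX G Y r := by
      by_contra h2
      have : r ∈ MM G Y u := mem_MM.2 ⟨h2, fun a => hur (hu r a).symm, hur⟩
      simp [h0] at this
    by_contra h2
    have := h.deg_TT (mem_TT.2 ⟨h1, h2⟩)
    have := h.deg_of_nadj hu hr hur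
    rw [h0, Finset.card_empty] at this
    have := h.deg r
    omega
  obtain ⟨u, hu⟩ := hU
  obtain ⟨r, hr, hur⟩ := h.nou u
  have hr' := hin u r hu hr hur
  obtain ⟨φ, p1, p2, p3⟩ := h.mnh.phi hr.symm hur
  have h1 : (Finset.univ \ XX G Y).image φ ⊆ (XX G Y).erase u := by
    intro z hz
    obtain ⟨s, hs, rfl⟩ := Finset.mem_image.1 hz
    simp only [Finset.mem_sdiff, mem_XX, Finset.mem_univ, true_and] at hs
    have a1 : s ≠ r := fun e => hs (e ▸ h.isU_nx hr')
    have a2 : G.Adj r s := by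
      by_contra a
      exact hs (h.isU_nx (hin r s hr' a1 a))
    have a3 : φ s ≠ u := by
      intro e
      rw [← p1, Equiv.apply_eq_iff_eq] at e
      exact a1 e
    exact Finset.mem_erase.2 ⟨a3, mem_XX.2 (h.isU_nx (hin u _ hu a3 (p3 s a2)))⟩
  have h2 := Finset.card_le_card h1
  rw [Finset.card_image_of_injective _ φ.injective,
    Finset.card_erase_of_mem (mem_XX.2 (h.isU_nx hu))] at h2
  have h3 := Finset.card_sdiff_add_card_eq_card (Finset.subset_univ (XX G Y))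
  rw [Finset.card_univ] at h3
  unfold ord at c1
  omega

lemma St.mm_sub (h : St G f v Y ν d) {u : V} (hu : IsU G Y u) {w : V} (hw : w ∈ MM G Y u) :
    w ∈ RR G Y ν ∨ (Poor G Y w ∧ (w ∈ AA G Y ν ∨ w ∈ AA G Y ν.symm)) := by
  obtain ⟨w1, w2, w3⟩ := mem_MM.1 hw
  have := h.poor_of_nadj hu (r := w) (fun e => w1 (e ▸ h.isU_nx hu)) w3
  rw [mem_RR]
  tauto

lemma St.generic (h : St G f v Y ν d) (hg : ord V ≤ 3 * d + 2) (hd : 0 < d) (hy : 2 ≤ Y.card)
    (hl : (XX G Y).card + (RR G Y ν).card + (TT G Y).card + 2 ≤ d + Y.card) : False := by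
  refine h.finish hg hd fun u hu => ?_
  have h1 : MM G Y u ⊆ RR G Y ν := by
    intro w hw
    rcases h.mm_sub hu hw with a | ⟨a, b | b⟩
    · exact a
    · exact absurd a (h.no_poor hy hl b)
    · exact absurd a (h.rev.no_poor hy (by rwa [RR_symm]) b)
  have := Finset.card_le_card h1
  have := h.d_le_x
  omega

lemma St.main0 (h : St G f v Y ν d) (hg : ord V ≤ 3 * d) : False := by
  have c1 := h.card_all
  have c2 := h.card_TT
  have c3 := h.d_le_x
  have := h.n3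
  refine h.generic (by omega) (by omega) (by omega) ?_
  have : ((TT G Y).card : ℤ) ≤ 2 * ((XX G Y).card - d) := by
    by_contra h1
    nlinarith
  omega

lemma exists_st (hM : MNH G) (hU : NoU G) (hn : 3 ≤ ord V) (hd : ∀ w, d ≤ (nb G w).card)
    (hc : NCyc G f v) : ∃ f v Y ν, St G f v Y ν d := by
  obtain ⟨f, v, Y, h⟩ := exists_maxHop hc hM.nh (by omega)
  obtain ⟨ν, h1, h2⟩ := h.cyc.nu (by omega)
  exact ⟨f, v, Y, ν, hM, hU, h, h1, h2, hd, hn⟩

theorem mnh_main (hM : MNH G) (hU : NoU G) (hn : 3 ≤ ord V) (hd : ∀ w, d ≤ (nb G w).card)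
    (hg : ord V + 2 ≤ 3 * d) : False := by
  obtain ⟨p, q, h⟩ := exists_minLol hM hU (by omega)
  by_cases hq : q < 2
  · obtain ⟨f, v, hc⟩ := h.ncyc hM hq
    obtain ⟨f, v, Y, ν, h⟩ := exists_st hM hU hn hd hc
    exact h.main0 (by omega)
  · have := h.bound hM hU (by omega) d hd
    omega

end Pool.Agent.P.MP_422cad_co
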