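import Pool.Agent.P.MP_422cad_co.Zero

set_option autoImplicit false

namespace Pool.Agent.P.MP_422cad_co

open SimpleGraph Classical

variable {V : Type} [Fintype V] {G : SimpleGraph V} {s f : ℤ → V} {q c d : ℤ}

/-- Positions of the neighbours of `w` on the cycle. -/
noncomputable def pos (G : SimpleGraph V) (f : ℤ → V) (c : ℤ) (w : V) : Finset ℤ :=
  (Finset.Ico 0 c).filter (fun k => G.Adj w (f k))

omit [Fintype V] in
lemma mem_pos {w : V} {k : ℤ} : k ∈ pos G f c w ↔ 0 ≤ k ∧ k < c ∧ G.Adj w (f k) := by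
  simp [pos, and_assoc]

lemma CS.deg_pos (hx : Ctx G d) (h : CS G s f q c) (t : ℤ) (t0 : 0 ≤ t) (t1 : t < q)
    (M : Finset V) (hM : ∀ w ∈ M, InQ s q w ∧ w ≠ s t ∧ ¬ G.Adj (s t) w) :
    d + M.card + 1 ≤ q + (pos G f c (s t)).card := by
  have h1 := hx.deg_le (s t) ((((QQ s q).erase (s t)) \ M) ∪ (pos G f c (s t)).image f) (by
    intro x a
    rcases h.surj 0 x with b | ⟨k, k0, k1, rfl⟩
    · refine Finset.mem_union_left _ (Finset.mem_sdiff.2 ⟨?_, fun m => (hM x m).2.2 a⟩)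
      exact Finset.mem_erase.2 ⟨a.ne', mem_QQ.2 b⟩
    · exact Finset.mem_union_right _ (Finset.mem_image.2 ⟨k, mem_pos.2 ⟨k0, by omega, a⟩, rfl⟩))
  have h2 := Finset.card_union_le (((QQ s q).erase (s t)) \ M) ((pos G f c (s t)).image f)
  have h3 : ((pos G f c (s t)).image f).card ≤ (pos G f c (s t)).card := Finset.card_image_le
  have h4 : M ⊆ (QQ s q).erase (s t) := fun w hw =>
    Finset.mem_erase.2 ⟨(hM w hw).2.1, mem_QQ.2 (hM w hw).1⟩
  have h5 := Finset.card_sdiff_add_card_eq_card h4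
  have h6 : s t ∈ QQ s q := mem_QQ.2 ⟨t, t0, t1, rfl⟩
  rw [Finset.card_erase_of_mem h6] at h5
  have := card_QQ (s := s) (q := q) (by omega)
  have := Finset.card_pos.2 ⟨_, h6⟩
  omega

lemma CS.win (h : CS G s f q c) (w i : ℤ) : ∃ j, w ≤ j ∧ j < w + c ∧ ∀ t, f (j + t) = f (i + t) :=
  h.cyc.win h.c0 w i

lemma CS.two_gaps (h : CS G s f q c) {i j : ℤ} (hc : Conn G s f q i j) (hne : f i ≠ f j) :
    ∃ j', f j' = f j ∧ i + q < j' ∧ j' + q < i + c := by
  obtain ⟨j', j0, j1, j2⟩ := h.win i j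
  have e : f j' = f j := by simpa using j2 0
  have n : j' ≠ i := fun x => hne (by rw [← e, x])
  have hc' : Conn G s f q i j' := by
    obtain ⟨a, b, h1, h2, h3⟩ := hc
    exact ⟨a, b, h1, h2, e ▸ h3⟩
  have hc'' : Conn G s f q j' (i + c) := by
    obtain ⟨a, b, h1, h2, h3⟩ := hc'.symm
    exact ⟨a, b, h1, h2, by rwa [h.per]⟩
  have g1 := h.gap hc' (by omega) j1
  have g2 := h.gap hc'' j1 (by omega)
  exact ⟨j', e, by omega, by omega⟩

lemma CS.arule (h : CS G s f q c) {i k k' : ℤ} (hc : Conn G s f q (i + c) k') (h1 : i + 1 ≤ k')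
    (h2 : k' < k) (h3 : k ≤ i + c) (ha : G.Adj (f (i + 1)) (f k)) : q ≤ k - k' - 1 := by
  obtain ⟨a, b, h4, h5, h6⟩ := hc
  have hq := h.q2
  by_cases e : k = k' + 1
  · have := h.short (i + 1) [] (false, k, i + c) [(true, a, b), (false, k', i + 1)]
      (by simp only [tok, tinw, tin, tdisA, tdis1, tdis, ttot, slen, List.nil_append, and_true,
        true_and]; omega) ⟨h5, h6, trivial⟩ ha
    simp only [ttot] at this
    omega
  · have := h.short (i + 1) [(false, k' + 1, k - 1)] (false, k, i + c)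
      [(true, a, b), (false, k', i + 1)]
      (by simp only [tok, tinw, tin, tdisA, tdis1, tdis, ttot, slen, List.nil_append,
        List.cons_append, and_true, true_and]; omega)
      ⟨by simpa only [tv, sub_add_cancel] using h.cyc.adj (k - 1), h5, h6, trivial⟩ ha
    simp only [ttot, slen] at this
    omega

/-- Neighbour of one of the two ends of the stick. -/
def XP (G : SimpleGraph V) (s f : ℤ → V) (q k : ℤ) : Prop :=
  G.Adj (s 0) (f k) ∨ G.Adj (s (q - 1)) (f k)

lemma CS.xp_cons (h : CS G s f q c) (hc : 2 ≤ c) (i : ℤ) (h1 : XP G s f q i)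
    (h2 : XP G s f q (i + 1)) : False := by
  have hq := h.q2
  rcases h1 with a | a <;> rcases h2 with b | b
  · exact h.nocons i a b
  · have := h.gap (conn_of a b) (by omega) (by omega); omega
  · have := h.gap (conn_of b a).symm (by omega) (by omega); omega
  · exact h.revS.nocons i (by simpa using a) (by simpa using b)

lemma CS.long_ex (h : CS G s f q c) {i j : ℤ} (ha : G.Adj (s 0) (f i))
    (hna : ¬ G.Adj (s (q - 1)) (f i)) (hb : G.Adj (s (q - 1)) (f j)) :
    ∃ k, 0 ≤ k ∧ k < c ∧ G.Adj (s 0) (f k) ∧ ¬ G.Adj (s (q - 1)) (f k) ∧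
      ∀ t, 0 < t → t ≤ q → ¬ XP G s f q (k + t) := by
  obtain ⟨j', j0, j1, j2⟩ := h.win i j
  have e : f j' = f j := by simpa using j2 0
  obtain ⟨m, ⟨m0, m1⟩, mmin⟩ := Int.exists_least_of_bdd
    (P := fun k => i ≤ k ∧ G.Adj (s (q - 1)) (f k)) ⟨i, fun _ a => a.1⟩ ⟨j', j0, e ▸ hb⟩
  have m2 := mmin j' ⟨j0, e ▸ hb⟩
  have m3 : m ≠ i := fun x => hna (x ▸ m1)
  obtain ⟨k, ⟨k0, k1, k2⟩, kmax⟩ := exists_max_int
    (fun k => i ≤ k ∧ k < m ∧ G.Adj (s 0) (f k)) m (fun _ a => a.2.1.le) ⟨i, le_rfl, by omega, ha⟩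
  have g := h.gap (conn_of k2 m1) k1 (by omega)
  obtain ⟨k', a0, a1, a2⟩ := h.win 0 k
  have e' : f k' = f k := by simpa using a2 0
  refine ⟨k', a0, by omega, e' ▸ k2, fun x => ?_, fun t t0 t1 x => ?_⟩
  · have := mmin k ⟨k0, e' ▸ x⟩; omega
  · unfold XP at x
    rw [a2] at x
    rcases x with x | x
    · have := kmax (k + t) ⟨by omega, by omega, x⟩; omega
    · have := mmin (k + t) ⟨by omega, x⟩; omega

lemma arith_cases (q c d n h i j l : ℤ) (hq : 2 ≤ q) (h0 : 0 ≤ h) (i0 : 0 ≤ i) (j0 : 0 ≤ j)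
    (e1 : q + c = n) (e2 : n ≤ 3 * d + 2) (e3 : d + 1 ≤ q + (h + i)) (e4 : d + 1 ≤ q + (h + j))
    (e5 : 2 * (h + i + j) + (q - 1) * l ≤ c) (l0 : h ≤ l) (l1 : 0 < i → h + 1 ≤ l)
    (l2 : 0 < j → h + 1 ≤ l) (l3 : 0 < i → 0 < j → h + 2 ≤ l) (h3 : 3 ≤ h + i + j)
    (e6 : 1 ≤ h + i) (e7 : 1 ≤ h + j) :
    (i = 0 ∧ j = 0 ∧ d = q - 1 + h) ∨
      (q = 2 ∧ i ≤ 1 ∧ j ≤ 1 ∧ h + i + j ≤ l ∧ c = 3 * (h + i + j)) := by
  by_cases hi : i = 0 <;> by_cases hj : j = 0
  · subst hi hj
    by_cases e : d = q - 1 + h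
    · exact Or.inl ⟨rfl, rfl, e⟩
    · have a0 : (q - 1) * h ≤ (q - 1) * l := by nlinarith
      have a1 : d ≤ q + h - 2 := by omega
      have : q = 2 := by
        by_contra a
        have a9 : 3 ≤ q := by omega
        have a2 : (q - 3) * (h - 3) ≥ 0 := mul_nonneg (by omega) (by omega)
        nlinarith
      subst this
      right; omega
  · subst hi
    have l4 := l2 (by omega)
    have a0 : (q - 1) * (h + 1) ≤ (q - 1) * l := by nlinarith
    have a1 : (q - 2) * (h - 1) ≥ 0 := mul_nonneg (by omega) (by omega)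
    have a2 : j ≤ 1 := by nlinarith
    have : j = 1 := by omega
    subst this
    have : q = 2 := by
      by_contra a
      have a9 : 3 ≤ q := by omega
      have a3 : (q - 3) * (h - 2) ≥ 0 := mul_nonneg (by omega) (by omega)
      nlinarith
    subst this
    right; omega
  · subst hj
    have l4 := l1 (by omega)
    have a0 : (q - 1) * (h + 1) ≤ (q - 1) * l := by nlinarith
    have a1 : (q - 2) * (h - 1) ≥ 0 := mul_nonneg (by omega) (by omega)
    have a2 : i ≤ 1 := by nlinarith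
    have : i = 1 := by omega
    subst this
    have : q = 2 := by
      by_contra a
      have a9 : 3 ≤ q := by omega
      have a3 : (q - 3) * (h - 2) ≥ 0 := mul_nonneg (by omega) (by omega)
      nlinarith
    subst this
    right; omega
  · have l4 := l3 (by omega) (by omega)
    have a0 : (q - 1) * (h + 2) ≤ (q - 1) * l := by nlinarith
    have a3 : (q - 2) * h ≥ 0 := mul_nonneg (by omega) h0
    have a1 : 2 * j - i ≤ 1 := by nlinarith
    have a2 : 2 * i - j ≤ 1 := by nlinarith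
    have : i = 1 := by omega
    subst this
    have : j = 1 := by omega
    subst this
    have : q = 2 := by
      by_contra a
      have a9 : 3 ≤ q := by omega
      have a3 : (q - 3) * (h - 1) ≥ 0 := mul_nonneg (by omega) (by omega)
      nlinarith
    subst this
    right; omega

lemma CS.cases (hx : Ctx G d) (h : CS G s f q c) {i0 j0 : ℤ} (ha : G.Adj (s 0) (f i0))
    (hb : G.Adj (s (q - 1)) (f j0)) (hne : f i0 ≠ f j0) :
    (∀ k, XP G s f q k → f k = f i0 ∨ f k = f j0) ∨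
    ((∀ k, G.Adj (s 0) (f k) ↔ G.Adj (s (q - 1)) (f k)) ∧ 3 ≤ (pos G f c (s 0)).card ∧
      d = q - 1 + (pos G f c (s 0)).card) ∨
    (q = 2 ∧ (∀ k l, XP G s f q k → XP G s f q l → f k ≠ f l → Conn G s f q k l) ∧
      ∀ k, XP G s f q k ∨ XP G s f q (k - 1) ∨ XP G s f q (k - 2)) := by
  have hq := h.q2
  obtain ⟨j1, -, c1, c2⟩ := h.two_gaps (conn_of ha hb) hne
  set A := pos G f c (s 0) with hA
  set B := pos G f c (s (q - 1)) with hB
  have hJ : ∀ k, k ∈ A ∪ B ↔ 0 ≤ k ∧ k < c ∧ XP G s f q k := by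
    intro k
    simp only [hA, hB, Finset.mem_union, mem_pos, XP]
    tauto
  have rep : ∀ k, ∃ k', 0 ≤ k' ∧ k' < c ∧ f k' = f k ∧ ∀ t, f (k' + t) = f (k + t) := by
    intro k
    obtain ⟨k', a0, a1, a2⟩ := h.win 0 k
    exact ⟨k', a0, by omega, by simpa using a2 0, a2⟩
  have hinj : ∀ i ∈ A ∪ B, ∀ j ∈ A ∪ B, f i = f j → i = j := by
    intro i hi j hj e
    rw [hJ] at hi hj
    exact h.cyc.eq (by omega) (by omega) e
  let Lg := (A ∪ B).filter (fun i => ∀ t, 0 < t → t ≤ q → ¬ XP G s f q (i + t))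
  obtain ⟨g1, g2⟩ := h.cyc.gap_count h.c0 (A ∪ B) (fun i => if i ∈ Lg then q else 1)
    (fun i _ => by split_ifs <;> omega) hinj (by
      intro i hi j hj t t0 t1 e
      have hj' := ((hJ j).1 hj).2.2
      have x : XP G s f q (i + t) := by unfold XP at hj' ⊢; rwa [e]
      split_ifs at t1 with m
      · exact (Finset.mem_filter.1 m).2 t t0 t1 x
      · rw [show t = 1 by omega] at x
        exact h.xp_cons (by omega) i ((hJ i).1 hi).2.2 x)
  have hsum : ∑ i ∈ A ∪ B, ((if i ∈ Lg then q else 1) + 1) =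
      2 * ((A ∪ B).card : ℤ) + (q - 1) * Lg.card := by
    have : ∀ i ∈ A ∪ B, ((if i ∈ Lg then q else 1) + 1) = 2 + (if i ∈ Lg then q - 1 else 0) := by
      intro i _; split_ifs <;> ring
    rw [Finset.sum_congr rfl this, Finset.sum_add_distrib, Finset.sum_ite_mem,
      Finset.inter_eq_right.2 (Finset.filter_subset _ _)]
    simp only [Finset.sum_const, nsmul_eq_mul]
    ring
  replace g1 := hsum ▸ g1
  replace g2 := fun e => g2 (hsum.trans e)
  by_cases h3 : (A ∪ B).card < 3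
  · left
    intro k hk
    by_contra hc
    push Not at hc
    obtain ⟨k', a0, a1, a2, -⟩ := rep k
    obtain ⟨i', b0, b1, b2, -⟩ := rep i0
    obtain ⟨j', d0, d1, d2, -⟩ := rep j0
    have : ({k', i', j'} : Finset ℤ) ⊆ A ∪ B := by
      intro x hx
      simp only [Finset.mem_insert, Finset.mem_singleton] at hx
      rw [hJ]
      rcases hx with rfl | rfl | rfl
      · exact ⟨a0, a1, by unfold XP at hk ⊢; rwa [a2]⟩
      · exact ⟨b0, b1, Or.inl (b2 ▸ ha)⟩
      · exact ⟨d0, d1, Or.inr (d2 ▸ hb)⟩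
    have h4 := Finset.card_le_card this
    rw [Finset.card_eq_three.2 ⟨k', i', j', fun e => hc.1 (by rw [← a2, ← b2, e]),
      fun e => hc.2 (by rw [← a2, ← d2, e]), fun e => hne (by rw [← b2, ← d2, e]), rfl⟩] at h4
    omega
  right
  have L1 : A ∩ B ⊆ Lg := by
    intro i hi
    obtain ⟨a, b⟩ := Finset.mem_inter.1 hi
    refine Finset.mem_filter.2 ⟨Finset.mem_union_left _ a, fun t t0 t1 x => ?_⟩
    rcases x with x | x
    · have := h.gap (conn_of x (mem_pos.1 b).2.2).symm (by omega) (by omega); omega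
    · have := h.gap (conn_of (mem_pos.1 a).2.2 x) (by omega) (by omega); omega
  have L2 : (A \ B).Nonempty → ∃ k ∈ Lg, k ∈ A \ B := by
    rintro ⟨i, hi⟩
    simp only [hA, hB, Finset.mem_sdiff, mem_pos] at hi
    obtain ⟨k, k0, k1, k2, k3, k4⟩ := h.long_ex hi.1.2.2 (fun x => hi.2 ⟨hi.1.1, hi.1.2.1, x⟩) hb
    refine ⟨k, Finset.mem_filter.2 ⟨(hJ k).2 ⟨k0, k1, Or.inl k2⟩, k4⟩, ?_⟩
    simp only [hA, hB, Finset.mem_sdiff, mem_pos]
    tauto
  have L3 : (B \ A).Nonempty → ∃ k ∈ Lg, k ∈ B \ A := by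
    rintro ⟨i, hi⟩
    simp only [hA, hB, Finset.mem_sdiff, mem_pos] at hi
    obtain ⟨k, k0, k1, k2, k3, k4⟩ := h.revS.long_ex (i := i) (j := i0) (by simpa using hi.1.2.2)
      (by simpa using fun x => hi.2 ⟨hi.1.1, hi.1.2.1, x⟩) (by simpa using ha)
    simp only [sub_zero, sub_self] at k2 k3
    refine ⟨k, Finset.mem_filter.2 ⟨(hJ k).2 ⟨k0, k1, Or.inr k2⟩, fun t t0 t1 x => k4 t t0 t1 ?_⟩,
      ?_⟩
    · simpa [XP, or_comm] using x
    · simp only [hA, hB, Finset.mem_sdiff, mem_pos]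
      tauto
  have d1 := h.deg_pos hx 0 le_rfl (by omega) ∅ (by simp)
  have d2 := h.deg_pos hx (q - 1) (by omega) (by omega) ∅ (by simp)
  rw [← hA] at d1
  rw [← hB] at d2
  have k1 := Finset.card_sdiff_add_card_inter A B
  have k2 := Finset.card_sdiff_add_card_inter B A
  rw [Finset.inter_comm B A] at k2
  have k3 := Finset.card_union_add_card_inter A B
  have k4 := Finset.card_le_card L1
  have k5 : 0 < A.card := by
    obtain ⟨i', b0, b1, b2, -⟩ := rep i0
    exact Finset.card_pos.2 ⟨i', mem_pos.2 ⟨b0, b1, b2 ▸ ha⟩⟩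
  have k6 : 0 < B.card := by
    obtain ⟨i', b0, b1, b2, -⟩ := rep j0
    exact Finset.card_pos.2 ⟨i', mem_pos.2 ⟨b0, b1, b2 ▸ hb⟩⟩
  have m1 : 0 < (A \ B).card → (A ∩ B).card + 1 ≤ Lg.card := by
    intro x
    obtain ⟨k, a, b⟩ := L2 (Finset.card_pos.1 x)
    have := Finset.card_le_card (Finset.insert_subset a L1)
    rwa [Finset.card_insert_of_notMem (by simp at b ⊢; tauto)] at this
  have m2 : 0 < (B \ A).card → (A ∩ B).card + 1 ≤ Lg.card := by
    intro x
    obtain ⟨k, a, b⟩ := L3 (Finset.card_pos.1 x)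
    have := Finset.card_le_card (Finset.insert_subset a L1)
    rwa [Finset.card_insert_of_notMem (by simp at b ⊢; tauto)] at this
  have m3 : 0 < (A \ B).card → 0 < (B \ A).card → (A ∩ B).card + 2 ≤ Lg.card := by
    intro x y
    obtain ⟨k, a, b⟩ := L2 (Finset.card_pos.1 x)
    obtain ⟨k', a', b'⟩ := L3 (Finset.card_pos.1 y)
    have := Finset.card_le_card (Finset.insert_subset a (Finset.insert_subset a' L1))
    rwa [Finset.card_insert_of_notMem (by
      simp at b b' ⊢; exact ⟨fun e => b.2 (e ▸ b'.1), fun _ => b.2⟩),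
      Finset.card_insert_of_notMem (by simp at b' ⊢; tauto)] at this
  rcases arith_cases q c d (ord V) (A ∩ B).card (A \ B).card (B \ A).card Lg.card hq (by omega)
    (by omega) (by omega) h.tot hx.g2 (by simp at d1; omega) (by simp at d2; omega)
    (by rw [show ((A ∩ B).card : ℤ) + (A \ B).card + (B \ A).card = (A ∪ B).card by omega]
        exact g1) (by omega) (by omega) (by omega) (by omega) (by omega) (by omega) (by omega)
    with ⟨r1, r2, r3⟩ | ⟨r1, r2, r3, r4, r5⟩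
  · left
    have s1 : A ⊆ B := Finset.sdiff_eq_empty_iff_subset.1 (Finset.card_eq_zero.1 (by omega))
    have s2 : B ⊆ A := Finset.sdiff_eq_empty_iff_subset.1 (Finset.card_eq_zero.1 (by omega))
    refine ⟨fun k => ?_, by omega, by omega⟩
    obtain ⟨k', a0, a1, a2, -⟩ := rep k
    rw [← a2]
    exact ⟨fun x => (mem_pos.1 (s1 (mem_pos.2 ⟨a0, a1, x⟩))).2.2,
      fun x => (mem_pos.1 (s2 (mem_pos.2 ⟨a0, a1, x⟩))).2.2⟩
  · right
    have hL : Lg = A ∪ B := Finset.eq_of_subset_of_card_le (Finset.filter_subset _ _) (by omega)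
    refine ⟨r1, fun k l hk hl hkl => ?_, fun k => ?_⟩
    · obtain ⟨k', a0, a1, a2, -⟩ := rep k
      obtain ⟨l', b0, b1, b2, -⟩ := rep l
      have n : k' ≠ l' := fun e => hkl (by rw [← a2, ← b2, e])
      by_cases x1 : G.Adj (s 0) (f k) ∧ G.Adj (s (q - 1)) (f l)
      · exact conn_of x1.1 x1.2
      by_cases x2 : G.Adj (s 0) (f l) ∧ G.Adj (s (q - 1)) (f k)
      · exact (conn_of x2.1 x2.2).symm
      exfalso
      unfold XP at hk hl
      rw [← a2, ← b2] at x1 x2
      rw [← a2] at hk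
      rw [← b2] at hl
      have o1 := Finset.card_le_one.1 (show (A \ B).card ≤ 1 by omega) k'
      have o2 := Finset.card_le_one.1 (show (B \ A).card ≤ 1 by omega) k'
      simp only [hA, hB, Finset.mem_sdiff, mem_pos] at o1 o2
      rcases hk with hk | hk <;> rcases hl with hl | hl
      · exact n (o1 ⟨⟨a0, a1, hk⟩, fun x => x2 ⟨hl, x.2.2⟩⟩ l' ⟨⟨b0, b1, hl⟩, fun x => x1 ⟨hk, x.2.2⟩⟩)
      · exact x1 ⟨hk, hl⟩
      · exact x2 ⟨hl, hk⟩
      · exact n (o2 ⟨⟨a0, a1, hk⟩, fun x => x1 ⟨x.2.2, hl⟩⟩ l' ⟨⟨b0, b1, hl⟩, fun x => x2 ⟨x.2.2, hk⟩⟩)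
    · obtain ⟨i, hi, t, t0, t1, e⟩ := g2 (by rw [hL, r1]; omega) k
      rw [if_pos (hL ▸ hi)] at t1
      have x := ((hJ i).1 hi).2.2
      have e' := h.cyc.shift h.c0 e (-t)
      rw [show i + t + -t = i by ring, ← sub_eq_add_neg] at e'
      unfold XP at x ⊢
      rw [e'] at x
      obtain rfl | rfl | rfl : t = 0 ∨ t = 1 ∨ t = 2 := by omega
      · left; simpa using x
      · right; left; exact x
      · right; right; exact x

lemma CS.kill_i (hx : Ctx G d) (h : CS G s f 2 c) (hc : 6 ≤ c)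
    (h1 : ∀ k l, XP G s f 2 k → XP G s f 2 l → f k ≠ f l → Conn G s f 2 k l)
    (h2 : ∀ k, XP G s f 2 k ∨ XP G s f 2 (k - 1) ∨ XP G s f 2 (k - 2)) : False := by
  have n1 : ∀ i, XP G s f 2 i → ¬ XP G s f 2 (i + 1) := fun i => h.xp_cons (by omega) i
  have n2 : ∀ i, XP G s f 2 i → ¬ XP G s f 2 (i + 2) := fun i a b => by
    have := h.gap (h1 _ _ a b (h.ne (by omega) (by omega) (by omega))) (by omega) (by omega)
    omega
  have n3 : ∀ i, XP G s f 2 i → XP G s f 2 (i + 3) := fun i a => by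
    rcases h2 (i + 3) with b | b | b
    · exact b
    · exact absurd (by rwa [show i + 3 - 1 = i + 2 by ring] at b) (n2 i a)
    · exact absurd (by rwa [show i + 3 - 2 = i + 1 by ring] at b) (n1 i a)
  have pr : ∀ i, XP G s f 2 i → XP G s f 2 (i + c) := fun i a => by
    unfold XP at a ⊢; rwa [h.per]
  have first : ∀ i k, XP G s f 2 i → i + 3 < k → k < i + c → ¬ XP G s f 2 k →
      ¬ G.Adj (f (i + 1)) (f k) := by
    intro i k a k0 k1 b e
    rcases (h2 k).resolve_left b with x | x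
    · have := h.arule (h1 _ _ (pr i a) x (h.ne (by omega) (by omega) (by omega))) (by omega)
        (by omega) k1.le e
      omega
    · have := h.arule (h1 _ _ (pr i a) x (h.ne (by omega) (by omega) (by omega))) (by omega)
        (by omega) k1.le e
      omega
  let S : V → Prop := fun w => ¬ InQ s 2 w ∧ (G.Adj (s 0) w ∨ G.Adj (s (2 - 1)) w)
  have hS : ∀ k, S (f k) ↔ XP G s f 2 k := fun k => ⟨fun a => a.2, fun a => ⟨h.notQ k, a⟩⟩
  refine arcs_blob hx.mnh hx.nou h.cyc h.c0 S ?_ ?_ ?_ (InQ s 2) (s 0)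
    ⟨⟨s 0, 0, le_rfl, by omega, rfl⟩, fun w a b => b.1 a, ?_⟩ h.notQ
  · intro x a
    obtain ⟨k, -, -, e⟩ := (h.surj 0 x).resolve_left a.1
    exact ⟨k, e⟩
  · rcases h2 0 with a | a | a <;> exact ⟨_, (hS _).2 a⟩
  · intro i a
    rw [hS] at a
    refine arcOK_one (j := i + 3) (by omega) (fun t t0 t1 b => ?_) (fun t x t0 t1 b => ?_)
    · rw [hS] at b
      obtain rfl | rfl : t = i + 1 ∨ t = i + 2 := by omega
      exacts [n1 i a b, n2 i a b]
    · have nt : ¬ XP G s f 2 t := fun b => by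
        obtain rfl | rfl : t = i + 1 ∨ t = i + 2 := by omega
        exacts [n1 i a b, n2 i a b]
      rcases h.surj (i + 1) x with ⟨u, u0, u1, rfl⟩ | ⟨k, k0, k1, rfl⟩
      · refine absurd ?_ nt
        obtain rfl | rfl : u = 0 ∨ u = 1 := by omega
        exacts [Or.inl b.symm, Or.inr b.symm]
      by_cases e : XP G s f 2 k
      · exact Or.inl ((hS k).2 e)
      by_cases e' : k < i + 3
      · exact Or.inr ⟨k, by omega, e', rfl⟩
      exfalso
      have m1 : k ≠ i + 3 := fun x => e (x ▸ n3 i a)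
      have m2 : k ≠ i + c := fun x => e (x ▸ pr i a)
      obtain rfl | rfl : t = i + 1 ∨ t = i + 2 := by omega
      · exact first i k a (by omega) (by omega) e b
      rcases (h2 k).resolve_left e with x | x
      · have m3 : k + 1 ≠ i + c := fun y =>
          n2 _ x (by rw [show k - 1 + 2 = i + c by omega]; exact pr i a)
        refine first (k - 1) (i + 2 + c) x (by omega) (by omega) (fun y => nt ?_) ?_
        · unfold XP at y ⊢; rwa [h.per] at y
        · rw [h.per, sub_add_cancel]; exact b.symm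
      · have y := n3 _ x
        rw [show k - 2 + 3 = k + 1 by ring] at y
        obtain ⟨a', b', z1, z2, z3⟩ := h1 _ _ y (n3 i a) (h.ne (by omega) (by omega) (by omega))
        have := h.short (i + 3) [] (false, i + 3, k) [(false, i + 2 + c, k + 1), (true, a', b')]
          (by simp only [tok, tinw, tin, tdisA, tdis1, tdis, ttot, slen, List.nil_append,
            and_true, true_and]; omega)
          ⟨by simpa only [tv, h.per] using b.symm, z2, trivial⟩ z3
        simp only [ttot] at this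
        omega
  · rintro w x ⟨u, u0, u1, rfl⟩ b
    by_cases e : InQ s 2 x
    · exact Or.inl e
    · refine Or.inr (Or.inl ⟨e, ?_⟩)
      obtain rfl | rfl : u = 0 ∨ u = 1 := by omega
      exacts [Or.inl b, Or.inr b]

lemma CS.sne (h : CS G s f q c) {t u : ℤ} (h0 : t ≠ u) (t0 : 0 ≤ t) (t1 : t < q) (u0 : 0 ≤ u)
    (u1 : u < q) : s t ≠ s u := fun e => h0 (h.stick.eq t0 t1 u0 u1 e)

lemma CS.pos_le (h : CS G s f q c) (w : V) (W : Finset V) (hW : ∀ k, G.Adj w (f k) → f k ∈ W) :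
    (pos G f c w).card ≤ W.card :=
  Finset.card_le_card_of_injOn f (fun k hk => hW k (mem_pos.1 hk).2.2) (fun k hk l hl e => by
    have := mem_pos.1 hk
    have := mem_pos.1 hl
    exact h.cyc.eq (by omega) (by omega) e)

/-- Three positions that are pairwise joined by sticks. -/
lemma CS.three {s' : ℤ → V} (h : CS G s f q c) (h' : CS G s' f q c) {i j k : ℤ}
    (c1 : Conn G s f q i j) (c2 : Conn G s' f q k i) (c3 : Conn G s' f q k j) (n1 : f i ≠ f j)
    (n2 : f k ≠ f i) (n3 : f k ≠ f j) : 3 * q + 3 ≤ c := by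
  have hq := h.q2
  obtain ⟨i', e1, a1, a2⟩ := h'.two_gaps c2 n2
  obtain ⟨j', e2, b1, b2⟩ := h'.two_gaps c3 n3
  have c4 : Conn G s f q i' j' := by
    obtain ⟨a, b, x, y, z⟩ := c1
    exact ⟨a, b, x, e1 ▸ y, e2 ▸ z⟩
  have n : i' ≠ j' := fun e => n1 (by rw [← e1, ← e2, e])
  rcases lt_or_gt_of_ne n with x | x
  · have := h.gap c4 x (by omega); omega
  · have := h.gap c4.symm x (by omega); omega

lemma CS.turn (h : CS G s f q c) {t : ℤ} (t0 : 0 ≤ t) (t1 : t + 1 < q)
    (a : G.Adj (s 0) (s (t + 1))) : ∃ s', CS G s' f q c ∧ s' 0 = s t ∧ s' (q - 1) = s (q - 1) :=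
  h.restick [(t, 0), (t + 1, q - 1)]
    (by simp only [ok, inw, MP_422cad_co.dis, dis1, sdis, MP_422cad_co.tot, slen, and_true]
        omega) ⟨a, trivial⟩

/-- A third attachment in the case of two attachments at the ends. -/
lemma CS.third (hx : Ctx G d) (h : CS G s f q c) {i j : ℤ} (ha : G.Adj (s 0) (f i))
    (hb : G.Adj (s (q - 1)) (f j)) (hne : f i ≠ f j)
    (h2 : ∀ k, XP G s f q k → f k = f i ∨ f k = f j) {t k : ℤ} (t0 : 0 ≤ t) (t1 : t < q)
    (a : G.Adj (s t) (f k)) (n1 : f k ≠ f i) (n2 : f k ≠ f j)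
    (hb' : G.Adj (s (q - 1)) (f i) ∨ ¬ G.Adj (s 0) (f j)) :
    G.Adj (s 0) (f j) ∧ d = q ∧ t + 1 = q - 1 ∧ ¬ G.Adj (s 0) (s (t + 1)) := by
  have hq := h.q2
  have ht := h.tot
  have hg := hx.g2
  obtain ⟨j', ej, g1, g2⟩ := h.two_gaps (conn_of ha hb) hne
  have inner : ∀ t k, 0 ≤ t → t < q → G.Adj (s t) (f k) → f k ≠ f i → f k ≠ f j →
      0 < t ∧ t < q - 1 := by
    intro t k t0 t1 a n1 n2
    constructor
    · by_contra x
      rw [show t = 0 by omega] at a
      rcases h2 k (Or.inl a) with e | e <;> contradiction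
    · by_contra x
      rw [show t = q - 1 by omega] at a
      rcases h2 k (Or.inr a) with e | e <;> contradiction
  have p2 : (pos G f c (s 0)).card ≤ 2 :=
    (h.pos_le (s 0) {f i, f j} (fun k a => by simpa using h2 k (Or.inl a))).trans
      Finset.card_le_two
  have d0 := h.deg_pos hx 0 le_rfl (by omega) ∅ (by simp)
  rw [Finset.card_empty] at d0
  have miss1 : ∀ u, 0 < u → u < q → ¬ G.Adj (s 0) (s u) →
      d + 2 ≤ q + (pos G f c (s 0)).card := by
    intro u u0 u1 x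
    have := h.deg_pos hx 0 le_rfl (by omega) {s u} (by
      intro w hw
      rw [Finset.mem_singleton.1 hw]
      exact ⟨⟨u, by omega, u1, rfl⟩, h.sne (by omega) (by omega) u1 le_rfl (by omega), x⟩)
    rw [Finset.card_singleton] at this
    omega
  by_cases hj : G.Adj (s 0) (f j)
  swap
  · exfalso
    have p1 : (pos G f c (s 0)).card ≤ 1 := by
      have := h.pos_le (s 0) {f i} (fun k a => by
        rcases h2 k (Or.inl a) with e | e
        · simp [e]
        · exact absurd (e ▸ a) hj)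
      simpa using this
    obtain ⟨i0, i1⟩ := inner t k t0 t1 a n1 n2
    have x : G.Adj (s 0) (s (t + 1)) := by
      by_contra x
      have := miss1 (t + 1) (by omega) (by omega) x
      omega
    obtain ⟨s', h', e1, e2⟩ := h.turn t0 (by omega) x
    obtain ⟨k', ek, k1, k2⟩ := h'.two_gaps (i := j') (j := k)
      (conn_of (e1 ▸ a) (by rw [e2, ej]; exact hb)).symm (by rw [ej]; exact n2.symm)
    exact n1 (by rw [← ek, show k' = i + c by omega, h.per])
  have hi := hb'.resolve_right (not_not.2 hj)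
  have key : ∀ t k, 0 ≤ t → t < q → G.Adj (s t) (f k) → f k ≠ f i → f k ≠ f j →
      ¬ G.Adj (s 0) (s (t + 1)) := by
    intro t k t0 t1 a n1 n2 x
    obtain ⟨i0, i1⟩ := inner t k t0 t1 a n1 n2
    obtain ⟨s', h', e1, e2⟩ := h.turn t0 (by omega) x
    have := h.three h' (conn_of ha hb) (conn_of (e1 ▸ a) (e2 ▸ hi)) (conn_of (e1 ▸ a) (e2 ▸ hb))
      hne n1 n2
    omega
  obtain ⟨i0, i1⟩ := inner t k t0 t1 a n1 n2
  have k0 := key t k t0 t1 a n1 n2
  have m1 := miss1 (t + 1) (by omega) (by omega) k0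
  refine ⟨hj, by omega, ?_, k0⟩
  by_contra x
  have only : ∀ u, 0 < u → u < q → u ≠ t + 1 → G.Adj (s 0) (s u) := by
    intro u u0 u1 u2
    by_contra y
    have := h.deg_pos hx 0 le_rfl (by omega) {s u, s (t + 1)} (by
      intro w hw
      simp only [Finset.mem_insert, Finset.mem_singleton] at hw
      rcases hw with rfl | rfl
      · exact ⟨⟨u, by omega, u1, rfl⟩, h.sne (by omega) (by omega) u1 le_rfl (by omega), y⟩
      · exact ⟨⟨t + 1, by omega, by omega, rfl⟩,
          h.sne (by omega) (by omega) (by omega) le_rfl (by omega), k0⟩)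
    rw [Finset.card_pair (h.sne u2 (by omega) u1 (by omega) (by omega))] at this
    omega
  obtain ⟨s', h', e1, e2⟩ := h.restick [(t + 1, q - 1), (0, t)]
    (by simp only [ok, inw, MP_422cad_co.dis, dis1, sdis, MP_422cad_co.tot, slen, and_true]
        omega)
    ⟨(only (q - 1) (by omega) (by omega) (by omega)).symm, trivial⟩
  simp only [fst, lst] at e1 e2
  have d1 := h.deg_pos hx (t + 1) (by omega) (by omega) {s 0} (by
    intro w hw
    rw [Finset.mem_singleton.1 hw]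
    exact ⟨⟨0, le_rfl, by omega, rfl⟩, h.sne (by omega) le_rfl (by omega) (by omega) (by omega),
      fun y => k0 y.symm⟩)
  rw [Finset.card_singleton] at d1
  have d2 : G.Adj (s (t + 1)) (f k) := by
    by_contra y
    have := h.pos_le (s (t + 1)) {f (k + q + 1)} (fun l b => by
      obtain ⟨l', el, l1, l2⟩ := h'.two_gaps (i := k) (j := l)
        (conn_of (e1 ▸ b) (e2 ▸ a)).symm (fun e => y (e ▸ b))
      rw [Finset.mem_singleton, ← el, show l' = k + q + 1 by omega])
    rw [Finset.card_singleton] at this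
    omega
  exact key (t + 1) k (by omega) (by omega) d2 n1 n2
    (only (t + 1 + 1) (by omega) (by omega) (by omega))

lemma CS.two_att (hx : Ctx G d) (h : CS G s f q c) {i j : ℤ} (ha : G.Adj (s 0) (f i))
    (hb : G.Adj (s (q - 1)) (f j)) (hne : f i ≠ f j)
    (h2 : ∀ k, XP G s f q k → f k = f i ∨ f k = f j) :
    S2 G s q (f i) (f j) ∨ S11 G s q d (f i) (f j) := by
  by_cases h3 : S2 G s q (f i) (f j)
  · exact Or.inl h3
  right
  unfold S2 at h3
  push Not at h3
  obtain ⟨t, w, t0, t1, a, n0, n1, n2⟩ := h3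
  obtain ⟨k, -, -, rfl⟩ := (h.surj 0 w).resolve_left n0
  have hr := fun x => h.revS.third hx (i := j) (j := i) (by simpa using hb) (by simpa using ha)
    hne.symm (fun k y => (h2 k (by simpa [XP, or_comm] using y)).symm) (t := q - 1 - t) (k := k)
    (by omega) (by omega) (by simpa using a) n2 n1 x
  simp only [sub_self, sub_zero] at hr
  have hf := h.third hx ha hb hne h2 t0 t1 a n1 n2
  have x1 : G.Adj (s (q - 1)) (f i) := by
    by_contra x
    exact x (hr (Or.inr x)).1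
  obtain ⟨b1, b2, b3, b4⟩ := hf (Or.inl x1)
  obtain ⟨-, -, c3, -⟩ := hr (Or.inl b1)
  obtain ⟨j', -, g1, g2⟩ := h.two_gaps (conn_of ha hb) hne
  have ht := h.tot
  have hg := hx.g2
  have e1 : q = 3 := by omega
  have e2 : t = 1 := by omega
  subst e1 e2
  refine ⟨rfl, b2, by omega, fun w y => ?_, fun w y => ?_⟩
  · rcases h.surj 0 w with ⟨u, u0, u1, rfl⟩ | ⟨l, -, -, rfl⟩
    · obtain rfl | rfl | rfl : u = 0 ∨ u = 1 ∨ u = 2 := by omega
      exacts [absurd y G.irrefl, Or.inl rfl, absurd y b4]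
    · exact Or.inr (h2 l (Or.inl y))
  · rcases h.surj 0 w with ⟨u, u0, u1, rfl⟩ | ⟨l, -, -, rfl⟩
    · obtain rfl | rfl | rfl : u = 0 ∨ u = 1 ∨ u = 2 := by omega
      exacts [absurd y.symm b4, Or.inl rfl, absurd y G.irrefl]
    · exact Or.inr (h2 l (Or.inr y))

lemma CS.kh (hx : Ctx G d) (h : CS G s f q c)
    (h1 : ∀ k, G.Adj (s 0) (f k) ↔ G.Adj (s (q - 1)) (f k)) (h2 : 3 ≤ (pos G f c (s 0)).card)
    (h3 : d = q - 1 + (pos G f c (s 0)).card) : Kh G s q d := by
  have hq := h.q2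
  have hc : ((pos G f c (s 0)).image f).card = (pos G f c (s 0)).card :=
    Finset.card_image_of_injOn (fun k hk l hl e => by
      have := mem_pos.1 hk
      have := mem_pos.1 hl
      exact h.cyc.eq (by omega) (by omega) e)
  have all : ∀ t k, 0 ≤ t → t < q → (G.Adj (s t) (f k) ↔ G.Adj (s 0) (f k)) := by
    intro t k t0 t1
    by_cases e0 : t = 0
    · rw [e0]
    by_cases e1 : t = q - 1
    · rw [e1, h1]
    have x : G.Adj (s 0) (s (t + 1)) := by
      by_contra x
      have := h.deg_pos hx 0 le_rfl (by omega) {s (t + 1)} (by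
        intro w hw
        rw [Finset.mem_singleton.1 hw]
        exact ⟨⟨t + 1, by omega, by omega, rfl⟩,
          h.sne (by omega) (by omega) (by omega) le_rfl (by omega), x⟩)
      rw [Finset.card_singleton] at this
      omega
    obtain ⟨s', h', e2, e3⟩ := h.turn t0 (by omega) x
    obtain ⟨j, hj⟩ := Finset.card_pos.1 (show 0 < (pos G f c (s 0)).card by omega)
    rw [mem_pos] at hj
    have d1 := h.deg_pos hx t t0 t1 ∅ (by simp)
    rw [Finset.card_empty] at d1
    obtain ⟨i, hi, hij⟩ := Finset.exists_mem_ne (show 1 < (pos G f c (s t)).card by omega) j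
    rw [mem_pos] at hi
    rcases h'.cases hx (i0 := i) (j0 := j) (e2 ▸ hi.2.2) (e3 ▸ (h1 j).1 hj.2.2)
      (h.ne hij (by omega) (by omega)) with y | y | y
    · have := (h.pos_le (s 0) {f i, f j} (fun l b => by
        simpa using y l (Or.inr (e3 ▸ (h1 l).1 b)))).trans Finset.card_le_two
      omega
    · rw [h1, ← e2, ← e3]
      exact y.1 k
    · omega
  refine ⟨(pos G f c (s 0)).image f, by omega, by omega, ?_, ?_, ?_⟩
  · intro x hx
    obtain ⟨k, -, rfl⟩ := Finset.mem_image.1 hx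
    exact h.notQ k
  · intro t t0 t1 x hx
    obtain ⟨k, hk, rfl⟩ := Finset.mem_image.1 hx
    exact (all t k t0 t1).2 (mem_pos.1 hk).2.2
  · intro t w t0 t1 a
    rcases h.surj 0 w with b | ⟨k, k0, k1, rfl⟩
    · exact Or.inl b
    · exact Or.inr (Finset.mem_image.2 ⟨k, mem_pos.2 ⟨k0, by omega, (all t k t0 t1).1 a⟩, rfl⟩)

theorem classify (hx : Ctx G d) {u1 u2 : V} (h : Stick G s q) (hl : Lk G s q u1 u2) :
    S2 G s q u1 u2 ∨ S11 G s q d u1 u2 ∨ Kh G s q d := by
  obtain ⟨f, c, h⟩ := h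
  obtain ⟨l1, l2, l3, l4, l5⟩ := hl
  obtain ⟨i, -, -, rfl⟩ := (h.surj 0 u1).resolve_left l2
  obtain ⟨j, -, -, rfl⟩ := (h.surj 0 u2).resolve_left l3
  rcases h.cases hx l4 l5 l1 with a | ⟨a, b, e⟩ | ⟨rfl, a, b⟩
  · rcases h.two_att hx l4 l5 l1 a with b | b
    exacts [Or.inl b, Or.inr (Or.inl b)]
  · exact Or.inr (Or.inr (h.kh hx a b e))
  · obtain ⟨j', -, g1, g2⟩ := h.two_gaps (conn_of l4 l5) l1
    exact (h.kill_i hx (by omega) a b).elim

end Pool.Agent.P.MP_422cad_co
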