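import Pool.Agent.P.MP_422cad_co.Zero

set_option autoImplicit false

namespace Pool.Agent.P.MP_422cad_co

open SimpleGraph Classical

variable {V : Type} [Fintype V] {G : SimpleGraph V} {f : ℤ → V} {v : V} {Y : Finset V}
  {ν : V ≃ V} {d : ℤ}

lemma St.ch_ell (h : St G f v Y ν d) {i j s : ℤ} (c : Ch G f Y i j) (h1 : i < s) (h2 : s < j)
    (hx : NX G Y (f s)) (hy : f (s + 1) ∉ Y) : ¬ G.Adj (f (s + 1)) (f (i + 1)) := by
  intro a
  have := c.le
  have n1 : ¬ NX G Y (f i) := h.aa_nx (h.aa_idx.2 ⟨c.x1, c.y1⟩)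
  have n2 : f (i + 1) ∉ Y := fun b => n1 (by simpa using (h.hop.nbr _ b).1)
  refine h.hop.toHop.seg h.n2 i [(j + 1, i + ord V - 2), (i, i), (j, s + 1), (i + 1, s)]
    (by simp only [ok, inw, dis, dis1, sdis, tot, slen, and_true]; omega)
    ⟨?_, good_of c.adj c.y1 c.y2, good_of a hy n2, trivial⟩ c.x2 hx
  simp only [h.per']
  simpa using good_step h.hop.cyc Y (i - 1)

/-- A poor successor without proper chord and with more neighbours in `B'` than `|T|`. -/
lemma St.no_pch (h : St G f v Y ν d) {i : ℤ} (ha : f i ∈ AA G Y ν) (hn : ¬ ∃ j, PCh G f Y i j)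
    (h1 : 1 ≤ (TT G Y).card)
    (h2 : (TT G Y).card + 1 ≤ (nb G (f i) ∩ AA G Y ν.symm).card) :
    f (i - 1) ∈ TT G Y ∧ ∀ t ∈ TT G Y, G.Adj (f i) (ν.symm t) ∧ ν.symm t ∈ AA G Y ν.symm := by
  set B := nb G (f i) ∩ AA G Y ν.symm with hB
  have key : ∀ b ∈ B, ∃ j, f j = b ∧ Ch G f Y i j := by
    intro b hb
    simp only [hB, Finset.mem_inter, mem_nb] at hb
    exact h.ch_of ha hb.2 hb.1
  obtain ⟨j0, ⟨c0, b0⟩, jmin⟩ := Int.exists_least_of_bdd
    (P := fun j => Ch G f Y i j ∧ f j ∈ B) ⟨i, fun _ a => a.1.lt.le⟩ (by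
      obtain ⟨b, hb⟩ := Finset.card_pos.1 (show 0 < B.card by omega)
      obtain ⟨j, rfl, c⟩ := key b hb
      exact ⟨j, c, hb⟩)
  have k2 : ∀ b ∈ B.erase (f j0), f (i - 1) ∈ TT G Y ∧ ν b ∈ TT G Y := by
    intro b hb
    obtain ⟨n, hb⟩ := Finset.mem_erase.1 hb
    obtain ⟨j, rfl, c⟩ := key b hb
    have m1 := jmin j ⟨c, hb⟩
    have m2 : j ≠ j0 := fun e => n (by rw [e])
    have m3 : j ≠ j0 + 1 := fun e =>
      h.rev.aa_nx (Finset.mem_inter.1 hb).2 (by rw [e]; exact c0.x2)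
    have m4 : ¬ (IsU G Y (f (i - 1)) ∨ IsU G Y (f (j + 1))) := fun u =>
      hn ⟨j, c, u, j0 + 1, by have := c0.lt; omega, by omega, c0.x2⟩
    rw [not_or] at m4
    exact ⟨mem_TT.2 ⟨c.x1, m4.1⟩, by rw [h.nu]; exact mem_TT.2 ⟨c.x2, m4.2⟩⟩
  have k3 := Finset.card_erase_of_mem b0
  have k4 : (B.erase (f j0)).image ν = TT G Y := by
    apply Finset.eq_of_subset_of_card_le
    · intro t ht
      obtain ⟨b, hb, rfl⟩ := Finset.mem_image.1 ht
      exact (k2 b hb).2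
    · rw [Finset.card_image_of_injective _ ν.injective]; omega
  obtain ⟨b, hb⟩ := Finset.card_pos.1 (show 0 < (B.erase (f j0)).card by omega)
  refine ⟨(k2 b hb).1, fun t ht => ?_⟩
  rw [← k4] at ht
  obtain ⟨b, hb, rfl⟩ := Finset.mem_image.1 ht
  have := (Finset.mem_erase.1 hb).2
  simp only [hB, Finset.mem_inter, mem_nb] at this
  simpa using this

/-- The boundary case of the extremal chord argument. -/
lemma St.tight (h : St G f v Y ν d) (hy : 2 ≤ Y.card) (h1 : 1 ≤ (TT G Y).card)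
    (hl : (XX G Y).card + (RR G Y ν).card + (TT G Y).card + 1 ≤ d + Y.card)
    {a : V} (ha : a ∈ AA G Y ν) (hp : Poor G Y a) :
    ν.symm a ∈ TT G Y ∧ ∀ t ∈ TT G Y, G.Adj a (ν.symm t) ∧ ν.symm t ∈ AA G Y ν.symm := by
  have k1 : ∀ i, f i ∈ AA G Y ν → Poor G Y (f i) →
      (TT G Y).card + 1 ≤ (nb G (f i) ∩ AA G Y ν.symm).card := by
    intro i hi hp
    have := h.poor_bb hi hp
    have := Finset.card_le_card (Finset.inter_subset_right (s₁ := nb G (f i)) (s₂ := RR G Y ν))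
    omega
  obtain ⟨y, hy1, hy2⟩ := Finset.exists_mem_ne (by omega : 1 < Y.card) v
  obtain ⟨t, -, -, rfl⟩ := h.surj 0 hy2
  obtain ⟨i, i0, i1, rfl⟩ := h.surj t (h.ne_of_nmem (mem_AA.1 ha).2)
  rw [h.nus]
  refine h.no_pch ha (fun hc => ?_) h1 (k1 i ha hp)
  obtain ⟨i', ⟨j0, j1, j, c, hu, s, s0, s1, hs⟩, hmax⟩ := exists_max_int
    (fun i => t ≤ i ∧ i < t + (ord V - 1) ∧ ∃ j, PCh G f Y i j) (t + (ord V - 1))
    (fun _ a => a.2.1.le) ⟨i, i0, i1, hc⟩
  have hj : j < t + (ord V - 1) := by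
    by_contra h1
    exact h.ch_noY c hu (t + (ord V - 1)) (by omega) (by omega) (by rwa [h.per])
  have k2 : ∀ s, i' < s → s < j → NX G Y (f s) → f s ∈ TT G Y ∧
      (∀ t ∈ TT G Y, G.Adj (f (s + 1)) (ν.symm t)) ∧
      (∀ r ∈ RR G Y ν, G.Adj (f (s + 1)) r) ∧ ¬ G.Adj (f (s + 1)) (f (i' + 1)) := by
    intro s s0 s1 hs
    have y1 := h.ch_noY c hu (s + 1) (by omega) (by omega)
    have a1 : f (s + 1) ∈ AA G Y ν := h.aa_idx.2 ⟨by simpa using hs, y1⟩
    have p1 := h.ch_poor c hu s0 s1 hs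
    have n1 : ¬ ∃ j, PCh G f Y (s + 1) j := fun x => by
      have := hmax (s + 1) ⟨by omega, by omega, x⟩
      omega
    obtain ⟨b1, b2⟩ := h.no_pch a1 n1 h1 (k1 _ a1 p1)
    refine ⟨by simpa using b1, fun t ht => (b2 t ht).1, fun r hr => ?_, h.ch_ell c s0 s1 hs y1⟩
    have q1 := h.poor_bb a1 p1
    have q2 : ¬ ((TT G Y).card + 2 ≤ (nb G (f (s + 1)) ∩ AA G Y ν.symm).card) :=
      fun x => n1 (h.pch_of_two a1 x)
    have q3 := Finset.eq_of_subset_of_card_le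
      (Finset.inter_subset_right (s₁ := nb G (f (s + 1))) (s₂ := RR G Y ν)) (by omega)
    rw [← q3] at hr
    exact mem_nb.1 (Finset.mem_inter.1 hr).1
  obtain ⟨-, b2, b3, b4⟩ := k2 s s0 s1 hs
  have n1 : ¬ NX G Y (f i') := h.aa_nx (h.aa_idx.2 ⟨c.x1, c.y1⟩)
  have n2 : f (i' + 1) ∉ Y := fun b => n1 (by simpa using (h.hop.nbr _ b).1)
  have n3 : ¬ NX G Y (f (i' + 1)) := fun b =>
    h.aa_bb (h.aa_idx.2 ⟨c.x1, c.y1⟩) (h.bb_idx.2 ⟨b, c.y1⟩)
  by_cases e : NX G Y (f (i' + 1 + 1))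
  · have m1 : s ≠ i' + 1 := fun x => n3 (x ▸ hs)
    have := b2 _ (k2 (i' + 1 + 1) (by omega) (by omega) e).1
    rw [h.nus, add_sub_cancel_right] at this
    exact b4 this
  · exact b4 (b3 _ (mem_RR.2 ⟨n3, n2, fun x => n1 (by simpa using (h.aa_idx.1 x).1),
      fun x => e (h.bb_idx.1 x).1⟩))

lemma St.mm_tight (h : St G f v Y ν d) (hy : 2 ≤ Y.card) (h1 : 1 ≤ (TT G Y).card)
    (hl : (XX G Y).card + (RR G Y ν).card + (TT G Y).card + 1 ≤ d + Y.card) {u : V}
    (hu : IsU G Y u) :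
    MM G Y u ⊆ RR G Y ν ∪ ((TT G Y).filter (fun t => ν t ∈ AA G Y ν ∧ Poor G Y (ν t))).image ν ∪
      ((TT G Y).filter (fun t => ν.symm t ∈ AA G Y ν.symm ∧ Poor G Y (ν.symm t))).image
        ν.symm := by
  intro w hw
  simp only [Finset.mem_union, Finset.mem_image, Finset.mem_filter]
  rcases h.mm_sub hu hw with a | ⟨a, b | b⟩
  · exact Or.inl (Or.inl a)
  · exact Or.inl (Or.inr ⟨ν.symm w, ⟨(h.tight hy h1 hl b a).1, by simpa using ⟨b, a⟩⟩, by simp⟩)
  · exact Or.inr ⟨ν w, ⟨(h.rev.tight hy h1 (by rwa [RR_symm]) b a).1, by simpa using ⟨b, a⟩⟩,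
      by simp⟩

lemma St.caseD (h : St G f v Y ν d) (hn : ord V = 3 * d + 2)
    (hx : ((XX G Y).card : ℤ) = d + 1) (hT : (TT G Y).card = 1) : False := by
  have c1 := h.card_all
  have := h.n3
  refine h.finish (by omega) (by omega) fun u hu => ?_
  have h1 := Finset.card_le_card (h.mm_tight (by omega) (by omega) (by omega) hu)
  have h2 := h1.trans ((Finset.card_union_le _ _).trans (add_le_add ((Finset.card_union_le _ _).trans
    (add_le_add le_rfl (Finset.card_image_le.trans (Finset.card_filter_le _ _))))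
    (Finset.card_image_le.trans (Finset.card_filter_le _ _))))
  omega

lemma St.caseE (h : St G f v Y ν d) (hn : ord V = 3 * d + 2)
    (hx : ((XX G Y).card : ℤ) = d + 2) (hy : Y.card = 6) (hT : (TT G Y).card = 3) : False := by
  have c1 := h.card_all
  have hn3 := h.n3
  refine h.finish (by omega) (by omega) fun u hu => ?_
  by_contra hc
  have h1 := Finset.card_le_card (h.mm_tight (by omega) (by omega) (by omega) hu)
  set P := (TT G Y).filter (fun t => ν t ∈ AA G Y ν ∧ Poor G Y (ν t)) with hP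
  set Q := (TT G Y).filter (fun t => ν.symm t ∈ AA G Y ν.symm ∧ Poor G Y (ν.symm t)) with hQ
  have h2 := h1.trans ((Finset.card_union_le _ _).trans (add_le_add ((Finset.card_union_le _ _).trans
    (add_le_add le_rfl Finset.card_image_le)) Finset.card_image_le))
  have p1 : P ⊆ TT G Y := Finset.filter_subset _ _
  have q1 : Q ⊆ TT G Y := Finset.filter_subset _ _
  have p2 := Finset.card_le_card p1
  have q2 := Finset.card_le_card q1
  have key : ∀ t ∈ TT G Y, G.Adj (ν t) (ν.symm t) ∧ ν t ∉ Y ∧ ν.symm t ∉ Y := by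
    intro t ht
    obtain ⟨a, ha⟩ := Finset.card_pos.1 (show 0 < P.card by omega)
    obtain ⟨b, hb⟩ := Finset.card_pos.1 (show 0 < Q.card by omega)
    obtain ⟨-, a1, a2⟩ := Finset.mem_filter.1 ha
    obtain ⟨-, b1, b2⟩ := Finset.mem_filter.1 hb
    refine ⟨?_, (mem_AA.1 ((h.rev.tight (by omega) (by omega) (by rw [RR_symm]; omega) b1 b2).2
      t ht).2).2, (mem_AA.1 ((h.tight (by omega) (by omega) (by omega) a1 a2).2 t ht).2).2⟩
    by_cases e : P.card = 3
    · rw [← Finset.eq_of_subset_of_card_le p1 (by omega)] at ht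
      obtain ⟨t1, t2, t3⟩ := Finset.mem_filter.1 ht
      exact ((h.tight (by omega) (by omega) (by omega) t2 t3).2 t t1).1
    · rw [← Finset.eq_of_subset_of_card_le q1 (by omega)] at ht
      obtain ⟨t1, t2, t3⟩ := Finset.mem_filter.1 ht
      exact ((h.rev.tight (by omega) (by omega) (by rw [RR_symm]; omega) t2 t3).2 t t1).1.symm
  have k2 : ∀ y ∈ Y, ∃ t ∈ TT G Y, G.Adj y t := by
    intro y hy'
    by_contra x
    push Not at x
    have m1 := h.d_le hy'
    have m2 : nb G y ∩ XX G Y ⊆ XX G Y \ TT G Y := fun w hw =>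
      Finset.mem_sdiff.2 ⟨(Finset.mem_inter.1 hw).2,
        fun z => x w z (mem_nb.1 (Finset.mem_inter.1 hw).1)⟩
    have m3 := Finset.card_le_card m2
    have m4 := Finset.card_sdiff_add_card_eq_card
      (show TT G Y ⊆ XX G Y from Finset.filter_subset _ _)
    omega
  obtain ⟨t, ht, hvt⟩ := k2 v h.hop.mem
  have k3 : ∃ y ∈ Y, y ≠ v ∧ G.Adj y t := by
    by_contra x
    push Not at x
    have m1 : Y.erase v ⊆ ((TT G Y).erase t).biUnion (fun t' => nb G t' ∩ Y) := by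
      intro y hy'
      obtain ⟨y1, y2⟩ := Finset.mem_erase.1 hy'
      obtain ⟨t', a, b⟩ := k2 y y2
      exact Finset.mem_biUnion.2 ⟨t', Finset.mem_erase.2 ⟨fun e => x y y2 y1 (e ▸ b), a⟩,
        Finset.mem_inter.2 ⟨mem_nb.2 b.symm, y2⟩⟩
    have m2 := (Finset.card_le_card m1).trans (Finset.card_biUnion_le_card_mul _ _ 2 (by
      intro t' ht'
      have := h.deg_TT (Finset.mem_erase.1 ht').2
      omega))
    rw [Finset.card_erase_of_mem h.hop.mem, Finset.card_erase_of_mem ht] at m2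
    omega
  obtain ⟨y, y1, y2, y3⟩ := k3
  have tx := (mem_TT.1 ht).1
  obtain ⟨s, -, -, rfl⟩ := h.surj 0 (h.ne_of_nmem (h.nmem tx))
  obtain ⟨p, p0, p1, rfl⟩ := h.surj s y2
  obtain ⟨a1, a2, a3⟩ := key _ ht
  rw [h.nu] at a1 a2
  rw [h.nus] at a1 a3
  have n1 : p ≠ s := fun e => h.nmem tx (e ▸ y1)
  have n2 : p ≠ s + 1 := fun e => a2 (e ▸ y1)
  refine h.hop.toHop.seg h.n2 s [(s, s), (p, s + ord V - 2), (s + 1, p - 1)]
    (by simp only [ok, inw, dis, dis1, sdis, tot, slen, and_true]; omega)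
    ⟨good_u y3.symm (h.nmem tx) hvt, ?_, trivial⟩ tx (h.hop.nbr p y1).1
  simp only [h.per']
  exact good_of a1.symm a3 a2

/-- Only the case `|X| = d` remains. -/
lemma St.s0 (h : St G f v Y ν d) (hg : ord V ≤ 3 * d + 2) : S0 G f v Y ν d ∧ 3 * d < ord V := by
  have hg' : 3 * d < ord V := by
    by_contra x
    exact h.main0 (by omega)
  refine ⟨⟨h, ?_, hg⟩, hg'⟩
  by_contra x
  have c1 := h.card_all
  have c2 := h.card_TT
  have c3 := h.d_le_x
  have c4 := h.n3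
  have hl : ¬ (((XX G Y).card : ℤ) + (RR G Y ν).card + (TT G Y).card + 2 ≤ d + Y.card) :=
    fun a => h.generic hg (by omega) (by omega) a
  obtain ⟨m, hm⟩ : ∃ m : ℤ, ((XX G Y).card : ℤ) = d + m := ⟨(XX G Y).card - d, by ring⟩
  rw [hm, add_sub_cancel_left] at c2
  have t0 : 2 * m - 1 ≤ ((TT G Y).card : ℤ) := by omega
  have y0 : 3 * m ≤ (Y.card : ℤ) := by omega
  have m0 : 1 ≤ m := by omega
  by_cases e1 : m = 1
  · subst e1
    have : ((TT G Y).card : ℤ) ≤ 1 := by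
      by_contra a
      nlinarith
    exact h.caseD (by omega) hm (by omega)
  by_cases e2 : m = 2
  · subst e2
    have : ((TT G Y).card : ℤ) ≤ 3 := by
      by_contra a
      nlinarith
    have e3 : ((TT G Y).card : ℤ) = 3 := by omega
    rw [e3] at c2
    exact h.caseE (by omega) hm (by omega) (by omega)
  · have a1 : (2 * m - 1) * (Y.card - m) ≤ ((TT G Y).card : ℤ) * (Y.card - m) :=
      mul_le_mul_of_nonneg_right t0 (by omega)
    have a2 : (m - 1) * (Y.card - 3 * m) ≥ 0 := mul_nonneg (by omega) (by omega)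
    have a3 : 3 ≤ m := by omega
    nlinarith

end Pool.Agent.P.MP_422cad_co
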