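import Pool.Agent.P.MP_422cad_co.One

set_option autoImplicit false

namespace Pool.Agent.P.MP_422cad_co

open SimpleGraph Classical

variable {V : Type} [Fintype V] {G : SimpleGraph V} {f : ℤ → V} {v : V} {d : ℤ}

/-- The normal form for `n = 3 d + 1`. -/
structure N1 (G : SimpleGraph V) (f : ℤ → V) (v : V) (d : ℤ) : Prop extends O1 G f v d where
  hn : ord V = 3 * d + 1
  hx : ∀ t, G.Adj v (f t) ↔ t % 3 = 0

lemma N1.refl (h : N1 G f v d) : N1 G (fun t => f (0 - t)) v d :=
  ⟨h.toO1.refl 0, h.hn, fun t => by rw [h.hx]; omega⟩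

lemma N1.x (h : N1 G f v d) {t : ℤ} (e : t % 3 = 0) : G.Adj v (f t) := (h.hx t).2 e

lemma N1.nbr_a (h : N1 G f v d) (hf : NoFar G f v) {p : ℤ} (hp : p % 3 = 1) {x : V}
    (a : G.Adj (f p) x) : G.Adj v x ∨ x = f (p + 1) ∨ x = f (p - 2) := by
  have hn := h.hn
  rcases h.surj p x with rfl | ⟨t, t0, t1, rfl⟩
  · have := (h.hx p).1 a.symm
    omega
  by_cases e0 : t % 3 = 0
  · exact Or.inl (h.x e0)
  by_cases e1 : t % 3 = 1
  · have n : t ≠ p := fun e => G.irrefl (e ▸ a)
    exact absurd a (h.aa (by omega) t1 (h.x (by omega)) (h.x (by omega)))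
  by_cases e2 : t = p + 1
  · exact Or.inr (Or.inl (by rw [e2]))
  by_cases e3 : t = p - 2 + (ord V - 1)
  · exact Or.inr (Or.inr (h.per' e3))
  exact absurd a (hf p t (h.x (by omega)) (h.x (by omega)) (by omega) (by omega))

lemma N1.nbr_b (h : N1 G f v d) (hf : NoFar G f v) {q : ℤ} (hq : q % 3 = 2) {x : V}
    (a : G.Adj (f q) x) : G.Adj v x ∨ x = f (q - 1) ∨ x = f (q + 2) := by
  have hn := h.hn
  rcases h.surj (q + 1 - (ord V - 1)) x with rfl | ⟨t, t0, t1, rfl⟩
  · have := (h.hx q).1 a.symm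
    omega
  by_cases e0 : t % 3 = 0
  · exact Or.inl (h.x e0)
  by_cases e1 : t % 3 = 2
  · have n : t ≠ q := fun e => G.irrefl (e ▸ a)
    exact absurd a.symm (h.bb (by omega) (by omega) (h.x (by omega)) (h.x (by omega)))
  by_cases e2 : t = q - 1
  · exact Or.inr (Or.inl (by rw [e2]))
  by_cases e3 : q + 2 = t + (ord V - 1)
  · exact Or.inr (Or.inr (h.per' e3).symm)
  exact absurd a.symm (hf t q (h.x (by omega)) (h.x (by omega)) (by omega) (by omega))

lemma N1.jump (h : N1 G f v d) {e s : ℤ} (he : e % 3 = 0) (hs : s % 3 = 0) (s0 : e < s)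
    (s1 : s < e + (ord V - 1)) (a : G.Adj (f (e + 1)) (f (e - 1))) :
    Jump G f v (e + 1) s (e - 1 + (ord V - 1)) := by
  have hn := h.hn
  exact ⟨by omega, by omega, by omega, h.x (by omega), h.x (by omega), h.x hs, by rwa [h.per]⟩

lemma N1.near (h : N1 G f v d) (hf : NoFar G f v) : False := by
  have hn := h.hn
  have hn3 := h.n3
  by_cases hI : ∃ e, e % 3 = 0 ∧ G.Adj (f (e + 1)) (f (e - 1)) ∧ 2 ≤ d
  swap
  · push Not at hI
    refine h.cyc.blob h.ctx.mnh h.ctx.nou (by omega) (G.Adj v) v ⟨_, h.x (t := 0) rfl⟩ G.irrefl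
      (fun x a => Or.inl a) (fun i a => ?_)
    rw [h.hx] at a
    refine arcOK_one (j := i + 3) (by omega) (fun t t0 t1 b => ?_) (fun t x t0 t1 b => ?_)
    · rw [h.hx] at b; omega
    obtain rfl | rfl : t = i + 1 ∨ t = i + 2 := by omega
    · rcases h.nbr_a hf (by omega) b with c | c | c
      · exact Or.inl c
      · exact Or.inr ⟨_, by omega, by omega, c.symm⟩
      · have := hI i a (by rwa [c, show i + 1 - 2 = i - 1 by ring] at b)
        exact Or.inr ⟨i + 2, by omega, by omega, by rw [c]; exact h.per' (by omega)⟩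
    · rcases h.nbr_b hf (by omega) b with c | c | c
      · exact Or.inl c
      · exact Or.inr ⟨_, by omega, by omega, c.symm⟩
      · have := hI (i + 3) (by omega) (by
          rw [c] at b
          rw [show i + 3 + 1 = i + 2 + 2 by ring, show i + 3 - 1 = i + 2 by ring]
          exact b.symm)
        exact Or.inr ⟨i + 1, by omega, by omega, by rw [c]; exact (h.per' (by omega)).symm⟩
  obtain ⟨e, he, a, hd⟩ := hI
  have m1 : ∀ s, s % 3 = 0 → e < s → s < e + (ord V - 1) →
      ¬ G.Adj (f (s + 1)) (f e) ∧ ¬ G.Adj (f (s - 1)) (f e) := fun s s0 s1 s2 =>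
    ⟨by simpa using h.e1 (h.jump he s0 s1 s2 a), by simpa using h.e1' (h.jump he s0 s1 s2 a)⟩
  have uniq : ∀ l, l % 3 = 0 → e < l → l < e + (ord V - 1) →
      ¬ G.Adj (f (l + 1)) (f (l - 1)) := by
    have u1 : ¬ G.Adj (f (e - 2)) (f (e - 4)) := fun b => by
      have := h.ell (h.jump (e := e - 3) (s := e) (by omega) he (by omega) (by omega) (by
        rwa [show e - 3 + 1 = e - 2 by ring, show e - 3 - 1 = e - 4 by ring]))
      rw [show e - 3 + 1 + 1 = e - 1 by ring] at this
      exact this a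
    intro l l0 l1 l2 b
    have e2 : f (e - 3 + (ord V - 1) + 1) = f (e - 2) := h.per' (by omega)
    by_cases c : l = e - 3 + (ord V - 1)
    · rw [c, e2, h.per' (show e - 3 + (ord V - 1) - 1 = e - 4 + (ord V - 1) by omega)] at b
      exact u1 b
    have := h.miss (f (e - 2)) {f e, f l} {f (e - 1)} (by
      intro z hz
      simp only [Finset.mem_insert, Finset.mem_singleton] at hz
      rcases hz with rfl | rfl
      · exact ⟨h.x he, e2 ▸ (m1 (e - 3 + (ord V - 1)) (by omega) (by omega) (by omega)).1⟩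
      · refine ⟨h.x l0, ?_⟩
        have := h.e1 (h.jump (s := e - 3 + (ord V - 1)) l0 (by omega) (by omega) (by omega) b)
        rwa [e2, add_sub_cancel_right] at this) (by
      intro x c
      rcases h.nbr_a hf (by omega) c with y | y | y
      · exact Or.inl y
      · right; rw [y, Finset.mem_singleton]; congr 1; ring
      · rw [y, show e - 2 - 2 = e - 4 by ring] at c
        exact absurd c u1)
    rw [Finset.card_pair (h.ne (by omega) (by omega) (by omega)), Finset.card_singleton] at this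
    omega
  have na : ∀ p x, p % 3 = 1 → e + 1 < p → p < e + (ord V - 1) → G.Adj (f p) x →
      (G.Adj v x ∧ x ≠ f e) ∨ x = f (p + 1) := by
    intro p x p0 p1 p2 b
    rcases h.nbr_a hf p0 b with y | y | y
    · refine Or.inl ⟨y, fun z => (m1 (p - 1) (by omega) (by omega) (by omega)).1 ?_⟩
      rwa [sub_add_cancel, ← z]
    · exact Or.inr y
    · refine absurd ?_ (uniq (p - 1) (by omega) (by omega) (by omega))
      rwa [sub_add_cancel, show p - 1 - 1 = p - 2 by ring, ← y]
  have nb' : ∀ q x, q % 3 = 2 → e < q → q + 1 < e + (ord V - 1) → G.Adj (f q) x →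
      (G.Adj v x ∧ x ≠ f e) ∨ x = f (q - 1) := by
    intro q x q0 q1 q2 b
    rcases h.nbr_b hf q0 b with y | y | y
    · refine Or.inl ⟨y, fun z => (m1 (q + 1) (by omega) (by omega) (by omega)).2 ?_⟩
      rwa [add_sub_cancel_right, ← z]
    · exact Or.inr y
    · refine absurd ?_ (uniq (q + 1) (by omega) (by omega) (by omega))
      rw [add_sub_cancel_right, show q + 1 + 1 = q + 2 by ring, ← y]
      exact b.symm
  refine h.cyc.blob h.ctx.mnh h.ctx.nou (by omega) (fun x => G.Adj v x ∧ x ≠ f e) (f e)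
    ⟨f (e + 3), h.x (by omega), h.ne (by omega) (by omega) (by omega)⟩ (fun x => G.irrefl x.1)
    (fun x b => by by_cases c : x = f e; exacts [Or.inr c, Or.inl ⟨b, c⟩]) (fun i b => ?_)
  obtain ⟨j, j0, j1, j2⟩ := h.cyc.1.win (by omega) e i
  have ej : ∀ t, f t = f (j + (t - i)) := fun t => by rw [j2]; congr 1; ring
  have b1 : j % 3 = 0 := by
    have := b.1
    rwa [ej, sub_self, add_zero, h.hx] at this
  have b2 : j ≠ e := fun c => b.2 (by rw [ej, sub_self, add_zero, c])
  have b3 := (h.hx i).1 b.1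
  by_cases c : j = e - 3 + (ord V - 1)
  · refine arcOK_two (a1 := i + 1) (b1 := i + 1) (a2 := i + 5) (b2 := i + 5) h.cyc.1
      (f (i + 2)) (f (i + 4)) (by omega) (fun t t0 t1 y => ?_) (fun t x t0 t1 y => ?_)
      (fun t x t0 t1 y => ?_)
    · have := (h.hx t).1 y.1
      exact y.2 (by rw [ej]; exact h.per' (by omega))
    · rw [ej] at y
      rcases na _ x (by omega) (by omega) (by omega) y with z | z
      · exact Or.inr (Or.inl z)
      · right; right; rw [z, ej (i + 2)]; congr 1; omega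
    · rw [ej, h.per' (show j + (t - i) = e + 2 + (ord V - 1) by omega)] at y
      rcases nb' _ x (by omega) (by omega) (by omega) y with z | z
      · exact Or.inr (Or.inl z)
      · right; right; rw [z, ej (i + 4)]; exact (h.per' (by omega)).symm
  · refine arcOK_one (j := i + 3) (by omega) (fun t t0 t1 y => ?_) (fun t x t0 t1 y => ?_)
    · have := (h.hx t).1 y.1
      omega
    rw [ej] at y
    obtain rfl | rfl : t = i + 1 ∨ t = i + 2 := by omega
    · rcases na _ x (by omega) (by omega) (by omega) y with z | z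
      · exact Or.inl z
      · exact Or.inr ⟨i + 2, by omega, by omega, by rw [z, ej (i + 2)]; congr 1; omega⟩
    · rcases nb' _ x (by omega) (by omega) (by omega) y with z | z
      · exact Or.inl z
      · exact Or.inr ⟨i + 1, by omega, by omega, by rw [z, ej (i + 1)]; congr 1; omega⟩

/-- A chord into a predecessor makes the vertex before it the missing vertex of a cycle. -/
lemma N1.up (h : N1 G f v d) {p q : ℤ} (hp : p % 3 = 1) (hq : q % 3 = 2) (h1 : p + 3 ≤ q)
    (h2 : q < p + (ord V - 1)) (a : G.Adj (f p) (f q)) :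
    ((nb G (f (q - 1))).card : ℤ) ≤ d ∧
      ∀ u, u % 3 = 2 → q ≤ u → u < p + (ord V - 1) → G.Adj (f (q - 1)) (f u) := by
  have hn := h.hn
  obtain ⟨F, hF, e1, e2⟩ := h.two p (q - 1) (q - 2) p q (p - 1 + (ord V - 1)) (by omega) (by omega)
    (by simp only [ok, inw, dis, dis1, sdis, tot, slen, and_true]; omega) a (h.x (by omega))
    (h.x (by omega))
  refine ⟨(O1.mk h.ctx hF h.sp).deg_v, fun u u0 u1 u2 => ?_⟩
  have b : G.Adj (f (q - 1)) (F 0) := by
    rw [e1 0 (q - 1 - 1) le_rfl (by omega) (by omega)]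
    simpa using (h.cyc.1.adj (q - 1 - 1)).symm
  have := (h.tee hF b ((u - p - 1) / 3) (by omega) (by omega)).resolve_right (by omega)
  rwa [e2 _ u (by omega) (by omega) (by omega)] at this

lemma N1.dn (h : N1 G f v d) {p q : ℤ} (hp : p % 3 = 1) (hq : q % 3 = 2) (h1 : p + 3 ≤ q)
    (h2 : q < p + (ord V - 1)) (a : G.Adj (f p) (f q)) :
    ((nb G (f (p + 1))).card : ℤ) ≤ d ∧
      ∀ u, u % 3 = 0 → p < u → u < q → G.Adj (f (p + 1)) (f u) := by
  have hn := h.hn
  obtain ⟨F, hF, e1, e2⟩ := h.two' (p + 1) (p + 1) (p + 2) q (p + (ord V - 1)) (q + 1) (by omega)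
    (by omega) (by simp only [ok, inw, dis, dis1, sdis, tot, slen, and_true]; omega)
    (by rw [h.per]; exact a.symm) (h.x (by omega)) (h.x (by omega))
  refine ⟨(O1.mk h.ctx hF h.sp).deg_v, fun u u0 u1 u2 => ?_⟩
  have b : G.Adj (f (p + 1)) (F 0) := by
    rw [e1 0 (p + 1 + 1) le_rfl (by omega) (by omega)]
    exact h.cyc.1.adj _
  have := (h.tee hF b ((u - p - 2) / 3) (by omega) (by omega)).resolve_right (by omega)
  rwa [e1 _ u (by omega) (by omega) (by omega)] at this

lemma N1.far1 (h : N1 G f v d) {p q : ℤ} (hp : p % 3 = 1) (hq : q % 3 = 2) (h1 : p + 3 ≤ q)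
    (h2 : q + 2 < p + (ord V - 1)) (a : G.Adj (f p) (f q)) :
    q + 5 = p + (ord V - 1) ∧ G.Adj (f (q - 1)) (f (q + 3)) := by
  have hn := h.hn
  have h3 := (h.up hp hq h1 (by omega) a).2
  have a1 := h3 (q + 3) (by omega) (by omega) (by omega)
  refine ⟨?_, a1⟩
  by_contra c
  have a2 := h3 (q + 6) (by omega) (by omega) (by omega)
  have a3 := (h.dn (by omega) (by omega) (by omega) (by omega) a2).2 (q + 3 + 1) (by omega)
    (by omega) (by omega)
  have := h.e2' (p := q - 1) (s := q + 1) (q := q + 3)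
    ⟨by omega, by omega, by omega, h.x (by omega), h.x (by omega), h.x (by omega), a1⟩
  rw [add_sub_cancel_right] at this
  rw [sub_add_cancel] at a3
  exact this a3

lemma N1.far2 (h : N1 G f v d) {p q : ℤ} (hp : p % 3 = 1) (hq : q % 3 = 2) (h1 : p + 3 ≤ q)
    (h2 : q + 2 < p + (ord V - 1)) (a : G.Adj (f p) (f q)) :
    d = 3 ∧ ∀ k, k % 3 = 1 → G.Adj (f k) (f (k + 4)) := by
  have hn := h.hn
  obtain ⟨e1, a1⟩ := h.far1 hp hq h1 h2 a
  obtain ⟨e2, a2⟩ := h.far1 (by omega) (by omega) (by omega) (by omega) a1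
  refine ⟨by omega, fun k hk => ?_⟩
  obtain ⟨j, j0, j1, j2⟩ := h.cyc.1.win (by omega) p k
  have b0 : f j = f k := by simpa using j2 0
  have b1 : (j + 2) % 3 = 0 := by rw [← h.hx, j2, h.hx]; omega
  rw [← j2, ← b0]
  obtain rfl | rfl | rfl : j = p ∨ j = q - 1 ∨ j = q + 3 - 1 := by omega
  · rwa [show j + 4 = q by omega]
  · rwa [show q - 1 + 4 = q + 3 by ring]
  · rwa [show q + 3 - 1 + 4 = q + 3 + 3 by ring]

/-- The vertices of the Petersen graph. -/
abbrev PV := {s : Finset (Fin 5) // s.card = 2}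

def lab : Fin 10 → PV :=
  ![⟨{2, 3}, by decide⟩, ⟨{0, 4}, by decide⟩, ⟨{1, 3}, by decide⟩, ⟨{2, 4}, by decide⟩,
    ⟨{0, 3}, by decide⟩, ⟨{1, 2}, by decide⟩, ⟨{3, 4}, by decide⟩, ⟨{0, 2}, by decide⟩,
    ⟨{1, 4}, by decide⟩, ⟨{0, 1}, by decide⟩]

def tbl : Fin 10 → Finset (Fin 10) :=
  ![{1, 8, 9}, {0, 2, 5}, {1, 3, 7}, {2, 4, 9}, {3, 5, 8}, {1, 4, 6}, {5, 7, 9}, {2, 6, 8},
    {0, 4, 7}, {0, 3, 6}]

lemma lab_bij : Function.Bijective lab := by
  rw [Fintype.bijective_iff_injective_and_card]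
  exact ⟨by decide, by decide⟩

lemma lab_adj : ∀ i j : Fin 10, j ∈ tbl i ↔
    (lab i ≠ lab j ∧ (Disjoint (lab i).1 (lab j).1 ∨ Disjoint (lab j).1 (lab i).1)) := by decide

lemma tbl_card : ∀ i : Fin 10, (tbl i).card = 3 := by decide

lemma pet_iso (e : Fin 10 → V) (he : Function.Bijective e)
    (h1 : ∀ i, ∀ j ∈ tbl i, G.Adj (e i) (e j)) (h2 : ∀ w, (nb G w).card ≤ 3) :
    Nonempty (G ≃g SimpleGraph.fromRel (fun s t : PV => Disjoint s.1 t.1)) := by
  have h3 : ∀ i j, G.Adj (e i) (e j) ↔ j ∈ tbl i := by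
    intro i j
    refine ⟨fun a => ?_, h1 i j⟩
    have h4 : (tbl i).image e = nb G (e i) := by
      apply Finset.eq_of_subset_of_card_le
      · intro w hw
        obtain ⟨k, hk, rfl⟩ := Finset.mem_image.1 hw
        exact mem_nb.2 (h1 i k hk)
      · rw [Finset.card_image_of_injective _ he.1, tbl_card]
        exact h2 _
    rw [← mem_nb, ← h4] at a
    obtain ⟨k, hk, x⟩ := Finset.mem_image.1 a
    exact he.1 x ▸ hk
  refine ⟨⟨(Equiv.ofBijective e he).symm.trans (Equiv.ofBijective lab lab_bij), ?_⟩⟩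
  intro a b
  obtain ⟨i, rfl⟩ := he.2 a
  obtain ⟨j, rfl⟩ := he.2 b
  have x : ∀ i, (Equiv.ofBijective e he).symm (e i) = i := fun i =>
    (Equiv.ofBijective e he).symm_apply_apply i
  simp only [Equiv.trans_apply, x, Equiv.ofBijective_apply, fromRel_adj, h3, lab_adj]

lemma four {w a b c z : V} (h : (nb G w).card ≤ 3) (h1 : G.Adj w a) (h2 : G.Adj w b)
    (h3 : G.Adj w c) (h4 : G.Adj w z) (n1 : a ≠ b) (n2 : a ≠ c) (n3 : b ≠ c) :
    z = a ∨ z = b ∨ z = c := by
  have h5 : ({a, b, c} : Finset V) = nb G w := by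
    apply Finset.eq_of_subset_of_card_le
    · intro x hx
      simp only [Finset.mem_insert, Finset.mem_singleton] at hx
      rcases hx with rfl | rfl | rfl <;> simpa
    · rwa [Finset.card_eq_three.2 ⟨a, b, c, n1, n2, n3, rfl⟩]
  have := mem_nb.2 h4
  rw [← h5] at this
  simpa using this

lemma N1.pet (h : N1 G f v 3) (hc : ∀ k, k % 3 = 1 → G.Adj (f k) (f (k + 4))) :
    (∀ w, (nb G w).card ≤ 3) ∧
      Nonempty (G ≃g SimpleGraph.fromRel (fun s t : PV => Disjoint s.1 t.1)) := by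
  have hn := h.hn
  have da : ∀ k, k % 3 = 1 → (nb G (f k)).card ≤ 3 := fun k hk => by
    have := (h.up (p := k - 3) (q := k - 3 + 4) (by omega) (by omega) (by omega) (by omega)
      (hc _ (by omega))).1
    rw [show k - 3 + 4 - 1 = k by ring] at this
    omega
  have db : ∀ k, k % 3 = 2 → (nb G (f k)).card ≤ 3 := fun k hk => by
    have := (h.dn (p := k - 1) (q := k - 1 + 4) (by omega) (by omega) (by omega) (by omega)
      (hc _ (by omega))).1
    rw [sub_add_cancel] at this
    omega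
  have xx : ∀ k, k % 3 = 0 → ¬ G.Adj (f k) (f (k + 3)) := fun k hk a =>
    h.seg k [(k, k), (k + 3, k + 4), (k + 8, k + 7), (k + 2, k + 1), (k + 5, k + 6)]
      (by simp only [ok, inw, dis, dis1, sdis, tot, slen, and_true]; omega)
      ⟨a, by simpa [add_assoc] using hc (k + 4) (by omega),
        by rw [← h.per' (show k + 7 + 4 = k + 2 + (ord V - 1) by omega)]; exact hc _ (by omega),
        by simpa [add_assoc] using hc (k + 1) (by omega), trivial⟩ (h.x hk)
      (h.x (by simp only [lst]; omega))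
  have dx : ∀ k, k % 3 = 0 → (nb G (f k)).card ≤ 3 := fun k hk => by
    refine (Finset.card_le_card (t := {v, f (k + 1), f (k + 8)}) fun x hx => ?_).trans
      Finset.card_le_three
    rw [mem_nb] at hx
    simp only [Finset.mem_insert, Finset.mem_singleton]
    rcases h.surj k x with rfl | ⟨t, t0, t1, rfl⟩
    · exact Or.inl rfl
    by_cases e1 : t = k + 1
    · exact Or.inr (Or.inl (by rw [e1]))
    by_cases e2 : t = k + 8
    · exact Or.inr (Or.inr (by rw [e2]))
    exfalso
    by_cases e3 : t % 3 = 0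
    · obtain rfl | rfl | rfl : t = k ∨ t = k + 3 ∨ t = k + 6 := by omega
      · exact G.irrefl hx
      · exact xx k hk hx
      · refine xx (k + 6) (by omega) ?_
        rw [h.per' (show k + 6 + 3 = k + (ord V - 1) by omega)]
        exact hx.symm
    have a1 := h.cyc.1.adj t
    have a2 : G.Adj (f t) (f (t - 1)) := by simpa using (h.cyc.1.adj (t - 1)).symm
    by_cases e4 : t % 3 = 1
    · rcases four (da t e4) a1 a2 (hc t e4) hx.symm (h.ne (by omega) (by omega) (by omega))
        (h.ne (by omega) (by omega) (by omega)) (h.ne (by omega) (by omega) (by omega))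
        with y | y | y
      · exact h.ne (by omega) (by omega) (by omega) y
      · exact h.ne (by omega) (by omega) (by omega) y
      · have := (h.hx _).1 (y ▸ h.x hk)
        omega
    · rcases four (db t (by omega)) a1 a2 (c := f (t - 4))
        (by simpa using (hc (t - 4) (by omega)).symm) hx.symm
        (h.ne (by omega) (by omega) (by omega))
        (h.ne (by omega) (by omega) (by omega)) (h.ne (by omega) (by omega) (by omega))
        with y | y | y
      · exact h.ne (by omega) (by omega) (by omega) y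
      · exact h.ne (by omega) (by omega) (by omega) y
      · have := (h.hx _).1 (y ▸ h.x hk)
        omega
  have dg : ∀ w, (nb G w).card ≤ 3 := fun w => by
    rcases h.surj 0 w with rfl | ⟨t, -, -, rfl⟩
    · have := h.deg_v
      omega
    · obtain e | e | e : t % 3 = 0 ∨ t % 3 = 1 ∨ t % 3 = 2 := by omega
      exacts [dx t e, da t e, db t e]
  refine ⟨dg, pet_iso ![f 0, f 1, f 2, f 3, f 4, f 5, f 6, f 7, f 8, v] ?_ ?_ dg⟩
  · rw [Fintype.bijective_iff_surjective_and_card]
    refine ⟨fun w => ?_, by unfold ord at hn; simp only [Fintype.card_fin]; omega⟩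
    rcases h.surj 0 w with rfl | ⟨t, t0, t1, rfl⟩
    · exact ⟨9, rfl⟩
    · obtain rfl | rfl | rfl | rfl | rfl | rfl | rfl | rfl | rfl : t = 0 ∨ t = 1 ∨ t = 2 ∨ t = 3 ∨
        t = 4 ∨ t = 5 ∨ t = 6 ∨ t = 7 ∨ t = 8 := by omega
      exacts [⟨0, rfl⟩, ⟨1, rfl⟩, ⟨2, rfl⟩, ⟨3, rfl⟩, ⟨4, rfl⟩, ⟨5, rfl⟩, ⟨6, rfl⟩, ⟨7, rfl⟩,
        ⟨8, rfl⟩]
  · have a01 : G.Adj (f 0) (f 1) := h.cyc.1.adj 0
    have a12 : G.Adj (f 1) (f 2) := h.cyc.1.adj 1
    have a23 : G.Adj (f 2) (f 3) := h.cyc.1.adj 2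
    have a34 : G.Adj (f 3) (f 4) := h.cyc.1.adj 3
    have a45 : G.Adj (f 4) (f 5) := h.cyc.1.adj 4
    have a56 : G.Adj (f 5) (f 6) := h.cyc.1.adj 5
    have a67 : G.Adj (f 6) (f 7) := h.cyc.1.adj 6
    have a78 : G.Adj (f 7) (f 8) := h.cyc.1.adj 7
    have a80 : G.Adj (f 8) (f 0) := by
      rw [← h.per' (show 8 + 1 = 0 + (ord V - 1) by omega)]; exact h.cyc.1.adj 8
    have a15 : G.Adj (f 1) (f 5) := hc 1 rfl
    have a48 : G.Adj (f 4) (f 8) := hc 4 rfl
    have a72 : G.Adj (f 7) (f 2) := by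
      rw [← h.per' (show 7 + 4 = 2 + (ord V - 1) by omega)]; exact hc 7 rfl
    have v0 : G.Adj v (f 0) := h.x rfl
    have v3 : G.Adj v (f 3) := h.x rfl
    have v6 : G.Adj v (f 6) := h.x rfl
    intro i j hj
    fin_cases i <;> simp only [tbl] at hj <;> simp at hj <;> rcases hj with rfl | rfl | rfl <;>
      first | assumption | (apply Adj.symm; assumption)

theorem O1.g1 (h : O1 G f v d) (hn : ord V = 3 * d + 1) :
    ord V = 10 ∧ (∀ w, (nb G w).card ≤ 3) ∧
      Nonempty (G ≃g SimpleGraph.fromRel (fun s t : PV => Disjoint s.1 t.1)) := by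
  obtain ⟨f, h1, h2⟩ := h.norm1 hn
  have h3 : N1 G f v d := ⟨h1, hn, h2⟩
  by_cases hf : NoFar G f v
  · exact (h3.near hf).elim
  unfold NoFar at hf
  push Not at hf
  obtain ⟨p, q, a, b, c, e, g⟩ := hf
  rw [h2] at a b
  obtain ⟨rfl, k⟩ := h3.far2 (by omega) (by omega) c e g
  exact ⟨by omega, h3.pet k⟩

end Pool.Agent.P.MP_422cad_co
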