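import Pool.Agent.P.MP_422cad_co.One

set_option autoImplicit false

namespace Pool.Agent.P.MP_422cad_co

open SimpleGraph Classical

variable {V : Type} [Fintype V] {G : SimpleGraph V} {f : ℤ → V} {v : V} {d : ℤ}

lemma far_xp (h : N2 G f v d) {t : ℤ} (s : ℤ) (e : t = 3 * s + 1) (s0 : 1 ≤ s) (s1 : s ≤ d) :
    G.Adj v (f t) := (h.hx t (by omega) (by omega)).2 (by omega)

lemma far_xn (h : N2 G f v d) {t : ℤ} (s : ℤ) (e : t = 3 * s) (s0 : s ≤ 0) (s1 : -d < s) :
    G.Adj v (f t) := by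
  have := h.n3
  have := h.hn
  exact (h.hx t (by omega) (by omega)).2 (by omega)

lemma far_adj (h : N2 G f v d) {s t : ℤ} (e : t = s + 1) : G.Adj (f s) (f t) := by
  rw [e]
  exact h.cyc.1.adj s

lemma far_per (h : N2 G f v d) {i j : ℤ} (e : j = i + (3 * d + 1)) : f j = f i :=
  h.per' (by have := h.hn; omega)

/-- A chord that jumps over the long segment forces the neighbours of the first vertex of the
last segment. -/
lemma far_tight (h : N2 G f v d) {i j : ℤ} (i0 : i ≤ 0) (j1 : 1 ≤ j) (hij : j - i < d)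
    (a : G.Adj (f (3 * i + 1)) (f (3 * j + 3))) (s : ℤ) (s0 : j ≤ s) (s1 : s < i + d) :
    G.Adj (f (3 * j + 2)) (f (3 * s + 3)) := by
  have hn := h.hn
  have x1 : G.Adj v (f (3 * j + 1)) := far_xp h j rfl j1 (by omega)
  have x2 : G.Adj v (f (3 * i)) := far_xn h i rfl i0 (by omega)
  obtain ⟨F, hF, e1, e2⟩ := h.two (3 * i + 1) (3 * j + 2) (3 * j + 1) (3 * i + 1) (3 * j + 3)
    (3 * i + (3 * d + 1)) (by omega) (by omega)
    (by simp only [ok, inw, dis, dis1, sdis, tot, slen, and_true]; omega) a x1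
    (by rwa [far_per h rfl])
  have b0 : G.Adj (f (3 * j + 2)) (F 0) := by
    rw [e1 0 (3 * j + 1) le_rfl (by omega) (by omega)]
    exact (far_adj h (by omega)).symm
  have b1 : ¬ G.Adj (f (3 * j + 2)) (F (0 + 3 * (j - i))) := by
    rw [e1 _ (3 * i + 1) (by omega) (by omega) (by omega)]
    intro b
    exact h.aa (p := 3 * i + 1) (p' := 3 * j + 2) (by omega) (by omega)
      (by rwa [show 3 * i + 1 - 1 = 3 * i by ring])
      (by rwa [show 3 * j + 2 - 1 = 3 * j + 1 by ring]) b.symm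
  have := h.tee_up hF b0 (by omega) b1 (s - i) (by omega) (by omega)
  rwa [e2 _ (3 * s + 3) (by omega) (by omega) (by omega)] at this

lemma far_s1 (h : N2 G f v d) (hd : 4 ≤ d) : ¬ G.Adj (f 1) (f 6) := fun a => by
  have hn := h.hn
  have a' : G.Adj (f (3 * 0 + 1)) (f (3 * 1 + 3)) := a
  have b9 : G.Adj (f 5) (f 9) := far_tight h le_rfl le_rfl (by omega) a' 2 (by omega) (by omega)
  have b12 : G.Adj (f 5) (f 12) := far_tight h le_rfl le_rfl (by omega) a' 3 (by omega) (by omega)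
  have x4 : G.Adj v (f 4) := far_xp h 1 rfl (by omega) (by omega)
  have x7 : G.Adj v (f 7) := far_xp h 2 rfl (by omega) (by omega)
  have x10 : G.Adj v (f 10) := far_xp h 3 rfl (by omega) (by omega)
  have x13 : G.Adj v (f 13) := far_xp h 4 rfl (by omega) (by omega)
  obtain ⟨F, hF, e1, e2⟩ := h.two' 6 6 7 12 (5 + (3 * d + 1)) 13 (by omega) (by omega)
    (by simp only [ok, inw, dis, dis1, sdis, tot, slen, and_true]; omega)
    (by rw [far_per h rfl]; exact b12.symm) x7 x13
  have b0 : G.Adj (f 6) (F 0) := by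
    rw [e1 0 7 le_rfl (by omega) (by omega)]
    exact far_adj h rfl
  have b6 : G.Adj (f 6) (F 6) := by
    rw [e2 6 (5 + (3 * d + 1)) (by omega) (by omega) (by omega), far_per h rfl]
    exact (far_adj h (by omega)).symm
  have b7 : ¬ G.Adj (f 6) (F (0 + 3 * 2 + 1)) := h.sp1 hF 6 b6
  have b3 := h.tee_dn hF b0 (by omega) b7 1 (by omega) (by omega)
  rw [e1 _ 10 (by omega) (by omega) (by omega)] at b3
  have J : Jump G f v 5 7 9 := ⟨by omega, by omega, by omega, x4, x10, x7, b9⟩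
  exact h.e2' J b3

lemma far_s2 (h : N2 G f v d) (hd : 4 ≤ d) {j : ℤ} (j2 : 2 ≤ j) (jd : j < d) :
    ¬ G.Adj (f (3 * j + 2)) (f 2) := fun a => by
  have hn := h.hn
  have x0 : G.Adj v (f 0) := far_xn h 0 rfl le_rfl (by omega)
  have x4 : G.Adj v (f 4) := far_xp h 1 rfl (by omega) (by omega)
  obtain ⟨F, hF, e1, e2⟩ := h.two 1 1 (3 * d + 1) (3 * j + 2) 2 (3 * j + 1) (by omega) (by omega)
    (by simp only [ok, inw, dis, dis1, sdis, tot, slen, and_true]; omega) a
    (far_xp h d rfl (by omega) le_rfl) (far_xp h j rfl (by omega) (by omega))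
  have b0 : G.Adj (f 1) (F 0) := by
    rw [e1 0 (3 * d + 1) le_rfl (by omega) (by omega), far_per h (i := 0) (j := 3 * d + 1) (by omega)]
    exact (far_adj h (by omega)).symm
  have b1 : ¬ G.Adj (f 1) (F (0 + 3 * (d - j + 1))) := by
    rw [e2 _ 5 (by omega) (by omega) (by omega)]
    exact h.aa (p := 1) (p' := 5) (by omega) (by omega) x0 x4
  have := h.tee_up hF b0 (by omega) b1 (d - j + 1) le_rfl (by omega)
  rw [e2 _ 6 (by omega) (by omega) (by omega)] at this
  exact far_s1 h hd this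

lemma far_f2a (h : N2 G f v d) (hd : 4 ≤ d) {i j : ℤ} (i1 : 1 ≤ i) (hij : i < j) (jd : j < d)
    (a : G.Adj (f (3 * i + 2)) (f (3 * j + 3))) : G.Adj (f (3 * j + 2)) (f 3) := by
  have hn := h.hn
  have x1 : G.Adj v (f (3 * j + 1)) := far_xp h j rfl (by omega) (by omega)
  have x2 : G.Adj v (f (3 * i + 1)) := far_xp h i rfl i1 (by omega)
  obtain ⟨F, hF, e1, e2⟩ := h.two (3 * i + 2) (3 * j + 2) (3 * j + 1) (3 * i + 2) (3 * j + 3)
    (3 * i + 1 + (3 * d + 1)) (by omega) (by omega)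
    (by simp only [ok, inw, dis, dis1, sdis, tot, slen, and_true]; omega) a x1
    (by rwa [far_per h rfl])
  have b0 : G.Adj (f (3 * j + 2)) (F 0) := by
    rw [e1 0 (3 * j + 1) le_rfl (by omega) (by omega)]
    exact (far_adj h (by omega)).symm
  have b1 : ¬ G.Adj (f (3 * j + 2)) (F (0 + 3 * (d - i))) := by
    rw [e2 _ (2 + (3 * d + 1)) (by omega) (by omega) (by omega), far_per h rfl]
    exact far_s2 h hd (by omega) jd
  have := h.tee_up hF b0 (by omega) b1 (d - i) le_rfl (by omega)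
  rwa [e2 _ (3 + (3 * d + 1)) (by omega) (by omega) (by omega), far_per h rfl] at this

lemma far_f2b (h : N2 G f v d) (hd : 4 ≤ d) {i j : ℤ} (i1 : 1 ≤ i) (hij : i < j) (jd : j < d)
    (a : G.Adj (f (3 * i + 2)) (f (3 * j + 3))) : G.Adj (f 1) (f (3 * i + 3)) := by
  have := far_f2a h.refl hd (i := d - j) (j := d - i) (by omega) (by omega) (by omega) (by
    show G.Adj (f (4 - (3 * (d - j) + 2))) (f (4 - (3 * (d - i) + 3)))
    rw [← far_per h (i := 4 - (3 * (d - j) + 2)) (j := 3 * j + 3) (by omega),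
      ← far_per h (i := 4 - (3 * (d - i) + 3)) (j := 3 * i + 2) (by omega)]
    exact a.symm)
  have b : G.Adj (f (4 - (3 * (d - i) + 2))) (f 1) := this
  rw [← far_per h (i := 4 - (3 * (d - i) + 2)) (j := 3 * i + 3) (by omega)] at b
  exact b.symm

lemma far_f2 (h : N2 G f v d) (hd : 4 ≤ d) {i j : ℤ} (i1 : 1 ≤ i) (hij : i < j) (jd : j < d) :
    ¬ G.Adj (f (3 * i + 2)) (f (3 * j + 3)) := fun a => by
  have b1 : G.Adj (f (3 * 0 + 1)) (f (3 * i + 3)) := far_f2b h hd i1 hij jd a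
  have b2 := far_tight h le_rfl i1 (by omega) b1 (d - 1) (by omega) (by omega)
  have b3 := far_f2a h hd i1 (by omega) (by omega) b2
  refine far_s1 h.refl hd ?_
  show G.Adj (f 3) (f (-2))
  rw [← far_per h (i := -2) (j := 3 * (d - 1) + 2) (by omega)]
  exact b3.symm

/-- For `d = 3` no vertex outside `N(v)` has only two neighbours. -/
lemma far_nb (h : N2 G f v 3) (m a b : ℤ) (hv : ¬ G.Adj v (f m))
    (H : ∀ t, 0 ≤ t → t < 10 → G.Adj (f m) (f t) → t = a ∨ t = b) : False := by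
  have hn := h.hn
  have h1 := h.ctx.deg_le (f m) {f a, f b} (by
    intro x hx
    rcases h.surj 0 x with rfl | ⟨t, t0, t1, rfl⟩
    · exact absurd hx.symm hv
    · rcases H t t0 (by omega) hx with rfl | rfl <;> simp)
  have h2 := Finset.card_le_two (a := f a) (b := f b)
  omega

lemma far_ten (t : ℤ) (t0 : 0 ≤ t) (t1 : t < 10) : t = 0 ∨ t = 1 ∨ t = 2 ∨ t = 3 ∨ t = 4 ∨
    t = 5 ∨ t = 6 ∨ t = 7 ∨ t = 8 ∨ t = 9 := by omega

lemma far_six (h : N2 G f v 3) (P : G.Adj (f 5) (f 9)) :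
    G.Adj (f 6) (f 2) ∨ G.Adj (f 6) (f 1) := by
  have hn := h.hn
  have x4 : G.Adj v (f 4) := far_xp h 1 rfl (by omega) (by omega)
  have x7 : G.Adj v (f 7) := far_xp h 2 rfl (by omega) (by omega)
  have x10 : G.Adj v (f 10) := far_xp h 3 rfl (by omega) (by omega)
  have p10 : f 10 = f 0 := far_per h rfl
  have J : Jump G f v 5 7 9 := ⟨by omega, by omega, by omega, x4, x10, x7, P⟩
  by_contra c
  push Not at c
  refine far_nb h 6 5 7 (by rw [h.hx 6 (by omega) (by omega)]; omega) fun t t0 t1 a => ?_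
  obtain rfl | rfl | rfl | rfl | rfl | rfl | rfl | rfl | rfl | rfl := far_ten t t0 t1
  · exact absurd (p10 ▸ a) (h.e2' J)
  · exact absurd a c.2
  · exact absurd a c.1
  · exact absurd a.symm (h.bb (q := 3) (q' := 6) (by omega) (by omega) x4 x7)
  · exact absurd a (h.e1' J)
  · exact Or.inl rfl
  · exact absurd rfl a.ne
  · exact Or.inr rfl
  · exact absurd a (h.ell' J)
  · exact absurd a (h.bb (q := 6) (q' := 9) (by omega) (by omega) x7 x10)

lemma far_refl_P (h : N2 G f v 3) (P : G.Adj (f 5) (f 9)) :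
    G.Adj (f (4 - 5)) (f (4 - 9)) := by
  rw [← far_per h (i := 4 - 5) (j := 9) (by omega), ← far_per h (i := 4 - 9) (j := 5) (by omega)]
  exact P.symm

lemma far_eight (h : N2 G f v 3) (P : G.Adj (f 5) (f 9)) :
    G.Adj (f 8) (f 2) ∨ G.Adj (f 8) (f 3) := by
  have : G.Adj (f (-2)) (f 2) ∨ G.Adj (f (-2)) (f 3) := far_six h.refl (far_refl_P h P)
  rwa [← far_per h (i := -2) (j := 8) (by omega)] at this

/-- If `f 8` is adjacent to `f 2` and `f 6` is not adjacent to `f 1` then `f 1` is adjacent to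
`f 4`. -/
lemma far_one_four (h : N2 G f v 3) (a8 : G.Adj (f 8) (f 2)) (n6 : ¬ G.Adj (f 6) (f 1)) :
    G.Adj (f 1) (f 4) := by
  have hn := h.hn
  have x0 : G.Adj v (f 0) := far_xn h 0 rfl le_rfl (by omega)
  have x4 : G.Adj v (f 4) := far_xp h 1 rfl (by omega) (by omega)
  have x7 : G.Adj v (f 7) := far_xp h 2 rfl (by omega) (by omega)
  have x10 : G.Adj v (f 10) := far_xp h 3 rfl (by omega) (by omega)
  by_contra c
  refine far_nb h 1 0 2 (by rw [h.hx 1 (by omega) (by omega)]; omega) fun t t0 t1 a => ?_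
  obtain rfl | rfl | rfl | rfl | rfl | rfl | rfl | rfl | rfl | rfl := far_ten t t0 t1
  · exact Or.inl rfl
  · exact absurd rfl a.ne
  · exact Or.inr rfl
  · exact (h.lamA (p := 1) (p' := 8) (z := 2) (by omega) (by omega) (by omega) x0 x7 a a8).elim
  · exact absurd a c
  · exact absurd a (h.aa (p := 1) (p' := 5) (by omega) (by omega) x0 x4)
  · exact absurd a.symm n6
  · exact absurd a (h.r1 (p := 1) (p' := 8) (by omega) (by omega) x0 x7 a8)
  · exact absurd a (h.aa (p := 1) (p' := 8) (by omega) (by omega) x0 x7)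
  · have J : Jump G f v 1 7 9 := ⟨by omega, by omega, by omega, x0, x10, x7, a⟩
    exact absurd a8 (h.ell J)

lemma far_case8 (h : N2 G f v 3) (P : G.Adj (f 5) (f 9)) : ¬ G.Adj (f 8) (f 2) := fun a8 => by
  have hn := h.hn
  have x0 : G.Adj v (f 0) := far_xn h 0 rfl le_rfl (by omega)
  have x4 : G.Adj v (f 4) := far_xp h 1 rfl (by omega) (by omega)
  have x7 : G.Adj v (f 7) := far_xp h 2 rfl (by omega) (by omega)
  have x10 : G.Adj v (f 10) := far_xp h 3 rfl (by omega) (by omega)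
  have p12 : f 12 = f 2 := far_per h rfl
  have p13 : f 13 = f 3 := far_per h rfl
  have p14 : f 14 = f 4 := far_per h rfl
  have n83 : ¬ G.Adj (f 8) (f 3) := fun b =>
    h.seg 5 [(7, 5), (9, 12), (8, 8), (13, 14)]
      (by simp only [ok, inw, dis, dis1, sdis, tot, slen, and_true]; omega)
      ⟨P, by rw [p12]; exact a8.symm, by rw [p13]; exact b, trivial⟩ x7
      (by rw [show lst [((7 : ℤ), (5 : ℤ)), (9, 12), (8, 8), (13, 14)] = 14 from rfl, p14]
          exact x4)
  by_cases a6 : G.Adj (f 6) (f 1)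
  · have J : Jump G f v 1 4 6 := ⟨by omega, by omega, by omega, x0, x7, x4, a6.symm⟩
    refine far_nb h 3 2 4 (by rw [h.hx 3 (by omega) (by omega)]; omega) fun t t0 t1 a => ?_
    obtain rfl | rfl | rfl | rfl | rfl | rfl | rfl | rfl | rfl | rfl := far_ten t t0 t1
    · exact absurd a (h.e1' J)
    · exact (h.lamA (p := 1) (p' := 8) (z := 2) (by omega) (by omega) (by omega) x0 x7 a.symm
        a8).elim
    · exact Or.inl rfl
    · exact absurd rfl a.ne
    · exact Or.inr rfl
    · exact absurd a (h.ell' J)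
    · exact absurd a (h.bb (q := 3) (q' := 6) (by omega) (by omega) x4 x7)
    · exact absurd a (h.e2' J)
    · exact absurd a.symm n83
    · exact absurd a (h.bb (q := 3) (q' := 9) (by omega) (by omega) x4 x10)
  · have a62 := (far_six h P).resolve_right a6
    have a14 := far_one_four h a8 a6
    have a30 : G.Adj (f 3) (f 0) := far_one_four h.refl
      (by
        show G.Adj (f (-4)) (f 2)
        rwa [← far_per h (i := -4) (j := 6) (by omega)])
      (by
        show ¬ G.Adj (f (-2)) (f 3)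
        rwa [← far_per h (i := -2) (j := 8) (by omega)])
    exact h.seg 0 [(7, 9), (5, 6), (2, 1), (4, 3), (0, 0)]
      (by simp only [ok, inw, dis, dis1, sdis, tot, slen, and_true]; omega)
      ⟨P.symm, a62, a14, a30, trivial⟩ x7 x0

lemma far_P (h : N2 G f v 3) : ¬ G.Adj (f 5) (f 9) := fun P => by
  have hn := h.hn
  have x0 : G.Adj v (f 0) := far_xn h 0 rfl le_rfl (by omega)
  have x4 : G.Adj v (f 4) := far_xp h 1 rfl (by omega) (by omega)
  have x7 : G.Adj v (f 7) := far_xp h 2 rfl (by omega) (by omega)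
  have x10 : G.Adj v (f 10) := far_xp h 3 rfl (by omega) (by omega)
  have p12 : f 12 = f 2 := far_per h rfl
  have p13 : f 13 = f 3 := far_per h rfl
  have p14 : f 14 = f 4 := far_per h rfl
  have n82 := far_case8 h P
  have n62 : ¬ G.Adj (f 6) (f 2) := by
    have : ¬ G.Adj (f (-4)) (f 2) := far_case8 h.refl (far_refl_P h P)
    rwa [← far_per h (i := -4) (j := 6) (by omega)] at this
  have a83 := (far_eight h P).resolve_left n82
  have a61 := (far_six h P).resolve_left n62
  refine far_nb h 2 1 3 (by rw [h.hx 2 (by omega) (by omega)]; omega) fun t t0 t1 a => ?_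
  obtain rfl | rfl | rfl | rfl | rfl | rfl | rfl | rfl | rfl | rfl := far_ten t t0 t1
  · exact (h.seg 0 [(4, 2), (0, 1), (6, 5), (9, 7)]
      (by simp only [ok, inw, dis, dis1, sdis, tot, slen, and_true]; omega)
      ⟨a, a61.symm, P, trivial⟩ x4 x7).elim
  · exact Or.inl rfl
  · exact absurd rfl a.ne
  · exact Or.inr rfl
  · exact (h.seg 0 [(0, 2), (4, 3), (8, 9), (5, 7)]
      (by simp only [ok, inw, dis, dis1, sdis, tot, slen, and_true]; omega)
      ⟨a, a83.symm, P.symm, trivial⟩ x0 x7).elim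
  · have J : Jump G f v 1 4 6 := ⟨by omega, by omega, by omega, x0, x7, x4, a61.symm⟩
    exact absurd a.symm (h.ell J)
  · exact absurd a.symm n62
  · exact (h.seg 1 [(4, 3), (8, 7), (2, 1), (6, 5), (9, 10)]
      (by simp only [ok, inw, dis, dis1, sdis, tot, slen, and_true]; omega)
      ⟨a83.symm, a.symm, a61.symm, P, trivial⟩ x4 x10).elim
  · exact absurd a.symm n82
  · have J : Jump G f v 8 10 13 := ⟨by omega, by omega, by omega, x7, p14 ▸ x4, x10, p13 ▸ a83⟩
    exact absurd (p12 ▸ a.symm) (h.ell' J)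

/-- No chord between two short segments that avoids the long segment. -/
lemma far_F2 (h : N2 G f v d) {i j : ℤ} (i1 : 1 ≤ i) (hij : i < j) (jd : j < d) :
    ¬ G.Adj (f (3 * i + 2)) (f (3 * j + 3)) := by
  by_cases hd : 4 ≤ d
  · exact far_f2 h hd i1 hij jd
  · obtain rfl : d = 3 := by omega
    obtain rfl : i = 1 := by omega
    obtain rfl : j = 2 := by omega
    exact far_P h

lemma far_F1 (h : N2 G f v d) {i j : ℤ} (i0 : i ≤ 0) (j1 : 1 ≤ j) (hij : j - i ≤ d - 2) :
    ¬ G.Adj (f (3 * i + 1)) (f (3 * j + 3)) := fun a =>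
  far_F2 h j1 (lt_add_one j) (by omega)
    (far_tight h i0 j1 (by omega) a (j + 1) (by omega) (by omega))

theorem N2.far (h : N2 G f v d) : NoFar G f v := by
  intro p q x1 x2 h1 h2 a
  have hn := h.hn
  have h3 := h.n3
  obtain ⟨q', q0, q1, e⟩ := h.cyc.1.win (by omega) 2 q
  obtain ⟨p', hp'⟩ : ∃ p', p' = q' + (p - q) := ⟨_, rfl⟩
  have y2 : G.Adj v (f (q' + 1)) := by rwa [e]
  have y1 : G.Adj v (f (p' - 1)) := by
    rwa [show p' - 1 = q' + (p - q - 1) by omega, e, show q + (p - q - 1) = p - 1 by ring]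
  have b : G.Adj (f p') (f q') := by
    have e0 := e 0
    rw [add_zero, add_zero] at e0
    rwa [e0, hp', e, show q + (p - q) = p by ring]
  rw [h.hx _ (by omega) (by omega)] at y1 y2
  obtain ⟨j, rfl⟩ : ∃ j, q' = 3 * j + 3 := ⟨(q' - 3) / 3, by omega⟩
  rcases y1 with y1 | y1
  · obtain ⟨i, hi⟩ : ∃ i, p' = 3 * i + 1 := ⟨(p' - 1) / 3, by omega⟩
    rw [hi] at b
    by_cases j1 : 1 ≤ j
    · exact far_F1 h (by omega) j1 (by omega) b
    · refine far_F1 h.refl (i := -j) (j := -i) (by omega) (by omega) (by omega) ?_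
      show G.Adj (f (4 - (3 * -j + 1))) (f (4 - (3 * -i + 3)))
      rw [show 4 - (3 * -j + 1) = 3 * j + 3 by ring, show 4 - (3 * -i + 3) = 3 * i + 1 by ring]
      exact b.symm
  · obtain ⟨i, hi⟩ : ∃ i, p' = 3 * i + 2 := ⟨(p' - 2) / 3, by omega⟩
    rw [hi] at b
    exact far_F2 h (by omega) (by omega) (by omega) b

end Pool.Agent.P.MP_422cad_co
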