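import Pool.Agent.P.MP_422cad_co.One

set_option autoImplicit false

namespace Pool.Agent.P.MP_422cad_co

open SimpleGraph Classical

variable {V : Type} [Fintype V] {G : SimpleGraph V} {f : ℤ → V} {v : V} {d : ℤ}

lemma near_d (h : N2 G f v d) : 1 ≤ d := by
  have := h.toO1.n3
  have := h.hn
  omega

lemma near_x (h : N2 G f v d) (t : ℤ)
    (h1 : -3 * d < t ∧ t < 3 * d + 4 ∧ ((t ≤ 0 ∧ t % 3 = 0) ∨ (4 ≤ t ∧ t % 3 = 1))) :
    G.Adj v (f t) := (h.hx t h1.1 h1.2.1).2 h1.2.2

lemma near_nx (h : N2 G f v d) (t : ℤ)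
    (h1 : -3 * d < t ∧ t < 3 * d + 4 ∧ ¬ ((t ≤ 0 ∧ t % 3 = 0) ∨ (4 ≤ t ∧ t % 3 = 1))) :
    ¬ G.Adj v (f t) := fun a => h1.2.2 ((h.hx t h1.1 h1.2.1).1 a)

lemma near_ne (h : N2 G f v d) (i j : ℤ) (h1 : i ≠ j ∧ i < j + 3 * d + 1 ∧ j < i + 3 * d + 1) :
    f i ≠ f j := by
  have := h.hn
  exact h.toO1.ne h1.1 (by omega) (by omega)

lemma near_per (h : N2 G f v d) (i j : ℤ) (e : j = i + 3 * d + 1) : f j = f i := by
  have := h.hn
  exact h.toO1.per' (by omega)

lemma near_win (h : N2 G f v d) (lo u : ℤ) :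
    ∃ j, lo ≤ j ∧ j < lo + 3 * d + 1 ∧ f j = f u ∧ f (j + 1) = f (u + 1) ∧
      f (j - 1) = f (u - 1) := by
  have := h.hn
  have := near_d h
  obtain ⟨j, j0, j1, j2⟩ := h.cyc.1.win (by omega) lo u
  exact ⟨j, j0, by omega, by simpa using j2 0, j2 1, by simpa [sub_eq_add_neg] using j2 (-1)⟩

/-- Every cycle vertex is in `N(v)`, a first vertex, a last vertex, or `f 2`. -/
lemma near_cls (h : N2 G f v d) (u : ℤ) :
    G.Adj v (f u) ∨ G.Adj v (f (u - 1)) ∨ G.Adj v (f (u + 1)) ∨ f u = f 2 := by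
  have := near_d h
  obtain ⟨j, j0, j1, e0, e1, e2⟩ := near_win h 0 u
  rw [← e0, ← e1, ← e2, h.hx j (by omega) (by omega), h.hx (j - 1) (by omega) (by omega),
    h.hx (j + 1) (by omega) (by omega)]
  by_cases e : j = 2
  · simp [e]
  · have : ((j ≤ 0 ∧ j % 3 = 0) ∨ (4 ≤ j ∧ j % 3 = 1)) ∨
        ((j - 1 ≤ 0 ∧ (j - 1) % 3 = 0) ∨ (4 ≤ j - 1 ∧ (j - 1) % 3 = 1)) ∨
        ((j + 1 ≤ 0 ∧ (j + 1) % 3 = 0) ∨ (4 ≤ j + 1 ∧ (j + 1) % 3 = 1)) := by omega
    tauto

lemma near_nbA (h : N2 G f v d) (hfar : NoFar G f v) {p q : ℤ} (x1 : G.Adj v (f (p - 1)))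
    (x2 : G.Adj v (f (q + 1))) (h1 : p < q) (h2 : q ≤ p + 2) {x : V} (a : G.Adj (f p) x) :
    G.Adj v x ∨ x = f 2 ∨ x = f (p - 2) ∨ x = f q := by
  have hn := h.hn
  have := near_d h
  rcases h.toO1.surj p x with rfl | ⟨u, u0, u1, rfl⟩
  · have := h.toO1.xx x1 a.symm (by omega)
    omega
  have up : u ≠ p := by rintro rfl; exact G.irrefl a
  rcases near_cls h u with b | b | b | b
  · exact Or.inl b
  · exact absurd a (h.toO1.aa (by omega) u1 x1 b)
  · by_cases c1 : p + 3 ≤ u
    · by_cases c2 : u + 2 < p + (ord V - 1)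
      · exact absurd a (hfar p u x1 b c1 c2)
      · have := h.toO1.xx b (show G.Adj v (f (p - 1 + 2 * (3 * d + 1))) by
          rwa [near_per h (p - 1 + 3 * d + 1) _ (by ring), near_per h (p - 1) _ rfl]) (by omega)
        by_cases c3 : u = p - 2 + 3 * d + 1
        · exact Or.inr (Or.inr (Or.inl (near_per h _ _ c3)))
        · have := h.toO1.xx (show G.Adj v (f (p - 1 + 3 * d + 1)) by
            rwa [near_per h (p - 1) _ rfl]) b (by omega)
          omega
    · have m1 := h.toO1.xx b x2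
      have m2 := h.toO1.xx x2 b
      have : u = q := by omega
      exact Or.inr (Or.inr (Or.inr (by rw [this])))
  · exact Or.inr (Or.inl b)

lemma near_nbB (h : N2 G f v d) (hfar : NoFar G f v) {p q : ℤ} (x1 : G.Adj v (f (p - 1)))
    (x2 : G.Adj v (f (q + 1))) (h1 : p < q) (h2 : q ≤ p + 2) {x : V} (a : G.Adj (f q) x) :
    G.Adj v x ∨ x = f 2 ∨ x = f (q + 2) ∨ x = f p := by
  have hn := h.hn
  have := near_d h
  rcases h.toO1.surj (q - 3 * d) x with rfl | ⟨u, u0, u1, rfl⟩
  · have := h.toO1.xx a.symm x2 (by omega)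
    omega
  have up : u ≠ q := by rintro rfl; exact G.irrefl a
  rcases near_cls h u with b | b | b | b
  · exact Or.inl b
  · by_cases c1 : u + 3 ≤ q
    · by_cases c2 : q + 2 < u + (ord V - 1)
      · exact absurd a.symm (hfar u q b x2 c1 c2)
      · by_cases c3 : q + 2 = u + 3 * d + 1
        · exact Or.inr (Or.inr (Or.inl (near_per h _ _ c3).symm))
        · have := h.toO1.xx b (show G.Adj v (f (q - 3 * d)) by
            rwa [← near_per h (q - 3 * d) (q + 1) (by ring)]) (by omega)
          omega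
    · have m1 := h.toO1.xx b x1
      have m2 := h.toO1.xx x1 b
      have : u = p := by omega
      exact Or.inr (Or.inr (Or.inr (by rw [this])))
  · exact absurd a.symm (h.toO1.bb (by omega) (by omega) b x2)
  · exact Or.inr (Or.inl b)

/-- If the ends of the long segment are adjacent, its middle has no other neighbour
outside `N(v)`. -/
lemma near_c0 (h : N2 G f v d) (h13 : G.Adj (f 1) (f 3)) {x : V} (a : G.Adj (f 2) x) :
    G.Adj v x ∨ x = f 1 ∨ x = f 3 := by
  have hn := h.hn
  have := near_d h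
  rcases h.toO1.surj 1 x with rfl | ⟨u, u0, u1, rfl⟩
  · exact absurd a.symm (near_nx h 2 (by omega))
  rcases near_cls h u with b | b | b | b
  · exact Or.inl b
  · by_cases c : u = 1
    · exact Or.inr (Or.inl (by rw [c]))
    · have := (h.hx (u - 1) (by omega) (by omega)).1 b
      exact (h.toO1.lamA (p := 1) (p' := u) (z := 2) (by omega) (by omega) u1
        (near_x h _ (by omega)) b h13 a.symm).elim
  · by_cases c : u = 3
    · exact Or.inr (Or.inr (by rw [c]))
    · have := (h.hx (u + 1) (by omega) (by omega)).1 b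
      exact (h.toO1.lamB (q := 3) (q' := u - (3 * d + 1)) (z := 2) (by omega) (by omega) (by omega)
        (near_x h _ (by omega)) (by rwa [← near_per h _ (u + 1) (by ring)]) h13.symm
        (by rw [← near_per h _ u (by ring)]; exact a.symm)).elim
  · rw [b] at a
    exact (G.irrefl a).elim

/-- A chord around the neighbour `f e` of `v` jumps over every other neighbour of `v`. -/
lemma near_jump (h : N2 G f v d) {e s : ℤ} (xe : G.Adj v (f e))
    (a : G.Adj (f (e + 1)) (f (e - 1))) (xs : G.Adj v (f s)) (hne : f s ≠ f e) :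
    ¬ G.Adj (f (s + 1)) (f e) ∧ ¬ G.Adj (f (s - 1)) (f e) ∧ ¬ G.Adj (f (s + 1)) (f (e + 2)) ∧
      ¬ G.Adj (f (s - 1)) (f (e - 2)) := by
  have hn := h.hn
  obtain ⟨j, j0, j1, e0, e1, e2⟩ := near_win h e s
  rw [← e0] at xs hne
  rw [← e1, ← e2]
  have je : j ≠ e := by rintro rfl; exact hne rfl
  have xe' : G.Adj v (f (e + 3 * d + 1)) := by rwa [near_per h e _ rfl]
  have m1 := h.toO1.xx xe xs (by omega)
  have m2 := h.toO1.xx xs xe' (by omega)
  have J : Jump G f v (e + 1) j (e + 3 * d) :=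
    ⟨by omega, by omega, by omega, by simpa using xe, xe', xs,
      by rwa [near_per h (e - 1) (e + 3 * d) (by ring)]⟩
  refine ⟨by simpa using h.toO1.e1 J, by simpa using h.toO1.e1' J, ?_, ?_⟩
  · have := h.toO1.ell J
    rwa [show e + 1 + 1 = e + 2 by ring] at this
  · have := h.toO1.ell' J
    rwa [near_per h (e - 2) (e + 3 * d - 1) (by ring)] at this

lemma near_miss (h : N2 G f v d) (w : V) {z1 z2 : V} (y : V) (hz : z1 ≠ z2) (x1 : G.Adj v z1)
    (x2 : G.Adj v z2) (n1 : ¬ G.Adj w z1) (n2 : ¬ G.Adj w z2)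
    (hW : ∀ x, G.Adj w x → G.Adj v x ∨ x = y) : False := by
  have := h.toO1.miss w {z1, z2} {y} (by
    intro z hz
    simp only [Finset.mem_insert, Finset.mem_singleton] at hz
    rcases hz with rfl | rfl
    exacts [⟨x1, n1⟩, ⟨x2, n2⟩]) (by simpa using hW)
  rw [Finset.card_pair hz, Finset.card_singleton] at this
  omega

lemma near_blob (h : N2 G f v d) (S : V → Prop) (e : V) (lo : ℤ) (hne : ∃ x, S x) (hv : ¬ S v)
    (hvS : ∀ x, G.Adj v x → S x ∨ x = e)
    (hA : ∀ i, lo ≤ i → i < lo + 3 * d + 1 → S (f i) → ArcOK G f S i) : False := by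
  have hn := h.hn
  have := near_d h
  refine h.cyc.blob h.ctx.mnh h.ctx.nou (by omega) S e hne hv hvS fun i hi => ?_
  obtain ⟨t, t1, t2, t3⟩ := h.cyc.1.win (by omega) lo i
  have key : ∀ w, Arc f S t w → Arc f S i w := by
    rintro w ⟨k, k1, k2, k3⟩
    refine ⟨i + (k - t), by omega, by rw [← t3, add_sub_cancel, k2], fun u u1 u2 => ?_⟩
    rw [show u = i + (u - i) by ring, ← t3]
    exact k3 _ (by omega) (by omega)
  have := hA t t1 (by omega) (by have := t3 0; simp only [add_zero] at this; rwa [this])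
  rcases this with ⟨B, b1, b2⟩ | ⟨B1, B2, c1, c2, b1, b2, b3, b4, b5⟩
  · exact Or.inl ⟨B, b1, fun w hw => key w (b2 w hw)⟩
  · exact Or.inr ⟨B1, B2, c1, c2, b1, b2, b3, fun w hw => key w (b4 w hw),
      fun w hw => key w (b5 w hw)⟩

/-- The arc of a short segment. -/
lemma near_short (h : N2 G f v d) (hfar : NoFar G f v) {S : V → Prop} {s : ℤ}
    (x1 : G.Adj v (f s)) (x2 : G.Adj v (f (s + 3))) (n1 : ¬ S (f (s + 1))) (n2 : ¬ S (f (s + 2)))
    (i1 : ¬ G.Adj (f (s + 1)) (f (s - 1))) (i2 : ¬ G.Adj (f (s + 2)) (f (s + 4)))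
    (k1 : ∀ x, G.Adj (f (s + 1)) x → G.Adj v x ∨ x = f 2 → S x)
    (k2 : ∀ x, G.Adj (f (s + 2)) x → G.Adj v x ∨ x = f 2 → S x) : ArcOK G f S s := by
  have y1 : G.Adj v (f (s + 1 - 1)) := by simpa using x1
  have y2 : G.Adj v (f (s + 2 + 1)) := by rwa [show s + 2 + 1 = s + 3 by ring]
  refine arcOK_one (j := s + 3) (by omega) (fun t t0 t1 => ?_) fun t x t0 t1 a => ?_
  · obtain rfl | rfl : t = s + 1 ∨ t = s + 2 := by omega
    exacts [n1, n2]
  · obtain rfl | rfl : t = s + 1 ∨ t = s + 2 := by omega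
    · rcases near_nbA h hfar y1 y2 (by omega) (by omega) a with b | b | b | b
      · exact Or.inl (k1 x a (Or.inl b))
      · exact Or.inl (k1 x a (Or.inr b))
      · rw [b, show s + 1 - 2 = s - 1 by ring] at a
        exact absurd a i1
      · exact Or.inr ⟨s + 2, by omega, by omega, b.symm⟩
    · rcases near_nbB h hfar y1 y2 (by omega) (by omega) a with b | b | b | b
      · exact Or.inl (k2 x a (Or.inl b))
      · exact Or.inl (k2 x a (Or.inr b))
      · rw [b, show s + 2 + 2 = s + 4 by ring] at a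
        exact absurd a i2
      · exact Or.inr ⟨s + 1, by omega, by omega, b.symm⟩

/-- The toughness argument when at most one neighbour `z` of `v`, not an end of the long
segment, has a chord around it. -/
lemma near_L1 (h : N2 G f v d) (hfar : NoFar G f v) (z : V)
    (hI : ∀ s, G.Adj v (f s) → f s ≠ z → ¬ G.Adj (f (s + 1)) (f (s - 1)) ∧
      ¬ G.Adj (f (s + 1)) z ∧ ¬ G.Adj (f (s - 1)) z)
    (h0 : f 0 ≠ z) (h4 : f 4 ≠ z) (hc : G.Adj (f 1) (f 3) → ¬ G.Adj (f 2) z) : False := by
  have hn := h.hn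
  have hd := near_d h
  have x0 := near_x h 0 (by omega)
  have x4 := near_x h 4 (by omega)
  obtain ⟨a1, a2, -⟩ := hI 0 x0 h0
  obtain ⟨b1, -, b3⟩ := hI 4 x4 h4
  norm_num at a1 a2 b1 b3
  let S : V → Prop := fun x => (G.Adj v x ∧ x ≠ z) ∨ (x = f 2 ∧ ¬ G.Adj (f 1) (f 3))
  have nS : ∀ t, -3 * d < t → t < 3 * d + 3 → t ≠ 2 → 2 < t + 3 * d + 1 →
      ¬ ((t ≤ 0 ∧ t % 3 = 0) ∨ (4 ≤ t ∧ t % 3 = 1)) → ¬ S (f t) := by
    rintro t t0 t1 t2 t3 t4 (⟨b, -⟩ | ⟨b, -⟩)
    · exact near_nx h t (by omega) b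
    · exact near_ne h t 2 (by omega) b
  have kS : ∀ t, 4 ≤ t → t ≤ 3 * d → t % 3 ≠ 1 → ¬ G.Adj (f t) z →
      ∀ x, G.Adj (f t) x → G.Adj v x ∨ x = f 2 → S x := by
    rintro t t0 t1 t2 t3 x a (b | rfl)
    · exact Or.inl ⟨b, fun e => t3 (e ▸ a)⟩
    · refine Or.inr ⟨rfl, fun c => ?_⟩
      rcases near_c0 h c a.symm with b | b | b
      · exact near_nx h t (by omega) b
      · exact near_ne h t 1 (by omega) b
      · exact near_ne h t 3 (by omega) b
  have n1 : ∀ x, G.Adj (f 1) x → (G.Adj v x ∧ x ≠ z) ∨ x = f 2 ∨ x = f 3 := fun x a => by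
    rcases near_nbA h hfar (p := 1) (q := 3) x0 x4 (by omega) (by omega) a with b | b | b | b
    · exact Or.inl ⟨b, fun e => a2 (e ▸ a)⟩
    · exact Or.inr (Or.inl b)
    · norm_num at b
      exact absurd (b ▸ a) a1
    · exact Or.inr (Or.inr b)
  have n3 : ∀ x, G.Adj (f 3) x → (G.Adj v x ∧ x ≠ z) ∨ x = f 2 ∨ x = f 1 := fun x a => by
    rcases near_nbB h hfar (p := 1) (q := 3) x0 x4 (by omega) (by omega) a with b | b | b | b
    · exact Or.inl ⟨b, fun e => b3 (e ▸ a)⟩
    · exact Or.inr (Or.inl b)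
    · norm_num at b
      exact absurd (b ▸ a.symm) b1
    · exact Or.inr (Or.inr b)
  refine near_blob h S z 0 ⟨f 0, Or.inl ⟨x0, h0⟩⟩ ?_ (fun x a => ?_) fun i i0 i1 hi => ?_
  · rintro (⟨b, -⟩ | ⟨b, -⟩)
    · exact G.irrefl b
    · exact h.cyc.2 2 b.symm
  · by_cases e : x = z
    exacts [Or.inr e, Or.inl (Or.inl ⟨a, e⟩)]
  rcases hi with ⟨xi, zi⟩ | ⟨e, c⟩
  · have := (h.hx i (by omega) (by omega)).1 xi
    by_cases e : i = 0
    · subst e
      by_cases c : G.Adj (f 1) (f 3)
      · refine arcOK_one (j := 4) (by omega) (fun t t0 t1 => ?_) fun t x t0 t1 a => ?_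
        · by_cases e : t = 2
          · rintro (⟨b, -⟩ | ⟨-, b⟩)
            · exact near_nx h t (by omega) b
            · exact b c
          · exact nS t (by omega) (by omega) e (by omega) (by omega)
        · obtain rfl | rfl | rfl : t = 1 ∨ t = 2 ∨ t = 3 := by omega
          · rcases n1 x a with b | b | b
            exacts [Or.inl (Or.inl b), Or.inr ⟨2, by omega, by omega, b.symm⟩,
              Or.inr ⟨3, by omega, by omega, b.symm⟩]
          · rcases near_c0 h c a with b | b | b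
            exacts [Or.inl (Or.inl ⟨b, fun e => hc c (e ▸ a)⟩),
              Or.inr ⟨1, by omega, by omega, b.symm⟩, Or.inr ⟨3, by omega, by omega, b.symm⟩]
          · rcases n3 x a with b | b | b
            exacts [Or.inl (Or.inl b), Or.inr ⟨2, by omega, by omega, b.symm⟩,
              Or.inr ⟨1, by omega, by omega, b.symm⟩]
      · refine arcOK_one (j := 2) (by omega) (fun t t0 t1 => ?_) fun t x t0 t1 a => ?_
        · exact nS t (by omega) (by omega) (by omega) (by omega) (by omega)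
        · obtain rfl : t = 1 := by omega
          rcases n1 x a with b | b | b
          exacts [Or.inl (Or.inl b), Or.inl (Or.inr ⟨b, c⟩), absurd (b ▸ a) c]
    · have x3 := near_x h (i + 3) (by omega)
      obtain ⟨p1, p2, -⟩ := hI i xi zi
      by_cases ez : f (i + 3) = z
      · have : i + 3 ≠ 3 * d + 1 := fun e' => h0 (by rw [← ez, near_per h 0 (i + 3) (by omega)])
        have x6 := near_x h (i + 6) (by omega)
        obtain ⟨q1, -, q3⟩ := hI (i + 6) x6 (by rw [← ez]; exact near_ne h _ _ (by omega))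
        rw [show i + 6 - 1 = i + 5 by ring] at q1 q3
        refine arcOK_two (a1 := i + 1) (b1 := i + 1) (a2 := i + 5) (b2 := i + 5) h.cyc.1
          (f (i + 2)) (f (i + 4)) (by omega) (fun t t0 t1 => ?_) (fun t x t0 t1 a => ?_)
          fun t x t0 t1 a => ?_
        · by_cases e3 : t = i + 3
          · rintro (⟨-, b⟩ | ⟨b, -⟩)
            · exact b (e3 ▸ ez)
            · exact near_ne h t 2 (by omega) b
          · exact nS t (by omega) (by omega) (by omega) (by omega) (by omega)
        · obtain rfl : t = i + 1 := by omega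
          rcases near_nbA h hfar (p := i + 1) (q := i + 2) (by simpa using xi)
            (by rwa [show i + 2 + 1 = i + 3 by ring]) (by omega) (by omega) a with b | b | b | b
          · exact Or.inr (Or.inl (kS _ (by omega) (by omega) (by omega) p2 x a (Or.inl b)))
          · exact Or.inr (Or.inl (kS _ (by omega) (by omega) (by omega) p2 x a (Or.inr b)))
          · rw [b, show i + 1 - 2 = i - 1 by ring] at a
            exact absurd a p1
          · exact Or.inr (Or.inr b)
        · obtain rfl : t = i + 5 := by omega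
          rcases near_nbB h hfar (p := i + 4) (q := i + 5)
            (by rwa [show i + 4 - 1 = i + 3 by ring])
            (by rwa [show i + 5 + 1 = i + 6 by ring]) (by omega) (by omega) a with b | b | b | b
          · exact Or.inr (Or.inl (kS _ (by omega) (by omega) (by omega) q3 x a (Or.inl b)))
          · exact Or.inr (Or.inl (kS _ (by omega) (by omega) (by omega) q3 x a (Or.inr b)))
          · rw [b, show i + 5 + 2 = i + 6 + 1 by ring] at a
            exact absurd a.symm q1
          · exact Or.inr (Or.inr b)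
      · obtain ⟨q1, -, q3⟩ := hI (i + 3) x3 ez
        rw [show i + 3 - 1 = i + 2 by ring] at q1 q3
        rw [show i + 3 + 1 = i + 4 by ring] at q1
        exact near_short h hfar xi x3 (nS _ (by omega) (by omega) (by omega) (by omega) (by omega))
          (nS _ (by omega) (by omega) (by omega) (by omega) (by omega)) p1 (fun a => q1 a.symm)
          (kS _ (by omega) (by omega) (by omega) p2) (kS _ (by omega) (by omega) (by omega) q3)
  · obtain rfl : i = 2 := by
      by_contra e'
      exact near_ne h i 2 (by omega) e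
    refine arcOK_one (j := 4) (by omega) (fun t t0 t1 => ?_) fun t x t0 t1 a => ?_
    · exact nS t (by omega) (by omega) (by omega) (by omega) (by omega)
    · obtain rfl : t = 3 := by omega
      rcases n3 x a with b | b | b
      exacts [Or.inl (Or.inl b), Or.inl (Or.inr ⟨b, c⟩), absurd (b ▸ a.symm) c]

/-- No chord around a neighbour of `v` between two short segments. -/
lemma near_L2 (h : N2 G f v d) (hfar : NoFar G f v) {e : ℤ} (e0 : 7 ≤ e) (e1 : e + 2 ≤ 3 * d)
    (e2 : e % 3 = 1) : ¬ G.Adj (f (e + 1)) (f (e - 1)) := fun a => by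
  have hn := h.hn
  have xe := near_x h e (by omega)
  have x0 := near_x h 0 (by omega)
  have x4 := near_x h 4 (by omega)
  have xm := near_x h (e - 3) (by omega)
  refine near_L1 h hfar (f e) (fun l xl hl => ?_) (near_ne h _ _ (by omega))
    (near_ne h _ _ (by omega)) fun c b => ?_
  · obtain ⟨j1, j2, -, -⟩ := near_jump h xe a xl hl
    refine ⟨fun al => ?_, j1, j2⟩
    obtain ⟨k1, -, -, k4⟩ := near_jump h xe a xm (near_ne h _ _ (by omega))
    rw [show e - 3 + 1 = e - 2 by ring] at k1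
    rw [show e - 3 - 1 = e - 2 - 2 by ring] at k4
    have lm : f (e - 3) ≠ f l := fun q => by
      have q1 := h.cyc.1.shift (by omega) q 1
      have q2 := h.cyc.1.shift (by omega) q (-1)
      rw [show e - 3 + 1 = e - 2 by ring] at q1
      rw [show e - 3 + -1 = e - 2 - 2 by ring, ← sub_eq_add_neg] at q2
      rw [← q1, ← q2] at al
      exact k4 al.symm
    obtain ⟨l1, -, -, -⟩ := near_jump h xl al xm lm
    rw [show e - 3 + 1 = e - 2 by ring] at l1
    have c2 : G.Adj (f (e - 2)) (f 2) := by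
      by_contra c2
      refine near_miss h (f (e - 2)) (f (e - 1)) hl xl xe l1 k1 fun x b => ?_
      rcases near_nbA h hfar (p := e - 2) (q := e - 1) (by rwa [show e - 2 - 1 = e - 3 by ring])
        (by simpa using xe) (by omega) (by omega) b with r | r | r | r
      exacts [Or.inl r, absurd (r ▸ b) c2, absurd (r ▸ b.symm) k4, Or.inr r]
    have c13 : ¬ G.Adj (f 1) (f 3) := fun c => by
      rcases near_c0 h c c2.symm with r | r | r
      · exact near_nx h _ (by omega) r
      · exact near_ne h _ _ (by omega) r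
      · exact near_ne h _ _ (by omega) r
    have i0 : ¬ G.Adj (f (0 + 1)) (f (0 - 1)) := fun c => by
      have := (near_jump h x0 c xm (near_ne h _ _ (by omega))).2.2.1
      rw [show e - 3 + 1 = e - 2 by ring, zero_add] at this
      exact this c2
    have l0 : f 0 ≠ f l := fun q => by
      have q1 := h.cyc.1.shift (by omega) q 1
      have q2 := h.cyc.1.shift (by omega) q (-1)
      rw [← sub_eq_add_neg, ← sub_eq_add_neg] at q2
      rw [← q1, ← q2] at al
      exact i0 al
    have m1 := (near_jump h xl al x0 l0).1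
    have m2 := (near_jump h xe a x0 (near_ne h _ _ (by omega))).1
    norm_num at m1 m2 i0
    refine near_miss h (f 1) (f 2) hl xl xe m1 m2 fun x b => ?_
    rcases near_nbA h hfar (p := 1) (q := 3) x0 x4 (by omega) (by omega) b with r | r | r | r
    · exact Or.inl r
    · exact Or.inr r
    · norm_num at r
      exact absurd (r ▸ b) i0
    · exact absurd (r ▸ b) c13
  · exact h.toO1.seg 1 [(4, e - 1), (e + 1, 3 * d + 1), (1, 1), (3, 2), (e, e)]
      (by simp only [ok, inw, dis, dis1, sdis, tot, slen, and_true]; omega)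
      ⟨a.symm, by
        rw [near_per h 0 (3 * d + 1) (by ring)]
        simpa using h.cyc.1.adj 0, c, b, trivial⟩ x4 xe

/-- No chord around `f 0`. -/
lemma near_L3 (h : N2 G f v d) (hfar : NoFar G f v) (hd : 2 ≤ d) :
    ¬ G.Adj (f 1) (f (-1)) := fun a => by
  have hn := h.hn
  have x0 := near_x h 0 (by omega)
  have x4 := near_x h 4 (by omega)
  have xm := near_x h (-3) (by omega)
  have J : ∀ s, G.Adj v (f s) → f s ≠ f 0 → ¬ G.Adj (f (s + 1)) (f 0) ∧
      ¬ G.Adj (f (s - 1)) (f 0) ∧ ¬ G.Adj (f (s + 1)) (f 2) := fun s xs hs => by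
    have := near_jump h (e := 0) x0 (by simpa using a) xs hs
    exact ⟨this.1, this.2.1, by simpa using this.2.2.1⟩
  obtain ⟨m1, -, m2⟩ := J (-3) xm (near_ne h _ _ (by omega))
  obtain ⟨-, m3, -⟩ := J 4 x4 (near_ne h _ _ (by omega))
  norm_num at m1 m2 m3
  have nm : ¬ G.Adj (f (3 * d - 2 + 1)) (f (3 * d - 2 - 1)) →
      ∀ x, G.Adj (f (-2)) x → (G.Adj v x ∧ x ≠ f 0) ∨ x = f (-1) := fun c x b => by
    rcases near_nbA h hfar (p := -2) (q := -1) xm (by simpa using x0) (by omega) (by omega) b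
      with r | r | r | r
    · exact Or.inl ⟨r, fun e => m1 (e ▸ b)⟩
    · exact absurd (r ▸ b) m2
    · rw [near_per h (-2) _ (by ring), near_per h (-2 - 2) (3 * d - 2 - 1) (by ring), ← r] at c
      exact absurd b c
    · exact Or.inr r
  have i4 : ¬ G.Adj (f (4 + 1)) (f (4 - 1)) := fun c => by
    by_cases e : d = 2
    · exact h.toO1.seg (-1) [(0, -1), (1, 3), (5, 4)]
        (by simp only [ok, inw, dis, dis1, sdis, tot, slen, and_true]; omega)
        ⟨a.symm, by simpa using c.symm, trivial⟩ x0 x4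
    · have k := (near_jump h x4 c xm (near_ne h _ _ (by omega))).1
      norm_num at k
      refine near_miss h (f (-2)) (f (-1)) (near_ne h 0 4 (by omega)) x0 x4 m1 k fun x b => ?_
      exact (nm (near_L2 h hfar (by omega) (by omega) (by omega)) x b).imp_left And.left
  have nI : ∀ s, 4 ≤ s → s + 2 ≤ 3 * d → s % 3 = 1 → ¬ G.Adj (f (s + 1)) (f (s - 1)) := by
    intro s s0 s1 s2
    by_cases e : s = 4
    · rwa [e]
    · exact near_L2 h hfar (by omega) s1 s2
  have n3 : ∀ x, G.Adj (f 3) x → (G.Adj v x ∧ x ≠ f 0) ∨ x = f 2 ∨ x = f 1 := fun x b => by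
    rcases near_nbB h hfar (p := 1) (q := 3) x0 x4 (by omega) (by omega) b with r | r | r | r
    · exact Or.inl ⟨r, fun e => m3 (e ▸ b)⟩
    · exact Or.inr (Or.inl r)
    · norm_num at r i4
      exact absurd (r ▸ b.symm) i4
    · exact Or.inr (Or.inr r)
  have nb : ∀ q, 6 ≤ q → q + 3 ≤ 3 * d → q % 3 = 0 → ¬ G.Adj (f q) (f 2) := by
    intro q q0 q1 q2 b
    have xq := near_x h (q + 1) (by omega)
    have c13 : ¬ G.Adj (f 1) (f 3) := fun c => by
      rcases near_c0 h c b.symm with r | r | r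
      · exact near_nx h _ (by omega) r
      · exact near_ne h _ _ (by omega) r
      · exact near_ne h _ _ (by omega) r
    have k := h.toO1.r1' (q := 3) (q' := q - (3 * d + 1)) (by omega) (by omega) x4
      (by rwa [← near_per h _ (q + 1) (by ring)])
      (by rw [← near_per h _ q (by ring)]; simpa using b)
    rw [← near_per h (q - (3 * d + 1) + 1) (q + 1) (by ring)] at k
    refine near_miss h (f 3) (f 2) (near_ne h 0 (q + 1) (by omega)) x0 xq m3 k fun x r => ?_
    rcases n3 x r with r' | r' | r'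
    exacts [Or.inl r'.1, Or.inr r', absurd (r' ▸ r.symm) c13]
  let S : V → Prop := fun x => G.Adj v x ∧ x ≠ f 0
  refine near_blob h S (f 0) (-3) ⟨f 4, x4, near_ne h _ _ (by omega)⟩ (fun b => G.irrefl b.1)
    (fun x b => ?_) fun i i0 i1 hi => ?_
  · by_cases e : x = f 0
    exacts [Or.inr e, Or.inl ⟨b, e⟩]
  obtain ⟨xi, zi⟩ := hi
  have := (h.hx i (by omega) (by omega)).1 xi
  have e0 : i ≠ 0 := by rintro rfl; exact zi rfl
  by_cases e : i = -3
  · subst e
    have nS : ∀ t, -3 < t → t ≤ 3 → ¬ S (f t) := by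
      rintro t t0 t1 ⟨b, b'⟩
      have := (h.hx t (by omega) (by omega)).1 b
      exact b' (by rw [show t = 0 by omega])
    have p1 : ∀ t x, -2 ≤ t → t ≤ -2 → G.Adj (f t) x →
        (∃ u, -2 ≤ u ∧ u ≤ -2 ∧ f u = x) ∨ S x ∨ x = f (-1) := fun t x t0 t1 b => by
      obtain rfl : t = -2 := by omega
      exact Or.inr (nm (nI _ (by omega) (by omega) (by omega)) x b)
    by_cases c : G.Adj (f 1) (f 3)
    · refine arcOK_two (a1 := -2) (b1 := -2) (a2 := 2) (b2 := 3) h.cyc.1 (f (-1)) (f 1)
        (by omega) nS p1 fun t x t0 t1 b => ?_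
      obtain rfl | rfl : t = 2 ∨ t = 3 := by omega
      · rcases near_c0 h c b with r | r | r
        · refine Or.inr (Or.inl ⟨r, ?_⟩)
          rintro rfl
          exact h.toO1.seg 1 [(4, 3 * d), (1, 1), (3, 2), (3 * d + 1, 3 * d + 1)]
            (by simp only [ok, inw, dis, dis1, sdis, tot, slen, and_true]; omega)
            ⟨by rw [near_per h (-1) (3 * d) (by ring)]; exact a.symm, c,
              by rw [near_per h 0 (3 * d + 1) (by ring)]; exact b, trivial⟩ x4
            (near_x h (3 * d + 1) (by omega))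
        · exact Or.inr (Or.inr r)
        · exact Or.inl ⟨3, by omega, by omega, r.symm⟩
      · rcases n3 x b with r | r | r
        exacts [Or.inr (Or.inl r), Or.inl ⟨2, by omega, by omega, r.symm⟩, Or.inr (Or.inr r)]
    · refine arcOK_two (a1 := -2) (b1 := -2) (a2 := 3) (b2 := 3) h.cyc.1 (f (-1)) (f 2)
        (by omega) nS p1 fun t x t0 t1 b => ?_
      obtain rfl : t = 3 := by omega
      rcases n3 x b with r | r | r
      exacts [Or.inr (Or.inl r), Or.inr (Or.inr r), absurd (r ▸ b.symm) c]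
  · have x3 := near_x h (i + 3) (by omega)
    obtain ⟨p1, -, p3⟩ := J i xi zi
    obtain ⟨-, q2, -⟩ := J (i + 3) x3 (near_ne h _ _ (by omega))
    have q1 := nI (i + 3) (by omega) (by omega) (by omega)
    rw [show i + 3 - 1 = i + 2 by ring] at q1 q2
    rw [show i + 3 + 1 = i + 4 by ring] at q1
    refine near_short h hfar xi x3 (fun b => near_nx h _ (by omega) b.1)
      (fun b => near_nx h _ (by omega) b.1) (nI i (by omega) (by omega) (by omega))
      (fun b => q1 b.symm) ?_ ?_
    · rintro x b (r | rfl)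
      exacts [⟨r, fun e => p1 (e ▸ b)⟩, absurd b p3]
    · rintro x b (r | rfl)
      exacts [⟨r, fun e => q2 (e ▸ b)⟩, absurd b (nb _ (by omega) (by omega) (by omega))]

lemma near_refl (hfar : NoFar G f v) : NoFar G (fun t => f (4 - t)) v := by
  intro p q x1 x2 h1 h2 a
  exact hfar (4 - q) (4 - p) (by rwa [show 4 - q - 1 = 4 - (q + 1) by ring])
    (by rwa [show 4 - p + 1 = 4 - (p - 1) by ring]) (by omega) (by omega) a.symm

theorem N2.near (h : N2 G f v d) (hfar : NoFar G f v) : False := by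
  have hn := h.hn
  have hd := near_d h
  have x0 := near_x h 0 (by omega)
  by_cases e : d = 1
  · refine near_blob h (G.Adj v) v 0 ⟨_, x0⟩ G.irrefl (fun x b => Or.inl b) fun i i0 i1 xi => ?_
    have := (h.hx i (by omega) (by omega)).1 xi
    obtain rfl : i = 0 := by omega
    refine arcOK_one (j := 4) (by omega) (fun t t0 t1 => near_nx h t (by omega))
      fun t x t0 t1 b => ?_
    rcases h.toO1.surj 0 x with rfl | ⟨u, u0, u1, rfl⟩
    · exact absurd b.symm (near_nx h t (by omega))
    · by_cases c : u = 0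
      · exact Or.inl (c ▸ x0)
      · exact Or.inr ⟨u, by omega, by omega, rfl⟩
  have i0 := near_L3 h hfar (by omega)
  have i4 := near_L3 h.refl (near_refl hfar) (by omega)
  norm_num at i4
  refine near_L1 h hfar v (fun s xs _ => ⟨?_, fun b => ?_, fun b => ?_⟩) (h.cyc.2 0) (h.cyc.2 4)
    fun _ b => near_nx h 2 (by omega) b.symm
  · obtain ⟨j, j0, j1, e0, e1, e2⟩ := near_win h 0 s
    rw [← e0] at xs
    rw [← e1, ← e2]
    have := (h.hx j (by omega) (by omega)).1 xs
    by_cases c0 : j = 0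
    · simpa [c0] using i0
    · by_cases c4 : j = 4
      · subst c4
        norm_num
        exact fun b => i4 b.symm
      · exact near_L2 h hfar (by omega) (by omega) (by omega)
  · have := h.toO1.xx xs b.symm (by omega)
    omega
  · have := h.toO1.xx b.symm xs (by omega)
    omega

end Pool.Agent.P.MP_422cad_co
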