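import Pool.Agent.P.MP_422cad_co.One

set_option autoImplicit false

namespace Pool.Agent.P.MP_422cad_co

open SimpleGraph Classical

variable {V : Type} [Fintype V] {G : SimpleGraph V} {f : ℤ → V} {v : V} {Y : Finset V}
  {ν : V ≃ V} {d : ℤ}

lemma np_ne (h : S0 G f v Y ν d) {i j : ℤ}
    (e : i ≠ j ∧ i < j + (ord V - 1) ∧ j < i + (ord V - 1)) : f i ≠ f j :=
  fun x => e.1 (h.hop.cyc.1.eq e.2.1 e.2.2 x)

lemma np_adj (h : S0 G f v Y ν d) {i j : ℤ} (e : j = i + 1) : G.Adj (f i) (f j) :=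
  e ▸ h.hop.cyc.1.adj i

/-- The last vertex of the window is followed by the first one. -/
lemma np_wrap (h : S0 G f v Y ν d) (p : ℤ) : G.Adj (f (p - 1 + (ord V - 1))) (f p) := by
  rw [h.per]; exact np_adj h (by omega)

lemma np_E (h : S0 G f v Y ν d) {p q : ℤ} (s : Sg G f Y p q) :
    NX G Y (f (p - 1 + (ord V - 1))) := by
  rw [h.per]; exact s.x1

lemma np_A (h : S0 G f v Y ν d) {p q p' q' z z1 : ℤ} (s : Sg G f Y p q) (s' : Sg G f Y p' q')
    (a1 : G.Adj (f p) (f z1)) (a2 : G.Adj (f p') (f z))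
    (hz : z1 = z + 1 ∧ ((p ≤ z ∧ z + 1 < p' ∧ p' < p + (ord V - 1)) ∨
      (p ≤ z ∧ z + 1 < p' + (ord V - 1) ∧ p' < p) ∨
      (p ≤ z + (ord V - 1) ∧ z + 1 < p' ∧ p' < p))) : False := by
  obtain ⟨rfl, e | e | e⟩ := hz
  · exact h.lamA e.1 e.2.1 e.2.2 s.x1 s'.x1 a1 a2
  · exact h.lamA (p' := p' + (ord V - 1)) e.1 e.2.1 (by omega) s.x1 (h.sg_up s').x1 a1
      (by rwa [h.per])
  · exact h.lamA (p' := p' + (ord V - 1)) (z := z + (ord V - 1)) e.1 (by omega) (by omega) s.x1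
      (h.sg_up s').x1 (by rwa [add_right_comm, h.per]) (by rwa [h.per, h.per])

lemma np_B (h : S0 G f v Y ν d) {p q p' q' z z1 : ℤ} (s : Sg G f Y p q) (s' : Sg G f Y p' q')
    (a1 : G.Adj (f q) (f z1)) (a2 : G.Adj (f q') (f z))
    (hz : z1 = z - 1 ∧ ((z ≤ q ∧ q' + 1 < z ∧ q < q' + (ord V - 1)) ∨
      (z ≤ q ∧ q' + 1 < z + (ord V - 1) ∧ q < q') ∨
      (z ≤ q + (ord V - 1) ∧ q' + 1 < z ∧ q < q'))) : False := by
  obtain ⟨rfl, e | e | e⟩ := hz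
  · exact h.lamB e.1 e.2.1 e.2.2 s.x2 s'.x2 a1 a2
  · exact h.lamB (q := q + (ord V - 1)) (z := z + (ord V - 1)) (by omega) e.2.1 (by omega)
      (h.sg_up s).x2 s'.x2 (by rwa [add_sub_right_comm, h.per, h.per]) (by rwa [h.per])
  · exact h.lamB (q := q + (ord V - 1)) e.1 e.2.1 (by omega) (h.sg_up s).x2 s'.x2
      (by rwa [h.per]) a2

lemma np_AB (h : S0 G f v Y ν d) {p q p' q' z z1 : ℤ} (s : Sg G f Y p q) (s' : Sg G f Y p' q')
    (a1 : G.Adj (f p) (f z1)) (a2 : G.Adj (f q') (f z))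
    (hz : (z1 = z + 1 ∨ z = z1 + 1) ∧ p ≤ q' ∧ z + 1 < p ∧ z1 + 1 < p ∧
      q' < z + (ord V - 1) ∧ q' < z1 + (ord V - 1)) : False := by
  obtain ⟨rfl | rfl, e1, e2, e3, e4, e5⟩ := hz
  · exact h.lamAB (z := z + (ord V - 1)) e1 e4 (by omega) s.x1 s'.x2
      (Or.inl ⟨by rwa [add_right_comm, h.per], by rwa [h.per]⟩)
  · exact h.lamAB (z := z1 + (ord V - 1)) e1 e5 (by omega) s.x1 s'.x2
      (Or.inr ⟨by rwa [h.per], by rwa [add_right_comm, h.per]⟩)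

lemma np_r1 (h : S0 G f v Y ν d) {p q p' q' : ℤ} (s : Sg G f Y p q) (s' : Sg G f Y p' q')
    (hr : Rich G Y (f p))
    (hz : (p + 1 < p' ∧ p' < p + (ord V - 1)) ∨ (p + 1 < p' + (ord V - 1) ∧ p' < p)) :
    ¬ G.Adj (f p') (f (p + 1)) := by
  have := s.lt
  have y1 := h.sg_ny s p le_rfl s.lt.le
  have y2 := h.sg_ny s' p' le_rfl s'.lt.le
  have y3 := s.no (p + 1) (by omega) (by omega)
  rcases hz with e | e
  · exact h.r1 e.1 e.2 s.x1 s'.x1 y1 y2 y3 hr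
  · have := h.r1 (p' := p' + (ord V - 1)) e.1 (by omega) s.x1 (h.sg_up s').x1 y1
      (by rwa [h.per]) y3 hr
    rwa [h.per] at this

lemma np_r2 (h : S0 G f v Y ν d) {p q p' q' : ℤ} (s : Sg G f Y p q) (s' : Sg G f Y p' q')
    (hr : Rich G Y (f q))
    (hz : (q' + 1 < q ∧ q < q' + (ord V - 1)) ∨ (q' + 1 < q + (ord V - 1) ∧ q < q')) :
    ¬ G.Adj (f q') (f (q - 1)) := by
  have := s.lt
  have y1 := h.sg_ny s q s.lt.le le_rfl
  have y2 := h.sg_ny s' q' s'.lt.le le_rfl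
  have y3 := s.no (q - 1) (by omega) (by omega)
  rcases hz with e | e
  · exact h.r1' e.1 e.2 s.x2 s'.x2 y1 y2 y3 hr
  · have := h.r1' (q := q + (ord V - 1)) e.1 (by omega) (h.sg_up s).x2 s'.x2 (by rwa [h.per]) y2
      (by rwa [add_sub_right_comm, h.per]) (by rwa [h.per])
    rwa [add_sub_right_comm, h.per] at this

/-- The segment of a position in the window that starts after a vertex of `X`. -/
lemma np_win (h : S0 G f v Y ν d) {lo t : ℤ} (x : NX G Y (f (lo - 1))) (t0 : lo ≤ t)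
    (t1 : t < lo + (ord V - 1)) (h1 : ¬ NX G Y (f t)) (h2 : f t ∉ Y) :
    ∃ p q, lo ≤ p ∧ p ≤ t ∧ t ≤ q ∧ q + 1 < lo + (ord V - 1) ∧ Sg G f Y p q := by
  obtain ⟨p, q, a, b, s⟩ := h.exists_sg h.d_pos h1 h2
  have x' : NX G Y (f (lo - 1 + (ord V - 1))) := by rwa [h.per]
  have n : t ≠ lo - 1 + (ord V - 1) := fun e => h1 (e ▸ x')
  refine ⟨p, q, ?_, a, b, ?_, s⟩
  · by_contra c
    exact s.no _ (by omega) (by omega) x
  · by_contra c
    exact s.no _ (by omega) (by omega) x'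

/-- A first vertex, seen from the window of a given segment. -/
lemma np_aa (h : S0 G f v Y ν d) {p0 q0 : ℤ} (s0 : Sg G f Y p0 q0) {a : V} (ha : a ∈ AA G Y ν) :
    a = f p0 ∨ ∃ p q, f p = a ∧ Sg G f Y p q ∧ q0 + 1 < p ∧ q + 1 < p0 + (ord V - 1) := by
  obtain ⟨t, t0, t1, rfl⟩ := h.surj p0 (h.ne_of_nmem (mem_AA.1 ha).2)
  obtain ⟨q, s⟩ := h.aa_sg ha
  have := s0.lt
  have := s.lt
  rcases s0.cmp s with ⟨b, -⟩ | b | b
  · exact Or.inl (by rw [b])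
  · refine Or.inr ⟨t, q, rfl, s, b, ?_⟩
    rcases s.cmp (h.sg_up s0) with c | c | c <;> omega
  · omega

lemma np_bb (h : S0 G f v Y ν d) {p0 q0 : ℤ} (s0 : Sg G f Y p0 q0) {b : V}
    (hb : b ∈ AA G Y ν.symm) :
    b = f q0 ∨ ∃ p q, f q = b ∧ Sg G f Y p q ∧ q0 + 1 < p ∧ q + 1 < p0 + (ord V - 1) := by
  obtain ⟨t, t0, t1, rfl⟩ := h.surj p0 (h.ne_of_nmem (mem_AA.1 hb).2)
  obtain ⟨p, s⟩ := h.bb_sg hb
  have := s0.lt
  have := s.lt
  rcases s0.cmp s with ⟨-, b⟩ | b | b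
  · exact Or.inl (by rw [b])
  · refine Or.inr ⟨p, t, rfl, s, b, ?_⟩
    rcases s.cmp (h.sg_up s0) with c | c | c <;> omega
  · omega

/-- The toughness argument with `S = X ∪ T`, `T` a set of inner vertices. -/
lemma np_blob (h : S0 G f v Y ν d) (T : V → Prop) (lo : ℤ) (hT : ∀ w, T w → w ∈ RR G Y ν)
    (hK : ∀ i, T (f i) → ¬ T (f (i + 1)))
    (hE : ∀ t u, lo ≤ t → t < u → u < lo + (ord V - 1) → ¬ NX G Y (f t) → ¬ NX G Y (f u) →
      f t ∉ Y → f u ∉ Y → ¬ T (f t) → ¬ T (f u) → G.Adj (f t) (f u) →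
      ∀ s, t ≤ s → s ≤ u → ¬ NX G Y (f s) ∧ ¬ T (f s)) : False := by
  have hn := h.n3
  have hc := h.hop.cyc.1
  have key : ∀ t x, ¬ (NX G Y (f t) ∨ T (f t)) → G.Adj (f t) x → (NX G Y x ∨ T x) ∨
      ∃ u, f u = x ∧ ∀ s, (t ≤ s ∧ s ≤ u) ∨ (u ≤ s ∧ s ≤ t) → ¬ (NX G Y (f s) ∨ T (f s)) := by
    intro t x ht a
    by_cases b : NX G Y x ∨ T x
    · exact Or.inl b
    rw [not_or] at ht b
    have y1 : f t ∉ Y := fun y => b.1 ⟨_, y, a⟩
    have y2 : x ∉ Y := fun y => ht.1 ⟨_, y, a.symm⟩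
    obtain ⟨u, u0, u1, rfl⟩ := h.surj lo (h.ne_of_nmem y2)
    obtain ⟨k, k0, k1, k2⟩ := hc.win (by omega) lo t
    have k3 : f k = f t := by simpa using k2 0
    refine Or.inr ⟨t + (u - k), by rw [← k2]; congr 1; ring, fun s hs => ?_⟩
    rw [show s = t + (s - t) by ring, ← k2, not_or]
    rw [← k3] at ht a y1
    rcases lt_trichotomy k u with c | c | c
    · exact hE k u k0 c u1 ht.1 b.1 y1 y2 ht.2 b.2 a _ (by omega) (by omega)
    · exact absurd (c ▸ a) G.irrefl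
    · exact hE u k u0 c k1 b.1 ht.1 y2 y1 b.2 ht.2 a.symm _ (by omega) (by omega)
  have hd := h.d_pos
  have hx := h.xd
  obtain ⟨x, hx⟩ := Finset.card_pos.1 (show 0 < (XX G Y).card by omega)
  refine h.hop.cyc.blob h.mnh h.nou h.n2 (fun w => NX G Y w ∨ T w) v ⟨x, Or.inl (mem_XX.1 hx)⟩
    ?_ (fun x a => Or.inl (Or.inl ⟨v, h.hop.mem, a⟩)) fun i hi => ?_
  · rintro (a | a)
    exacts [h.nmem a h.hop.mem, (mem_RR.1 (hT _ a)).2.1 h.hop.mem]
  obtain ⟨j, ⟨j0, j1⟩, jmin⟩ := Int.exists_least_of_bdd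
    (P := fun j => i < j ∧ (NX G Y (f j) ∨ T (f j))) ⟨i, fun _ a => a.1.le⟩
    ⟨i + (ord V - 1), by omega, by rwa [h.per]⟩
  have n : j ≠ i + 1 := by
    rintro rfl
    rcases hi with a | a <;> rcases j1 with b | b
    · exact h.hop.toHop.nocons h.n2 i a b
    · obtain ⟨-, r2, r3, -⟩ := mem_RR.1 (hT _ b)
      exact r3 (h.aa_idx.2 ⟨by simpa using a, r2⟩)
    · obtain ⟨-, r2, -, r4⟩ := mem_RR.1 (hT _ a)
      exact r4 (h.bb_idx.2 ⟨b, r2⟩)
    · exact hK i a b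
  have h2 : ∀ t, i < t → t < j → ¬ (NX G Y (f t) ∨ T (f t)) := fun t a b c => by
    have := jmin t ⟨a, c⟩; omega
  refine arcOK_one (j := j) (by omega) h2 fun t x a b c => ?_
  rcases key t x (h2 t a b) c with e | ⟨u, rfl, e⟩
  · exact Or.inl e
  · refine Or.inr ⟨u, ?_, ?_, rfl⟩
    · by_contra c
      exact e i (by omega) hi
    · by_contra c
      exact e j (by omega) j1

/-- The case without proper chords. -/
structure np_T (G : SimpleGraph V) (f : ℤ → V) (v : V) (Y : Finset V) (ν : V ≃ V) (d : ℤ) : Prop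
    extends S0 G f v Y ν d where
  np : ∀ p q, Sg G f Y p q → Only G (AA G Y ν.symm) (f p) (f q)

lemma np_T.nq (h : np_T G f v Y ν d) {p q : ℤ} (s : Sg G f Y p q) :
    Only G (AA G Y ν) (f q) (f p) := h.toS0.only_rev h.np s

lemma np_T.rev (h : np_T G f v Y ν d) : np_T G (fun i => f (-i)) v Y ν.symm d :=
  ⟨h.toS0.rev, fun _ _ s => h.nq s.rev'⟩

/-- Ends of different segments are not adjacent. -/
lemma np_T.ends (h : np_T G f v Y ν d) {p q p' q' t u : ℤ} (s : Sg G f Y p q)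
    (s' : Sg G f Y p' q') (o1 : q + 1 < p') (o2 : q' + 1 < p + (ord V - 1))
    (ht : t = p ∨ t = q) (hu : u = p' ∨ u = q') : ¬ G.Adj (f t) (f u) := by
  intro a
  have := s.lt
  have := s'.lt
  rcases ht with rfl | rfl <;> rcases hu with rfl | rfl
  · exact h.aa_indep (h.sg_aa s) (h.sg_aa s') a
  · exact np_ne h.toS0 (by omega) (h.np _ _ s _ (h.sg_bb s') a)
  · exact np_ne h.toS0 (by omega) (h.np _ _ s' _ (h.sg_bb s) a.symm)
  · exact h.toSt.rev.aa_indep (h.sg_bb s) (h.sg_bb s') a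

lemma np_T.ma (h : np_T G f v Y ν d) {p q : ℤ} (s : Sg G f Y p q) (hp : Poor G Y (f p)) {i j : ℤ}
    (n : ¬ G.Adj (f p) (f i)) (hi : f i ∈ RR G Y ν ∨ f i = f q) (hj : f j ∈ RR G Y ν ∨ f j = f q)
    (e : i ≠ j ∧ i < j + (ord V - 1) ∧ j < i + (ord V - 1)) : G.Adj (f p) (f j) :=
  h.toS0.miss2 (h.sg_aa s) (h.np _ _ s) hp (np_ne h.toS0 e) hi hj n

lemma np_T.mb (h : np_T G f v Y ν d) {p q : ℤ} (s : Sg G f Y p q) (hp : Poor G Y (f q)) {i j : ℤ}
    (n : ¬ G.Adj (f q) (f i)) (hi : f i ∈ RR G Y ν ∨ f i = f p) (hj : f j ∈ RR G Y ν ∨ f j = f p)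
    (e : i ≠ j ∧ i < j + (ord V - 1) ∧ j < i + (ord V - 1)) : G.Adj (f q) (f j) :=
  h.toS0.miss2' (h.sg_bb s) (h.nq s) hp (np_ne h.toS0 e) hi hj n

lemma np_ra (h : S0 G f v Y ν d) {p q k : ℤ} (s : Sg G f Y p q) (e : p < k ∧ k ≤ q) :
    f k ∈ RR G Y ν ∨ f k = f q := by
  by_cases a : k = q
  exacts [Or.inr (by rw [a]), Or.inl (h.sg_rr s k e.1 (by omega))]

lemma np_rb (h : S0 G f v Y ν d) {p q k : ℤ} (s : Sg G f Y p q) (e : p ≤ k ∧ k < q) :
    f k ∈ RR G Y ν ∨ f k = f p := by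
  by_cases a : k = p
  exacts [Or.inr (by rw [a]), Or.inl (h.sg_rr s k (by omega) e.2)]

lemma np_rr (h : S0 G f v Y ν d) {p q k : ℤ} {w : V} (s : Sg G f Y p q)
    (e : p < k ∧ k < q) : f k ∈ RR G Y ν ∨ f k = w :=
  Or.inl (h.sg_rr s k e.1 e.2)

lemma np_T.blobD (h : np_T G f v Y ν d) {p0 q0 : ℤ} (s0 : Sg G f Y p0 q0)
    (h1 : ∀ p q, Sg G f Y p q → q0 + 1 < p → q + 1 < p0 + (ord V - 1) → q ≤ p + 2)
    (h2 : p0 + 3 ≤ q0 → ∀ p q k t, Sg G f Y p q → q0 + 1 < p → q + 1 < p0 + (ord V - 1) →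
      p0 < k → k < q0 → p ≤ t → t ≤ q → G.Adj (f k) (f t) →
      t = p + 1 ∧ q = p + 2 ∧ ¬ G.Adj (f p) (f q)) : False := by
  have hn := h.n3
  have hc := h.hop.cyc.1
  have l0 := s0.lt
  refine np_blob h.toS0 (fun w => ∃ p, Sg G f Y p (p + 2) ∧ ¬ G.Adj (f p) (f (p + 2)) ∧
    f (p + 1) = w) p0 ?_ ?_ ?_
  · rintro w ⟨p, s, -, rfl⟩
    exact h.sg_rr s _ (by omega) (by omega)
  · rintro i ⟨p, s, -, e⟩ ⟨p', s', -, e'⟩
    have r := h.sg_rr s' (p' + 1) (by omega) (by omega)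
    rw [e', ← hc.shift (by omega) e 1, add_assoc, one_add_one_eq_two] at r
    exact (mem_RR.1 r).2.2.2 (h.sg_bb s)
  intro t u t0 tu u1 x1 x2 y1 y2 n1 n2 a
  obtain ⟨p, q, a1, a2, a3, a4, s⟩ := np_win h.toS0 s0.x1 t0 (by omega) x1 y1
  obtain ⟨p', q', b1, b2, b3, b4, s'⟩ := np_win h.toS0 s0.x1 (by omega) u1 x2 y2
  have l1 := s.lt
  have l2 := s'.lt
  rcases s.cmp s' with ⟨rfl, rfl⟩ | c | c
  · intro k k0 k1
    refine ⟨s.no k (by omega) (by omega), ?_⟩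
    rintro ⟨r, sr, nr, e⟩
    have e0 : ∀ j i, j = r + 1 + i → f j = f (k + i) := fun j i a => by
      rw [a]; exact hc.shift (by omega) e i
    have k2 : k ≠ t := fun x => n1 ⟨r, sr, nr, x ▸ e⟩
    have k3 : k ≠ u := fun x => n2 ⟨r, sr, nr, x ▸ e⟩
    have e1 := sr.x1
    have e2 := sr.x2
    rw [e0 (r - 1) (-2) (by ring)] at e1
    rw [e0 (r + 2 + 1) 2 (by ring)] at e2
    rw [e0 r (-1) (by ring), e0 (r + 2) 1 (by ring)] at nr
    have k4 : t = k + -1 := by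
      by_contra x
      exact s.no _ (by omega) (by omega) e1
    have k5 : u = k + 1 := by
      by_contra x
      exact s.no _ (by omega) (by omega) e2
    exact nr (k4 ▸ k5 ▸ a)
  swap
  · omega
  exfalso
  have o1 : q0 + 1 < p' := s0.sep s' (by omega)
  have o2 := h1 p' q' s' o1 b4
  have hu : (u = p' ∨ u = q') ∨ (u = p' + 1 ∧ q' = p' + 2 ∧ G.Adj (f p') (f q')) := by
    by_cases x : u = p' ∨ u = q'
    · exact Or.inl x
    obtain rfl : q' = p' + 2 := by omega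
    obtain rfl : u = p' + 1 := by omega
    refine Or.inr ⟨rfl, rfl, ?_⟩
    by_contra y
    exact n2 ⟨p', s', y, rfl⟩
  by_cases x : t = p ∨ t = q
  · rcases hu with hu | ⟨rfl, rfl, hu⟩
    · exact h.ends s s' c (by omega) x hu a
    · rcases x with rfl | rfl
      · exact np_A h.toS0 s' s hu a (by omega)
      · exact np_B h.toS0 s' s hu.symm a (by omega)
  by_cases y : q ≤ p + 2
  · obtain rfl : q = p + 2 := by omega
    obtain rfl : t = p + 1 := by omega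
    have z : G.Adj (f p) (f (p + 2)) := by
      by_contra y
      exact n1 ⟨p, s, y, rfl⟩
    rcases hu with (rfl | rfl) | ⟨rfl, rfl, hu⟩
    · exact np_A h.toS0 s s' z a.symm (by omega)
    · exact np_B h.toS0 s s' z.symm a.symm (by omega)
    · exact h.toS0.seg p [(p' - 1, p + 2), (p, p + 1), (p' + 1, p'), (p' + 2, p - 1 + (ord V - 1))]
        (by simp only [ok, inw, dis, dis1, sdis, tot, slen, and_true]; omega)
        ⟨z.symm, a, hu, trivial⟩ s'.x1 (np_E h.toS0 s)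
  · rcases s0.cmp s with ⟨rfl, rfl⟩ | e | e
    · obtain ⟨rfl, rfl, z⟩ := h2 (by omega) p' q' t u s' o1 b4 (by omega) (by omega) b2 b3 a
      exact n2 ⟨p', s', z, rfl⟩
    · exact y (h1 p q s e a4)
    · omega

lemma np_T.blob2 (h : np_T G f v Y ν d) {p0 : ℤ} (s0 : Sg G f Y p0 (p0 + 3))
    (n1 : ¬ G.Adj (f p0) (f (p0 + 3))) (n2 : ¬ G.Adj (f (p0 + 3)) (f (p0 + 1)))
    (h1 : ∀ p q, Sg G f Y p q → p0 + 4 < p → q + 1 < p0 + (ord V - 1) →
      ¬ G.Adj (f p) (f (p0 + 1)) ∧ ¬ G.Adj (f q) (f (p0 + 1)) ∧ q ≤ p + 2 ∧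
        (q = p + 2 → ¬ G.Adj (f p) (f q))) : False := by
  have hn := h.n3
  have hc := h.hop.cyc.1
  have l0 := h.sg_le s0
  refine np_blob h.toS0 (fun w => w ∈ RR G Y ν ∧ w ≠ f (p0 + 1)) p0 (fun _ a => a.1) ?_ ?_
  · rintro i ⟨r1, m1⟩ ⟨r2, m2⟩
    obtain ⟨k, k0, k1, k2⟩ := hc.win (by omega) p0 i
    have k3 : f k = f i := by simpa using k2 0
    rw [← k3] at r1 m1
    rw [← k2] at r2
    obtain ⟨x, y, e1, e2⟩ := mem_RR.1 r1
    obtain ⟨p, q, a1, a2, a3, a4, s⟩ := np_win h.toS0 s0.x1 k0 k1 x y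
    have b1 : k ≠ p := fun e => e1 (e ▸ h.sg_aa s)
    have b2 : k ≠ q := fun e => e2 (e ▸ h.sg_bb s)
    have b3 : k + 1 ≠ q := fun e => (mem_RR.1 r2).2.2.2 (e ▸ h.sg_bb s)
    have b4 : k ≠ p0 + 1 := fun e => m1 (by rw [e])
    rcases s0.cmp s with e | e | e
    · omega
    · have := (h1 p q s (by omega) a4).2.2.1
      omega
    · omega
  intro t u t0 tu u1 x1 x2 y1 y2 m1 m2 a
  obtain ⟨p, q, a1, a2, a3, a4, s⟩ := np_win h.toS0 s0.x1 t0 (by omega) x1 y1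
  obtain ⟨p', q', b1, b2, b3, b4, s'⟩ := np_win h.toS0 s0.x1 (by omega) u1 x2 y2
  have l1 := s.lt
  have l2 := s'.lt
  have ht : (t = p ∨ t = q) ∨ t = p0 + 1 := by
    by_contra x
    exact m1 ⟨h.sg_rr s t (by omega) (by omega), np_ne h.toS0 (by omega)⟩
  have hu : (u = p' ∨ u = q') ∨ u = p0 + 1 := by
    by_contra x
    exact m2 ⟨h.sg_rr s' u (by omega) (by omega), np_ne h.toS0 (by omega)⟩
  by_cases e : u = t + 1
  · intro k k0 k1
    rcases (by omega : k = t ∨ k = u) with rfl | rfl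
    exacts [⟨x1, m1⟩, ⟨x2, m2⟩]
  exfalso
  rcases s.cmp s' with ⟨rfl, rfl⟩ | c | c
  · rcases s0.cmp s with ⟨rfl, rfl⟩ | c | c
    · obtain rfl : u = p0 + 3 := by omega
      rcases (by omega : t = p0 ∨ t = p0 + 1) with rfl | rfl
      exacts [n1 a, n2 a.symm]
    · obtain ⟨-, -, c1, c2⟩ := h1 p q s (by omega) a4
      obtain rfl : t = p := by omega
      obtain rfl : u = q := by omega
      exact c2 (by omega) a
    · omega
  · rcases ht with ht | rfl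
    · exact h.ends s s' c (by omega) ht (by omega) a
    · obtain ⟨c1, c2, -⟩ := h1 p' q' s' (by have := s0.sep s' (by omega); omega) b4
      rcases (by omega : u = p' ∨ u = q') with rfl | rfl
      exacts [c1 a.symm, c2 a.symm]
  · omega

lemma np_T.long (h : np_T G f v Y ν d) : ∃ p q, Sg G f Y p q ∧ p + 3 ≤ q := by
  by_contra c
  push Not at c
  by_cases e : ∃ p q, Sg G f Y p q
  · obtain ⟨p0, q0, s0⟩ := e
    exact h.blobD s0 (fun p q s _ _ => by have := c p q s; omega)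
      (fun a => by have := c _ _ s0; omega)
  · exact np_blob h.toS0 (fun _ => False) 0 (by simp) (by simp) fun t u _ _ _ x1 _ y1 => by
      obtain ⟨p, q, -, -, s⟩ := h.exists_sg h.toS0.d_pos x1 y1
      exact absurd ⟨p, q, s⟩ e

lemma np_gc (h : S0 G f v Y ν d) {p0 q0 p1 q1 p q : ℤ} (s0 : Sg G f Y p0 q0)
    (s1 : Sg G f Y p1 q1) (s : Sg G f Y p q) (hr : Rich G Y (f p0))
    (a : G.Adj (f p1) (f (p0 + 2)))
    (o : p0 + 3 ≤ q0 ∧ q0 + 1 < p1 ∧ q1 + 1 < p0 + (ord V - 1) ∧ q0 ≤ q ∧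
      q + 1 < p0 + (ord V - 1)) : ¬ G.Adj (f q) (f (p0 + 1)) := by
  intro b
  have := s1.lt
  by_cases e : p1 ≤ q
  · exact np_AB h s1 s a b (by omega)
  · have : q + 1 ≠ p1 := fun x => s1.no p1 le_rfl s1.lt.le (x ▸ s.x2)
    exact h.seg p0 [(p0 - 1 + (ord V - 1), p1), (p0 + 2, q), (p0 + 1, p0), (p1 - 1, q + 1)]
      (by simp only [ok, inw, dis, dis1, sdis, tot, slen, and_true]; omega)
      ⟨a, b, hr _ s1.x1, trivial⟩ (np_E h s0) s.x2

lemma np_T.alpha (h : np_T G f v Y ν d) {p0 q0 p2 q2 : ℤ} (s0 : Sg G f Y p0 q0)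
    (s2 : Sg G f Y p2 q2) (hl : p0 + 3 ≤ q0) (o1 : q0 + 1 < p2) (o2 : q2 + 1 < p0 + (ord V - 1))
    (P0 : Poor G Y (f p0)) (P2 : Poor G Y (f p2)) : False := by
  have l2 := s2.lt
  have H := h.toS0
  have A : ∀ z z1, z1 = z + 1 ∧ p0 < z ∧ z < q0 →
      ¬ G.Adj (f p0) (f z1) ∨ ¬ G.Adj (f p2) (f z) := fun z z1 a => by
    by_contra c
    push Not at c
    exact np_A H s0 s2 c.1 c.2 (by omega)
  have A1 := A (p0 + 1) (p0 + 2) (by omega)
  have A2 := A (p0 + 2) (p0 + 3) (by omega)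
  obtain rfl : q0 = p0 + 3 := by
    by_contra c
    have A3 := A (p0 + 3) (p0 + 4) (by omega)
    rcases A1 with a1 | a1 <;> rcases A2 with a2 | a2 <;> rcases A3 with a3 | a3 <;>
    first
    | exact a2 (h.ma s0 P0 a1 (np_ra H s0 (by omega)) (np_ra H s0 (by omega)) (by omega))
    | exact a3 (h.ma s0 P0 a1 (np_ra H s0 (by omega)) (np_ra H s0 (by omega)) (by omega))
    | exact a3 (h.ma s0 P0 a2 (np_ra H s0 (by omega)) (np_ra H s0 (by omega)) (by omega))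
    | exact a2 (h.ma s2 P2 a1 (np_rr H s0 (by omega)) (np_rr H s0 (by omega)) (by omega))
    | exact a3 (h.ma s2 P2 a1 (np_rr H s0 (by omega)) (np_rr H s0 (by omega)) (by omega))
    | exact a3 (h.ma s2 P2 a2 (np_rr H s0 (by omega)) (np_rr H s0 (by omega)) (by omega))
  have O : (¬ G.Adj (f p0) (f (p0 + 2)) ∧ ¬ G.Adj (f p2) (f (p0 + 2))) ∨
      (¬ G.Adj (f p0) (f (p0 + 3)) ∧ ¬ G.Adj (f p2) (f (p0 + 1))) := by
    rcases A1 with a1 | a1 <;> rcases A2 with a2 | a2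
    · exact absurd (h.ma s0 P0 a1 (np_ra H s0 (by omega)) (np_ra H s0 (by omega)) (by omega)) a2
    · exact Or.inl ⟨a1, a2⟩
    · exact Or.inr ⟨a2, a1⟩
    · exact absurd (h.ma s2 P2 a1 (np_rr H s0 (by omega)) (np_rr H s0 (by omega)) (by omega)) a2
  have R0 : ∀ j, p0 + 3 < j ∧ j < p0 + (ord V - 1) → f j ∈ RR G Y ν → G.Adj (f p0) (f j) :=
    fun j j0 r => by
      rcases O with ⟨a, -⟩ | ⟨a, -⟩ <;> exact h.ma s0 P0 a (np_ra H s0 (by omega)) (Or.inl r) (by omega)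
  have R2 : ∀ j, p0 + 3 < j ∧ j < p0 + (ord V - 1) → f j ∈ RR G Y ν ∨ f j = f q2 →
      G.Adj (f p2) (f j) := fun j j0 r => by
    rcases O with ⟨-, a⟩ | ⟨-, a⟩ <;> exact h.ma s2 P2 a (np_rr H s0 (by omega)) r (by omega)
  obtain rfl : q2 = p2 + 1 := by
    by_contra c
    exact np_A H s2 s0 (R2 q2 (by omega) (Or.inr rfl))
      (R0 (q2 - 1) (by omega) (h.sg_rr s2 _ (by omega) (by omega))) (by omega)
  rcases O with ⟨a, b⟩ | ⟨a, b⟩
  · have e1 : G.Adj (f p0) (f (p0 + 3)) := h.ma s0 P0 a (np_ra H s0 (by omega)) (Or.inr rfl) (by omega)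
    have e2 : G.Adj (f p2) (f (p0 + 1)) := h.ma s2 P2 b (np_rr H s0 (by omega)) (np_rr H s0 (by omega)) (by omega)
    have Pb : Poor G Y (f (p2 + 1)) := H.poor s0.x2 (s2.no _ (by omega) le_rfl) fun x =>
      H.seg p0 [(p2 - 1, p0 + 3 + 1), (p2 + 1, p2), (p0 + 1, p0 + 3), (p0, p0),
          (p0 - 1 + (ord V - 1), p2 + 1 + 1)]
        (by simp only [ok, inw, dis, dis1, sdis, tot, slen, and_true]; omega)
        ⟨x.symm, e2, e1.symm, (np_wrap H p0).symm, trivial⟩ s2.x1 s2.x2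
    have e3 : ¬ G.Adj (f (p2 + 1)) (f (p0 + 1)) := fun x =>
      H.seg p0 [(p2 + 1 + 1, p0 - 1 + (ord V - 1)), (p0, p0), (p0 + 3, p0 + 1),
          (p2 + 1, p0 + 3 + 1)]
        (by simp only [ok, inw, dis, dis1, sdis, tot, slen, and_true]; omega)
        ⟨np_wrap H p0, e1, x.symm, trivial⟩ s2.x2 s0.x2
    have e4 : G.Adj (f (p2 + 1)) (f (p0 + 2)) := h.mb s2 Pb e3 (np_rr H s0 (by omega)) (np_rr H s0 (by omega)) (by omega)
    exact np_AB H s2 s2 e2 e4 (by omega)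
  have e1 : G.Adj (f p0) (f (p0 + 2)) := h.ma s0 P0 a (Or.inr rfl) (np_ra H s0 (by omega)) (by omega)
  have e2 : G.Adj (f p2) (f (p0 + 2)) := h.ma s2 P2 b (np_rr H s0 (by omega)) (np_rr H s0 (by omega)) (by omega)
  have B : ∀ p q, Sg G f Y p q → p0 + 3 ≤ q → q + 1 < p0 + (ord V - 1) →
      ¬ G.Adj (f q) (f (p0 + 1)) := by
    intro p q s q1 q2 y
    by_cases e : p2 ≤ q
    · exact np_AB H s2 s e2 y (by omega)
    have : q + 1 ≠ p2 := fun x => s2.no p2 le_rfl s2.lt.le (x ▸ s.x2)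
    have Pb : Poor G Y (f (p2 + 1)) := H.poor s2.x1 (s2.no _ (by omega) le_rfl) fun x =>
      H.seg (p2 + 1 + 1 - (ord V - 1)) [(p2 + 1 + 1 - (ord V - 1), p0 + 1), (q, p0 + 2),
          (p2, p2 + 1), (p2 - 1, q + 1)]
        (by simp only [ok, inw, dis, dis1, sdis, tot, slen, and_true]; omega)
        ⟨y.symm, e2.symm, x, trivial⟩
        (by simpa only [fst, h.hop.cyc.1.per_sub] using s2.x2) s.x2
    have e4 : G.Adj (f (p2 + 1)) (f (p0 + 2)) :=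
      h.mb s2 Pb (i := p0 + 1) (fun x => np_AB H s2 s2 e2 x (by omega)) (np_rr H s0 (by omega)) (np_rr H s0 (by omega)) (by omega)
    exact np_B H s s2 y e4 (by omega)
  refine h.blob2 s0 a (B _ _ s0 le_rfl (by omega)) fun p q s p1 p3 =>
    ⟨fun x => np_A H s0 s e1 x (by have := s.lt; omega), B _ _ s (by have := s.lt; omega) p3,
      ?_, ?_⟩
  · by_contra c
    have r1 := h.sg_rr s (p + 1) (by omega) (by omega)
    have r2 := h.sg_rr s (p + 2) (by omega) (by omega)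
    rcases s.cmp s2 with e | e | e
    · omega
    · exact np_A H s0 s2 (R0 _ (by omega) r2) (R2 _ (by omega) (Or.inl r1)) (by omega)
    · exact np_A H s2 s0 (R2 _ (by omega) (Or.inl r2)) (R0 _ (by omega) r1) (by omega)
  · rintro rfl x
    exact np_A H s s0 x (R0 (p + 1) (by omega) (h.sg_rr s _ (by omega) (by omega))) (by omega)

lemma np_T.beta (h : np_T G f v Y ν d) {p0 q0 p1 q1 p2 q2 : ℤ} (s0 : Sg G f Y p0 q0)
    (s1 : Sg G f Y p1 q1) (s2 : Sg G f Y p2 q2) (hl : p0 + 3 ≤ q0) (o1 : q0 + 1 < p1)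
    (o2 : q1 + 1 < p2) (o3 : q2 + 1 < p0 + (ord V - 1)) (hr : Rich G Y (f p0))
    (P1 : Poor G Y (f p1)) (P2 : Poor G Y (f p2)) : False := by
  have l1 := s1.lt
  have l2 := s2.lt
  have H := h.toS0
  have R : ∀ p q, Sg G f Y p q → Poor G Y (f p) → ∀ j, q0 + 1 < p ∧ q + 1 < p0 + (ord V - 1) ∧
      p0 + 1 < j ∧ j < p0 + (ord V - 1) → f j ∈ RR G Y ν ∨ f j = f q → G.Adj (f p) (f j) :=
    fun p q s P j o r => by
      have := s.lt
      exact h.ma s P (np_r1 H s0 s hr (by omega)) (np_rr H s0 (by omega)) r (by omega)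
  have e1 := R _ _ s1 P1 (p0 + 2) (by omega) (np_rr H s0 (by omega))
  obtain rfl : q0 = p0 + 3 := by
    by_contra c
    exact np_A H s2 s1 (R _ _ s2 P2 (p0 + 3) (by omega) (np_rr H s0 (by omega))) e1 (by omega)
  have sh : ∀ p q p' q', Sg G f Y p q → Sg G f Y p' q' → Poor G Y (f p') → p0 + 4 < p ∧
      q + 1 < p0 + (ord V - 1) ∧ p0 + 4 < p' ∧ q' + 1 < p0 + (ord V - 1) ∧ p ≠ p' → q = p + 1 := by
    intro p q p' q' s s' P o
    by_contra c
    have := s.lt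
    have := s'.lt
    have := s.cmp s'
    rcases H.poor_or (s.no p le_rfl s.lt.le) with e | e
    · exact np_r1 H s s' e (by omega) (R _ _ s' P (p + 1) (by omega) (np_rr H s (by omega)))
    · exact np_A H s s' (R _ _ s e q (by omega) (Or.inr rfl))
        (R _ _ s' P (q - 1) (by omega) (np_rr H s (by omega))) (by omega)
  refine h.blob2 s0 (fun x => np_A H s0 s1 x e1 (by omega)) (np_gc H s0 s1 s0 hr e1 (by omega)) fun p q s a b => ?_
  have := s.lt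
  have : q = p + 1 := by
    by_cases e : p = p1
    exacts [sh _ _ _ _ s s2 P2 (by omega), sh _ _ _ _ s s1 P1 (by omega)]
  exact ⟨np_r1 H s0 s hr (by omega), np_gc H s0 s1 s hr e1 (by omega), by omega, by omega⟩

lemma np_T.twoA (h : np_T G f v Y ν d) {a a' : V} (ha : a ∈ AA G Y ν) (ha' : a' ∈ AA G Y ν)
    (P : Poor G Y a) (P' : Poor G Y a') : a = a' := by
  obtain ⟨p0, q0, s0, hl⟩ := h.long
  have H := h.toS0
  rcases H.poor_or (s0.no p0 le_rfl s0.lt.le) with hr | P0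
  · rcases np_aa H s0 ha with rfl | ⟨p1, q1, rfl, s1, a1, a2⟩
    · exact absurd hr (H.not_rich P)
    rcases np_aa H s0 ha' with rfl | ⟨p2, q2, rfl, s2, b1, b2⟩
    · exact absurd hr (H.not_rich P')
    rcases s1.cmp s2 with ⟨e, -⟩ | e | e
    · rw [e]
    · exact (h.beta s0 s1 s2 hl a1 e b2 hr P P').elim
    · exact (h.beta s0 s2 s1 hl b1 e a2 hr P' P).elim
  · have key : ∀ a ∈ AA G Y ν, Poor G Y a → a = f p0 := fun a ha P => by
      rcases np_aa H s0 ha with e | ⟨p1, q1, rfl, s1, a1, a2⟩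
      exacts [e, (h.alpha s0 s1 hl a1 a2 P0 P).elim]
    rw [key a ha P, key a' ha' P']

lemma np_T.twoB (h : np_T G f v Y ν d) {b b' : V} (hb : b ∈ AA G Y ν.symm)
    (hb' : b' ∈ AA G Y ν.symm) (P : Poor G Y b) (P' : Poor G Y b') : b = b' :=
  h.rev.twoA hb hb' P P'

lemma np_T.step (h : np_T G f v Y ν d) {a : V} (ha : a ∈ AA G Y ν) (P : Poor G Y a) :
    (∃ b ∈ AA G Y ν.symm, Poor G Y b) ∧ ∀ r ∈ RR G Y ν, Poor G Y r := by
  have H := h.toS0
  obtain ⟨p, -, -, rfl⟩ := h.surj 0 (h.ne_of_nmem (mem_AA.1 ha).2)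
  have x := (h.aa_idx.1 ha).1
  have h1 := H.mm_ge x
  have h2 := H.rr_le
  have key : ∀ w ∈ MM G Y (f (p - 1)), w ∈ RR G Y ν ∨ (w ∈ AA G Y ν.symm ∧ Poor G Y w) := by
    intro w hw
    rcases h.mm_sub (H.isU x) hw with e | ⟨e, e' | e'⟩
    · exact Or.inl e
    · exact absurd (h.twoA e' ha e P ▸ np_adj H (by omega)) (mem_MM.1 hw).2.2
    · exact Or.inr ⟨e', e⟩
  have h3 : ∃ b ∈ AA G Y ν.symm, Poor G Y b := by
    by_contra c
    have := Finset.card_le_card (show MM G Y (f (p - 1)) ⊆ RR G Y ν from fun w hw =>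
      (key w hw).resolve_right fun e => c ⟨w, e⟩)
    omega
  refine ⟨h3, fun r hr => ?_⟩
  obtain ⟨b, hb, Pb⟩ := h3
  have h4 : MM G Y (f (p - 1)) = insert b (RR G Y ν) := by
    refine Finset.eq_of_subset_of_card_le (fun w hw => ?_) ?_
    · rw [Finset.mem_insert]
      exact (key w hw).symm.imp_left fun e => h.twoB e.1 hb e.2 Pb
    · have := Finset.card_insert_le b (RR G Y ν)
      omega
  have h5 : r ∈ MM G Y (f (p - 1)) := h4 ▸ Finset.mem_insert_of_mem hr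
  exact H.poor x (mem_MM.1 h5).1 fun e => (mem_MM.1 h5).2.2 e.symm

lemma np_T.both (h : np_T G f v Y ν d) : (∃ a ∈ AA G Y ν, Poor G Y a) ∧
    (∃ b ∈ AA G Y ν.symm, Poor G Y b) ∧ ∀ r ∈ RR G Y ν, Poor G Y r := by
  have H := h.toS0
  suffices e : ∃ a ∈ AA G Y ν, Poor G Y a by
    obtain ⟨a, ha, P⟩ := e
    exact ⟨⟨a, ha, P⟩, h.step ha P⟩
  obtain ⟨p, q, s, -⟩ := h.long
  have h1 := H.mm_ge s.x1
  have h2 := H.rr_le
  by_contra c
  have := Finset.card_le_card (show MM G Y (f (p - 1)) ⊆ RR G Y ν from fun w hw => by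
    rcases h.mm_sub (H.isU s.x1) hw with e | ⟨e, e' | e'⟩
    exacts [e, absurd ⟨w, e', e⟩ c, absurd (h.rev.step e' e).1 c])
  omega

/-- The first vertex of a long segment is poor. -/
lemma np_T.lpoor (h : np_T G f v Y ν d) {p0 q0 : ℤ} (s0 : Sg G f Y p0 q0) (hl : p0 + 3 ≤ q0) :
    Poor G Y (f p0) := by
  have H := h.toS0
  obtain ⟨⟨a, ha, Pa⟩, ⟨b, hb, Pb⟩, -⟩ := h.both
  refine (H.poor_or (s0.no p0 le_rfl s0.lt.le)).resolve_left fun hr => ?_
  rcases np_aa H s0 ha with rfl | ⟨p1, q1, rfl, s1, a1, a2⟩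
  · exact H.not_rich Pa hr
  have l1 := s1.lt
  have e1 : G.Adj (f p1) (f (p0 + 2)) :=
    h.ma s1 Pa (np_r1 H s0 s1 hr (by omega)) (np_rr H s0 (by omega)) (np_rr H s0 (by omega)) (by omega)
  have e2 : G.Adj (f p1) (f (q0 - 1)) :=
    h.ma s1 Pa (np_r1 H s0 s1 hr (by omega)) (np_rr H s0 (by omega)) (np_rr H s0 (by omega)) (by omega)
  rcases H.poor_or (s0.no q0 s0.lt.le le_rfl) with e | e
  · rcases np_bb H s0 hb with rfl | ⟨p2, q2, rfl, s2, b1, b2⟩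
    · exact H.not_rich Pb e
    have l2 := s2.lt
    exact np_r2 H s0 s2 e (by omega)
      (h.mb s2 Pb (np_gc H s0 s1 s2 hr e1 (by omega)) (np_rr H s0 (by omega)) (np_rr H s0 (by omega)) (by omega))
  · have e3 : G.Adj (f q0) (f p0) :=
      h.mb s0 e (np_gc H s0 s1 s0 hr e1 (by omega)) (np_rr H s0 (by omega)) (Or.inr rfl) (by omega)
    exact np_A H s0 s1 e3.symm e2 (by omega)

lemma np_T.lpoor' (h : np_T G f v Y ν d) {p0 q0 : ℤ} (s0 : Sg G f Y p0 q0) (hl : p0 + 3 ≤ q0) :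
    Poor G Y (f q0) := by
  simpa using h.rev.lpoor s0.rev (by omega)

lemma np_T.richA (h : np_T G f v Y ν d) {p0 q0 p q : ℤ} (s0 : Sg G f Y p0 q0) (hl : p0 + 3 ≤ q0)
    (s : Sg G f Y p q) (o1 : q0 + 1 < p) (o2 : q + 1 < p0 + (ord V - 1)) : Rich G Y (f p) := by
  have := s.lt
  exact (h.toS0.poor_or (s.no p le_rfl s.lt.le)).resolve_right fun e =>
    np_ne h.toS0 (by omega) (h.twoA (h.sg_aa s) (h.sg_aa s0) e (h.lpoor s0 hl))

lemma np_T.richB (h : np_T G f v Y ν d) {p0 q0 p q : ℤ} (s0 : Sg G f Y p0 q0) (hl : p0 + 3 ≤ q0)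
    (s : Sg G f Y p q) (o1 : q0 + 1 < p) (o2 : q + 1 < p0 + (ord V - 1)) : Rich G Y (f q) := by
  have := s.lt
  exact (h.toS0.poor_or (s.no q s.lt.le le_rfl)).resolve_right fun e =>
    np_ne h.toS0 (by omega) (h.twoB (h.sg_bb s) (h.sg_bb s0) e (h.lpoor' s0 hl))

/-- Inner vertices of the long segment miss the other first vertices. -/
lemma np_T.ka (h : np_T G f v Y ν d) {p0 q0 p q k : ℤ} (s0 : Sg G f Y p0 q0) (hl : p0 + 3 ≤ q0)
    (s : Sg G f Y p q) (o1 : q0 + 1 < p) (o2 : q + 1 < p0 + (ord V - 1)) (k1 : p0 < k)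
    (k2 : k < q0) : ¬ G.Adj (f k) (f p) := by
  intro a
  have H := h.toS0
  have l1 := s.lt
  have Pa := h.lpoor s0 hl
  have Pb := h.lpoor' s0 hl
  have n1 : ¬ G.Adj (f p0) (f (k + 1)) := fun x => np_A H s0 s x a.symm (by omega)
  have n2 : ¬ G.Adj (f q0) (f (k - 1)) := fun x =>
    H.seg p0 [(q + 1, p0 - 1 + (ord V - 1)), (p0, k - 1), (q0, k), (p, q), (p - 1, q0 + 1)]
      (by simp only [ok, inw, dis, dis1, sdis, tot, slen, and_true]; omega)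
      ⟨np_wrap H p0, x.symm, a, h.richB s0 hl s o1 o2 _ s.x1, trivial⟩ s.x2 s0.x2
  have k3 : k - 1 ≠ p0 := fun e =>
    n2 (e ▸ (h.ma s0 Pa n1 (np_ra H s0 (by omega)) (Or.inr rfl) (by omega)).symm)
  have k4 : k + 1 ≠ q0 := fun e =>
    n1 (e ▸ (h.mb s0 Pb n2 (np_rb H s0 (by omega)) (Or.inr rfl) (by omega)).symm)
  have e1 : G.Adj (f p0) (f k) := h.ma s0 Pa n1 (np_ra H s0 (by omega)) (np_ra H s0 (by omega)) (by omega)
  have e2 : G.Adj (f q0) (f (k - 2)) := h.mb s0 Pb n2 (np_rb H s0 (by omega)) (np_rb H s0 (by omega)) (by omega)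
  have r1 := h.sg_rr s0 (k - 1) (by omega) (by omega)
  have r2 := h.sg_rr s0 (k + 1) (by omega) (by omega)
  have e3 : G.Adj (f (k - 1)) (f (k + 1)) := by
    by_contra n3
    have P := h.both.2.2 _ r1
    have h1 := H.wdeg (f (k - 1)) (insert (f p0) (((RR G Y ν).erase (f (k - 1))).erase (f (k + 1))))
      (by
        intro w hw
        by_cases x : NX G Y w
        · exact Or.inl x
        refine Or.inr ?_
        simp only [Finset.mem_insert, Finset.mem_erase, mem_RR]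
        by_cases y : w ∈ AA G Y ν
        · rcases np_aa H s0 y with e | ⟨p1, q1, rfl, s1, a1, a2⟩
          · exact Or.inl e
          · exact (np_A H s0 s1 e1 hw.symm (by have := s1.lt; omega)).elim
        refine Or.inr ⟨fun e => n3 (e ▸ hw), hw.ne', x,
          fun z => (mem_RR.1 r1).1 ⟨w, z, hw.symm⟩, y, fun z => ?_⟩
        rcases np_bb H s0 z with rfl | ⟨p1, q1, rfl, s1, a1, a2⟩
        · exact n2 hw.symm
        · exact np_B H s0 s1 e2 hw.symm (by have := s1.lt; omega))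
    have h2 := Finset.card_insert_le (f p0) (((RR G Y ν).erase (f (k - 1))).erase (f (k + 1)))
    have m : f (k + 1) ∈ (RR G Y ν).erase (f (k - 1)) := Finset.mem_erase.2 ⟨np_ne H (by omega), r2⟩
    have h3 := Finset.card_erase_add_one m
    have h4 := Finset.card_erase_add_one r1
    have := H.rr_le
    unfold Poor at P
    omega
  exact H.seg p0 [(p - 1, k + 1), (k - 1, p0), (k, k), (p, p0 - 1 + (ord V - 1))]
    (by simp only [ok, inw, dis, dis1, sdis, tot, slen, and_true]; omega)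
    ⟨e3.symm, e1, a, trivial⟩ s.x1 (np_E H s0)

lemma np_T.kb (h : np_T G f v Y ν d) {p0 q0 p q k : ℤ} (s0 : Sg G f Y p0 q0) (hl : p0 + 3 ≤ q0)
    (s : Sg G f Y p q) (o1 : q0 + 1 < p) (o2 : q + 1 < p0 + (ord V - 1)) (k1 : p0 < k)
    (k2 : k < q0) : ¬ G.Adj (f k) (f q) := by
  have := h.rev.ka (k := -k) s0.rev (by omega) (h.rev.sg_up s.rev) (by omega) (by omega)
    (by omega) (by omega)
  rw [h.rev.per (-q)] at this
  simpa using this

theorem S0.np (h : S0 G f v Y ν d)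
    (hnp : ∀ p q, Sg G f Y p q → Only G (AA G Y ν.symm) (f p) (f q)) : False := by
  have H : np_T G f v Y ν d := ⟨h, hnp⟩
  obtain ⟨p0, q0, s0, hl⟩ := H.long
  have h1 : ∀ p q, Sg G f Y p q → q0 + 1 < p → q + 1 < p0 + (ord V - 1) → q ≤ p + 2 := by
    intro p q s o1 o2
    by_contra c
    exact h.not_rich (H.lpoor s (by omega)) (H.richA s0 hl s o1 o2)
  refine H.blobD s0 h1 fun _ p q k t s o1 o2 k1 k2 t1 t2 a => ?_
  have t3 : t ≠ p := fun e => H.ka s0 hl s o1 o2 k1 k2 (e ▸ a)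
  have t4 : t ≠ q := fun e => H.kb s0 hl s o1 o2 k1 k2 (e ▸ a)
  have := h1 p q s o1 o2
  obtain rfl : q = p + 2 := by omega
  obtain rfl : t = p + 1 := by omega
  refine ⟨rfl, rfl, fun x => ?_⟩
  have e : G.Adj (f p0) (f (k + 1)) := H.ma s0 (H.lpoor s0 hl)
    (np_r1 h s s0 (H.richA s0 hl s o1 o2) (by omega)) (np_rr h s (by omega)) (np_ra h s0 (by omega)) (by omega)
  exact h.seg p0 [(p0 - 1 + (ord V - 1), p + 2), (p, p + 1), (k, p0), (k + 1, p - 1)]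
    (by simp only [ok, inw, dis, dis1, sdis, tot, slen, and_true]; omega)
    ⟨x.symm, a.symm, e, trivial⟩ (np_E h s0) s.x1

end Pool.Agent.P.MP_422cad_co
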