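import Pool.Agent.P.MP_422cad_co.One

set_option autoImplicit false

namespace Pool.Agent.P.MP_422cad_co

open SimpleGraph Classical

variable {V : Type} [Fintype V] {G : SimpleGraph V} {f : ℤ → V} {v : V} {Y : Finset V}
  {ν : V ≃ V} {d : ℤ}

lemma S0.pc_noY (h : S0 G f v Y ν d) {i j : ℤ} (c : Ch G f Y i j) (s : ℤ) (h1 : i ≤ s)
    (h2 : s ≤ j) : f s ∉ Y :=
  h.ch_noY c (Or.inl (h.isU c.x1)) s h1 h2

lemma S0.pc_L (h : S0 G f v Y ν d) {i j s : ℤ} (c : Ch G f Y i j) (h1 : i < s) (h2 : s < j)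
    (hx : NX G Y (f s)) : ¬ G.Adj (f (s + 1)) (f (i + 1)) := by
  intro a
  have := c.le
  refine h.seg i [(j + 1, i - 1 + (ord V - 1)), (i, i), (j, s + 1), (i + 1, s)]
    (by simp only [ok, inw, dis, dis1, sdis, tot, slen, and_true]; omega)
    ⟨?_, c.adj, a, trivial⟩ c.x2 hx
  simp only [h.per]
  simpa using h.hop.cyc.1.adj (i - 1)

lemma S0.pc_L' (h : S0 G f v Y ν d) {i j s : ℤ} (c : Ch G f Y i j) (h1 : i < s) (h2 : s < j)
    (hx : NX G Y (f s)) : ¬ G.Adj (f (s - 1)) (f (j - 1)) := by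
  intro a
  have := c.le
  exact h.seg i [(i - 1 + (ord V - 1), j), (i, s - 1), (j - 1, s)]
    (by simp only [ok, inw, dis, dis1, sdis, tot, slen, and_true]; omega)
    ⟨c.adj.symm, a, trivial⟩ (by simpa only [fst, h.per] using c.x1) hx

lemma S0.pc_cardA (h : S0 G f v Y ν d) (μ : V ≃ V) {w : V} (hw : w ∉ Y) :
    (insert (μ w) ((Y.erase v).image μ)).card = Y.card := by
  have hc : 0 < Y.card := Finset.card_pos.2 ⟨v, h.hop.mem⟩
  rw [Finset.card_insert_of_notMem, Finset.card_image_of_injective _ μ.injective,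
    Finset.card_erase_of_mem h.hop.mem]
  · omega
  · simp only [Finset.mem_image, Equiv.apply_eq_iff_eq, exists_eq_right, Finset.mem_erase]
    exact fun a => hw a.2

lemma S0.pc_missA (h : S0 G f v Y ν d) {i j s : ℤ} (c : Ch G f Y i j) (h1 : i < s) (h2 : s < j)
    (hx : NX G Y (f s)) (z : V) (hz : z ∈ insert (ν (f j)) ((Y.erase v).image ν)) :
    NX G Y z ∧ ¬ G.Adj (f (s + 1)) z := by
  have hy := h.pc_noY c (s + 1) (by omega) (by omega)
  rcases Finset.mem_insert.1 hz with rfl | hz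
  · rw [h.nu]
    exact ⟨c.x2, h.ch_e2 c h1 h2 hx hy⟩
  · obtain ⟨y, hy', rfl⟩ := Finset.mem_image.1 hz
    obtain ⟨t, t1, t2, rfl⟩ := h.ch_out c (Or.inl (h.isU c.x1)) hy'
    have ht := (Finset.mem_erase.1 hy').2
    rw [h.nu]
    exact ⟨(h.hop.nbr t ht).2, h.ch_yp c h1 h2 hx hy (h.isU c.x1) t1 t2 ht⟩

lemma S0.pc_missB (h : S0 G f v Y ν d) {i j s : ℤ} (c : Ch G f Y i j) (h1 : i < s) (h2 : s < j)
    (hx : NX G Y (f s)) (z : V) (hz : z ∈ insert (ν.symm (f i)) ((Y.erase v).image ν.symm)) :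
    NX G Y z ∧ ¬ G.Adj (f (s + 1)) z := by
  have hy := h.pc_noY c (s + 1) (by omega) (by omega)
  rcases Finset.mem_insert.1 hz with rfl | hz
  · rw [h.nus]
    exact ⟨c.x1, h.ch_e1 c h1 h2 hx hy⟩
  · obtain ⟨y, hy', rfl⟩ := Finset.mem_image.1 hz
    obtain ⟨t, t1, t2, rfl⟩ := h.ch_out c (Or.inl (h.isU c.x1)) hy'
    have ht := (Finset.mem_erase.1 hy').2
    rw [h.nus]
    exact ⟨(h.hop.nbr t ht).1, h.ch_ym c h1 h2 hx hy (h.isU c.x2) t1 t2 ht⟩

/-- Counting for one half of the set `W` in the lemma `pc_bc`. -/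
lemma pc_half (a : V) (μ : V ≃ V) (N A : Finset V) (k : ℕ)
    (hA : ∀ z ∈ A, NX G Y z ∧ ¬ G.Adj a z) (hk : A.card = k)
    (hN : ∀ r ∈ N, NX G Y (μ (μ r)) ∧ μ (μ r) ∉ A)
    (hc : (XX G Y).card ≤ (nb G a ∩ XX G Y).card + N.card + 1) :
    k ≤ ((N.filter fun r => G.Adj a (μ (μ r))).image μ).card + 1 := by
  have h1 := miss_card (G := G) (Y := Y) a
    (A ∪ (N.filter fun r => ¬ G.Adj a (μ (μ r))).image (fun r => μ (μ r))) (by
      intro z hz
      rcases Finset.mem_union.1 hz with hz | hz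
      · exact hA z hz
      · obtain ⟨r, hr, rfl⟩ := Finset.mem_image.1 hz
        obtain ⟨r1, r2⟩ := Finset.mem_filter.1 hr
        exact ⟨(hN r r1).1, r2⟩)
  rw [Finset.card_union_of_disjoint, Finset.card_image_of_injective _
    (fun x y e => μ.injective (μ.injective e))] at h1
  · rw [Finset.card_image_of_injective _ μ.injective]
    have := Finset.card_filter_add_card_filter_not (s := N) (fun r => G.Adj a (μ (μ r)))
    omega
  · rw [Finset.disjoint_right]
    intro z hz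
    obtain ⟨r, hr, rfl⟩ := Finset.mem_image.1 hz
    exact (hN r (Finset.mem_filter.1 hr).1).2

/-- If no two consecutive vertices are in `RR` then every vertex of `RR` is the middle of a
segment with three vertices. -/
lemma S0.pc_mid (h : S0 G f v Y ν d) (i : ℤ)
    (hno : ∀ t, i ≤ t → t < i + (ord V - 1) → f t ∈ RR G Y ν → f (t + 1) ∈ RR G Y ν → False)
    {t : ℤ} (ht : f t ∈ RR G Y ν) : Sg G f Y (t - 1) (t + 1) := by
  have hn := h.n3
  have hno' : ∀ t, f t ∈ RR G Y ν → f (t + 1) ∈ RR G Y ν → False := by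
    intro t a b
    obtain ⟨u, u0, u1, e⟩ := h.hop.cyc.1.win (by omega) i t
    have e0 := e 0
    simp only [add_zero] at e0
    exact hno u u0 u1 (e0 ▸ a) ((e 1) ▸ b)
  obtain ⟨p, q, a, b, s⟩ := h.rr_sg ht
  have e1 : q = t + 1 := by
    by_contra e
    exact hno' t ht (h.sg_rr s _ (by omega) (by omega))
  have e2 : p = t - 1 := by
    by_contra e
    exact hno' (t - 1) (h.sg_rr s _ (by omega) (by omega)) (by simpa using ht)
  rwa [e1, e2] at s

lemma S0.pc_bc (h : S0 G f v Y ν d) (hy : 2 ≤ Y.card) {i j : ℤ} (c : Ch G f Y i j)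
    (hij : i < j - 1) (s1 : Sg G f Y i (i + 1)) (s2 : Sg G f Y (j - 1) j)
    (ho : Only G (AA G Y ν.symm) (f (j - 1)) (f j))
    (hno : ∀ t, i ≤ t → t < i + (ord V - 1) → f t ∈ RR G Y ν → f (t + 1) ∈ RR G Y ν → False) :
    False := by
  have hle := c.le
  have hsep := s1.sep s2 hij
  have hx : NX G Y (f (j - 2)) := by
    have := s2.x1
    rwa [show j - 1 - 1 = j - 2 by ring] at this
  have ej : j - 2 + 1 = j - 1 := by ring
  have aa1 := h.sg_aa s1
  have bb1 := h.sg_bb s1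
  have aa2 := h.sg_aa s2
  have bb2 := h.sg_bb s2
  set N := nb G (f (j - 1)) ∩ RR G Y ν with hN
  have hc : (XX G Y).card ≤ (nb G (f (j - 1)) ∩ XX G Y).card + N.card + 1 := by
    have h1 := h.miss aa2 ho (RR G Y ν \ N) (by
      intro w hw
      obtain ⟨w1, w2⟩ := Finset.mem_sdiff.1 hw
      exact ⟨Or.inl w1, fun a => w2 (Finset.mem_inter.2 ⟨mem_nb.2 a, w1⟩)⟩)
    have h2 : (RR G Y ν \ N).card + N.card = (RR G Y ν).card :=
      Finset.card_sdiff_add_card_eq_card Finset.inter_subset_right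
    omega
  have hpos : ∀ r ∈ N, ∃ t, f t = r ∧ G.Adj (f (j - 1)) (f t) ∧ f t ∈ RR G Y ν ∧
      Sg G f Y (t - 1) (t + 1) := by
    intro r hr
    obtain ⟨r1, r2⟩ := Finset.mem_inter.1 hr
    obtain ⟨t, -, -, rfl⟩ := h.surj 0 (h.ne_of_nmem (mem_RR.1 r2).2.1)
    exact ⟨t, rfl, mem_nb.1 r1, r2, h.pc_mid i hno r2⟩
  have k1 := pc_half (G := G) (Y := Y) (f (j - 1)) ν N _ _
    (fun z hz => ej ▸ h.pc_missA c (s := j - 2) (by omega) (by omega) hx z hz)
    (h.pc_cardA ν c.y2) (by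
      intro r hr
      obtain ⟨t, rfl, -, r2, s⟩ := hpos r hr
      refine ⟨by rw [h.nu, h.nu]; exact s.x2, fun a => ?_⟩
      simp only [Finset.mem_insert, Finset.mem_image, Equiv.apply_eq_iff_eq, exists_eq_right,
        Finset.mem_erase] at a
      rcases a with a | a
      · rw [← Equiv.eq_symm_apply, h.nus] at a
        exact (mem_RR.1 r2).2.2.1 (a ▸ aa2)
      · rw [h.nu] at a
        exact (mem_AA.1 (h.sg_bb s)).2 a.2) hc
  have k2 := pc_half (G := G) (Y := Y) (f (j - 1)) ν.symm N _ _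
    (fun z hz => ej ▸ h.pc_missB c (s := j - 2) (by omega) (by omega) hx z hz)
    (h.pc_cardA ν.symm c.y1) (by
      intro r hr
      obtain ⟨t, rfl, -, r2, s⟩ := hpos r hr
      refine ⟨by rw [h.nus, h.nus]; exact s.x1, fun a => ?_⟩
      simp only [Finset.mem_insert, Finset.mem_image, Equiv.apply_eq_iff_eq, exists_eq_right,
        Finset.mem_erase] at a
      rcases a with a | a
      · rw [Equiv.symm_apply_eq, h.nu] at a
        exact (mem_RR.1 r2).2.2.2 (a ▸ bb1)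
      · rw [h.nus] at a
        exact (mem_AA.1 (h.sg_aa s)).2 a.2) hc
  set W1 := (N.filter fun r => G.Adj (f (j - 1)) (ν (ν r))).image ν with hW1
  set W2 := (N.filter fun r => G.Adj (f (j - 1)) (ν.symm (ν.symm r))).image ν.symm with hW2
  have w1 : ∀ u ∈ W1, ∃ p, i ≤ p ∧ p < i + (ord V - 1) ∧ f p = u ∧ u ∈ AA G Y ν.symm ∧
      f (p - 1) ∈ RR G Y ν ∧ G.Adj (f (j - 1)) (f (p - 1)) ∧ G.Adj (f (j - 1)) (f (p + 1)) := by
    intro u hu
    obtain ⟨r, hr, rfl⟩ := Finset.mem_image.1 hu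
    obtain ⟨r1, r2⟩ := Finset.mem_filter.1 hr
    obtain ⟨t, rfl, a, r3, s⟩ := hpos r r1
    obtain ⟨p, p0, p1, e⟩ := h.hop.cyc.1.win (show 0 < ord V - 1 by omega) i (t + 1)
    have e0 := e 0
    have e1 := e (-1)
    simp only [add_zero] at e0
    rw [← sub_eq_add_neg, ← sub_eq_add_neg, add_sub_cancel_right] at e1
    rw [h.nu, h.nu] at r2
    rw [h.nu]
    exact ⟨p, p0, p1, e0, h.sg_bb s, e1 ▸ r3, e1 ▸ a, (e 1) ▸ r2⟩
  have w2 : ∀ u ∈ W2, ∃ p, i ≤ p ∧ p < i + (ord V - 1) ∧ f p = u ∧ u ∈ AA G Y ν ∧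
      f (p + 1) ∈ RR G Y ν ∧ G.Adj (f (j - 1)) (f (p - 1)) ∧ G.Adj (f (j - 1)) (f (p + 1)) := by
    intro u hu
    obtain ⟨r, hr, rfl⟩ := Finset.mem_image.1 hu
    obtain ⟨r1, r2⟩ := Finset.mem_filter.1 hr
    obtain ⟨t, rfl, a, r3, s⟩ := hpos r r1
    obtain ⟨p, p0, p1, e⟩ := h.hop.cyc.1.win (show 0 < ord V - 1 by omega) i (t - 1)
    have e0 := e 0
    have e1 := e 1
    have e2 := e (-1)
    simp only [add_zero] at e0
    rw [sub_add_cancel] at e1
    rw [← sub_eq_add_neg, ← sub_eq_add_neg] at e2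
    rw [h.nus, h.nus] at r2
    rw [h.nus]
    exact ⟨p, p0, p1, e0, h.sg_aa s, e1 ▸ r3, e2 ▸ r2, e1 ▸ a⟩
  have hE : NX G Y (f (i - 1 + (ord V - 1))) := by rw [h.per]; exact c.x1
  have hb := h.big i (j - 1) [(j - 2, i), (j, i - 1 + (ord V - 1))]
    (by simp only [ok, inw, dis, dis1, sdis, tot, slen, and_true]; omega) ⟨c.adj, trivial⟩
    (h.vx hx) (h.vx hE) (W1 ∪ W2) (by
      intro u hu
      right
      rcases Finset.mem_union.1 hu with hu | hu
      · obtain ⟨p, p0, p1, rfl, u1, u2, a, b⟩ := w1 u hu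
        refine ⟨p, rfl, ?_, a, b⟩
        have n1 : p ≠ i := fun e => h.aa_bb aa1 (e ▸ u1)
        have n2 : p ≠ j - 2 := fun e => h.toSt.rev.aa_nx u1 (e ▸ hx)
        have n3 : p ≠ j - 1 := fun e => h.aa_bb aa2 (e ▸ u1)
        have n4 : p ≠ j := fun e => (mem_RR.1 u2).2.2.1 (e ▸ aa2)
        have n5 : p ≠ i - 1 + (ord V - 1) := fun e => h.toSt.rev.aa_nx u1 (e ▸ hE)
        simp only [inn, or_false]
        omega
      · obtain ⟨p, p0, p1, rfl, u1, u2, a, b⟩ := w2 u hu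
        refine ⟨p, rfl, ?_, a, b⟩
        have n1 : p ≠ i := fun e => (mem_RR.1 u2).2.2.2 (e ▸ bb1)
        have n2 : p ≠ j - 2 := fun e => h.aa_nx u1 (e ▸ hx)
        have n3 : p ≠ j - 1 := fun e => (mem_RR.1 u2).2.2.2 (by
          rw [e, sub_add_cancel]; exact bb2)
        have n4 : p ≠ j := fun e => h.aa_bb u1 (e ▸ bb2)
        have n5 : p ≠ i - 1 + (ord V - 1) := fun e => h.aa_nx u1 (e ▸ hE)
        simp only [inn, or_false]
        omega)
  rw [Finset.card_union_of_disjoint] at hb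
  · omega
  · rw [Finset.disjoint_left]
    intro u hu hu'
    obtain ⟨p, -, -, -, u1, -⟩ := w1 u hu
    obtain ⟨p', -, -, -, u2, -⟩ := w2 u hu'
    exact h.aa_bb u2 u1

/-- A first vertex with a neighbour in `B` other than its partner has a proper chord. -/
lemma S0.pc_prop (h : S0 G f v Y ν d) {p q : ℤ} (s : Sg G f Y p q)
    (hc : ¬ Only G (AA G Y ν.symm) (f p) (f q)) :
    ∃ j, Ch G f Y p j ∧ ∃ x, p < x ∧ x < j ∧ NX G Y (f x) := by
  unfold Only at hc
  push Not at hc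
  obtain ⟨w, hw, a, ne⟩ := hc
  obtain ⟨j, rfl, c⟩ := h.ch_of (h.sg_aa s) hw a
  refine ⟨j, c, ?_⟩
  by_contra hno
  push Not at hno
  have s' : Sg G f Y p j := ⟨c.lt, c.x1, c.x2, fun t t0 t1 => by
    by_cases e1 : t = p
    · exact e1 ▸ h.aa_nx (h.sg_aa s)
    by_cases e2 : t = j
    · exact e2 ▸ h.toSt.rev.aa_nx hw
    exact hno t (by omega) (by omega)⟩
  have := s.lt
  have := s'.lt
  rcases s.cmp s' with ⟨-, e⟩ | e | e
  · exact ne (by rw [e])
  · omega
  · omega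

/-- If some position outside the chord is neither in `X` nor in `Y`, then a jumped first vertex
without proper chord is complete to `RR` and its partner. -/
lemma S0.pc_full (h : S0 G f v Y ν d) {i j s t : ℤ} (c : Ch G f Y i j) (h1 : i < s) (h2 : s < j)
    (hx : NX G Y (f s)) (t0 : j + 1 ≤ t) (t1 : t ≤ i - 1 + (ord V - 1)) (tx : ¬ NX G Y (f t))
    (ty : f t ∉ Y) {b : V} (ho : Only G (AA G Y ν.symm) (f (s + 1)) b) {w : V}
    (hw : w ∈ RR G Y ν ∨ w = b) : G.Adj (f (s + 1)) w := by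
  by_contra hn
  have hle := c.le
  have ha : f (s + 1) ∈ AA G Y ν :=
    h.aa_idx.2 ⟨by simpa using hx, h.pc_noY c (s + 1) (by omega) (by omega)⟩
  obtain ⟨u, ⟨u0, u1⟩, umin⟩ := Int.exists_least_of_bdd
    (P := fun u => t ≤ u ∧ (u = i - 1 + (ord V - 1) ∨ f (u + 1) ∈ Y)) ⟨t, fun _ a => a.1⟩
    ⟨i - 1 + (ord V - 1), t1, Or.inl rfl⟩
  have u2 := umin _ ⟨t1, Or.inl rfl⟩
  have n1 : t ≠ j + 1 := fun e => tx (e ▸ c.x2)
  have hB : f u ∈ insert (ν.symm (f i)) ((Y.erase v).image ν.symm) := by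
    rcases u1 with u1 | u1
    · rw [u1, h.per, h.nus]
      exact Finset.mem_insert_self _ _
    · refine Finset.mem_insert_of_mem (Finset.mem_image.2 ⟨f (u + 1),
        Finset.mem_erase.2 ⟨h.hop.cyc.2 _, u1⟩, ?_⟩)
      rw [h.nus, add_sub_cancel_right]
  have hA : f u ∉ insert (ν (f j)) ((Y.erase v).image ν) := by
    intro a
    rcases Finset.mem_insert.1 a with a | a
    · rw [h.nu] at a
      have := h.hop.cyc.1.eq (by omega) (by omega) a
      omega
    · obtain ⟨y, hy, e⟩ := Finset.mem_image.1 a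
      rw [← Equiv.eq_symm_apply, h.nus] at e
      have hy' : f (u - 1) ∈ Y := e ▸ (Finset.mem_erase.1 hy).2
      have n2 : u - 1 ≠ t := fun e => ty (e ▸ hy')
      have n3 : u ≠ t := fun e => tx (by
        have := (h.hop.nbr _ hy').2
        rwa [sub_add_cancel, e] at this)
      have := umin (u - 2) ⟨by omega, Or.inr (by rwa [show u - 2 + 1 = u - 1 by ring])⟩
      omega
  have k1 := miss_card (G := G) (Y := Y) (f (s + 1))
    (insert (f u) (insert (ν (f j)) ((Y.erase v).image ν))) (by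
      intro z hz
      rcases Finset.mem_insert.1 hz with rfl | hz
      · exact h.pc_missB c h1 h2 hx _ hB
      · exact h.pc_missA c h1 h2 hx _ hz)
  rw [Finset.card_insert_of_notMem hA, h.pc_cardA ν c.y2] at k1
  have k2 := h.miss ha ho {w} (by
    intro x hx
    rw [Finset.mem_singleton.1 hx]
    exact ⟨hw, hn⟩)
  rw [Finset.card_singleton] at k2
  have := h.rr_le
  omega

/-- Lemma (M). -/
lemma S0.pc_M (h : S0 G f v Y ν d) {q p' k t : ℤ} (h1 : k ≤ q) (h2 : q + 1 < p') (h3 : p' < t)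
    (h4 : t < k + (ord V - 1)) (x1 : NX G Y (f (q + 1))) (x2 : NX G Y (f (p' - 1)))
    (ht : f t ∈ Y) (a1 : G.Adj (f q) (f (k - 1))) (a2 : G.Adj (f p') (f k)) : False :=
  h.seg (q + 1) [(p' - 1, q + 1), (t, k - 1 + (ord V - 1)), (q + (ord V - 1), k + (ord V - 1)),
      (p', t - 1)]
    (by simp only [ok, inw, dis, dis1, sdis, tot, slen, and_true]; omega)
    ⟨(h.yx ht x1).symm, by simpa only [h.per] using a1.symm, by simpa only [h.per] using a2.symm,
      trivial⟩ x2 (h.hop.nbr t ht).1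

/-- The mirror symmetric package of case N. -/
structure PN (G : SimpleGraph V) (f : ℤ → V) (v : V) (Y : Finset V) (ν : V ≃ V) (d i j : ℤ) :
    Prop where
  h : S0 G f v Y ν d
  hy : 2 ≤ Y.card
  c : Ch G f Y i j
  pr : ∃ s, i < s ∧ s < j ∧ NX G Y (f s)
  ns : ∀ t, j + 1 ≤ t → t ≤ i - 1 + (ord V - 1) → NX G Y (f t) ∨ f t ∈ Y
  oa : ∀ p q, Sg G f Y p q → i < p → q ≤ j → Only G (AA G Y ν.symm) (f p) (f q)
  ob : ∀ p q, Sg G f Y p q → i ≤ p → q < j → Only G (AA G Y ν) (f q) (f p)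

variable {i j : ℤ}

lemma PN.rev (P : PN G f v Y ν d i j) : PN G (fun i => f (-i)) v Y ν.symm d (-j) (-i) := by
  have c := P.c
  refine ⟨P.h.rev, P.hy, ⟨by have := c.lt; omega, by have := c.le; omega, ?_, by simpa using c.y2,
    ?_, by simpa using c.y1, by simpa using c.adj.symm⟩, ?_, ?_, ?_, ?_⟩
  · simpa [sub_eq_add_neg, add_comm] using c.x2
  · simpa [sub_eq_add_neg, add_comm] using c.x1
  · obtain ⟨s, a, b, e⟩ := P.pr
    exact ⟨-s, by omega, by omega, by simpa using e⟩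
  · intro t t0 t1
    have := P.ns (-t + (ord V - 1)) (by omega) (by omega)
    rwa [P.h.per] at this
  · intro p q s a b
    exact P.ob _ _ s.rev' (by omega) (by omega)
  · intro p q s a b
    exact P.oa _ _ s.rev' (by omega) (by omega)

lemma PN.t1 (P : PN G f v Y ν d i j) : ∃ t, j + 1 < t ∧ t < i + ord V - 2 ∧ f t ∈ Y := by
  obtain ⟨y, hy1, hy2⟩ := Finset.exists_mem_ne (by have := P.hy; omega : 1 < Y.card) v
  obtain ⟨t, a, b, rfl⟩ := P.h.ch_out P.c (Or.inl (P.h.isU P.c.x1))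
    (Finset.mem_erase.2 ⟨hy2, hy1⟩)
  exact ⟨t, a, b, hy1⟩

lemma PN.pa (P : PN G f v Y ν d i j) {p q : ℤ} (s : Sg G f Y p q) (h1 : i < p) (h2 : q ≤ j) :
    Poor G Y (f p) ∧ ¬ G.Adj (f p) (f (i + 1)) := by
  have := s.lt
  have n : p - 1 ≠ i := fun e => P.h.hop.toHop.nocons P.h.n2 (i - 1) P.c.x1 (by
    rw [sub_add_cancel, ← e]; exact s.x1)
  have a := P.h.ch_poor P.c (Or.inl (P.h.isU P.c.x1)) (s := p - 1) (by omega) (by omega) s.x1
  have b := P.h.pc_L P.c (s := p - 1) (by omega) (by omega) s.x1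
  rw [sub_add_cancel] at a b
  exact ⟨a, b⟩

lemma PN.pb (P : PN G f v Y ν d i j) {p q : ℤ} (s : Sg G f Y p q) (h1 : i ≤ p) (h2 : q < j) :
    Poor G Y (f q) ∧ ¬ G.Adj (f q) (f (j - 1)) := by
  have := P.rev.pa s.rev (by omega) (by omega)
  simpa [sub_eq_add_neg, add_comm] using this

lemma S0.pc_first (h : S0 G f v Y ν d) (c : Ch G f Y i j)
    (pr : ∃ s, i < s ∧ s < j ∧ NX G Y (f s)) : ∃ q, q < j ∧ Sg G f Y i q := by
  obtain ⟨q, s⟩ := h.aa_sg (h.aa_idx.2 ⟨c.x1, c.y1⟩)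
  obtain ⟨x, a, b, e⟩ := pr
  refine ⟨q, ?_, s⟩
  by_contra n
  exact s.no x (by omega) (by omega) e

lemma S0.pc_last (h : S0 G f v Y ν d) (c : Ch G f Y i j)
    (pr : ∃ s, i < s ∧ s < j ∧ NX G Y (f s)) : ∃ p, i < p ∧ Sg G f Y p j := by
  obtain ⟨p, s⟩ := h.bb_sg (h.bb_idx.2 ⟨c.x2, c.y2⟩)
  obtain ⟨x, a, b, e⟩ := pr
  refine ⟨p, ?_, s⟩
  by_contra n
  exact s.no x (by omega) (by omega) e

lemma PN.first (P : PN G f v Y ν d i j) : ∃ q, q < j ∧ Sg G f Y i q := P.h.pc_first P.c P.pr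

lemma PN.last (P : PN G f v Y ν d i j) : ∃ p, i < p ∧ Sg G f Y p j := P.h.pc_last P.c P.pr

/-- Every position of the window outside `X ∪ Y` lies in a segment inside the chord. -/
lemma PN.ins (P : PN G f v Y ν d i j) {t p q : ℤ} (t0 : i ≤ t) (t1 : t < i + (ord V - 1))
    (s : Sg G f Y p q) (a : p ≤ t) (b : t ≤ q) : i ≤ p ∧ q ≤ j := by
  have h1 : t ≤ j := by
    by_contra n
    rcases P.ns t (by omega) (by omega) with x | x
    · exact s.no t a b x
    · exact P.h.sg_ny s t a b x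
  constructor
  · by_contra n
    exact s.no (i - 1) (by omega) (by omega) P.c.x1
  · by_contra n
    exact s.no (j + 1) (by omega) (by omega) P.c.x2

lemma S0.pc_ne (h : S0 G f v Y ν d) {s t : ℤ} (h1 : s < t) (h2 : t < s + (ord V - 1)) :
    f s ≠ f t := h.hop.cyc.1.inj s t h1 h2

/-- A later first vertex is adjacent to every vertex of `RR` and its partner but `f (i + 1)`, if
that one is in `RR`. -/
lemma PN.adj (P : PN G f v Y ν d i j) (hr : f (i + 1) ∈ RR G Y ν) {p q : ℤ} (s : Sg G f Y p q)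
    (h1 : i < p) (h2 : q ≤ j) {t : ℤ} (t0 : i + 1 < t) (t1 : t ≤ j)
    (ht : f t ∈ RR G Y ν ∨ f t = f q) : G.Adj (f p) (f t) := by
  have := P.c.le
  obtain ⟨a, b⟩ := P.pa s h1 h2
  exact P.h.miss2 (P.h.sg_aa s) (P.oa p q s h1 h2) a (P.h.pc_ne t0 (by omega)) (Or.inl hr) ht b

lemma PN.n1 (P : PN G f v Y ν d i j) {p q : ℤ} (s : Sg G f Y p q) (h1 : i < p) (h2 : q < j) :
    q ≤ p + 2 := by
  by_contra n
  have h := P.h
  have hle := P.c.le
  obtain ⟨t, t0, t1, ht⟩ := P.t1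
  obtain ⟨k, k0, sk⟩ := P.last
  have klt := sk.lt
  have hk : q + 1 < k := by
    rcases s.cmp sk with ⟨-, e⟩ | e | e <;> omega
  have pa := (P.pa s h1 h2.le).1
  have pb := (P.pb s h1.le h2).1
  have pk := (P.pa sk k0 le_rfl).1
  have r1 := h.sg_rr s (p + 1) (by omega) (by omega)
  have r2 := h.sg_rr s (p + 2) (by omega) (by omega)
  have hM : ∀ u, p < u → u ≤ q → G.Adj (f k) (f u) → ¬ G.Adj (f q) (f (u - 1)) :=
    fun u u0 u1 a b => h.pc_M u1 hk (by omega) (by omega : t < u + (ord V - 1)) s.x2 sk.x1 ht b a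
  have hA : ∀ u, p ≤ u → u < q → G.Adj (f k) (f u) → ¬ G.Adj (f p) (f (u + 1)) :=
    fun u u0 u1 a b => h.lamA u0 (by omega) (by omega) s.x1 sk.x1 b a
  by_cases a : G.Adj (f k) (f (p + 1))
  · have b1 := hM _ (by omega) (by omega) a
    have b2 := hA _ (by omega) (by omega) a
    rw [add_sub_cancel_right] at b1
    rw [show p + 1 + 1 = p + 2 by ring] at b2
    exact b1 (h.miss2 (h.sg_aa s) (P.oa p q s h1 h2.le) pa
      (h.pc_ne (show p + 2 < q by omega) (by omega)) (Or.inl r2) (Or.inr rfl) b2).symm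
  · have hk2 : ∀ u, p + 1 < u → u < q → G.Adj (f k) (f u) := fun u u0 u1 =>
      h.miss2 (h.sg_aa sk) (P.oa k j sk k0 le_rfl) pk (h.pc_ne u0 (by omega)) (Or.inl r1)
        (Or.inl (h.sg_rr s u (by omega) u1)) a
    have b1 := hM _ (by omega) (by omega) (hk2 (p + 2) (by omega) (by omega))
    rw [show p + 2 - 1 = p + 1 by ring] at b1
    by_cases e : q = p + 3
    · have b2 := hA _ (by omega) (by omega) (hk2 (p + 2) (by omega) (by omega))
      rw [show p + 2 + 1 = q by omega] at b2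
      exact b2 (h.miss2' (h.sg_bb s) (P.ob p q s h1.le h2) pb
        (h.pc_ne (show p < p + 1 by omega) (by omega)).symm (Or.inl r1) (Or.inr rfl) b1).symm
    · have b2 := hM _ (by omega) (by omega) (hk2 (p + 3) (by omega) (by omega))
      rw [show p + 3 - 1 = p + 2 by ring] at b2
      exact b2 (h.miss2' (h.sg_bb s) (P.ob p q s h1.le h2) pb
        (h.pc_ne (show p + 1 < p + 2 by omega) (by omega)) (Or.inl r1) (Or.inl r2) b1)

lemma PN.n2a (P : PN G f v Y ν d i j) {q : ℤ} (s : Sg G f Y i q) : q ≤ i + 2 := by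
  by_contra n
  have h := P.h
  have hle := P.c.le
  obtain ⟨t, t0, t1, ht⟩ := P.t1
  obtain ⟨k, k0, sk⟩ := P.last
  have klt := sk.lt
  have hk := s.sep sk k0
  have a := P.adj (h.sg_rr s (i + 1) (by omega) (by omega)) sk k0 le_rfl (t := q - 1) (by omega)
    (by omega) (Or.inl (h.sg_rr s _ (by omega) (by omega)))
  have b1 : ¬ G.Adj (f q) (f (q - 1 - 1)) := fun b =>
    h.pc_M (k := q - 1) (by omega) hk (by omega) (by omega : t < q - 1 + (ord V - 1)) s.x2 sk.x1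
      ht b a
  have b2 := h.miss2' (h.sg_bb s) (P.ob i q s le_rfl (by omega)) (P.pb s le_rfl (by omega)).1
    (h.pc_ne (show i < q - 1 - 1 by omega) (by omega)).symm
    (Or.inl (h.sg_rr s _ (by omega) (by omega))) (Or.inr rfl) b1
  exact h.lamA (z := q - 1) (by omega) (by omega) (by omega) s.x1 sk.x1
    (by simpa using b2.symm) a

lemma PN.n2b (P : PN G f v Y ν d i j) (s : Sg G f Y i (i + 2)) :
    Sg G f Y (i + 4) j ∧ i + 6 ≤ j := by
  have h := P.h
  have hle := P.c.le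
  have hy := P.hy
  obtain ⟨k, k0, sk⟩ := P.last
  have klt := sk.lt
  have hk := s.sep sk k0
  have hr := h.sg_rr s (i + 1) (by omega) (by omega)
  obtain ⟨pk, nk⟩ := P.pa sk k0 le_rfl
  have k2 := h.miss (h.sg_aa sk) (P.oa k j sk k0 le_rfl) {f (i + 1)} (by
    intro x hx
    rw [Finset.mem_singleton.1 hx]
    exact ⟨Or.inl hr, nk⟩)
  rw [Finset.card_singleton] at k2
  unfold Poor at pk
  obtain ⟨r, r1, r2⟩ := Finset.exists_mem_ne (by omega : 1 < (RR G Y ν).card) (f (i + 1))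
  obtain ⟨t, t0, t1, rfl⟩ := h.surj i (h.ne_of_nmem (mem_RR.1 r1).2.1)
  obtain ⟨p, q, a, b, w⟩ := h.rr_sg r1
  obtain ⟨p0, q0⟩ := P.ins t0 t1 w a.le b.le
  have n : t ≠ i + 1 := fun e => r2 (by rw [e])
  have hp : i + 3 < p := by
    rcases s.cmp w with e | e | e <;> omega
  have uniq : ∀ p' q', Sg G f Y p' q' → i < p' → q' ≤ j → p' = p ∧ q' = q := by
    intro p' q' w' c1 c2
    have l := w'.lt
    have a1 := P.adj hr w (by omega) q0 (t := q) (by omega) q0 (Or.inr rfl)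
    have a2 := P.adj hr w' c1 c2 (t := q - 1) (by omega) (by omega)
      (Or.inl (h.sg_rr w _ (by omega) (by omega)))
    rcases w'.cmp w with e | e | e
    · exact e
    · exact (h.lamA (p' := p' + (ord V - 1)) (z := q - 1) (by omega) (by omega) (by omega) w.x1
        (h.sg_up w').x1 (by simpa using a1) (by rwa [h.per])).elim
    · exact (h.lamA (z := q - 1) (by omega) (by omega) (by omega) w.x1 w'.x1
        (by simpa using a1) a2).elim
  obtain ⟨e1, e2⟩ := uniq k j sk k0 le_rfl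
  obtain ⟨q', w'⟩ := h.aa_sg (p := i + 4) (h.aa_idx.2 ⟨by
    have := s.x2
    rwa [show i + 2 + 1 = i + 4 - 1 by ring] at this, h.pc_noY P.c _ (by omega) (by omega)⟩)
  obtain ⟨e3, e4⟩ := uniq _ _ w' (by omega)
    (P.ins (t := i + 4) (by omega) (by omega) w' le_rfl w'.lt.le).2
  exact ⟨by rw [e3, e2]; exact w, by omega⟩

/-- The positions outside `X ∪ Y` in the final configuration. -/
lemma PN.pos (P : PN G f v Y ν d i (i + 6)) (s : Sg G f Y i (i + 2))
    (w : Sg G f Y (i + 4) (i + 6)) {x : V} (h1 : ¬ NX G Y x) (h2 : x ∉ Y) :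
    x = f i ∨ x = f (i + 1) ∨ x = f (i + 2) ∨ x = f (i + 4) ∨ x = f (i + 5) ∨ x = f (i + 6) := by
  rcases P.h.cls i x with a | a | ⟨t, p, q, t0, t1, rfl, a, b, u⟩
  · exact absurd a h1
  · exact absurd a h2
  obtain ⟨p0, q0⟩ := P.ins t0 t1 u a b
  have := u.lt
  have : t = i ∨ t = i + 1 ∨ t = i + 2 ∨ t = i + 4 ∨ t = i + 5 ∨ t = i + 6 := by
    rcases s.cmp u with e | e | e <;> rcases w.cmp u with e' | e' | e' <;> omega
  rcases this with e | e | e | e | e | e <;> simp [e]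

lemma PN.n2c (P : PN G f v Y ν d i (i + 6)) (s : Sg G f Y i (i + 2))
    (w : Sg G f Y (i + 4) (i + 6)) (hn : ¬ G.Adj (f (i + 1)) (f (i + 3))) : False := by
  have h := P.h
  have c := P.c
  have hle := c.le
  obtain ⟨t, t0, t1, ht⟩ := P.t1
  have hr := h.sg_rr s (i + 1) (by omega) (by omega)
  have hs := h.sg_rr w (i + 6 - 1) (by omega) (by omega)
  have x2 : NX G Y (f (i + 3)) := by
    have := s.x2
    rwa [show i + 2 + 1 = i + 3 by ring] at this
  have hE : NX G Y (f (i - 1 + (ord V - 1))) := by rw [h.per]; exact c.x1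
  have aE : G.Adj (f (i - 1 + (ord V - 1))) (f i) := by
    rw [h.per]
    simpa using h.hop.cyc.1.adj (i - 1)
  obtain ⟨pb, nb1⟩ := P.pb s le_rfl (by omega)
  have ab1 : G.Adj (f (i + 2)) (f i) := h.miss2' (h.sg_bb s) (P.ob _ _ s le_rfl (by omega)) pb
    (h.pc_ne (show i < i + 6 - 1 by omega) (by omega)).symm (Or.inl hs) (Or.inr rfl) nb1
  have ab2 := P.adj hr w (by omega) le_rfl (t := i + 6) (by omega) le_rfl (Or.inr rfl)
  have n1 := (P.pa w (by omega) le_rfl).2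
  have n2 : ¬ G.Adj (f (i + 1)) (f (i + 6)) := fun a =>
    h.lamB (q := i + 2 + (ord V - 1)) (q' := i + 6) (z := i + 1 + (ord V - 1)) (by omega)
      (by omega) (by omega) (h.sg_up s).x2 c.x2
      (by rwa [show i + 1 + (ord V - 1) - 1 = i + (ord V - 1) by ring, h.per, h.per])
      (by rw [h.per]; exact a.symm)
  have n3 : ¬ G.Adj (f (i + 1)) (f (i + 5)) := fun a =>
    h.seg i [(i + 3, i + 3), (t, i - 1 + (ord V - 1)), (i, i), (i + 2, i + 1), (i + 5, i + 4),
        (i + 6, t - 1)]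
      (by simp only [ok, inw, dis, dis1, sdis, tot, slen, and_true]; omega)
      ⟨(h.yx ht x2).symm, aE, ab1.symm, a, ab2, trivial⟩ x2 (h.hop.nbr t ht).1
  have hd := h.deg (f (i + 1))
  have hg := h.g2
  obtain ⟨u, u1, u2⟩ : ∃ u ∈ nb G (f (i + 1)), u ∉ ({f i, f (i + 2)} : Finset V) := by
    by_contra n
    push Not at n
    have := (Finset.card_le_card n).trans Finset.card_le_two
    omega
  rw [mem_nb] at u1
  simp only [Finset.mem_insert, Finset.mem_singleton, not_or] at u2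
  have ux : NX G Y u := by
    by_contra n
    rcases P.pos s w n (fun y => (mem_RR.1 hr).1 ⟨u, y, u1.symm⟩) with e | e | e | e | e | e
    · exact u2.1 e
    · exact G.irrefl (e ▸ u1)
    · exact u2.2 e
    · exact n1 (e ▸ u1).symm
    · exact n3 (e ▸ u1)
    · exact n2 (e ▸ u1)
  obtain ⟨k, k0, k1, rfl⟩ := h.surj i (h.ne_of_nmem (h.nmem ux))
  have k2 : i + 6 + 1 ≤ k := by
    by_contra n
    by_cases e : k = i + 3
    · exact hn (e ▸ u1)
    by_cases e' : k ≤ i + 2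
    · exact s.no k k0 e' ux
    · exact w.no k (by omega) (by omega) ux
  by_cases e : k = i - 1 + (ord V - 1)
  · exact h.seg i [(i + 6 + 1, k), (i + 1, i + 2), (i, i), (i + 6, i + 3)]
      (by simp only [ok, inw, dis, dis1, sdis, tot, slen, and_true]; omega)
      ⟨u1.symm, ab1, c.adj, trivial⟩ c.x2 x2
  · have hy : f (k + 1) ∈ Y := by
      rcases P.ns (k + 1) (by omega) (by omega) with a | a
      · exact (h.hop.toHop.nocons h.n2 k ux a).elim
      · exact a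
    exact h.seg i [(i - 1 + (ord V - 1), k + 1), (i + 6 + 1, k), (i + 1, i + 2), (i, i),
        (i + 6, i + 3)]
      (by simp only [ok, inw, dis, dis1, sdis, tot, slen, and_true]; omega)
      ⟨h.yx hy c.x2, u1.symm, ab1, c.adj, trivial⟩ hE x2

lemma PN.n2 (P : PN G f v Y ν d i j) {q : ℤ} (s : Sg G f Y i q) : q = i + 1 := by
  by_contra n
  have h := P.h
  have := s.lt
  have := P.n2a s
  obtain rfl : q = i + 2 := by omega
  obtain ⟨w, hj⟩ := P.n2b s
  have := P.rev.n2a w.rev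
  obtain rfl : j = i + 6 := by omega
  have x2 : NX G Y (f (i + 3)) := by
    have := s.x2
    rwa [show i + 2 + 1 = i + 3 by ring] at this
  by_cases a : G.Adj (f (i + 1)) (f (i + 3))
  swap
  · exact P.n2c s w a
  by_cases b : G.Adj (f (i + 5)) (f (i + 3))
  swap
  · have P' := P.rev
    have s' := w.rev
    have w' := s.rev
    rw [show -i = -(i + 6) + 6 by ring] at P' w'
    rw [show -(i + 4) = -(i + 6) + 2 by ring] at s'
    rw [show -(i + 2) = -(i + 6) + 4 by ring] at w'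
    refine P'.n2c s' w' ?_
    rwa [show -(-(i + 6) + 1) = i + 5 by ring, show -(-(i + 6) + 3) = i + 3 by ring]
  have k1 := h.mm_ge x2
  have k2 : MM G Y (f (i + 3)) ⊆ {f i, f (i + 6)} := by
    intro x hx
    obtain ⟨x1, x3, x4⟩ := mem_MM.1 hx
    rcases P.pos s w x1 x3 with e | e | e | e | e | e
    · simp [e]
    · exact (x4 (e ▸ a.symm)).elim
    · refine (x4 (e ▸ ?_)).elim
      have := h.hop.cyc.1.adj (i + 2)
      rw [show i + 2 + 1 = i + 3 by ring] at this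
      exact this.symm
    · refine (x4 (e ▸ ?_)).elim
      have := h.hop.cyc.1.adj (i + 3)
      rwa [show i + 3 + 1 = i + 4 by ring] at this
    · exact (x4 (e ▸ b.symm)).elim
    · simp [e]
  have := (Finset.card_le_card k2).trans Finset.card_le_two
  have := P.hy
  omega

lemma PN.no (P : PN G f v Y ν d i j) : False := by
  have h := P.h
  obtain ⟨q, q0, s⟩ := P.first
  obtain ⟨p, p0, w⟩ := P.last
  obtain rfl := P.n2 s
  have := P.rev.n2 w.rev
  obtain rfl : p = j - 1 := by omega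
  refine h.pc_bc P.hy P.c p0 s w (P.oa _ _ w p0 le_rfl) fun t t0 t1 a b => ?_
  obtain ⟨p, q, c1, c2, u⟩ := h.rr_sg a
  obtain ⟨p1, q1⟩ := P.ins t0 t1 u c1.le c2.le
  have n : q ≠ t + 1 := fun e => (mem_RR.1 b).2.2.2 (e ▸ h.sg_bb u)
  have n1 : i < p := by
    rcases s.cmp u with e | e | e <;> omega
  have n2 : q < j := by
    rcases w.cmp u with e | e | e <;> omega
  have := P.n1 u n1 n2
  omega

lemma S0.pc_shift (h : S0 G f v Y ν d) {p q : ℤ} (s : Sg G f Y p q) (lo : ℤ) :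
    ∃ p' q', lo ≤ p' ∧ p' < lo + (ord V - 1) ∧ Sg G f Y p' q' ∧ q' - p' = q - p ∧
      f p' = f p ∧ f q' = f q := by
  have hn := h.n3
  obtain ⟨u, u0, u1, e⟩ := h.hop.cyc.1.win (show 0 < ord V - 1 by omega) lo p
  have e' : ∀ t, f (u + (t - p)) = f t := fun t => by rw [e]; congr 1; ring
  refine ⟨u, u + (q - p), u0, u1, ⟨by have := s.lt; omega, ?_, ?_, fun t t0 t1 => ?_⟩, by ring,
    by simpa using e 0, e' q⟩
  · rw [show u - 1 = u + (p - 1 - p) by ring, e']
    exact s.x1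
  · rw [show u + (q - p) + 1 = u + (q + 1 - p) by ring, e']
    exact s.x2
  · rw [show t = u + (t - u + p - p) by ring, e']
    exact s.no _ (by omega) (by omega)

lemma S0.pc_hf (h : S0 G f v Y ν d) (hy : 2 ≤ Y.card) {p q : ℤ} (s : Sg G f Y p q)
    (hc : ¬ Only G (AA G Y ν.symm) (f p) (f q)) :
    ∃ p q, Sg G f Y p q ∧ p + 2 ≤ q ∧ (∀ w ∈ RR G Y ν, G.Adj (f p) w) ∧ G.Adj (f p) (f q) ∧
      Only G (AA G Y ν.symm) (f p) (f q) ∧ ¬ Only G (AA G Y ν) (f q) (f p) := by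
  obtain ⟨y, hy1, hy2⟩ := Finset.exists_mem_ne (by omega : 1 < Y.card) v
  obtain ⟨t0, -, -, rfl⟩ := h.surj 0 hy2
  obtain ⟨p', q', a0, a1, s', -, e1, e2⟩ := h.pc_shift s t0
  obtain ⟨i, ⟨i0, i1, hj⟩, hmax⟩ := exists_max_int
    (fun i => t0 ≤ i ∧ i < t0 + (ord V - 1) ∧
      ∃ j, Ch G f Y i j ∧ ∃ x, i < x ∧ x < j ∧ NX G Y (f x)) (t0 + (ord V - 1))
    (fun _ a => a.2.1.le) ⟨p', a0, a1, h.pc_prop s' (by rwa [e1, e2])⟩
  obtain ⟨j, ⟨c, pr⟩, hmin⟩ := Int.exists_least_of_bdd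
    (P := fun j => Ch G f Y i j ∧ ∃ x, i < x ∧ x < j ∧ NX G Y (f x))
    ⟨i, fun _ a => a.1.lt.le⟩ hj
  have hle := c.le
  have hj : j < t0 + (ord V - 1) := by
    by_contra n
    exact h.pc_noY c (t0 + (ord V - 1)) (by omega) (by omega) (by rwa [h.per])
  have oa : ∀ p q, Sg G f Y p q → i < p → q ≤ j → Only G (AA G Y ν.symm) (f p) (f q) := by
    intro p q s a b
    by_contra n
    have := s.lt
    have := hmax p ⟨by omega, by omega, h.pc_prop s n⟩
    omega
  have hp1 : ∀ p q, Sg G f Y p q → i < p → i < p - 1 := by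
    intro p q s a
    have n : p - 1 ≠ i := fun e => h.hop.toHop.nocons h.n2 (i - 1) c.x1 (by
      rw [sub_add_cancel, ← e]; exact s.x1)
    omega
  have ai : f i ∈ AA G Y ν := h.aa_idx.2 ⟨c.x1, c.y1⟩
  by_cases ns : ∀ t, j + 1 ≤ t → t ≤ i - 1 + (ord V - 1) → NX G Y (f t) ∨ f t ∈ Y
  · refine (PN.no ⟨h, hy, c, pr, ns, oa, fun p q s a b w hw ad => ?_⟩).elim
    have l := s.lt
    obtain ⟨k, k0, k1, rfl⟩ := h.surj i (h.ne_of_nmem (mem_AA.1 hw).2)
    have k2 : k ≤ j := by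
      by_contra n
      rcases ns k (by omega) (by omega) with x | x
      · exact h.aa_nx hw x
      · exact (mem_AA.1 hw).2 x
    by_cases e : k = i
    · subst e
      by_contra n
      have n' : p ≠ k := fun e => n (by rw [e])
      obtain ⟨j', e', c'⟩ := h.ch_of hw (h.sg_bb s) ad.symm
      have l1 := c'.lt
      have l2 := c'.le
      obtain rfl : j' = q := h.hop.cyc.1.eq (by omega) (by omega) e'
      have := hmin j' ⟨c', p - 1, hp1 p j' s (by omega), by omega, s.x1⟩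
      omega
    · obtain ⟨q', s'⟩ := h.aa_sg hw
      have l' := s'.lt
      have q0 : q' ≤ j := by
        by_contra n
        exact s'.no (j + 1) (by omega) (by omega) c.x2
      have e' := oa k q' s' (by omega) q0 _ (h.sg_bb s) ad.symm
      have := h.hop.cyc.1.eq (by omega) (by omega) e'
      rcases s.cmp s' with ⟨e, -⟩ | e | e
      · rw [e]
      · omega
      · omega
  push Not at ns
  obtain ⟨t, t1, t2, tx, ty⟩ := ns
  obtain ⟨q1, q0, s1⟩ := h.pc_first c pr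
  obtain ⟨k, k0, sk⟩ := h.pc_last c pr
  have l1 := s1.lt
  have lk := sk.lt
  have k1 := hp1 k j sk k0
  have full : ∀ w, w ∈ RR G Y ν ∨ w = f j → G.Adj (f k) w := by
    intro w hw
    have := h.pc_full c (s := k - 1) k1 (by omega) sk.x1 t1 t2 tx ty (b := f j)
      (by rw [sub_add_cancel]; exact oa k j sk k0 le_rfl) hw
    rwa [sub_add_cancel] at this
  obtain rfl : q1 = i + 1 := by
    by_contra n
    exact h.pc_L c (s := k - 1) k1 (by omega) sk.x1 (by
      rw [sub_add_cancel]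
      exact full _ (Or.inl (h.sg_rr s1 _ (by omega) (by omega))))
  by_cases e : k = j - 1
  · subst e
    have hx : NX G Y (f (j - 2)) := by
      have := sk.x1
      rwa [show j - 1 - 1 = j - 2 by ring] at this
    have hE : NX G Y (f (i - 1 + (ord V - 1))) := by rw [h.per]; exact c.x1
    refine (h.pc_bc hy c k0 s1 sk (oa _ _ sk k0 le_rfl) fun u u0 u1 a b => ?_).elim
    have a1 := full _ (Or.inl a)
    have a2 := full _ (Or.inl b)
    have n1 : u + 1 ≠ j - 2 := fun e => (mem_RR.1 b).1 (e ▸ hx)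
    have n2 : u ≠ j - 2 := fun e => (mem_RR.1 a).1 (e ▸ hx)
    have n3 : u ≠ j - 1 := fun e => (mem_RR.1 a).2.2.1 (e ▸ h.sg_aa sk)
    have n4 : u ≠ i - 1 + (ord V - 1) := fun e => (mem_RR.1 a).1 (e ▸ hE)
    by_cases o : u < j
    · exact h.seg i [(j - 2, u + 1), (j - 1, j - 1), (u, i), (j, i - 1 + (ord V - 1))]
        (by simp only [ok, inw, dis, dis1, sdis, tot, slen, and_true]; omega)
        ⟨a2.symm, a1, c.adj, trivial⟩ hx hE
    · exact h.seg i [(j - 2, i), (j, u), (j - 1, j - 1), (u + 1, i - 1 + (ord V - 1))]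
        (by simp only [ok, inw, dis, dis1, sdis, tot, slen, and_true]; omega)
        ⟨c.adj, a1.symm, a2, trivial⟩ hx hE
  · exact ⟨k, j, sk, by omega, fun w hw => full w (Or.inl hw), full _ (Or.inr rfl),
      oa k j sk k0 le_rfl, fun o => h.pc_ne k0 (by omega) (o _ ai c.adj.symm)⟩

theorem S0.pc (h : S0 G f v Y ν d) (hy : 2 ≤ Y.card) {p q : ℤ} (s : Sg G f Y p q)
    (hc : ¬ Only G (AA G Y ν.symm) (f p) (f q)) : False := by
  obtain ⟨p1, q1, s1, l1, a1, -, -, n1⟩ := h.pc_hf hy s hc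
  obtain ⟨p2, q2, s2, l2, -, b2, o2, -⟩ := h.rev.pc_hf hy s1.rev (by simpa using n1)
  have s3 := s2.rev'
  obtain ⟨p4, q4, a0, a2, s4, -, e1, e2⟩ := h.pc_shift s1 (-q2)
  rcases s3.cmp s4 with ⟨e, e'⟩ | e | e
  · rw [← e1, ← e2, ← e, ← e'] at n1
    exact n1 o2
  · exact h.lamA (z := -p2 - 1) (by omega) (by omega) a2 s3.x1 s4.x1
      (by simpa using b2.symm) (e1 ▸ a1 _ (h.sg_rr s3 _ (by omega) (by omega)))
  · have := s4.lt
    omega

end Pool.Agent.P.MP_422cad_co
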