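import Pool.Agent.P.MP_422cad_co.PartI
import Pool.Agent.P.MP_422cad_co.DE
import Pool.Agent.P.MP_422cad_co.One1
import Pool.Agent.P.MP_422cad_co.ZeroNP
import Pool.Agent.P.MP_422cad_co.ZeroPC
import Pool.Agent.P.MP_422cad_co.OneFar
import Pool.Agent.P.MP_422cad_co.OneNear

set_option autoImplicit false

namespace Pool.Agent.P.MP_422cad_co

open SimpleGraph Classical

variable {V : Type} [Fintype V] {G : SimpleGraph V} {d : ℤ}

/-- A maximal non-hamiltonian graph without universal vertex and with `n ≤ 3 δ + 2` is the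
Petersen graph. -/
theorem Ctx.petersen (hx : Ctx G d) :
    ord V = 10 ∧ (∀ w, (nb G w).card ≤ 3) ∧
      Nonempty (G ≃g SimpleGraph.fromRel (fun s t : PV => Disjoint s.1 t.1)) := by
  obtain ⟨f, v, hc⟩ := hx.exists_ncyc
  obtain ⟨f, v, Y, ν, h⟩ := exists_st hx.mnh hx.nou hx.n3 hx.deg hc
  obtain ⟨h0, hn⟩ := h.s0 hx.g2
  have hg := hx.g2
  have hy : 0 < Y.card := Finset.card_pos.2 ⟨v, h.hop.mem⟩
  by_cases e : Y.card = 1
  · have h1 := h.o1 hx.g2 e
    by_cases e' : ord V = 3 * d + 1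
    · exact h1.g1 e'
    · obtain ⟨f, h2⟩ := h1.n2 (by omega)
      exact (h2.near h2.far).elim
  · exact (h0.np fun p q s => by
      by_contra c
      exact h0.pc (by omega) s c).elim

end Pool.Agent.P.MP_422cad_co
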