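import Pool.Agent.P.MP_422cad_co.Lolli

set_option autoImplicit false

namespace Pool.Agent.P.MP_422cad_co

open SimpleGraph

variable {V : Type}

/-- Neighbours on the cycle. -/
def CN (f : ℤ → V) (y z : V) : Prop := ∃ i, f i = y ∧ (f (i + 1) = z ∨ f (i - 1) = z)

def Good (G : SimpleGraph V) (f : ℤ → V) (v : V) (Y : Finset V) (s t : V) : Prop :=
  G.Adj s t ∧ (s ∈ Y → CN f s t ∨ G.Adj v t) ∧ (t ∈ Y → CN f t s ∨ G.Adj v s)

/-- The neighbourhood of a set. -/
def NX (G : SimpleGraph V) (Y : Finset V) (x : V) : Prop := ∃ y ∈ Y, G.Adj y x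

lemma Good.symm {G : SimpleGraph V} {f : ℤ → V} {v : V} {Y : Finset V} {s t : V}
    (h : Good G f v Y s t) : Good G f v Y t s := ⟨h.1.symm, h.2.2, h.2.1⟩

lemma good_of {G : SimpleGraph V} {f : ℤ → V} {v : V} {Y : Finset V} {s t : V}
    (h : G.Adj s t) (hs : s ∉ Y) (ht : t ∉ Y) : Good G f v Y s t :=
  ⟨h, fun a => absurd a hs, fun a => absurd a ht⟩

lemma good_u {G : SimpleGraph V} {f : ℤ → V} {v : V} {Y : Finset V} {s t : V}
    (h : G.Adj s t) (hs : s ∉ Y) (ht : G.Adj v s) : Good G f v Y s t :=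
  ⟨h, fun a => absurd a hs, fun _ => Or.inr ht⟩

variable [Fintype V]

lemma ham_of_path {G : SimpleGraph V} (v : V) (p : ℤ → V) (hp : IsP G.Adj p (ord V - 1))
    (hv : ∀ i, 0 ≤ i → i < ord V - 1 → p i ≠ v) (h0 : G.Adj v (p 0))
    (h1 : G.Adj v (p (ord V - 1 - 1))) (hn : 2 ≤ ord V) : Ham G := by
  have h1 : IsP G.Adj (fun t => if t = ord V - 1 then v else p t) (ord V) := by
    refine ⟨fun t h0 h2 => ?_, fun s t h0 h1 h2 => ?_⟩
    · have : t ≠ ord V - 1 := by omega
      by_cases h3 : t + 1 = ord V - 1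
      · simp only [this, h3, if_true, if_false]
        rw [show t = ord V - 1 - 1 by omega]
        exact h1.symm
      · simp only [this, h3, if_false]
        exact hp.1 t h0 (by omega)
    · have : s ≠ ord V - 1 := by omega
      by_cases h3 : t = ord V - 1
      · simp only [this, h3, if_true, if_false]
        exact hv s h0 (by omega)
      · simp only [this, h3, if_false]
        exact hp.2 s t h0 h1 (by omega)
  refine h1.ham (by omega) ?_
  have : (0 : ℤ) ≠ ord V - 1 := by omega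
  simp only [this, if_true, if_false]
  exact h0

/-- Hopping sets. -/
structure Hop (G : SimpleGraph V) (f : ℤ → V) (v : V) (Y : Finset V) : Prop where
  cyc : NCyc G f v
  mem : v ∈ Y
  ind : ∀ y ∈ Y, ¬ NX G Y y
  nbr : ∀ i, f i ∈ Y → NX G Y (f (i - 1)) ∧ NX G Y (f (i + 1))
  nop : ∀ p, IsP (Good G f v Y) p (ord V - 1) → (∀ i, 0 ≤ i → i < ord V - 1 → p i ≠ v) →
    NX G Y (p 0) → NX G Y (p (ord V - 1 - 1)) → False

variable {G : SimpleGraph V} {f : ℤ → V} {v : V} {Y : Finset V}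

lemma NCyc.two (h : NCyc G f v) (hn : 2 ≤ ord V) : 3 ≤ ord V := by
  by_contra h1
  have h2 := h.1.per 0
  have h3 := h.1.adj 0
  rw [show (0 : ℤ) + (ord V - 1) = 0 + 1 by omega] at h2
  rw [h2] at h3
  exact G.irrefl h3

lemma NCyc.surj (h : NCyc G f v) (lo : ℤ) (w : V) (hw : w ≠ v) :
    ∃ i, lo ≤ i ∧ i < lo + (ord V - 1) ∧ f i = w := by
  obtain ⟨i, h0, h1, h2⟩ := (h.1.path lo).surj_ne v (fun i _ _ => h.2 _) w hw
  exact ⟨lo + i, by omega, by omega, h2⟩

lemma NCyc.rev (h : NCyc G f v) : NCyc G (fun i => f (-i)) v :=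
  ⟨h.1.rev (fun _ _ a => a.symm), fun _ => h.2 _⟩

lemma hop_base (h : NCyc G f v) (hG : ¬ Ham G) (hn : 2 ≤ ord V) : Hop G f v {v} := by
  refine ⟨h, by simp, ?_, ?_, ?_⟩
  · rintro y hy ⟨z, hz, a⟩
    simp only [Finset.mem_singleton] at hy hz
    rw [hy, hz] at a
    exact G.irrefl a
  · intro i hi
    exact absurd (by simpa using hi) (h.2 i)
  · rintro p hp hv ⟨y, hy, a⟩ ⟨z, hz, b⟩
    simp only [Finset.mem_singleton] at hy hz
    rw [hy] at a
    rw [hz] at b
    exact hG (ham_of_path v p (hp.mono fun _ _ a => a.1) hv a b hn)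

lemma good_step (h : NCyc G f v) (Y : Finset V) (i : ℤ) : Good G f v Y (f i) (f (i + 1)) :=
  ⟨h.1.adj i, fun _ => Or.inl ⟨i, rfl, Or.inl rfl⟩,
    fun _ => Or.inl ⟨i + 1, rfl, Or.inr (by simp)⟩⟩

lemma Hop.seg (h : Hop G f v Y) (hn : 2 ≤ ord V) (lo : ℤ) (l : List (ℤ × ℤ))
    (hl : ok lo (lo + ord V - 2) (ord V - 1) l) (hj : chn (Good G f v Y) f l)
    (h1 : NX G Y (f (fst l))) (h2 : NX G Y (f (lst l))) : False := by
  obtain ⟨a, b, c, -⟩ := mkpath (Good G f v Y) f lo (lo + ord V - 2) (ord V - 1)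
    (fun i _ _ => ⟨good_step h.cyc Y i, (good_step h.cyc Y i).symm⟩)
    (fun i j _ h1 h2 => h.cyc.1.inj i j h1 (by omega)) l hl hj (by omega)
  exact h.nop _ a (fun i _ _ => h.cyc.2 _) (by simpa only [b] using h1)
    (by simpa only [c] using h2)

lemma Hop.nmem (h : Hop G f v Y) {x : V} (hx : NX G Y x) : x ∉ Y := fun a => h.ind x a hx

lemma Hop.nocons (h : Hop G f v Y) (hn : 2 ≤ ord V) (i : ℤ) (h1 : NX G Y (f i))
    (h2 : NX G Y (f (i + 1))) : False := by
  have := h.cyc.two hn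
  refine h.seg hn (i + 1) [(i + 1, i + (ord V - 1))]
    (by simp only [ok, inw, dis, dis1, sdis, tot, slen, and_true, true_and]; omega) trivial h2 ?_
  simpa only [lst, h.cyc.1.per] using h1

lemma Hop.cn (h : Hop G f v Y) (hn : 2 ≤ ord V) {i : ℤ} (h1 : NX G Y (f (i - 1)))
    (h2 : NX G Y (f (i + 1))) {z : V} (hz : CN f (f i) z ∨ G.Adj v z) : NX G Y z := by
  rcases hz with ⟨j, e, hz⟩ | hz
  · rcases hz with rfl | rfl
    · rwa [h.cyc.1.shift (by omega) e 1]
    · rw [sub_eq_add_neg, h.cyc.1.shift (by omega) e (-1)]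
      exact h1
  · exact ⟨v, h.mem, hz⟩

lemma Hop.step [DecidableEq V] (h : Hop G f v Y) (hn : 2 ≤ ord V) (i : ℤ) (hi : f i ∉ Y)
    (h1 : NX G Y (f (i - 1))) (h2 : NX G Y (f (i + 1))) : Hop G f v (insert (f i) Y) := by
  have hn3 := h.cyc.two hn
  have hX : ¬ NX G Y (f i) := fun a => h.nocons hn i a h2
  have hmono : ∀ x, NX G Y x → NX G (insert (f i) Y) x := by
    rintro x ⟨y, hy, a⟩
    exact ⟨y, Finset.mem_insert_of_mem hy, a⟩
  have hsplit : ∀ x, NX G (insert (f i) Y) x → NX G Y x ∨ G.Adj (f i) x := by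
    rintro x ⟨y, hy, a⟩
    rcases Finset.mem_insert.1 hy with rfl | hy
    · exact Or.inr a
    · exact Or.inl ⟨y, hy, a⟩
  refine ⟨h.cyc, Finset.mem_insert_of_mem h.mem, ?_, ?_, ?_⟩
  · intro y hy a
    rcases Finset.mem_insert.1 hy with rfl | hy <;> rcases hsplit _ a with a | a
    · exact hX a
    · exact G.irrefl a
    · exact h.ind y hy a
    · exact hX ⟨y, hy, a.symm⟩
  · intro j hj
    rcases Finset.mem_insert.1 hj with e | hj
    · refine ⟨hmono _ ?_, hmono _ ?_⟩
      · rw [sub_eq_add_neg, h.cyc.1.shift (by omega) e (-1)]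
        exact h1
      · rwa [h.cyc.1.shift (by omega) e 1]
    · exact ⟨hmono _ (h.nbr j hj).1, hmono _ (h.nbr j hj).2⟩
  · intro p hp hv e0 e1
    have hp' : IsP (Good G f v Y) p (ord V - 1) := hp.mono fun a b c =>
      ⟨c.1, fun x => c.2.1 (Finset.mem_insert_of_mem x),
        fun x => c.2.2 (Finset.mem_insert_of_mem x)⟩
    obtain ⟨t, t0, t1, ht⟩ := hp.surj_ne v hv (f i) (h.cyc.2 i)
    have hX' : ¬ NX G (insert (f i) Y) (f i) := by
      intro a
      rcases hsplit _ a with a | a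
      · exact hX a
      · exact G.irrefl a
    have t2 : t ≠ 0 := by rintro rfl; exact hX' (ht ▸ e0)
    have t3 : t ≠ ord V - 1 - 1 := by rintro rfl; exact hX' (ht ▸ e1)
    have n1 : NX G Y (p (t + 1)) := by
      have := (hp.1 t t0 (by omega)).2.1 (by simp [ht])
      rw [ht] at this
      exact h.cn hn h1 h2 this
    have n2 : NX G Y (p (t - 1)) := by
      have := (hp.1 (t - 1) (by omega) (by omega)).2.2 (by simp [ht])
      rw [sub_add_cancel, ht] at this
      exact h.cn hn h1 h2 this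
    have key : ∀ l, ok 0 (ord V - 2) (ord V - 1) l → chn (Good G f v Y) p l →
        NX G Y (p (fst l)) → NX G Y (p (lst l)) → False := by
      intro l hl hj a b
      obtain ⟨a1, b1, c1, d1⟩ := mkpath (Good G f v Y) p 0 (ord V - 2) (ord V - 1)
        (fun i i0 i1 => ⟨hp'.1 i i0 (by omega), (hp'.1 i i0 (by omega)).symm⟩)
        (fun i j i0 h1 h2 => hp'.2 i j i0 h1 (by omega)) l hl hj (by omega)
      exact h.nop _ a1 (fun i i0 i1 => hv _ (d1 i i0 i1).1 (by have := (d1 i i0 i1).2; omega))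
        (by simpa only [b1] using a) (by simpa only [c1] using b)
    have gd : ∀ x, G.Adj (f i) x → Good G f v Y x (p t) := by
      intro x a
      rw [ht]
      exact good_of a.symm (fun b => hX ⟨x, b, a.symm⟩) hi
    rcases hsplit _ e0 with a | a <;> rcases hsplit _ e1 with b | b
    · exact h.nop p hp' hv a b
    · exact key [(0, t), (ord V - 1 - 1, t + 1)]
        (by simp only [ok, inw, dis, dis1, sdis, tot, slen, and_true]; omega)
        ⟨(gd _ b).symm, trivial⟩ a n1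
    · exact key [(t - 1, 0), (t, ord V - 1 - 1)]
        (by simp only [ok, inw, dis, dis1, sdis, tot, slen, and_true]; omega)
        ⟨gd _ a, trivial⟩ n2 b
    · exact key [(t - 1, 0), (t, t), (ord V - 1 - 1, t + 1)]
        (by simp only [ok, inw, dis, dis1, sdis, tot, slen, and_true]; omega)
        ⟨gd _ a, (gd _ b).symm, trivial⟩ n2 n1

/-- A hopping set of the largest size over all cycles missing one vertex. -/
structure MaxHop (G : SimpleGraph V) (f : ℤ → V) (v : V) (Y : Finset V) : Prop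
    extends Hop G f v Y where
  max : ∀ f' v' Y', Hop G f' v' Y' → Y'.card ≤ Y.card

lemma exists_maxHop (h : NCyc G f v) (hG : ¬ Ham G) (hn : 2 ≤ ord V) :
    ∃ f v Y, MaxHop G f v Y := by
  classical
  let Q : ℕ → Prop := fun k => ∃ f v Y, Hop G f v Y ∧ Y.card = k
  have h1 : Q 1 := ⟨f, v, {v}, hop_base h hG hn, by simp⟩
  obtain ⟨f', v', Y', h2, h3⟩ : Q (Nat.findGreatest Q (Fintype.card V)) :=
    Nat.findGreatest_spec (P := Q) (m := 1) (by unfold ord at hn; omega) h1
  refine ⟨f', v', Y', h2, fun f'' v'' Y'' h4 => ?_⟩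
  rw [h3]
  exact Nat.le_findGreatest (Finset.card_le_univ _) ⟨f'', v'', Y'', h4, rfl⟩

lemma MaxHop.closed (h : MaxHop G f v Y) (hn : 2 ≤ ord V) (i : ℤ)
    (h1 : NX G Y (f (i - 1))) (h2 : NX G Y (f (i + 1))) : f i ∈ Y := by
  classical
  by_contra hi
  have := h.max _ _ _ (h.toHop.step hn i hi h1 h2)
  rw [Finset.card_insert_of_notMem hi] at this
  omega

omit [Fintype V] in
lemma cn_rev {y z : V} : CN (fun i => f (-i)) y z ↔ CN f y z := by
  constructor
  · rintro ⟨i, a, b⟩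
    refine ⟨-i, a, ?_⟩
    rcases b with b | b
    · right; rw [← b]; congr 1; ring
    · left; rw [← b]; congr 1; ring
  · rintro ⟨i, a, b⟩
    refine ⟨-i, by simpa using a, ?_⟩
    rcases b with b | b
    · right; rw [← b]; show f _ = f _; congr 1; ring
    · left; rw [← b]; show f _ = f _; congr 1; ring

lemma Hop.rev (h : Hop G f v Y) : Hop G (fun i => f (-i)) v Y := by
  refine ⟨h.cyc.rev, h.mem, h.ind, fun i hi => ?_, fun p hp => h.nop p (hp.mono ?_)⟩
  · have := h.nbr (-i) hi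
    rw [show -(i - 1) = -i + 1 by ring, show -(i + 1) = -i - 1 by ring]
    exact ⟨this.2, this.1⟩
  · intro a b c
    simpa only [Good, cn_rev] using c

lemma MaxHop.rev (h : MaxHop G f v Y) : MaxHop G (fun i => f (-i)) v Y :=
  ⟨h.toHop.rev, h.max⟩

end Pool.Agent.P.MP_422cad_co
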