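import Pool.Agent.P.MP_422cad_co.KillKh2Aux

set_option autoImplicit false
set_option linter.unusedSimpArgs false
set_option linter.unusedSectionVars false

namespace Pool.Agent.P.MP_422cad_co

open SimpleGraph Classical

variable {V : Type} [Fintype V] {G : SimpleGraph V} {d c : ℤ} {s f : ℤ → V} {X : Finset V}

namespace Kh2.K
variable (h : K G d s f c X)
include h

lemma hSX : ∀ x, x ∈ X → ∃ k, f k = x := fun _ hx => by
  obtain ⟨k, -, -, e⟩ := h.pos 0 hx
  exact ⟨k, e⟩

/-- cut set `X` together with the third vertex of a long arc -/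
lemma midblob {i j : ℤ} (a : A f X i j) (hj : i + 5 ≤ j)
    (H1 : ∀ u v p a b k, Cr G f c X u v p a b k → i ≤ u → u < i + c →
      f p = f (i + 3) ∨ f k = f (i + 3))
    (H2 : ∀ p k, i < p → p ≤ i + 2 → i + 3 < k → k < j → ¬ G.Adj (f p) (f k)) : False := by
  have hl := h.Alt a
  refine h.blob (fun w => w ∈ X ∨ w = f (i + 3)) i ?_ ⟨_, Or.inr rfl⟩ (fun t t1 t2 ht => ?_)
    (f i) fun x hx => Or.inl (Or.inl hx)
  · rintro x (hx | rfl)
    exacts [h.hSX x hx, ⟨_, rfl⟩]
  by_cases e1 : t = i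
  · subst e1
    refine ok2 (b := t + 2) (by omega) (fun u u1 u2 hu => ?_) fun p w p1 p2 e => ?_
    · exact hu.elim (a.2.2.2 u u1 (by omega)) (h.ne (by omega) (by omega) (by omega))
    · rcases h.nbr a p1 (by omega) e with hw | ⟨k, k1, k2, -, rfl⟩ | ⟨u, v, k, r, rfl⟩
      · exact Or.inr (Or.inl hw)
      · rcases lt_trichotomy k (t + 3) with h1 | rfl | h1
        exacts [Or.inl ⟨k, k1, by omega, rfl⟩, Or.inr (Or.inr rfl),
          absurd e (H2 p k p1 p2 h1 k2)]
      · exact Or.inr (Or.inr ((H1 _ _ _ _ _ _ r le_rfl t2).resolve_left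
          (h.ne (by omega) (by omega) (by omega))))
  by_cases e2 : t = i + 3
  · subst e2
    refine ok2 (b := j - 1) (by omega) (fun u u1 u2 hu => ?_) fun p w p1 p2 e => ?_
    · exact hu.elim (a.2.2.2 u (by omega) (by omega)) (h.ne (by omega) (by omega) (by omega))
    · rcases h.nbr a (by omega) (by omega) e with hw | ⟨k, k1, k2, -, rfl⟩ | ⟨u, v, k, r, rfl⟩
      · exact Or.inr (Or.inl hw)
      · rcases lt_trichotomy k (i + 3) with h1 | rfl | h1
        exacts [absurd e.symm (H2 k p k1 (by omega) p1 (by omega)), Or.inr (Or.inr rfl),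
          Or.inl ⟨k, h1, by omega, rfl⟩]
      · exact Or.inr (Or.inr ((H1 _ _ _ _ _ _ r le_rfl (by omega)).resolve_left
          (h.ne (by omega) (by omega) (by omega))))
  have hX : f t ∈ X := ht.resolve_right (h.ne e2 (by omega) (by omega))
  obtain ⟨t', a'⟩ := h.exA hX
  have h1 := a.le hX (by omega)
  have h2 := a'.le (h.xc a.1) t2
  have h3 := h.Agap a'
  refine ok2 (b := t' - 1) (by omega) (fun u u1 u2 hu => ?_) fun p w p1 p2 e => ?_
  · exact hu.elim (a'.2.2.2 u u1 (by omega)) (h.ne (by omega) (by omega) (by omega))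
  · rcases h.nbr a' p1 (by omega) e with hw | ⟨k, k1, k2, -, rfl⟩ | ⟨u, v, k, r, rfl⟩
    · exact Or.inr (Or.inl hw)
    · exact Or.inl ⟨k, k1, by omega, rfl⟩
    · exact Or.inr (Or.inr ((H1 _ _ _ _ _ _ r t1 t2).resolve_left
        (h.ne (by omega) (by omega) (by omega))))

lemma tight_cross {i j p a b k : ℤ} (r : Cr G f c X i j p a b k) (hj : j = i + 3) :
    b = a + 6 ∧ k = a + 3 ∧ G.Adj (f (i + 1)) (f k) ∧ G.Adj (f (i + 2)) (f k) := by
  subst hj
  have hr := h.rules r
  have t := h.tight_tw r.a1 (f k) (h.ne (by omega) (by omega) (by omega))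
    (h.ne (by omega) (by omega) (by omega))
  have e : G.Adj (f (i + 1)) (f k) ∧ G.Adj (f (i + 2)) (f k) := by
    obtain rfl | rfl : p = i + 1 ∨ p = i + 2 := by omega
    exacts [⟨r.adj, t.1 r.adj⟩, ⟨t.2 r.adj, r.adj⟩]
  have h1 := h.rules (p := i + 1)
    ⟨r.a1, r.a2, by omega, by omega, r.k1, r.k2, r.o1, r.o2, e.1⟩
  have h2 := h.rules (p := i + 2)
    ⟨r.a1, r.a2, by omega, by omega, r.k1, r.k2, r.o1, r.o2, e.2⟩
  exact ⟨by omega, by omega, e⟩

lemma tight_free {i j p a b k : ℤ} (r : Cr G f c X i j p a b k) : i + 4 ≤ j := by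
  have hr := h.rules r
  by_contra hc
  obtain rfl : j = i + 3 := by omega
  obtain ⟨rfl, rfl, e1, e2⟩ := h.tight_cross r rfl
  have r1 : Cr G f c X i (i + 3) (i + 1) a (a + 6) (a + 3) :=
    ⟨r.a1, r.a2, by omega, by omega, r.k1, r.k2, r.o1, r.o2, e1⟩
  have r2 : Cr G f c X i (i + 3) (i + 2) a (a + 6) (a + 3) :=
    ⟨r.a1, r.a2, by omega, by omega, r.k1, r.k2, r.o1, r.o2, e2⟩
  obtain ⟨t1, -, n1, -⟩ := h.LA r1
  have r3 := (h.symm r2).rev
  rw [show -(i + 2 + c) = -(i + 3 + c) + 1 by ring, show -(a + 3) = -(a + 6) + 3 by ring] at r3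
  obtain ⟨t2, -⟩ := h.rev.LA r3
  simp only [show -(-(a + 6) + 1) = a + 5 by ring, show -(-(a + 6) + 2) = a + 4 by ring] at t2
  refine h.midblob r.a2 (by omega) (fun u v p a' b' k r' _ _ => ?_) fun p k p1 p2 k1 k2 e => ?_
  · have hr' := h.rules r'
    by_cases c1 : v = u + 3
    · obtain ⟨rfl, rfl, -⟩ := h.tight_cross r' c1
      exact Or.inr (h.same r'.a2 r.a2 (by omega) 3)
    by_cases c2 : b' = a' + 3
    · obtain ⟨c3, c4, -⟩ := h.tight_cross (h.symm r') c2
      obtain rfl : p = u + 3 := by omega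
      exact Or.inl (h.same r'.a1 r.a2 (by omega) 3)
    have c3 := h.same r'.a1 r.a2 (by omega) 0
    have c4 := h.same r'.a2 r.a2 (by omega) 0
    exact absurd (c3.trans c4.symm) (h.ne (by omega) (by omega) (by omega))
  · have e' : G.Adj (f (a + 2)) (f k) := by
      obtain rfl | rfl : p = a + 1 ∨ p = a + 2 := by omega
      · exact (t1 _ (h.ne (by omega) (by omega) (by omega))
          (h.ne (by omega) (by omega) (by omega))).1 e
      · exact e
    obtain rfl | rfl : k = a + 4 ∨ k = a + 5 := by omega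
    · exact n1 e'
    · exact n1 ((t2 _ (h.ne (by omega) (by omega) (by omega))
        (h.ne (by omega) (by omega) (by omega))).1 e'.symm).symm

lemma rules' {i j p a b k : ℤ} (r : Cr G f c X i j p a b k) :
    i + 4 ≤ j ∧ a + 4 ≤ b ∧ j - i + (b - a) ≤ 9 ∧ (p = i + 1 → a + 3 ≤ k) ∧
      (p = j - 1 → k + 3 ≤ b) ∧ (k = a + 1 → i + 3 ≤ p) ∧ (k = b - 1 → p + 3 ≤ j) ∧
      i < p ∧ p < j ∧ a < k ∧ k < b ∧ j ≤ a ∧ b ≤ i + c :=
  ⟨h.tight_free r, h.tight_free (h.symm r), (h.rules r).2.2⟩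

lemma tight_full {t : ℤ} (a : A f X t (t + 3)) {x : V} (hx : x ∈ X) : G.Adj (f (t + 1)) x := by
  refine h.fullW _ (insert (f (t + 2)) X) (fun y e => ?_) (Finset.card_insert_le _ _)
    (Finset.mem_insert_of_mem hx)
  rcases h.nbr a (by omega) (by omega) e with hw | ⟨k, k1, k2, k3, rfl⟩ | ⟨u, v, k, r, rfl⟩
  · exact Finset.mem_insert_of_mem hw
  · obtain rfl : k = t + 2 := by omega
    exact Finset.mem_insert_self _ _
  · have := h.tight_free r; omega

lemma free_ok {t t' : ℤ} (a : A f X t t') (hn : ∀ p a b k, ¬ Cr G f c X t t' p a b k) :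
    ArcOK G f (· ∈ X) t := by
  have := h.Agap a
  refine ok2 (b := t' - 1) (by omega) (fun u u1 u2 => a.2.2.2 u u1 (by omega))
    fun p w p1 p2 e => ?_
  rcases h.nbr a p1 (by omega) e with hw | ⟨k, k1, k2, -, rfl⟩ | ⟨u, v, k, r, rfl⟩
  exacts [Or.inr hw, Or.inl ⟨k, k1, by omega, rfl⟩, absurd r (hn _ _ _ _)]

lemma pend_ok {t a b : ℤ} (r : Cr G f c X t (t + 4) (t + 2) a b (a + 2))
    (hn : ∀ p a b k, Cr G f c X t (t + 4) p a b k → p = t + 2) : ArcOK G f (· ∈ X) t := by
  have hr := h.rules r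
  have n : ¬ G.Adj (f (t + 1)) (f (t + 3)) := fun e => by
    have := h.ruleA (m := t + 2) r.a1.1 r.a2.1 (by omega) (by omega) r.k1 (by omega) r.adj
      (by rwa [show t + 2 + 1 = t + 3 by ring])
    omega
  refine h.ok1 (a1 := t + 1) (b1 := t + 1) (a2 := t + 3) (b2 := t + 3) (f (t + 2)) (f (t + 2))
    (by omega) le_rfl (by omega) le_rfl (by omega) (fun u u1 u2 => r.a1.2.2.2 u u1 (by omega))
    (fun p w p1 p2 e => ?_) fun p w p1 p2 e => ?_
  · obtain rfl : p = t + 1 := by omega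
    rcases h.nbr r.a1 (by omega) (by omega) e with hw | ⟨k, k1, k2, k3, rfl⟩ | ⟨u, v, k, r, rfl⟩
    · exact Or.inr (Or.inl hw)
    · obtain rfl | rfl : k = t + 2 ∨ k = t + 3 := by omega
      exacts [Or.inr (Or.inr rfl), absurd e n]
    · have := hn _ _ _ _ r; omega
  · obtain rfl : p = t + 3 := by omega
    rcases h.nbr r.a1 (by omega) (by omega) e with hw | ⟨k, k1, k2, k3, rfl⟩ | ⟨u, v, k, r, rfl⟩
    · exact Or.inr (Or.inl hw)
    · obtain rfl | rfl : k = t + 2 ∨ k = t + 1 := by omega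
      exacts [Or.inr (Or.inr rfl), absurd e.symm n]
    · have := hn _ _ _ _ r; omega

lemma blobX (lo : ℤ) (hA : ∀ t, lo ≤ t → t < lo + c → f t ∈ X → ArcOK G f (· ∈ X) t) : False :=
  h.blob (· ∈ X) lo h.hSX (Finset.card_pos.1 (show 0 < X.card by have := h.h3; omega)) hA (f 0)
    fun _ hx => Or.inl hx

lemma ham1 {i j a b k : ℤ} (r : Cr G f c X i j (i + 1) a b k) (hk : k = b - 1) :
    ¬ G.Adj (f (a + 1)) (f i) := fun e => by
  subst hk
  have hr := h.rules r
  have := h.cs.short (i + 1) [] (false, a, i + 1)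
    [(false, b - 1, a + 1), (false, i + c, b), (true, 0, 1)]
      (by simp only [tok, tinw, tin, tdisA, tdis1, tdis, ttot, slen, List.nil_append,
        List.cons_append, and_true, true_and]; omega)
    ⟨r.adj, by simpa only [tv, h.per] using e, h.q0 r.a2.2.1, trivial⟩ (h.q1 r.a2.1)
  simp only [ttot] at this
  omega

lemma ins {i t m : ℤ} (hi : f i ∈ X) (e0 : G.Adj (f (i + c - 1)) (f (i + 1))) (ht : f t ∈ X)
    (h1 : i < t) (h2 : t < m) (h3 : m + 1 < i + c) (e2 : G.Adj (f (t + 1)) (f (m + 1))) :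
    ¬ G.Adj (f m) (f i) := fun e => by
  have := h.cs.short i [] (false, i + 1, t)
    [(true, 0, 1), (false, i, i), (false, m, t + 1), (false, m + 1, i + c - 1)]
      (by simp only [tok, tinw, tin, tdisA, tdis1, tdis, ttot, slen, List.nil_append,
        List.cons_append, and_true, true_and]; omega)
    ⟨h.q0 ht, h.q1 hi, e.symm, e2, trivial⟩ e0
  simp only [ttot] at this
  omega

lemma insB {i t : ℤ} (hi : f i ∈ X) (e0 : G.Adj (f (i + c - 1)) (f (i + 1))) (ht : f t ∈ X)
    (h1 : i + 1 < t) (h3 : t < i + c) : ¬ G.Adj (f (t - 1)) (f i) := fun e => by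
  have := h.cs.short i [] (false, i + 1, t - 1)
    [(false, i, i), (true, 0, 1), (false, t, i + c - 1)]
      (by simp only [tok, tinw, tin, tdisA, tdis1, tdis, ttot, slen, List.nil_append,
        List.cons_append, and_true, true_and]; omega)
    ⟨e, h.q0 hi, h.q1 ht, trivial⟩ e0
  simp only [ttot] at this
  omega

/-- the first two vertices of an arc of size three or four form a stick -/
lemma side {i j a b : ℤ} (r : Cr G f c X i j (i + 1) a b (a + 3)) (hb : b = a + 4 ∨ b = a + 5)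
    (hnc : ∀ u v k, Cr G f c X a b (a + 1) u v k → ¬ G.Adj (f (a + 2)) (f k)) :
    (∀ p y, a < p → p ≤ a + 2 → G.Adj (f p) y →
      y = f (a + 1) ∨ y = f (a + 2) ∨ y = f (a + 3) ∨ (y ∈ X ∧ y ≠ f b)) ∧
      ∀ y ∈ X, y ≠ f b → G.Adj (f (a + 1)) y := by
  have hr := h.rules r
  obtain ⟨t, e1, n1, n2⟩ := h.LA r
  have nb : ¬ G.Adj (f (a + 2)) (f b) := by
    rcases hb with rfl | rfl
    exacts [n1, n2 (by omega)]
  have N1 : ∀ y, G.Adj (f (a + 1)) y → y = f (a + 2) ∨ y = f (a + 3) ∨ (y ∈ X ∧ y ≠ f b) := by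
    intro y e
    by_cases h2 : y = f (a + 2)
    · exact Or.inl h2
    have e' := (t y e.ne' h2).1 e
    rcases h.nbr r.a2 (by omega) (by omega) e with hw | ⟨k, k1, k2, k3, rfl⟩ | ⟨u, v, k, r, rfl⟩
    · exact Or.inr (Or.inr ⟨hw, by rintro rfl; exact nb e'⟩)
    · obtain rfl | rfl | rfl : k = a + 2 ∨ k = a + 3 ∨ k = a + 4 := by omega
      exacts [Or.inl rfl, Or.inr (Or.inl rfl), absurd e' n1]
    · exact absurd e' (hnc _ _ _ r)
  refine ⟨fun p y p1 p2 e => ?_, (h.fullX r.a2.2.1 N1).2⟩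
  obtain rfl | rfl : p = a + 1 ∨ p = a + 2 := by omega
  · exact Or.inr (N1 y e)
  · by_cases h1 : y = f (a + 1)
    · exact Or.inl h1
    · exact Or.inr (N1 y ((t y h1 e.ne').2 e))

/-- no common cross neighbour when all arcs are short -/
lemma nc (H : ∀ a b, A f X a b → b ≤ a + 4) {a b u v k : ℤ}
    (r : Cr G f c X a b (a + 1) u v k) : ¬ G.Adj (f (a + 2)) (f k) := fun e => by
  have h1 := h.rules' r
  have h2 := h.rules' (p := a + 2)
    ⟨r.a1, r.a2, by omega, by omega, r.k1, r.k2, r.o1, r.o2, e⟩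
  have := H _ _ r.a1
  have := H _ _ r.a2
  omega

omit h in
lemma Hrev (H : ∀ a b, A f X a b → b ≤ a + 4) (a b : ℤ) (ha : A (fun i => f (-i)) X a b) :
    b ≤ a + 4 := by
  have := H (-b) (-a) (by simpa using ha.rev)
  omega

lemma sideA (H : ∀ a b, A f X a b → b ≤ a + 4) {i j p a b k : ℤ} (r : Cr G f c X i j p a b k)
    (hp : p = i + 1) : j = i + 4 ∧ b = a + 4 ∧ k = a + 3 ∧
    (∀ p y, a < p → p ≤ a + 2 → G.Adj (f p) y →
      y = f (a + 1) ∨ y = f (a + 2) ∨ y = f (a + 3) ∨ (y ∈ X ∧ y ≠ f b)) ∧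
      ∀ y ∈ X, y ≠ f b → G.Adj (f (a + 1)) y := by
  have h1 := h.rules' r
  have := H _ _ r.a1
  have := H _ _ r.a2
  obtain rfl : k = a + 3 := by omega
  subst hp
  exact ⟨by omega, by omega, rfl, h.side r (by omega) fun u v k r => h.nc H r⟩

lemma sideB (H : ∀ a b, A f X a b → b ≤ a + 4) {i j p a b k : ℤ} (r : Cr G f c X i j p a b k)
    (hp : p = i + 1) :
    (∀ p y, i + 2 ≤ p → p ≤ i + 3 → G.Adj (f p) y →
      y = f (i + 3) ∨ y = f (i + 2) ∨ y = f (i + 1) ∨ (y ∈ X ∧ y ≠ f i)) ∧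
      ∀ y ∈ X, y ≠ f i → G.Adj (f (i + 3)) y := by
  obtain ⟨rfl, rfl, rfl, -⟩ := h.sideA H r hp
  obtain ⟨-, -, -, h1, h2⟩ := h.rev.sideA (Hrev H) r.rev (by omega)
  simp only [show -(-(i + 4) + 1) = i + 3 by ring, show -(-(i + 4) + 2) = i + 2 by ring,
    show -(-(i + 4) + 3) = i + 1 by ring, neg_neg] at h1 h2
  exact ⟨fun p y p1 p2 e => h1 (-p) y (by omega) (by omega) (by simpa using e), h2⟩

lemma c2a (H : ∀ a b, A f X a b → b ≤ a + 4) {i j p a b k : ℤ} (r : Cr G f c X i j p a b k) :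
    p ≠ i + 1 := fun hp => by
  have hr := h.rules' r
  obtain ⟨rfl, rfl, rfl, A1, A2⟩ := h.sideA H r hp
  obtain ⟨B1, B2⟩ := h.sideB H r hp
  subst hp
  have ec : c = a + 4 - i := by
    by_contra hc
    exact h.ham1 r (by ring) (A2 _ r.a1.1 (h.ne (by omega) (by omega) (by omega)))
  have e0 : G.Adj (f (i + c - 1)) (f (i + 1)) := by
    rw [show i + c - 1 = a + 3 by omega]; exact r.adj.symm
  have e4 : f (a + 4) = f i := h.pe (by omega)
  refine h.blob (fun w => w ∈ X ∧ w ≠ f i) (i + 1) (fun x hx => h.hSX x hx.1)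
    ⟨f a, r.a2.1, h.ne (by omega) (by omega) (by omega)⟩ (fun t t1 t2 ht => ?_) (f i)
    fun x hx => by tauto
  have t3 : t ≠ i + c := by rintro rfl; exact ht.2 (h.per i)
  by_cases e1 : t = a
  · subst e1
    refine h.ok1 (a1 := t + 1) (b1 := t + 2) (a2 := t + 6) (b2 := t + 7) (f (t + 3)) (f (i + 1))
      (by omega) (by omega) (by omega) (by omega) (by omega) (fun u u1 u2 hu => ?_)
      (fun p w p1 p2 e => ?_) fun p w p1 p2 e => ?_
    · rcases lt_trichotomy u (t + 4) with h1 | rfl | h1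
      exacts [r.a2.2.2.2 u u1 h1 hu.1, hu.2 e4,
        (h.Aadd r.a1).2.2.2 u (by omega) (by omega) hu.1]
    · rcases A1 p w p1 p2 e with rfl | rfl | rfl | hw
      exacts [Or.inl ⟨_, le_rfl, by omega, rfl⟩, Or.inl ⟨_, by omega, le_rfl, rfl⟩,
        Or.inr (Or.inr rfl), Or.inr (Or.inl (e4 ▸ hw))]
    · rw [h.pe (show p = p - c + c by ring)] at e
      rcases B1 (p - c) w (by omega) (by omega) e with rfl | rfl | rfl | hw
      exacts [Or.inl ⟨t + 7, by omega, le_rfl, h.pe (by omega)⟩,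
        Or.inl ⟨t + 6, le_rfl, by omega, h.pe (by omega)⟩, Or.inr (Or.inr rfl), Or.inr (Or.inl hw)]
  obtain ⟨t', a'⟩ := h.exA ht.1
  have h1 := r.a1.le ht.1 (by omega)
  have h2 : t < a := by
    by_contra h2
    have := r.a2.le ht.1 (by omega)
    omega
  have h3 := a'.le r.a2.1 h2
  have h4 := h.Agap a'
  have h5 := H _ _ a'
  have n1 : ¬ G.Adj (f (t + 1)) (f i) :=
    h.ins r.a1.1 e0 ht.1 (by omega) (by omega) (by omega) (h.ad rfl)
  obtain rfl : t' = t + 4 := by
    by_contra h6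
    obtain rfl : t' = t + 3 := by omega
    exact n1 (h.tight_full a' r.a1.1)
  have n3 : ¬ G.Adj (f (t + 3)) (f i) := by
    have := h.insB r.a1.1 e0 a'.2.1 (by omega) (by omega)
    rwa [show t + 4 - 1 = t + 3 by ring] at this
  have c1 : ∀ u v k, ¬ Cr G f c X t (t + 4) (t + 1) u v k := fun u v k r' =>
    n3 ((h.sideB H r' rfl).2 _ r.a1.1 ht.2.symm)
  have c3 : ∀ u v k, ¬ Cr G f c X t (t + 4) (t + 3) u v k := fun u v k r' => by
    have := h.rules' r'
    have := H _ _ r'.a2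
    exact n1 ((h.sideA H (h.symm' r') (by omega)).2.2.2.2 _ r.a1.1
      (h.ne (by omega) (by omega) (by omega)))
  have e13 : G.Adj (f (t + 1)) (f (t + 3)) := by
    refine (h.fullX (u := f (t + 2)) r.a1.1 fun y e => ?_).1
    rcases h.nbr a' (by omega) (by omega) e with hw | ⟨k, k1, k2, k3, rfl⟩ | ⟨u, v, k, r', rfl⟩
    · exact Or.inr (Or.inr ⟨hw, by rintro rfl; exact n1 e⟩)
    · obtain rfl | rfl : k = t + 2 ∨ k = t + 3 := by omega
      exacts [Or.inl rfl, Or.inr (Or.inl rfl)]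
    · exact absurd r' (c1 _ _ _)
  rw [show t + 3 = t + 2 + 1 by ring] at e13
  have n2 : ¬ G.Adj (f (t + 2)) (f i) :=
    h.ins r.a1.1 e0 ht.1 (by omega) (by omega) (by omega) e13
  have c2 : ∀ u v k, ¬ Cr G f c X t (t + 4) (t + 2) u v k := fun u v k r' => by
    have := h.rules' r'
    have := H _ _ r'.a2
    have := h.ruleA ht.1 r'.a2.1 (by omega) (by omega) r'.k1 (by omega) r'.adj e13
    omega
  refine ok2 (b := t + 3) (by omega) (fun u u1 u2 hu => a'.2.2.2 u u1 (by omega) hu.1)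
    fun p w p1 p2 e => ?_
  rcases h.nbr a' p1 (by omega) e with hw | ⟨k, k1, k2, -, rfl⟩ | ⟨u, v, k, r', rfl⟩
  · refine Or.inr ⟨hw, ?_⟩
    rintro rfl
    obtain rfl | rfl | rfl : p = t + 1 ∨ p = t + 2 ∨ p = t + 3 := by omega
    exacts [n1 e, n2 e, n3 e]
  · exact Or.inl ⟨k, k1, by omega, rfl⟩
  · obtain rfl | rfl | rfl : p = t + 1 ∨ p = t + 2 ∨ p = t + 3 := by omega
    exacts [absurd r' (c1 _ _ _), absurd r' (c2 _ _ _), absurd r' (c3 _ _ _)]

lemma c2 (H : ∀ a b, A f X a b → b ≤ a + 4) : False := by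
  have key : ∀ i j p a b k, Cr G f c X i j p a b k → j = i + 4 ∧ p = i + 2 ∧ k = a + 2 := by
    intro i j p a b k r
    have := h.rules' r
    have := H _ _ r.a1
    have := H _ _ r.a2
    have := h.c2a H r
    have := h.c2a H (h.symm r)
    omega
  refine h.blobX 0 fun t _ _ ht => ?_
  obtain ⟨t', a'⟩ := h.exA ht
  by_cases hc : ∃ p a b k, Cr G f c X t t' p a b k
  · obtain ⟨p, a, b, k, r⟩ := hc
    obtain ⟨rfl, rfl, rfl⟩ := key _ _ _ _ _ _ r
    exact h.pend_ok r fun p a b k r => (key _ _ _ _ _ _ r).2.1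
  · exact h.free_ok a' fun p a b k r => hc ⟨p, a, b, k, r⟩

/-- with two arcs of total excess three all other arcs are tight -/
lemma only3 {i j p a b k : ℤ} (r : Cr G f c X i j p a b k) (hl : j - i + (b - a) = 9) {u v : ℤ}
    (a' : A f X u v) (h1 : i ≤ u) (h2 : u < i + c) : u = i ∨ u = a ∨ v = u + 3 := by
  have := h.rules r
  by_contra hc
  have := h.ex3 r.a1 r.a2 a' (by omega) (by omega) (by omega) h2 (by omega)
  have := h.Agap a'
  omega

lemma other {i j p a b k : ℤ} (r : Cr G f c X i j p a b k) (hl : j - i + (b - a) = 9)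
    {p' a' b' k' : ℤ} (r' : Cr G f c X i j p' a' b' k') : a' = a ∧ b' = b := by
  have h1 := h.rules' r'
  have h2 := h.only3 r hl r'.a2 (by omega) (by omega)
  obtain rfl : a' = a := by omega
  exact ⟨rfl, r'.a2.uniq r.a2⟩

lemma insT {i j a b k : ℤ} (r : Cr G f c X i j (i + 1) a b k) (hl : j - i + (b - a) = 9)
    (hk : k = b - 1) : b ≠ i + c := fun hb => by
  obtain ⟨e, e1, e2, e3, e4⟩ := h.third i a
  obtain ⟨e', a'⟩ := h.exA e4
  have h1 := h.only3 r hl a' e1.le e2
  obtain rfl : e' = e + 3 := by omega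
  have h2 := a'.le (h.xc r.a1.1) e2
  refine h.ins (m := e + 1) r.a1.1 ?_ e4 e1 (by omega) (by omega) (h.ad rfl)
    (h.tight_full a' r.a1.1)
  rw [show i + c - 1 = k by omega]; exact r.adj.symm

lemma c3a {t j p a b k : ℤ} (r : Cr G f c X t j p a b k) (h1 : j = t + 4) (h2 : p = t + 1)
    (h3 : b = a + 5) (h4 : k = a + 3) : False := by
  subst h1 h2 h3 h4
  have hr := h.rules r
  have rs := h.symm r
  have nb : ¬ G.Adj (f (a + 2)) (f (t + 3)) := fun e => by
    have := h.cs.short (t + 1) [] (false, a + 4, a + 3)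
      [(false, t + 1, t + 3), (false, a + 2, t + 4), (true, 0, 1), (false, t + c, a + 5)]
      (by simp only [tok, tinw, tin, tdisA, tdis1, tdis, ttot, slen, List.nil_append,
        List.cons_append, and_true, true_and]; omega)
      ⟨r.adj.symm, e.symm, h.q0 r.a1.2.1, h.q1 (h.xc r.a1.1), trivial⟩ (h.ad (by ring)).symm
    simp only [ttot] at this
    omega
  obtain ⟨N, F⟩ := h.side r (Or.inr rfl) fun u v k r' => by
    have := h.rules r'
    have := h.other rs (by omega) r'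
    rwa [h.pe (show k = t + 3 + c by omega)]
  have n4 : ¬ G.Adj (f (t + 1)) (f (a + 4)) := fun e => by
    have r4 : Cr G f c X t (t + 4) (t + 1) a (a + 5) (a + 4) :=
      ⟨r.a1, r.a2, by omega, by omega, by omega, by omega, r.o1, r.o2, e⟩
    have := h.insT r4 (by omega) (by ring)
    exact h.ham1 r4 (by ring) (F _ r.a1.1 (h.ne (by omega) (by omega) (by omega)))
  have key : ∀ p u v k, Cr G f c X a (a + 5) p u v k → p = a + 3 := by
    intro p u v k r'
    have := h.rules r'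
    have := h.other rs (by omega) r'
    by_contra hc
    by_cases hp : p ≤ a + 2
    · rcases N p _ (by omega) hp r'.adj with e | e | e | e
      exacts [h.ne (by omega) (by omega) (by omega) e, h.ne (by omega) (by omega) (by omega) e,
        h.ne (by omega) (by omega) (by omega) e, r'.a2.2.2.2 k r'.k1 r'.k2 e.1]
    · obtain rfl : p = a + 4 := by omega
      have e := r'.adj
      rw [h.pe (show k = t + 1 + c by omega)] at e
      exact n4 e.symm
  refine h.midblob r.a2 le_rfl (fun u v p a' b' k r' u1 u2 => ?_) fun p k p1 p2 k1 k2 e => ?_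
  · have := h.rules' r'
    rcases h.only3 rs (by omega) r'.a1 u1 u2 with rfl | rfl | e
    · obtain rfl := r'.a1.uniq r.a2
      exact Or.inl (by rw [key _ _ _ _ r'])
    · obtain rfl := r'.a1.uniq rs.a2
      obtain ⟨rfl, rfl⟩ := h.other (h.symm rs) (by omega) r'
      have r2 := h.symm' r'
      rw [add_sub_cancel_right, add_sub_cancel_right] at r2
      have := key _ _ _ _ r2
      exact Or.inr (h.pe (by omega))
    · omega
  · rcases N p _ p1 p2 e with e | e | e | e
    exacts [h.ne (by omega) (by omega) (by omega) e, h.ne (by omega) (by omega) (by omega) e,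
      h.ne (by omega) (by omega) (by omega) e, r.a2.2.2.2 k (by omega) k2 e.1]

lemma c3b {i j p a b k : ℤ} (r : Cr G f c X i j p a b k) (h1 : j = i + 5) (h2 : p = i + 1)
    (h3 : b = a + 4) (h4 : k = a + 3) : False := by
  subst h1 h2 h3 h4
  have hr := h.rules r
  obtain ⟨-, F⟩ := h.side r (Or.inl rfl) fun u v k r' e => by
    have h1 := h.rules r'
    have h2 := h.other (h.symm r) (by omega) r'
    have h3 := h.rules (p := a + 2)
      ⟨r'.a1, r'.a2, by omega, by omega, r'.k1, r'.k2, r'.o1, r'.o2, e⟩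
    exact h.c3a r' rfl rfl (by omega) (by omega)
  have := h.insT r (by omega) (by ring)
  exact h.ham1 r (by ring) (F _ r.a1.1 (h.ne (by omega) (by omega) (by omega)))

lemma c3cross {i j p a b k : ℤ} (r : Cr G f c X i j p a b k) (h1 : j = i + 5) :
    b = a + 4 ∧ k = a + 2 ∧ (p = i + 2 ∨ p = i + 3) := by
  have hr := h.rules' r
  have a1 : ¬ (k = a + 1 ∧ p = i + 3) := fun e =>
    h.c3a (h.symm r) (by omega) e.1 (by omega) (by omega)
  have a2 : ¬ (k = a + 3 ∧ p = i + 2) := fun e =>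
    h.rev.c3a r.rev (by omega) (by omega) (by omega) (by omega)
  have a3 : ¬ (k = a + 3 ∧ p = i + 1) := fun e => h.c3b r h1 e.2 (by omega) e.1
  have a4 : ¬ (k = a + 1 ∧ p = i + 4) := fun e =>
    h.rev.c3b (h.symm r).rev (by omega) (by omega) (by omega) (by omega)
  omega

lemma ruleB {j m k k' : ℤ} (hj : f j ∈ X) (hk : f k' ∈ X) (h1 : m < j) (h2 : j < k)
    (h3 : k + 2 = k') (h4 : k' ≤ m - 1 + c) (e1 : G.Adj (f m) (f k)) :
    ¬ G.Adj (f (m - 1)) (f (j - 1)) := fun e2 => by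
  have := h.cs.short m [(false, k + 1, k + 1)] (false, k', m - 1 + c)
    [(false, j - 1, m), (false, k, j), (true, 0, 1)]
      (by simp only [tok, tinw, tin, tdisA, tdis1, tdis, ttot, slen, List.nil_append,
        List.cons_append, and_true, true_and]; omega)
    ⟨h.ad (show k' = k + 1 + 1 by omega), by simpa only [tv, h.per] using e2, e1, h.q0 hj,
      trivial⟩ (h.q1 hk)
  simp only [ttot, slen] at this
  omega

lemma c3c {i j p a b k : ℤ} (r : Cr G f c X i j p a b k) (h1 : j = i + 5) : p ≠ i + 2 := by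
  rintro rfl
  obtain ⟨rfl, rfl, -⟩ := h.c3cross r h1
  subst h1
  have hr := h.rules r
  have n13 : ¬ G.Adj (f (i + 1)) (f (i + 3)) := fun e => by
    have := h.ruleA r.a1.1 r.a2.1 (by omega) (by omega) r.k1 (by omega) r.adj
      (by rwa [show i + 2 + 1 = i + 3 by ring])
    omega
  have n14 : ¬ G.Adj (f (i + 1)) (f (i + 4)) := by
    have := h.ruleB r.a1.2.1 r.a2.2.1 (by omega) (by omega) (by ring) (by omega) r.adj
    rwa [show i + 2 - 1 = i + 1 by ring, show i + 5 - 1 = i + 4 by ring] at this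
  have N1 : ∀ p w, i + 1 ≤ p → p ≤ i + 1 → G.Adj (f p) w →
      Seg f (i + 1) (i + 1) w ∨ w ∈ X ∨ w = f (i + 2) := by
    intro p w p1 p2 e
    obtain rfl : p = i + 1 := by omega
    rcases h.nbr r.a1 (by omega) (by omega) e with hw | ⟨k, k1, k2, k3, rfl⟩ | ⟨u, v, k, r', rfl⟩
    · exact Or.inr (Or.inl hw)
    · obtain rfl | rfl | rfl : k = i + 2 ∨ k = i + 3 ∨ k = i + 4 := by omega
      exacts [Or.inr (Or.inr rfl), absurd e n13, absurd e n14]
    · have := h.c3cross r' rfl; omega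
  refine h.blobX i fun t t1 t2 ht => ?_
  obtain ⟨t', a'⟩ := h.exA ht
  rcases h.only3 r (by omega) a' t1 t2 with rfl | rfl | rfl
  · by_cases e3 : G.Adj (f (t + 3)) (f (a + 2))
    · have n24 : ¬ G.Adj (f (t + 2)) (f (t + 4)) := by
        have := h.ruleB r.a1.2.1 r.a2.2.1 (by omega) (by omega) (by ring) (by omega) e3
        rwa [show t + 3 - 1 = t + 2 by ring, show t + 5 - 1 = t + 4 by ring] at this
      refine h.ok1 (a2 := t + 4) (b2 := t + 4) (f (t + 2)) (f (t + 3)) (by omega) le_rfl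
        (by omega) le_rfl (by omega) (fun u u1 u2 => r.a1.2.2.2 u u1 (by omega)) N1
        fun p w p1 p2 e => ?_
      obtain rfl : p = t + 4 := by omega
      rcases h.nbr r.a1 (by omega) (by omega) e with
        hw | ⟨k, k1, k2, k3, rfl⟩ | ⟨u, v, k, r', rfl⟩
      · exact Or.inr (Or.inl hw)
      · obtain rfl | rfl | rfl : k = t + 1 ∨ k = t + 2 ∨ k = t + 3 := by omega
        exacts [absurd e.symm n14, absurd e.symm n24, Or.inr (Or.inr rfl)]
      · have := h.c3cross r' rfl; omega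
    · refine h.ok1 (a2 := t + 3) (b2 := t + 4) (f (t + 2)) (f (t + 2)) (by omega) le_rfl
        (by omega) (by omega) (by omega) (fun u u1 u2 => r.a1.2.2.2 u u1 (by omega)) N1
        fun p w p1 p2 e => ?_
      rcases h.nbr r.a1 (by omega) (by omega) e with
        hw | ⟨k, k1, k2, k3, rfl⟩ | ⟨u, v, k, r', rfl⟩
      · exact Or.inr (Or.inl hw)
      · obtain rfl | rfl | hk : k = t + 1 ∨ k = t + 2 ∨ t + 3 ≤ k := by omega
        · obtain rfl | rfl : p = t + 3 ∨ p = t + 4 := by omega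
          exacts [absurd e.symm n13, absurd e.symm n14]
        · exact Or.inr (Or.inr rfl)
        · exact Or.inl ⟨k, hk, by omega, rfl⟩
      · have h1 := h.c3cross r' rfl
        have h2 := h.other r (by omega) r'
        obtain rfl : p = t + 3 := by omega
        obtain rfl : k = a + 2 := by omega
        exact absurd e e3
  · have rs := h.symm r
    rw [show i + 2 + c = i + c + 2 by ring] at rs
    refine h.pend_ok rs fun p u v k r' => ?_
    have h2 := h.other rs (by omega) r'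
    have h1 := h.c3cross (h.symm r') (by omega)
    omega
  · exact h.free_ok a' fun p u v k r' => by have := h.tight_free r'; omega

lemma c3 {i j p a b k : ℤ} (r : Cr G f c X i j p a b k) : j ≠ i + 5 := fun h1 => by
  have := h.c3cross r h1
  have := h.c3c r h1
  have := h.rev.c3c (h.symm r).rev (by omega)
  omega

lemma main : False := by
  by_cases hc : ∃ i j p a b k, Cr G f c X i j p a b k
  · obtain ⟨i, j, p, a, b, k, r⟩ := hc
    have h1 := h.rules' r
    have h2 := h.c3 r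
    have h3 := h.c3 (h.symm r)
    refine h.c2 fun u v a' => ?_
    obtain ⟨u', u1, u2, u3, -⟩ := h.win i a'
    by_cases e1 : u' = i
    · subst e1; have := u3.uniq r.a1; omega
    by_cases e2 : u' = a
    · subst e2; have := u3.uniq r.a2; omega
    have := h.ex3 r.a1 r.a2 u3 (by omega) (by omega) (by omega) u2 (Ne.symm e2)
    omega
  · refine h.blobX 0 fun t _ _ ht => ?_
    obtain ⟨t', a'⟩ := h.exA ht
    exact h.free_ok a' fun p a b k r => hc ⟨_, _, p, a, b, k, r⟩

end Kh2.K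

theorem killKh2 (hx : Ctx G d)
    (hcl : ∀ s u1 u2, Stick G s 2 → Lk G s 2 u1 u2 →
      S2 G s 2 u1 u2 ∨ S11 G s 2 d u1 u2 ∨ Kh G s 2 d)
    {s : ℤ → V} (h : Stick G s 2) (hk : Kh G s 2 d) : False := by
  obtain ⟨f, c, h⟩ := h
  obtain ⟨X, h1, h2, h3, h4, h5⟩ := hk
  refine Kh2.K.main (s := s) (f := f) (c := c) (X := X)
    ⟨hx, h, h1, by omega, h3, h4, h5, fun s' u1 u2 a b => ?_⟩
  rcases hcl s' u1 u2 a b with e | e | e
  · have := e.deg_le hx (by omega); omega
  · have := e.1; omega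
  · exact e

end Pool.Agent.P.MP_422cad_co
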