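import Pool.Agent.P.MP_422cad_co.CS

set_option autoImplicit false
set_option linter.unusedSimpArgs false
set_option linter.unusedSectionVars false

namespace Pool.Agent.P.MP_422cad_co.Kh2

open SimpleGraph Classical

variable {V : Type}

/-- Consecutive positions of `X` on the cycle. -/
def A (f : ℤ → V) (X : Finset V) (i j : ℤ) : Prop :=
  f i ∈ X ∧ f j ∈ X ∧ i < j ∧ ∀ t, i < t → t < j → f t ∉ X

/-- An edge between two different arcs. -/
structure Cr (G : SimpleGraph V) (f : ℤ → V) (c : ℤ) (X : Finset V) (i j p a b k : ℤ) : Prop where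
  a1 : A f X i j
  a2 : A f X a b
  p1 : i < p
  p2 : p < j
  k1 : a < k
  k2 : k < b
  o1 : j ≤ a
  o2 : b ≤ i + c
  adj : G.Adj (f p) (f k)

/-- Adjacent twins. -/
def Tw (G : SimpleGraph V) (u v : V) : Prop := ∀ w, w ≠ u → w ≠ v → (G.Adj u w ↔ G.Adj v w)

def Seg (f : ℤ → V) (a b : ℤ) (w : V) : Prop := ∃ k, a ≤ k ∧ k ≤ b ∧ f k = w

variable [Fintype V]

structure K (G : SimpleGraph V) (d : ℤ) (s f : ℤ → V) (c : ℤ) (X : Finset V) : Prop where
  hx : Ctx G d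
  cs : CS G s f 2 c
  h3 : 3 ≤ X.card
  hd : d = 1 + X.card
  nq : ∀ x ∈ X, ¬ InQ s 2 x
  full : ∀ t, 0 ≤ t → t < 2 → ∀ x ∈ X, G.Adj (s t) x
  nbq : ∀ t w, 0 ≤ t → t < 2 → G.Adj (s t) w → InQ s 2 w ∨ w ∈ X
  tw : ∀ s' u1 u2, Stick G s' 2 → Lk G s' 2 u1 u2 → Kh G s' 2 d

variable {G : SimpleGraph V} {d c : ℤ} {s f : ℤ → V} {X : Finset V}

lemma K.rev (h : K G d s f c X) : K G d s (fun i => f (-i)) c X :=
  ⟨h.hx, h.cs.revC, h.h3, h.hd, h.nq, h.full, h.nbq, h.tw⟩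

omit [Fintype V] in
lemma A.rev {i j : ℤ} (h : A f X i j) : A (fun i => f (-i)) X (-j) (-i) :=
  ⟨by simpa using h.2.1, by simpa using h.1, by have := h.2.2.1; omega,
    fun t h1 h2 => h.2.2.2 _ (by omega) (by omega)⟩

omit [Fintype V] in
lemma A.shift {i j i' : ℤ} (h : A f X i j) (e : ∀ u, f (i' + u) = f (i + u)) :
    A f X i' (i' + (j - i)) := by
  refine ⟨by have := e 0; simp only [add_zero] at this; rw [this]; exact h.1,
    by rw [e, add_sub_cancel]; exact h.2.1, by have := h.2.2.1; omega, fun t h1 h2 => ?_⟩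
  rw [show t = i' + (t - i') by ring, e]
  exact h.2.2.2 _ (by omega) (by omega)

omit [Fintype V] in
lemma A.le {i j k : ℤ} (h : A f X i j) (hk : f k ∈ X) (h1 : i < k) : j ≤ k := by
  by_contra h2
  exact h.2.2.2 k h1 (by omega) hk

omit [Fintype V] in
lemma A.uniq {i j j' : ℤ} (h : A f X i j) (h' : A f X i j') : j = j' :=
  le_antisymm (h.le h'.2.1 h'.2.2.1) (h'.le h.2.1 h.2.2.1)

omit [Fintype V] in
lemma Cr.rev {i j p a b k : ℤ} (h : Cr G f c X i j p a b k) :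
    Cr G (fun i => f (-i)) c X (-b) (-a) (-k) (-j) (-i) (-p) :=
  ⟨h.a2.rev, h.a1.rev, by have := h.k2; omega, by have := h.k1; omega, by have := h.p2; omega,
    by have := h.p1; omega, by have := h.o1; omega, by have := h.o2; omega,
    by simpa using h.adj.symm⟩

namespace K
variable (h : K G d s f c X)
include h

lemma per (i : ℤ) : f (i + c) = f i := h.cs.per i

lemma pe {i j : ℤ} (e : j = i + c) : f j = f i := by rw [e, h.per]

lemma ad {i j : ℤ} (e : j = i + 1) : G.Adj (f i) (f j) := by rw [e]; exact h.cs.cyc.adj i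

lemma ne {i j : ℤ} (h1 : i ≠ j) (h2 : i < j + c) (h3 : j < i + c) : f i ≠ f j := h.cs.ne h1 h2 h3

lemma q0 {i : ℤ} (hi : f i ∈ X) : G.Adj (f i) (s 0) := (h.full 0 le_rfl (by omega) _ hi).symm

lemma q1 {i : ℤ} (hi : f i ∈ X) : G.Adj (s 1) (f i) := h.full 1 (by omega) (by omega) _ hi

lemma xc {i : ℤ} (hi : f i ∈ X) : f (i + c) ∈ X := by rwa [h.per]

lemma Aadd {i j : ℤ} (a : A f X i j) : A f X (i + c) (j + c) := by
  have := a.shift (i' := i + c) fun u => h.pe (by ring)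
  rwa [show i + c + (j - i) = j + c by ring] at this

lemma Asub {i j : ℤ} (a : A f X i j) : A f X (i - c) (j - c) := by
  have := a.shift (i' := i - c) fun u => (h.pe (by ring)).symm
  rwa [show i - c + (j - i) = j - c by ring] at this

lemma symm {i j p a b k : ℤ} (r : Cr G f c X i j p a b k) :
    Cr G f c X a b k (i + c) (j + c) (p + c) :=
  ⟨r.a2, h.Aadd r.a1, r.k1, r.k2, by have := r.p1; omega, by have := r.p2; omega, r.o2,
    by have := r.o1; omega, by rw [h.per]; exact r.adj.symm⟩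

lemma symm' {i j p a b k : ℤ} (r : Cr G f c X i j p a b k) :
    Cr G f c X (a - c) (b - c) (k - c) i j p :=
  ⟨h.Asub r.a2, r.a1, by have := r.k1; omega, by have := r.k2; omega, r.p1, r.p2,
    by have := r.o2; omega, by have := r.o1; omega,
    by rw [h.cs.cyc.per_sub]; exact r.adj.symm⟩

lemma gap {i j : ℤ} (hi : f i ∈ X) (hj : f j ∈ X) (h1 : i < j) (h2 : j < i + c) : i + 3 ≤ j := by
  have := h.cs.gap (conn_of (h.q0 hi).symm (h.q1 hj)) h1 h2
  omega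

lemma pos (lo : ℤ) {x : V} (hx : x ∈ X) : ∃ k, lo ≤ k ∧ k < lo + c ∧ f k = x :=
  (h.cs.surj lo x).resolve_left (h.nq x hx)

/-- a third vertex of `X` -/
lemma third (i j : ℤ) : ∃ k, i < k ∧ k < i + c ∧ k ≠ j ∧ f k ∈ X := by
  have h3 := h.h3
  have : ((X.erase (f i)).erase (f j)).Nonempty := by
    rw [← Finset.card_pos]
    have h1 := Finset.pred_card_le_card_erase (s := X) (a := f i)
    have h2 := Finset.pred_card_le_card_erase (s := X.erase (f i)) (a := f j)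
    omega
  obtain ⟨x, hx⟩ := this
  simp only [Finset.mem_erase] at hx
  obtain ⟨k, k1, k2, rfl⟩ := h.pos i hx.2.2
  refine ⟨k, lt_of_le_of_ne k1 ?_, k2, ?_, hx.2.2⟩
  · rintro rfl; exact hx.2.1 rfl
  · rintro rfl; exact hx.1 rfl

lemma Alt {i j : ℤ} (a : A f X i j) : j < i + c := by
  obtain ⟨k, k1, k2, -, k3⟩ := h.third i i
  have := a.le k3 k1
  omega

lemma Agap {i j : ℤ} (a : A f X i j) : i + 3 ≤ j := h.gap a.1 a.2.1 a.2.2.1 (h.Alt a)

lemma exA {i : ℤ} (hi : f i ∈ X) : ∃ j, A f X i j := by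
  obtain ⟨j, ⟨j1, j2⟩, j3⟩ := Int.exists_least_of_bdd (P := fun j => i < j ∧ f j ∈ X)
    ⟨i, fun z hz => hz.1.le⟩ ⟨i + c, by have := h.cs.c0; omega, h.xc hi⟩
  exact ⟨j, hi, j2, j1, fun t t1 t2 t3 => by have := j3 t ⟨t1, t3⟩; omega⟩

lemma exArc {lo k : ℤ} (hl : f lo ∈ X) (hk : f k ∉ X) (h1 : lo ≤ k) :
    ∃ i j, A f X i j ∧ lo ≤ i ∧ i < k ∧ k < j := by
  obtain ⟨i, ⟨i1, i2, i3⟩, i4⟩ := Int.exists_greatest_of_bdd
    (P := fun i => lo ≤ i ∧ i ≤ k ∧ f i ∈ X) ⟨k, fun z hz => hz.2.1⟩ ⟨lo, le_rfl, h1, hl⟩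
  obtain ⟨j, a⟩ := h.exA i3
  have : i ≠ k := by rintro rfl; exact hk i3
  refine ⟨i, j, a, i1, by omega, ?_⟩
  by_contra h2
  have h3 := a.2.2.1
  have := i4 j ⟨by omega, by omega, a.2.1⟩
  omega

lemma c9 : 9 ≤ c := by
  obtain ⟨x, hx⟩ := Finset.card_pos.1 (show 0 < X.card by have := h.h3; omega)
  obtain ⟨i, -, -, rfl⟩ := h.pos 0 hx
  obtain ⟨j, j1, j2, -, j3⟩ := h.third i i
  obtain ⟨k, k1, k2, k3, k4⟩ := h.third i j
  have h1 := h.gap hx j3 j1 j2
  have h2 := h.gap hx k4 k1 k2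
  have h3 := h.gap j3 (h.xc hx) j2 (by omega)
  have h4 := h.gap k4 (h.xc hx) k2 (by omega)
  rcases lt_or_gt_of_ne k3 with h5 | h5
  · have := h.gap k4 j3 h5 (by omega); omega
  · have := h.gap j3 k4 h5 (by omega); omega

lemma nbr {i j p : ℤ} (a : A f X i j) (p1 : i < p) (p2 : p < j) {w : V} (hw : G.Adj (f p) w) :
    w ∈ X ∨ (∃ k, i < k ∧ k < j ∧ k ≠ p ∧ f k = w) ∨
      ∃ a b k, Cr G f c X i j p a b k ∧ f k = w := by
  by_cases hX : w ∈ X
  · exact Or.inl hX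
  right
  rcases h.cs.surj i w with ⟨t, t0, t1, rfl⟩ | ⟨k, k1, k2, rfl⟩
  · exact absurd ((h.nbq t _ t0 t1 hw.symm).resolve_left (h.cs.notQ p)) (a.2.2.2 p p1 p2)
  obtain ⟨i', j', a', b1, b2, b3⟩ := h.exArc a.1 hX k1
  rcases b1.eq_or_lt with rfl | b1
  · left
    refine ⟨k, b2, by rwa [a.uniq a'], ?_, rfl⟩
    rintro rfl; exact G.irrefl hw
  · exact Or.inr ⟨i', j', k, ⟨a, a', p1, p2, b2, b3, a.le a'.1 b1,
      a'.le (h.xc a.1) (by omega), hw⟩, rfl⟩

lemma exc (lo : ℤ) : ∃ nx : ℤ → ℤ, (∀ i j, A f X i j → nx i = j) ∧ ∀ T : Finset ℤ,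
    (∀ i ∈ T, lo ≤ i ∧ i < lo + c ∧ f i ∈ X) → ∑ i ∈ T, (nx i - i - 3) ≤ 3 := by
  have : ∀ i, ∃ j, f i ∈ X → A f X i j := fun i => by
    by_cases hi : f i ∈ X
    · obtain ⟨j, a⟩ := h.exA hi; exact ⟨j, fun _ => a⟩
    · exact ⟨0, fun a => absurd a hi⟩
  choose nx hnx using this
  refine ⟨nx, fun i j a => (hnx i a.1).uniq a, fun T hT => ?_⟩
  let J := (Finset.Ico lo (lo + c)).filter fun i => f i ∈ X
  have mJ : ∀ i, i ∈ J ↔ (lo ≤ i ∧ i < lo + c) ∧ f i ∈ X := fun i => by simp [J]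
  have h1 := (h.cs.cyc.gap_count h.cs.c0 J (fun i => nx i - i - 1)
    (fun i hi => by have := (hnx i ((mJ i).1 hi).2).2.2.1; omega)
    (fun i hi j hj e => h.cs.cyc.eq (by have := (mJ i).1 hi; have := (mJ j).1 hj; omega)
      (by have := (mJ i).1 hi; have := (mJ j).1 hj; omega) e)
    (fun i hi j hj t t0 t1 e => (hnx i ((mJ i).1 hi).2).2.2.2 (i + t) (by omega) (by omega)
      (e ▸ ((mJ j).1 hj).2))).1
  have h2 : X.card ≤ J.card := by
    refine le_trans (Finset.card_le_card fun x hx => ?_) (Finset.card_image_le (f := f))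
    obtain ⟨k, k1, k2, rfl⟩ := h.pos lo hx
    exact Finset.mem_image_of_mem _ ((mJ k).2 ⟨⟨k1, k2⟩, hx⟩)
  have h3 : ∑ i ∈ T, (nx i - i - 3) ≤ ∑ i ∈ J, (nx i - i - 3) :=
    Finset.sum_le_sum_of_subset_of_nonneg
      (fun i hi => (mJ i).2 ⟨⟨(hT i hi).1, (hT i hi).2.1⟩, (hT i hi).2.2⟩)
      fun i hi _ => by have := h.Agap (hnx i ((mJ i).1 hi).2); omega
  have h4 : ∑ i ∈ J, (nx i - i - 1 + 1) = ∑ i ∈ J, (nx i - i - 3) + 3 * J.card := by
    rw [Finset.card_eq_sum_ones]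
    push_cast
    rw [Finset.mul_sum, ← Finset.sum_add_distrib]
    exact Finset.sum_congr rfl fun i _ => by ring
  have := h.hx.g2
  have := h.cs.tot
  have := h.hd
  omega

lemma ex2 {i j a b : ℤ} (a1 : A f X i j) (a2 : A f X a b) (h1 : i < a) (h2 : a < i + c) :
    j - i + (b - a) ≤ 9 := by
  obtain ⟨nx, e, hT⟩ := h.exc i
  have := hT {i, a} (by
    intro t ht
    simp only [Finset.mem_insert, Finset.mem_singleton] at ht
    rcases ht with rfl | rfl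
    exacts [⟨le_rfl, by omega, a1.1⟩, ⟨h1.le, h2, a2.1⟩])
  rw [Finset.sum_pair h1.ne, e _ _ a1, e _ _ a2] at this
  omega

lemma ex3 {i j a b u v : ℤ} (a1 : A f X i j) (a2 : A f X a b) (a3 : A f X u v) (h1 : i < a)
    (h2 : a < i + c) (h3 : i < u) (h4 : u < i + c) (h5 : a ≠ u) :
    j - i + (b - a) + (v - u) ≤ 12 := by
  obtain ⟨nx, e, hT⟩ := h.exc i
  have := hT {i, a, u} (by
    intro t ht
    simp only [Finset.mem_insert, Finset.mem_singleton] at ht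
    rcases ht with rfl | rfl | rfl
    exacts [⟨le_rfl, by omega, a1.1⟩, ⟨h1.le, h2, a2.1⟩, ⟨h3.le, h4, a3.1⟩])
  rw [Finset.sum_insert (by simp only [Finset.mem_insert, Finset.mem_singleton]; omega),
    Finset.sum_pair h5, e _ _ a1, e _ _ a2, e _ _ a3] at this
  omega

lemma win (lo : ℤ) {a b : ℤ} (a1 : A f X a b) : ∃ a', lo ≤ a' ∧ a' < lo + c ∧
    A f X a' (a' + (b - a)) ∧ ∀ u, f (a' + u) = f (a + u) := by
  obtain ⟨a', h1, h2, h3⟩ := h.cs.cyc.win h.cs.c0 lo a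
  exact ⟨a', h1, h2, a1.shift h3, h3⟩

lemma same {i j a b : ℤ} (a1 : A f X i j) (a2 : A f X a b) (hl : 9 < j - i + (b - a)) (u : ℤ) :
    f (i + u) = f (a + u) := by
  obtain ⟨a', h1, h2, h3, h4⟩ := h.win i a2
  rcases h1.eq_or_lt with rfl | h1
  · exact h4 u
  · have := h.ex2 a1 h3 h1 h2
    omega

lemma ruleA {i m k' k : ℤ} (hi : f i ∈ X) (hk : f k' ∈ X) (h1 : i < m) (h2 : m < k')
    (h3 : k' < k) (h4 : k < i + c) (e1 : G.Adj (f m) (f k)) (e2 : G.Adj (f (i + 1)) (f (m + 1))) :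
    k' + 3 ≤ k := by
  by_cases e : k = k' + 1
  · have := h.cs.short (i + 1) [] (false, k, i + c)
      [(true, 0, 1), (false, k', m + 1), (false, i + 1, m)]
      (by simp only [tok, tinw, tin, tdisA, tdis1, tdis, ttot, slen, List.nil_append,
        List.cons_append, and_true, true_and]; omega)
      ⟨h.q0 (h.xc hi), h.q1 hk, e2.symm, trivial⟩ e1
    simp only [ttot] at this
    omega
  · have := h.cs.short (i + 1) [(false, k' + 1, k - 1)] (false, k, i + c)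
      [(true, 0, 1), (false, k', m + 1), (false, i + 1, m)]
      (by simp only [tok, tinw, tin, tdisA, tdis1, tdis, ttot, slen, List.nil_append,
        List.cons_append, and_true, true_and]; omega)
      ⟨h.ad (by ring), h.q0 (h.xc hi), h.q1 hk, e2.symm, trivial⟩ e1
    simp only [ttot, slen] at this
    omega

lemma r1 {i j p a b k : ℤ} (r : Cr G f c X i j p a b k) (e : p = i + 1) : a + 3 ≤ k := by
  subst e
  have := r.o1; have := r.o2; have := r.p2; have := r.k2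
  exact h.ruleA r.a1.1 r.a2.1 r.p1 (by omega) r.k1 (by omega) r.adj (h.ad rfl)

lemma rules {i j p a b k : ℤ} (r : Cr G f c X i j p a b k) :
    i + 3 ≤ j ∧ a + 3 ≤ b ∧ j - i + (b - a) ≤ 9 ∧ (p = i + 1 → a + 3 ≤ k) ∧
      (p = j - 1 → k + 3 ≤ b) ∧ (k = a + 1 → i + 3 ≤ p) ∧ (k = b - 1 → p + 3 ≤ j) ∧
      i < p ∧ p < j ∧ a < k ∧ k < b ∧ j ≤ a ∧ b ≤ i + c := by
  have := r.o1; have := r.o2; have := r.p2; have := r.k2; have := r.p1; have := r.k1
  refine ⟨h.Agap r.a1, h.Agap r.a2, h.ex2 r.a1 r.a2 (by omega) (by omega), h.r1 r, fun e => ?_,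
    fun e => ?_, fun e => ?_, r.p1, r.p2, r.k1, r.k2, r.o1, r.o2⟩
  · have := h.rev.r1 (h.symm r).rev (by omega); omega
  · have := h.r1 (h.symm r) e; omega
  · have := h.rev.r1 r.rev (by omega); omega

lemma twin {a : ℤ} (hs : Stick G (fun t => f (a + t)) 2) : Tw G (f a) (f (a + 1)) := by
  have hc := h.c9
  have hn : ∀ k, k ≠ a → k ≠ a + 1 → a - 2 ≤ k → k ≤ a + 3 →
      ¬ InQ (fun t => f (a + t)) 2 (f k) := by
    rintro k k1 k2 k3 k4 ⟨t, t0, t1, e⟩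
    exact h.ne (by omega) (by omega) (by omega) e
  obtain ⟨Y, -, -, -, y1, y2⟩ := h.tw _ (f (a - 1)) (f (a + 2)) hs
    ⟨h.ne (by omega) (by omega) (by omega), hn _ (by omega) (by omega) (by omega) (by omega),
      hn _ (by omega) (by omega) (by omega) (by omega), (h.ad (by ring)).symm, h.ad (by ring)⟩
  intro w w1 w2
  have hw : ¬ InQ (fun t => f (a + t)) 2 w := by
    rintro ⟨t, t0, t1, e⟩
    obtain rfl | rfl : t = 0 ∨ t = 1 := by omega
    · exact w1 (by simpa using e.symm)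
    · exact w2 e.symm
  constructor
  · intro e
    exact y1 1 (by omega) (by omega) w
      ((y2 0 w le_rfl (by omega) (by simpa using e)).resolve_left hw)
  · intro e
    simpa using y1 0 le_rfl (by omega) w ((y2 1 w (by omega) (by omega) e).resolve_left hw)

lemma tight_tw {i : ℤ} (a : A f X i (i + 3)) : Tw G (f (i + 1)) (f (i + 2)) := by
  have hc := h.c9
  have := h.twin (h.cs.stick_up (i + 1) (i + 1) (false, i + 3, i + c) [(true, 0, 1)]
      (by simp only [tok, tinw, tin, tdisA, tdis1, tdis, ttot, slen, List.nil_append,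
        List.cons_append, and_true, true_and]; omega)
    ⟨h.ad (by ring), h.q0 (h.xc a.1), trivial⟩ (h.q1 a.2.1))
  rwa [show i + 1 + 1 = i + 2 by ring] at this

lemma LA {i j a b : ℤ} (r : Cr G f c X i j (i + 1) a b (a + 3)) :
    Tw G (f (a + 1)) (f (a + 2)) ∧ G.Adj (f (a + 1)) (f (a + 3)) ∧
      ¬ G.Adj (f (a + 2)) (f (a + 4)) ∧ (a + 5 ≤ i + c → ¬ G.Adj (f (a + 2)) (f (a + 5))) := by
  have hr := h.rules r
  have hc := h.c9
  have t := h.twin (h.cs.stick_up (i + 1) (a + 1) (false, a + 3, i + c)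
    [(true, 0, 1), (false, a, i + 1)]
      (by simp only [tok, tinw, tin, tdisA, tdis1, tdis, ttot, slen, List.nil_append,
        List.cons_append, and_true, true_and]; omega)
    ⟨h.ad (by ring), h.q0 (h.xc r.a1.1), h.q1 r.a2.1, trivial⟩ r.adj)
  rw [show a + 1 + 1 = a + 2 by ring] at t
  have e : G.Adj (f (a + 1)) (f (a + 3)) :=
    (t _ (h.ne (by omega) (by omega) (by omega)) (h.ne (by omega) (by omega) (by omega))).2
      (h.ad (by ring))
  refine ⟨t, e, fun e1 => ?_, fun h5 e1 => ?_⟩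
  · have := h.cs.short (i + 1) [] (false, a + 3, a + 3)
      [(false, a + 1, a + 2), (false, a + 4, i + c), (true, 0, 1), (false, a, i + 1)]
      (by simp only [tok, tinw, tin, tdisA, tdis1, tdis, ttot, slen, List.nil_append,
        List.cons_append, and_true, true_and]; omega)
      ⟨e.symm, e1, h.q0 (h.xc r.a1.1), h.q1 r.a2.1, trivial⟩ r.adj
    simp only [ttot] at this
    omega
  · have := h.cs.short (i + 1) [(false, a + 4, a + 4)] (false, a + 3, a + 3)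
      [(false, a + 1, a + 2), (false, a + 5, i + c), (true, 0, 1), (false, a, i + 1)]
      (by simp only [tok, tinw, tin, tdisA, tdis1, tdis, ttot, slen, List.nil_append,
        List.cons_append, and_true, true_and]; omega)
      ⟨(h.ad (by ring)).symm, e.symm, e1, h.q0 (h.xc r.a1.1), h.q1 r.a2.1, trivial⟩ r.adj
    simp only [ttot, slen] at this
    omega

lemma fullW (w : V) (W : Finset V) (hW : ∀ y, G.Adj w y → y ∈ W) (hc : W.card ≤ X.card + 1)
    {y : V} (hy : y ∈ W) : G.Adj w y := by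
  by_contra hn
  have h1 := h.hx.deg_le w (W.erase y) fun z hz =>
    Finset.mem_erase.2 ⟨fun e => hn (e ▸ hz), hW z hz⟩
  rw [Finset.card_erase_of_mem hy] at h1
  have := h.hd
  have := Finset.card_pos.2 ⟨y, hy⟩
  omega

lemma fullX {w u v x : V} (hx : x ∈ X)
    (hw : ∀ y, G.Adj w y → y = u ∨ y = v ∨ (y ∈ X ∧ y ≠ x)) :
    G.Adj w v ∧ ∀ y ∈ X, y ≠ x → G.Adj w y := by
  have key : ∀ y ∈ insert u (insert v (X.erase x)), G.Adj w y := fun y hy =>
    h.fullW w _ (fun y hy => by have := hw y hy; simp only [Finset.mem_insert, Finset.mem_erase]; tauto)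
      (by
        have h1 := Finset.card_insert_le u (insert v (X.erase x))
        have h2 := Finset.card_insert_le v (X.erase x)
        have h3 := Finset.card_erase_of_mem hx
        have := h.h3
        omega) hy
  exact ⟨key v (by simp), fun y hy hne => key y (by simp [hy, hne])⟩

lemma blob (S : V → Prop) (lo : ℤ) (hS : ∀ x, S x → ∃ k, f k = x) (hne : ∃ x, S x)
    (hA : ∀ t, lo ≤ t → t < lo + c → S (f t) → ArcOK G f S t) (o : V)
    (hO : ∀ x ∈ X, S x ∨ x = o) : False := by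
  refine arcs_blob h.hx.mnh h.hx.nou h.cs.cyc h.cs.c0 S hS hne (fun i hi => ?_) (InQ s 2) o
    ⟨⟨s 0, 0, le_rfl, by omega, rfl⟩, fun w hw hs => ?_, ?_⟩ h.cs.notQ
  · obtain ⟨t, t1, t2, t3⟩ := h.cs.cyc.win h.cs.c0 lo i
    have key : ∀ w, Arc f S t w → Arc f S i w := by
      rintro w ⟨k, k1, k2, k3⟩
      refine ⟨i + (k - t), by omega, by rw [← t3, add_sub_cancel, k2], fun u u1 u2 => ?_⟩
      rw [show u = i + (u - i) by ring, ← t3]
      exact k3 _ (by omega) (by omega)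
    have := hA t t1 t2 (by have := t3 0; simp only [add_zero] at this; rwa [this])
    rcases this with ⟨B, b1, b2⟩ | ⟨B1, B2, c1, c2, b1, b2, b3, b4, b5⟩
    · exact Or.inl ⟨B, b1, fun w hw => key w (b2 w hw)⟩
    · exact Or.inr ⟨B1, B2, c1, c2, b1, b2, b3, fun w hw => key w (b4 w hw),
        fun w hw => key w (b5 w hw)⟩
  · obtain ⟨k, rfl⟩ := hS w hs
    exact h.cs.notQ k hw
  · rintro w x ⟨t, t0, t1, rfl⟩ e
    exact (h.nbq t x t0 t1 e).imp_right (hO x)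

omit h in
lemma ok2 {S : V → Prop} {t b : ℤ} (h1 : t < b) (h2 : ∀ u, t < u → u ≤ b → ¬ S (f u))
    (h3 : ∀ p w, t < p → p ≤ b → G.Adj (f p) w → Seg f (t + 1) b w ∨ S w) : ArcOK G f S t := by
  refine Or.inl ⟨Seg f (t + 1) b, ⟨⟨_, b, h1, le_rfl, rfl⟩, ?_, ?_⟩, ?_⟩
  · rintro w ⟨k, k1, k2, rfl⟩; exact h2 k k1 k2
  · rintro w x ⟨k, k1, k2, rfl⟩; exact h3 k x k1 k2
  · rintro w ⟨k, k1, k2, rfl⟩
    exact ⟨k, k1, rfl, fun u u1 u2 => h2 u u1 (by omega)⟩

lemma ok1 {S : V → Prop} {t a1 b1 a2 b2 : ℤ} (c1 c2 : V) (h0 : t < a1) (h1 : a1 ≤ b1)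
    (h2 : b1 < a2) (h3 : a2 ≤ b2) (h4 : b2 ≤ t + c) (h5 : ∀ u, t < u → u ≤ b2 → ¬ S (f u))
    (h6 : ∀ p w, a1 ≤ p → p ≤ b1 → G.Adj (f p) w → Seg f a1 b1 w ∨ S w ∨ w = c1)
    (h7 : ∀ p w, a2 ≤ p → p ≤ b2 → G.Adj (f p) w → Seg f a2 b2 w ∨ S w ∨ w = c2) :
    ArcOK G f S t := by
  refine Or.inr ⟨Seg f a1 b1, Seg f a2 b2, c1, c2, ⟨⟨_, a1, le_rfl, h1, rfl⟩, ?_, ?_⟩,
    ⟨⟨_, a2, le_rfl, h3, rfl⟩, ?_, ?_⟩, ?_, ?_, ?_⟩
  · rintro w ⟨k, k1, k2, rfl⟩; exact h5 k (by omega) (by omega)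
  · rintro w x ⟨k, k1, k2, rfl⟩; exact h6 k x k1 k2
  · rintro w ⟨k, k1, k2, rfl⟩; exact h5 k (by omega) (by omega)
  · rintro w x ⟨k, k1, k2, rfl⟩; exact h7 k x k1 k2
  · rintro w ⟨k, k1, k2, rfl⟩ ⟨l, l1, l2, e⟩
    exact h.ne (by omega) (by omega) (by omega) e
  · rintro w ⟨k, k1, k2, rfl⟩
    exact ⟨k, by omega, rfl, fun u u1 u2 => h5 u u1 (by omega)⟩
  · rintro w ⟨k, k1, k2, rfl⟩
    exact ⟨k, by omega, rfl, fun u u1 u2 => h5 u u1 (by omega)⟩

end K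

end Pool.Agent.P.MP_422cad_co.Kh2
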