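import Pool.Agent.P.MP_422cad_co.CS

set_option autoImplicit false

namespace Pool.Agent.P.MP_422cad_co

open SimpleGraph Classical

variable {V : Type} [Fintype V] {G : SimpleGraph V} {d : ℤ}

namespace KH3

variable {s f : ℤ → V} {q c : ℤ} {X : Finset V}

/-- An arc with `q` vertices whose two bounding positions are joined by the stick is a stick. -/
lemma arc_stick (h : CS G s f q c) {i j : ℤ} (hc : Conn G s f q i j) (e : j = i + q + 1)
    (h2 : j < i + c) :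
    Stick G (fun t => f (i + 1 + t)) q ∧ Lk G (fun t => f (i + 1 + t)) q (f i) (f j) := by
  obtain ⟨a, b, h3, h4, h5⟩ := hc
  have hq := h.q2
  refine ⟨h.stick_up (i + 1) (i + 1) (false, j, i + c) [(true, a, b)]
    (by simp only [tok, tinw, tin, tdisA, tdis1, tdis, ttot, slen, and_true, true_and]; omega)
    ⟨?_, by simpa only [tv, h.per] using h4, trivial⟩ h5, h.ne (by omega) (by omega) (by omega),
    ?_, ?_, ?_, ?_⟩
  · have := h.cyc.adj (i + 1 + q - 1)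
    rw [show i + 1 + q - 1 + 1 = j by omega] at this
    exact this
  · rintro ⟨t, t0, t1, e1⟩
    exact h.ne (by omega) (by omega) (by omega) e1
  · rintro ⟨t, t0, t1, e1⟩
    exact h.ne (by omega) (by omega) (by omega) e1
  · simpa only [add_zero] using (h.cyc.adj i).symm
  · have := h.cyc.adj (i + 1 + (q - 1))
    rw [show i + 1 + (q - 1) + 1 = j by omega] at this
    exact this

lemma arcOK11
    (hcl : ∀ s u1 u2, Stick G s 3 → Lk G s 3 u1 u2 →
      S2 G s 3 u1 u2 ∨ S11 G s 3 3 u1 u2 ∨ Kh G s 3 3)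
    (h : CS G s f 3 8) {k : ℤ} (hc : Conn G s f 3 k (k + 4)) (S : V → Prop)
    (hS : ∀ x, S x ↔ x = f k ∨ x = f (k + 4)) : ArcOK G f S k := by
  obtain ⟨a1, a2⟩ := arc_stick h hc (by omega) (by omega)
  have nS : ∀ t, k < t → t < k + 4 → ¬ S (f t) := by
    intro t t0 t1 e
    rcases (hS _).1 e with e | e
    · exact h.ne (by omega) (by omega) (by omega) e
    · exact h.ne (by omega) (by omega) (by omega) e
  have hArc : ∀ t, k < t → t < k + 4 → Arc f S k (f t) := fun t t0 t1 =>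
    ⟨t, t0, rfl, fun u u0 u1 => nS u u0 (by omega)⟩
  rcases hcl _ _ _ a1 a2 with b | b | ⟨Y, b1, b2, -⟩
  · refine Or.inl ⟨InQ (fun t => f (k + 1 + t)) 3, ⟨⟨_, 0, le_rfl, by omega, rfl⟩, ?_, ?_⟩, ?_⟩
    · rintro w ⟨t, t0, t1, rfl⟩
      exact nS _ (by omega) (by omega)
    · rintro w x ⟨t, t0, t1, rfl⟩ a
      rw [hS]
      exact b t x t0 t1 a
    · rintro w ⟨t, t0, t1, rfl⟩
      exact hArc _ (by omega) (by omega)
  · obtain ⟨-, -, -, b1, b2⟩ := b
    refine Or.inr ⟨(· = f (k + 1 + 0)), (· = f (k + 1 + 2)), f (k + 1 + 1), f (k + 1 + 1),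
      ⟨⟨_, rfl⟩, ?_, ?_⟩, ⟨⟨_, rfl⟩, ?_, ?_⟩, ?_, ?_, ?_⟩
    · rintro w rfl
      exact nS _ (by omega) (by omega)
    · rintro w x rfl a
      rw [hS]
      have := b1 x a
      tauto
    · rintro w rfl
      exact nS _ (by omega) (by omega)
    · rintro w x rfl a
      rw [hS]
      have := b2 x a
      tauto
    · rintro w rfl
      exact h.ne (by omega) (by omega) (by omega)
    · rintro w rfl
      exact hArc _ (by omega) (by omega)
    · rintro w rfl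
      exact hArc _ (by omega) (by omega)
  · omega

/-- The situation `Kh` together with the cycle. -/
structure KS (G : SimpleGraph V) (s f : ℤ → V) (q c d : ℤ) (X : Finset V) : Prop where
  cs : CS G s f q c
  h3 : 3 ≤ X.card
  dq : d = q - 1 + X.card
  nq : ∀ x ∈ X, ¬ InQ s q x
  full : ∀ t, 0 ≤ t → t < q → ∀ x ∈ X, G.Adj (s t) x
  nbr : ∀ t w, 0 ≤ t → t < q → G.Adj (s t) w → InQ s q w ∨ w ∈ X

/-- Two consecutive positions of `X` on the cycle. -/
def XA (f : ℤ → V) (X : Finset V) (i j : ℤ) : Prop :=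
  i < j ∧ f i ∈ X ∧ f j ∈ X ∧ ∀ t, i < t → t < j → f t ∉ X

lemma KS.shift (h : KS G s f q c d X) (p : ℤ) : KS G s (fun n => f (n + p)) q c d X := by
  refine ⟨⟨h.cs.stick, ⟨fun i => ?_, fun i => ?_, fun i j h1 h2 => ?_⟩, fun i => h.cs.dis _,
    h.cs.tot, h.cs.q2, h.cs.c0, h.cs.min⟩, h.h3, h.dq, h.nq, h.full, h.nbr⟩
  · rw [show i + 1 + p = i + p + 1 by ring]
    exact h.cs.cyc.adj _
  · rw [show i + c + p = i + p + c by ring]
    exact h.cs.per _
  · exact h.cs.cyc.inj _ _ (by omega) (by omega)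

lemma KS.a0 (h : KS G s f q c d X) {x : V} (hx : x ∈ X) : G.Adj (s 0) x :=
  h.full 0 le_rfl (by have := h.cs.q2; omega) x hx

lemma KS.a1 (h : KS G s f q c d X) {x : V} (hx : x ∈ X) : G.Adj (s (q - 1)) x :=
  h.full _ (by have := h.cs.q2; omega) (by omega) x hx

lemma KS.pos (h : KS G s f q c d X) (lo : ℤ) {x : V} (hx : x ∈ X) :
    ∃ i, lo ≤ i ∧ i < lo + c ∧ f i = x := (h.cs.surj lo x).resolve_left (h.nq x hx)

/-- A neighbour of a cycle vertex outside `X` lies on the cycle. -/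
lemma KS.nb_pos (h : KS G s f q c d X) (lo : ℤ) {t : ℤ} (ht : f t ∉ X) {w : V}
    (a : G.Adj (f t) w) : ∃ i, lo ≤ i ∧ i < lo + c ∧ f i = w := by
  refine (h.cs.surj lo w).resolve_left ?_
  rintro ⟨u, u0, u1, rfl⟩
  exact (h.nbr u _ u0 u1 a.symm).elim (h.cs.notQ t) ht

omit [Fintype V] in
lemma next_ex {k m : ℤ} (hkm : k < m) (hm : f m ∈ X) :
    ∃ j, k < j ∧ j ≤ m ∧ f j ∈ X ∧ ∀ t, k < t → t < j → f t ∉ X := by
  obtain ⟨j, ⟨j0, j1⟩, j2⟩ := Int.exists_least_of_bdd (P := fun j => k < j ∧ f j ∈ X)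
    ⟨k, fun z hz => hz.1.le⟩ ⟨m, hkm, hm⟩
  exact ⟨j, j0, j2 m ⟨hkm, hm⟩, j1, fun t t0 t1 ht => by have := j2 t ⟨t0, ht⟩; omega⟩

omit [Fintype V] in
lemma prev_ex {k m : ℤ} (hkm : m < k) (hm : f m ∈ X) :
    ∃ j, m ≤ j ∧ j < k ∧ f j ∈ X ∧ ∀ t, j < t → t < k → f t ∉ X := by
  obtain ⟨j, ⟨j0, j1⟩, j2⟩ := Int.exists_greatest_of_bdd (P := fun j => j < k ∧ f j ∈ X)
    ⟨k, fun z hz => hz.1.le⟩ ⟨m, hkm, hm⟩
  exact ⟨j, j2 m ⟨hkm, hm⟩, j0, j1, fun t t0 t1 ht => by have := j2 t ⟨t1, ht⟩; omega⟩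

omit [Fintype V] in
lemma arc_ex {k l m : ℤ} (h1 : l < k) (h2 : k < m) (hl : f l ∈ X) (hm : f m ∈ X)
    (hk : f k ∉ X) : ∃ i j, l ≤ i ∧ i < k ∧ k < j ∧ j ≤ m ∧ XA f X i j := by
  obtain ⟨i, i0, i1, i2, i3⟩ := prev_ex h1 hl
  obtain ⟨j, j0, j1, j2, j3⟩ := next_ex h2 hm
  refine ⟨i, j, i0, i1, j0, j1, by omega, i2, j2, fun t t0 t1 => ?_⟩
  rcases lt_trichotomy t k with e | e | e
  exacts [i3 t t0 e, e ▸ hk, j3 t e t1]

lemma KS.next (h : KS G s f q c d X) {i : ℤ} (hi : f i ∈ X) : ∃ j, XA f X i j := by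
  have := h.cs.c0
  obtain ⟨j, j0, -, j2, j3⟩ := next_ex (f := f) (X := X) (k := i) (m := i + c) (by omega)
    (by rwa [h.cs.per])
  exact ⟨j, j0, hi, j2, j3⟩

omit [Fintype V] in
lemma XA.le {i j k : ℤ} (a : XA f X i j) (h1 : i < k) (h2 : f k ∈ X) : j ≤ k := by
  by_contra e
  exact a.2.2.2 k h1 (by omega) h2

lemma KS.lt (h : KS G s f q c d X) {i j : ℤ} (a : XA f X i j) : j < i + c := by
  obtain ⟨x, hx, hne⟩ := Finset.exists_mem_ne (s := X) (by have := h.h3; omega) (f i)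
  obtain ⟨k, k0, k1, rfl⟩ := h.pos i hx
  have : i ≠ k := fun e => hne (by rw [e])
  have := a.le (k := k) (by omega) hx
  omega

lemma KS.gap' (h : KS G s f q c d X) {i j : ℤ} (hi : f i ∈ X) (hj : f j ∈ X) (h1 : i < j)
    (h2 : j < i + c) : q ≤ j - i - 1 := h.cs.gap (conn_of (h.a0 hi) (h.a1 hj)) h1 h2

lemma KS.gap (h : KS G s f q c d X) {i j : ℤ} (a : XA f X i j) : q ≤ j - i - 1 :=
  h.gap' a.2.1 a.2.2.1 a.1 (h.lt a)

lemma KS.ruleA (h : KS G s f q c d X) {i k' k : ℤ} (hi : f i ∈ X) (hk : f k' ∈ X)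
    (h1 : i < k') (h2 : k' < k) (h3 : k ≤ i + c) (a : G.Adj (f (i + 1)) (f k)) :
    q ≤ k - k' - 1 := by
  have hq := h.cs.q2
  by_cases e : k = k' + 1
  · have := h.cs.short (i + 1) [] (false, k', i + 1) [(false, k, i + c), (true, 0, q - 1)]
      (by simp only [tok, tinw, tin, tdisA, tdis1, tdis, ttot, slen, List.nil_append, and_true,
        true_and]; omega)
      ⟨a, by simpa only [tv, h.cs.per] using (h.a0 hi).symm, trivial⟩ (h.a1 hk)
    simp only [ttot] at this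
    omega
  · have := h.cs.short (i + 1) [(false, k - 1, k' + 1)] (false, k', i + 1)
      [(false, k, i + c), (true, 0, q - 1)]
      (by simp only [tok, tinw, tin, tdisA, tdis1, tdis, ttot, slen, List.nil_append,
        List.cons_append, and_true, true_and]; omega)
      ⟨(h.cs.cyc.adj k').symm, a, by simpa only [tv, h.cs.per] using (h.a0 hi).symm, trivial⟩
      (h.a1 hk)
    simp only [ttot, slen] at this
    omega

lemma KS.ruleB (h : KS G s f q c d X) {j k' k : ℤ} (hj : f j ∈ X) (hk : f k' ∈ X)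
    (h1 : k' < j + c) (h2 : k < k') (h3 : j ≤ k) (a : G.Adj (f (j - 1)) (f k)) :
    q ≤ k' - k - 1 := by
  have hq := h.cs.q2
  have a' : G.Adj (f (j + c - 1)) (f k) := by
    rwa [show j + c - 1 = j - 1 + c by ring, h.cs.per]
  by_cases e : k' = k + 1
  · have := h.cs.short j [] (false, k', j + c - 1) [(false, k, j), (true, 0, q - 1)]
      (by simp only [tok, tinw, tin, tdisA, tdis1, tdis, ttot, slen, List.nil_append, and_true,
        true_and]; omega)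
      ⟨a', (h.a0 hj).symm, trivial⟩ (h.a1 hk)
    simp only [ttot] at this
    omega
  · have := h.cs.short j [(false, k + 1, k' - 1)] (false, k', j + c - 1)
      [(false, k, j), (true, 0, q - 1)]
      (by simp only [tok, tinw, tin, tdisA, tdis1, tdis, ttot, slen, List.nil_append,
        List.cons_append, and_true, true_and]; omega)
      ⟨by simpa only [tv, sub_add_cancel] using h.cs.cyc.adj (k' - 1), a', (h.a0 hj).symm,
        trivial⟩ (h.a1 hk)
    simp only [ttot, slen] at this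
    omega

lemma KS.sum2 (h : KS G s f q c d X) {i j k l : ℤ} (a : XA f X i j) (b : XA f X k l)
    (h1 : i < k) (h2 : k < i + c) : (j - i) + (l - k) + (X.card - 2) * (q + 1) ≤ c := by
  have hc := h.cs.c0
  have hex : ∀ m, ∃ n, f m ∈ X → XA f X m n := fun m => by
    by_cases e : f m ∈ X
    · obtain ⟨n, hn⟩ := h.next e
      exact ⟨n, fun _ => hn⟩
    · exact ⟨0, fun e' => absurd e' e⟩
  choose nx hnx using hex
  let J := (Finset.Ico i (i + c)).filter (fun m => f m ∈ X)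
  have mJ : ∀ m, m ∈ J ↔ (i ≤ m ∧ m < i + c) ∧ f m ∈ X := fun m => by simp [J]
  have hinj : ∀ m ∈ J, ∀ n ∈ J, f m = f n → m = n := fun m hm n hn e => by
    have := (mJ m).1 hm
    have := (mJ n).1 hn
    exact h.cs.cyc.eq (by omega) (by omega) e
  have hcard : X.card ≤ J.card := by
    refine le_trans (Finset.card_le_card (t := J.image f) fun x hx => ?_) Finset.card_image_le
    obtain ⟨m, m0, m1, rfl⟩ := h.pos i hx
    exact Finset.mem_image_of_mem _ ((mJ m).2 ⟨⟨m0, m1⟩, hx⟩)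
  have hsum := (h.cs.cyc.gap_count hc J (fun m => nx m - m - 1)
    (fun m hm => by have := (hnx m ((mJ m).1 hm).2).1; omega) hinj
    (fun m hm n hn t t0 t1 e => (hnx m ((mJ m).1 hm).2).2.2.2 (m + t) (by omega) (by omega)
      (e ▸ ((mJ n).1 hn).2))).1
  have iJ : i ∈ J := (mJ i).2 ⟨⟨le_rfl, by omega⟩, a.2.1⟩
  have kJ : k ∈ J.erase i := Finset.mem_erase.2 ⟨by omega, (mJ k).2 ⟨⟨h1.le, h2⟩, b.2.1⟩⟩
  rw [← Finset.add_sum_erase _ _ iJ, ← Finset.add_sum_erase _ _ kJ] at hsum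
  have e1 := (hnx i a.2.1).le a.1 a.2.2.1
  have e1' := a.le (hnx i a.2.1).1 (hnx i a.2.1).2.2.1
  have e2' := b.le (hnx k b.2.1).1 (hnx k b.2.1).2.2.1
  have e3 := Finset.card_nsmul_le_sum ((J.erase i).erase k) (fun m => nx m - m - 1 + 1) (q + 1)
    (fun m hm => by
      have := h.gap (hnx m ((mJ m).1 (Finset.mem_of_mem_erase (Finset.mem_of_mem_erase hm))).2)
      show q + 1 ≤ nx m - m - 1 + 1
      omega)
  rw [Finset.card_erase_of_mem kJ, Finset.card_erase_of_mem iJ, nsmul_eq_mul] at e3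
  have e4 : ((X.card : ℤ) - 2) * (q + 1) ≤ ((J.card - 1 - 1 : ℕ) : ℤ) * (q + 1) :=
    mul_le_mul_of_nonneg_right (by omega) (by have := h.cs.q2; omega)
  omega

lemma KS.sum2' (hx : Ctx G d) (hq : 3 ≤ q) (h : KS G s f q c d X) {i j k l : ℤ}
    (a : XA f X i j) (b : XA f X k l) (h1 : i < k) (h2 : k < i + c) :
    (j - i) + (l - k) ≤ 2 * q + 4 ∧
      ((j - i) + (l - k) = 2 * q + 4 → q = 3 ∧ X.card = 3 ∧ c = 14) := by
  have e1 := h.sum2 a b h1 h2
  have e2 := hx.g2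
  have e3 := h.cs.tot
  have e4 := h.dq
  have e5 := h.h3
  have e6 : ((X.card : ℤ) - 2) * (q + 1) =
    (X.card - 3) * (q - 3) + 4 * X.card + q - 11 := by ring
  have e7 : 0 ≤ ((X.card : ℤ) - 3) * (q - 3) := mul_nonneg (by omega) (by omega)
  omega

/-- A tight arc is complete to `X` and has no other outside neighbours. -/
lemma KS.tight (hx : Ctx G d) (hq : 3 ≤ q)
    (hcl : ∀ s u1 u2, Stick G s q → Lk G s q u1 u2 →
      S2 G s q u1 u2 ∨ S11 G s q d u1 u2 ∨ Kh G s q d)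
    (h : KS G s f q c d X) {i j : ℤ} (a : XA f X i j) (e : j = i + q + 1) :
    (∀ t x, i < t → t < j → x ∈ X → G.Adj (f t) x) ∧
      ∀ t w, i < t → t < j → G.Adj (f t) w → (∃ u, i < u ∧ u < j ∧ f u = w) ∨ w ∈ X := by
  have hlt := h.lt a
  have h3 := h.h3
  have hd := h.dq
  obtain ⟨a1, a2⟩ := arc_stick h.cs (conn_of (h.a0 a.2.1) (h.a1 a.2.2.1)) e hlt
  rcases hcl _ _ _ a1 a2 with b | b | ⟨Y, -, b2, b3, b4, b5⟩
  · have := b.deg_le hx (by omega)
    omega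
  · obtain ⟨b1, b2, -⟩ := b
    omega
  beta_reduce at b4 b5
  have hsub : Y ⊆ X := by
    intro w hw
    by_contra hwX
    have c0 : G.Adj (f (i + 1)) w := by simpa only [add_zero] using b4 0 le_rfl (by omega) w hw
    have c1 : G.Adj (f (j - 1)) w := by
      have := b4 (q - 1) (by omega) (by omega) w hw
      rwa [show i + 1 + (q - 1) = j - 1 by omega] at this
    obtain ⟨k, k0, k1, rfl⟩ := h.nb_pos (i + 1) (a.2.2.2 (i + 1) (by omega) (by omega)) c0
    have d1 : ¬ k < j := fun e1 => b3 _ hw ⟨k - (i + 1), by omega, by omega, by simp⟩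
    have d2 : k ≠ j := fun e1 => hwX (e1 ▸ a.2.2.1)
    have hic : f (i + c) ∈ X := by rw [h.cs.per]; exact a.2.1
    have d3 : k ≠ i + c := fun e1 => hwX (e1 ▸ hic)
    obtain ⟨k1, k2, g1, g2, g3, g4, g5⟩ :=
      arc_ex (k := k) (l := j) (m := i + c) (by omega) (by omega) a.2.2.1 hic hwX
    have r1 := h.ruleA a.2.1 g5.2.1 (by omega) g2 (by omega) c0
    have r2 := h.ruleB a.2.2.1 g5.2.2.1 (by omega) g3 (by omega) c1
    have r3 := (h.sum2' hx hq a g5 (by omega) (by omega)).1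
    omega
  have hYX : Y = X := Finset.eq_of_subset_of_card_le hsub (by omega)
  subst hYX
  refine ⟨fun t x t0 t1 hxX => ?_, fun t w t0 t1 aw => ?_⟩
  · have := b4 (t - (i + 1)) (by omega) (by omega) x hxX
    rwa [show i + 1 + (t - (i + 1)) = t by ring] at this
  · have := b5 (t - (i + 1)) w (by omega) (by omega)
      (by rwa [show i + 1 + (t - (i + 1)) = t by ring])
    rcases this with ⟨u, u0, u1, rfl⟩ | e1
    · exact Or.inl ⟨_, by omega, by omega, rfl⟩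
    · exact Or.inr e1

/-- There is an edge between two different arcs. -/
lemma KS.cross (hx : Ctx G d) (h : KS G s f q c d X) :
    ∃ i j k l t u, XA f X i j ∧ XA f X k l ∧ j ≤ k ∧ l ≤ i + c ∧ i < t ∧ t < j ∧ k < u ∧ u < l ∧
      G.Adj (f t) (f u) := by
  by_contra hn
  have hq := h.cs.q2
  have h3 := h.h3
  obtain ⟨x0, hx0⟩ : X.Nonempty := Finset.card_pos.1 (by omega)
  refine arcs_blob hx.mnh hx.nou h.cs.cyc h.cs.c0 (· ∈ X) (fun x hx => ?_) ⟨x0, hx0⟩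
    (fun i hi => ?_) (InQ s q) x0 ⟨⟨_, 0, le_rfl, by omega, rfl⟩, fun w hw e => h.nq w e hw, ?_⟩
    h.cs.notQ
  · obtain ⟨k, -, -, e⟩ := h.pos 0 hx
    exact ⟨k, e⟩
  · obtain ⟨j, a⟩ := h.next hi
    have g := h.gap a
    have hlt := h.lt a
    refine Or.inl ⟨fun w => ∃ t, i < t ∧ t < j ∧ f t = w, ⟨⟨_, i + 1, by omega, by omega, rfl⟩,
      ?_, ?_⟩, ?_⟩
    · rintro w ⟨t, t0, t1, rfl⟩
      exact a.2.2.2 t t0 t1
    · rintro w x ⟨t, t0, t1, rfl⟩ aw
      by_contra hc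
      rw [not_or] at hc
      obtain ⟨k, k0, k1, rfl⟩ := h.nb_pos (i + 1) (a.2.2.2 t t0 t1) aw
      have d1 : ¬ k < j := fun e1 => hc.1 ⟨k, by omega, e1, rfl⟩
      have d2 : k ≠ j := fun e1 => hc.2 (e1 ▸ a.2.2.1)
      have hic : f (i + c) ∈ X := by rw [h.cs.per]; exact a.2.1
      have d3 : k ≠ i + c := fun e1 => hc.2 (e1 ▸ hic)
      obtain ⟨k1, k2, g1, g2, g3, g4, g5⟩ :=
        arc_ex (k := k) (l := j) (m := i + c) (by omega) (by omega) a.2.2.1 hic hc.2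
      exact hn ⟨i, j, k1, k2, t, k, a, g5, g1, g4, t0, t1, g2, g3, aw⟩
    · rintro w ⟨t, t0, t1, rfl⟩
      exact ⟨t, t0, rfl, fun u u0 u1 => a.2.2.2 u u0 (by omega)⟩
  · rintro w x ⟨t, t0, t1, rfl⟩ aw
    have := h.nbr t x t0 t1 aw
    tauto

/-- A Hamilton path from position `e` to position `g` of the four positions `o, ..., o + 3`. -/
def HP (G : SimpleGraph V) (f : ℤ → V) (o e g : ℤ) : Prop :=
  ∃ e2 e3, G.Adj (f e2) (f e3) ∧ o ≤ min e e2 ∧ max e e2 ≤ o + 3 ∧ o ≤ min e3 g ∧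
    max e3 g ≤ o + 3 ∧ (max e e2 < min e3 g ∨ max e3 g < min e e2) ∧
    max e e2 - min e e2 + (max e3 g - min e3 g) = 2

omit [Fintype V] in
lemma HP.symm {o e g : ℤ} (h : HP G f o e g) : HP G f o g e := by
  obtain ⟨e2, e3, a, b⟩ := h
  exact ⟨e3, e2, a.symm, by omega⟩

lemma ham17 (h : KS G s f 3 14 d X) (hX : ∀ x ∈ X, x = f 0 ∨ x = f 4 ∨ x = f 9)
    (h0 : f 0 ∈ X) (h4 : f 4 ∈ X) (h9 : f 9 ∈ X)
    (hT : ∀ x ∈ X, G.Adj (f 1) x ∧ G.Adj (f 3) x) {x y : V} (hx : x ∈ X) (hy : y ∈ X)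
    (hxy : x ≠ y) {e g g' e' : ℤ} (p1 : HP G f 5 e g) (p2 : HP G f 10 g' e')
    (a1 : G.Adj (f e) x) (a2 : G.Adj (f g) (f g')) (a3 : G.Adj (f e') y) : False := by
  obtain ⟨e2, e3, b1, b2⟩ := p1
  obtain ⟨g2, g3, c1, c2⟩ := p2
  have key : ∀ u v w : ℤ, f u = x → f v = y → f w ∈ X →
      tok 3 0 (0 + 14 - 1) (3 + 14) ([] ++ (false, u, u) :: [(false, e, e2), (false, e3, g),
        (false, g', g2), (false, g3, e'), (false, v, v), (true, 0, 3 - 1), (false, w, w),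
        (false, 1, 3)]) → False := by
    rintro u v w rfl rfl hw ht
    have := h.cs.short 0 [] _ _ ht
      ⟨a1.symm, b1, a2, c1, a3, (h.a0 hy).symm, h.a1 hw, (hT _ hw).1.symm, trivial⟩ (hT _ hx).2
    simp only [ttot] at this
    omega
  have tk : ∀ u v w : ℤ, (u = 0 ∧ v = 4 ∧ w = 9) ∨ (u = 0 ∧ v = 9 ∧ w = 4) ∨
      (u = 4 ∧ v = 0 ∧ w = 9) ∨ (u = 4 ∧ v = 9 ∧ w = 0) ∨ (u = 9 ∧ v = 0 ∧ w = 4) ∨
      (u = 9 ∧ v = 4 ∧ w = 0) →
      tok 3 0 (0 + 14 - 1) (3 + 14) ([] ++ (false, u, u) :: [(false, e, e2), (false, e3, g),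
        (false, g', g2), (false, g3, e'), (false, v, v), (true, 0, 3 - 1), (false, w, w),
        (false, 1, 3)]) := by
    intro u v w huvw
    have m1 : min e e2 ≤ max e e2 := min_le_max
    have m2 : min e3 g ≤ max e3 g := min_le_max
    have m3 : min g' g2 ≤ max g' g2 := min_le_max
    have m4 : min g3 e' ≤ max g3 e' := min_le_max
    have m5 : max (1 : ℤ) 3 = 3 := rfl
    have m6 : min (1 : ℤ) 3 = 1 := rfl
    have m7 : max (0 : ℤ) (3 - 1) = 2 := rfl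
    have m8 : min (0 : ℤ) (3 - 1) = 0 := rfl
    simp only [tok, tinw, tin, tdisA, tdis1, tdis, ttot, slen, List.nil_append, and_true,
      true_and, max_self, min_self, m5, m6, m7, m8]
    generalize min e e2 = n1 at *
    generalize max e e2 = n2 at *
    generalize min e3 g = n3 at *
    generalize max e3 g = n4 at *
    generalize min g' g2 = n5 at *
    generalize max g' g2 = n6 at *
    generalize min g3 e' = n7 at *
    generalize max g3 e' = n8 at *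
    rcases huvw with ⟨rfl, rfl, rfl⟩ | ⟨rfl, rfl, rfl⟩ | ⟨rfl, rfl, rfl⟩ | ⟨rfl, rfl, rfl⟩ |
      ⟨rfl, rfl, rfl⟩ | ⟨rfl, rfl, rfl⟩ <;> omega
  rcases hX x hx with e1 | e1 | e1 <;> rcases hX y hy with e2 | e2 | e2
  · exact hxy (e1.trans e2.symm)
  · exact key 0 4 9 e1.symm e2.symm h9 (tk _ _ _ (by omega))
  · exact key 0 9 4 e1.symm e2.symm h4 (tk _ _ _ (by omega))
  · exact key 4 0 9 e1.symm e2.symm h9 (tk _ _ _ (by omega))
  · exact hxy (e1.trans e2.symm)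
  · exact key 4 9 0 e1.symm e2.symm h0 (tk _ _ _ (by omega))
  · exact key 9 0 4 e1.symm e2.symm h4 (tk _ _ _ (by omega))
  · exact key 9 4 0 e1.symm e2.symm h0 (tk _ _ _ (by omega))
  · exact hxy (e1.trans e2.symm)

lemma end4 (hx : Ctx G 5) (hX : X.card = 3) {v1 v2 v3 v4 : V}
    (hn : ∀ w, G.Adj v1 w → w = v2 ∨ w = v3 ∨ w = v4 ∨ w ∈ X) :
    (∀ y, ∃ x ∈ X, x ≠ y ∧ G.Adj v1 x) ∧ (G.Adj v1 v3 ∨ G.Adj v1 v4) := by
  constructor
  · intro y
    by_contra hc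
    have := hx.deg_le v1 {v2, v3, v4, y} (fun w a => by
      simp only [Finset.mem_insert, Finset.mem_singleton]
      rcases hn w a with e | e | e | e
      · tauto
      · tauto
      · tauto
      · by_contra h2
        exact hc ⟨w, e, by tauto, a⟩)
    have := Finset.card_le_four (a := v2) (b := v3) (c := v4) (d := y)
    omega
  · by_contra hc
    rw [not_or] at hc
    have := hx.deg_le v1 (insert v2 X) (fun w a => by
      rw [Finset.mem_insert]
      rcases hn w a with e | e | e | e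
      exacts [Or.inl e, absurd (e ▸ a) hc.1, absurd (e ▸ a) hc.2, Or.inr e])
    have := Finset.card_insert_le v2 X
    omega

lemma arcHP (hx : Ctx G 5) (hX : X.card = 3) {o : ℤ}
    (h1 : ∀ w, G.Adj (f o) w → w = f (o + 1) ∨ w = f (o + 2) ∨ w = f (o + 3) ∨ w ∈ X)
    (h2 : ∀ w, G.Adj (f (o + 3)) w → w = f (o + 2) ∨ w = f (o + 1) ∨ w = f o ∨ w ∈ X)
    {g : ℤ} (g0 : o < g) (g1 : g < o + 3) :
    ∃ e, HP G f o e g ∧ ∀ y, ∃ x ∈ X, x ≠ y ∧ G.Adj (f e) x := by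
  obtain ⟨a1, a2⟩ := end4 hx hX h1
  obtain ⟨b1, b2⟩ := end4 hx hX h2
  obtain rfl | rfl : g = o + 1 ∨ g = o + 2 := by omega
  · rcases a2 with a | a
    · exact ⟨o + 3, ⟨o + 2, o, a.symm, by omega⟩, b1⟩
    · exact ⟨o, ⟨o, o + 3, a, by omega⟩, a1⟩
  · rcases b2 with a | a
    · exact ⟨o, ⟨o + 1, o + 3, a.symm, by omega⟩, a1⟩
    · exact ⟨o + 3, ⟨o + 3, o, a, by omega⟩, b1⟩

lemma final14 (hx : Ctx G 5)
    (hcl : ∀ s u1 u2, Stick G s 3 → Lk G s 3 u1 u2 →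
      S2 G s 3 u1 u2 ∨ S11 G s 3 5 u1 u2 ∨ Kh G s 3 5)
    (h : KS G s f 3 14 5 X) (h0 : f 0 ∈ X) (h4 : f 4 ∈ X) (h9 : f 9 ∈ X) {t u : ℤ}
    (t0 : 4 < t) (t1 : t < 9) (u0 : 9 < u) (u1 : u < 14) (atu : G.Adj (f t) (f u)) : False := by
  have hc : X.card = 3 := by have := h.dq; omega
  have p0 : f 14 = f 0 := h.cs.per 0
  have h14 : f 14 ∈ X := p0 ▸ h0
  have h18 : f 18 ∈ X := (show f 18 = f 4 from h.cs.per 4) ▸ h4
  have nX : ∀ k, 0 < k → k < 14 → k ≠ 4 → k ≠ 9 → f k ∉ X := by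
    intro k k0 k1 k2 k3 hk
    rcases lt_or_gt_of_ne k2 with e | e
    · have := h.gap' h0 hk k0 (by omega)
      omega
    · have := h.gap' h4 hk e (by omega)
      rcases lt_or_gt_of_ne k3 with e | e
      · have := h.gap' hk h9 e (by omega)
        omega
      · have := h.gap' h9 hk e (by omega)
        have := h.gap' hk h14 k1 (by omega)
        omega
  have hX : ∀ x ∈ X, x = f 0 ∨ x = f 4 ∨ x = f 9 := by
    intro x hx
    obtain ⟨k, k0, k1, rfl⟩ := h.pos 0 hx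
    by_contra hn
    simp only [not_or] at hn
    have a1 : k ≠ 0 := fun e => hn.1 (by rw [e])
    exact nX k (by omega) (by omega) (fun e => hn.2.1 (by rw [e])) (fun e => hn.2.2 (by rw [e])) hx
  obtain ⟨T1, T2⟩ := h.tight hx le_rfl hcl (i := 0) (j := 4)
    ⟨by omega, h0, h4, fun k k0 k1 => nX k k0 (by omega) (by omega) (by omega)⟩ rfl
  have hT : ∀ x ∈ X, G.Adj (f 1) x ∧ G.Adj (f 3) x := fun x hx =>
    ⟨T1 1 x (by omega) (by omega) hx, T1 3 x (by omega) (by omega) hx⟩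
  have nb : ∀ k w, 4 < k → k < 14 → k ≠ 9 → G.Adj (f k) w →
      w ∈ X ∨ ∃ m, 4 < m ∧ m < 14 ∧ m ≠ 9 ∧ m ≠ k ∧ f m = w := by
    intro k w k0 k1 k2 a
    have hk := nX k (by omega) k1 (by omega) k2
    obtain ⟨m, m0, m1, rfl⟩ := h.nb_pos 0 hk a
    by_cases e : f m ∈ X
    · exact Or.inl e
    have a0 : m ≠ 0 := fun e1 => e (e1 ▸ h0)
    have a4 : m ≠ 4 := fun e1 => e (e1 ▸ h4)
    have a9 : m ≠ 9 := fun e1 => e (e1 ▸ h9)
    refine Or.inr ⟨m, ?_, by omega, a9, fun e1 => a.ne (by rw [e1]), rfl⟩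
    by_contra a5
    rcases T2 m _ (by omega) (by omega) a.symm with ⟨n, n0, n1, e1⟩ | e1
    · exact h.cs.ne (by omega) (by omega) (by omega) e1
    · exact hk e1
  have P1 : HP G f 5 5 8 := ⟨5, 6, h.cs.cyc.adj 5, by omega⟩
  have P2 : HP G f 10 10 13 := ⟨10, 11, h.cs.cyc.adj 10, by omega⟩
  have R1 : ∀ k, 9 < k → k < 14 → ¬ G.Adj (f 8) (f k) := by
    intro k k0 k1 a
    have := h.ruleB (j := 9) (k' := 14) (k := k) h9 h14 (by omega) k1 (by omega) a
    obtain rfl : k = 10 := by omega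
    exact ham17 h hX h0 h4 h9 hT h4 h14 (h.cs.ne (by omega) (by omega) (by omega)) P1 P2
      (h.cs.cyc.adj 4).symm a (h.cs.cyc.adj 13)
  have R2 : ∀ k, 4 < k → k < 9 → ¬ G.Adj (f 10) (f k) := by
    intro k k0 k1 a
    have := h.ruleA (i := 9) (k' := 18) (k := k + 14) h9 h18 (by omega) (by omega) (by omega)
      (by rw [h.cs.per]; exact a)
    obtain rfl : k = 8 := by omega
    exact R1 10 (by omega) (by omega) a.symm
  have N8 : ∀ w, G.Adj (f (5 + 3)) w → w = f (5 + 2) ∨ w = f (5 + 1) ∨ w = f 5 ∨ w ∈ X := by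
    intro w a
    rcases nb 8 w (by omega) (by omega) (by omega) a with e | ⟨m, m0, m1, m2, m3, rfl⟩
    · tauto
    · have : ¬ 9 < m := fun e => R1 m e m1 a
      obtain rfl | rfl | rfl : m = 5 + 2 ∨ m = 5 + 1 ∨ m = 5 := by omega
      all_goals tauto
  have R3 : ∀ k, 9 < k → k < 14 → ¬ G.Adj (f 5) (f k) := by
    intro k k0 k1 a
    have := h.ruleA (i := 4) (k' := 9) (k := k) h4 h9 (by omega) k0 (by omega) a
    obtain rfl : k = 13 := by omega
    obtain ⟨x, x1, x2, x3⟩ := (end4 hx hc N8).1 (f 9)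
    exact ham17 h hX h0 h4 h9 hT x1 h9 x2 P1.symm P2.symm x3 a (h.cs.cyc.adj 9).symm
  have R4 : ∀ k, 4 < k → k < 9 → ¬ G.Adj (f 13) (f k) := by
    intro k k0 k1 a
    have := h.ruleB (j := 0) (k' := 9) (k := k) h0 h9 (by omega) k1 (by omega)
      (by rw [← h.cs.per]; exact a)
    obtain rfl : k = 5 := by omega
    exact R3 13 (by omega) (by omega) a.symm
  have N5 : ∀ w, G.Adj (f 5) w → w = f (5 + 1) ∨ w = f (5 + 2) ∨ w = f (5 + 3) ∨ w ∈ X := by
    intro w a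
    rcases nb 5 w (by omega) (by omega) (by omega) a with e | ⟨m, m0, m1, m2, m3, rfl⟩
    · tauto
    · have : ¬ 9 < m := fun e => R3 m e m1 a
      obtain rfl | rfl | rfl : m = 5 + 1 ∨ m = 5 + 2 ∨ m = 5 + 3 := by omega
      all_goals tauto
  have N10 : ∀ w, G.Adj (f 10) w →
      w = f (10 + 1) ∨ w = f (10 + 2) ∨ w = f (10 + 3) ∨ w ∈ X := by
    intro w a
    rcases nb 10 w (by omega) (by omega) (by omega) a with e | ⟨m, m0, m1, m2, m3, rfl⟩
    · tauto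
    · have : ¬ m < 9 := fun e => R2 m m0 e a
      obtain rfl | rfl | rfl : m = 10 + 1 ∨ m = 10 + 2 ∨ m = 10 + 3 := by omega
      all_goals tauto
  have N13 : ∀ w, G.Adj (f (10 + 3)) w →
      w = f (10 + 2) ∨ w = f (10 + 1) ∨ w = f 10 ∨ w ∈ X := by
    intro w a
    rcases nb 13 w (by omega) (by omega) (by omega) a with e | ⟨m, m0, m1, m2, m3, rfl⟩
    · tauto
    · have : ¬ m < 9 := fun e => R4 m m0 e a
      obtain rfl | rfl | rfl : m = 10 + 2 ∨ m = 10 + 1 ∨ m = 10 := by omega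
      all_goals tauto
  have a5 : t ≠ 5 := fun e => R3 u u0 u1 (e ▸ atu)
  have a8 : t ≠ 8 := fun e => R1 u u0 u1 (e ▸ atu)
  have a10 : u ≠ 10 := fun e => R2 t t0 t1 (e ▸ atu.symm)
  have a13 : u ≠ 13 := fun e => R4 t t0 t1 (e ▸ atu.symm)
  obtain ⟨e, p1, p2⟩ := arcHP hx hc N5 N8 (g := t) (by omega) (by omega)
  obtain ⟨e', q1, q2⟩ := arcHP hx hc N10 N13 (g := u) (by omega) (by omega)
  obtain ⟨y, y1, -, y3⟩ := q2 (f 0)
  obtain ⟨x, x1, x2, x3⟩ := p2 y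
  exact ham17 h hX h0 h4 h9 hT x1 y1 x2 p1 q1.symm x3 atu y3

end KH3

theorem killS11 (hx : Ctx G d) {q : ℤ}
    (hcl : ∀ s u1 u2, Stick G s q → Lk G s q u1 u2 →
      S2 G s q u1 u2 ∨ S11 G s q d u1 u2 ∨ Kh G s q d)
    {s : ℤ → V} {u1 u2 : V} (h : Stick G s q) (hl : Lk G s q u1 u2)
    (h11 : S11 G s q d u1 u2) : False := by
  obtain ⟨f, c, h⟩ := h
  obtain ⟨rfl, rfl, hn, n0, -⟩ := h11
  obtain ⟨l1, l2, l3, l4, l5⟩ := hl
  obtain rfl : c = 8 := by have := h.tot; omega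
  obtain ⟨i, -, -, rfl⟩ := (h.surj 0 u1).resolve_left l2
  obtain ⟨j, j0, j1, rfl⟩ := (h.surj i u2).resolve_left l3
  have hij : i ≠ j := fun e => l1 (by rw [e])
  have c1 : Conn G s f 3 i j := conn_of l4 l5
  have c2 : Conn G s f 3 j (i + 8) := Conn.symm (conn_of (by rwa [h.per]) l5)
  have g1 := h.gap c1 (by omega) j1
  have g2 := h.gap c2 j1 (by omega)
  obtain rfl : j = i + 4 := by omega
  refine arcs_blob hx.mnh hx.nou h.cyc h.c0 (fun x => x = f i ∨ x = f (i + 4)) ?_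
    ⟨_, Or.inl rfl⟩ ?_ (· = s 0) (s 1) ⟨⟨_, rfl⟩, ?_, ?_⟩ ?_
  · rintro x (rfl | rfl)
    exacts [⟨_, rfl⟩, ⟨_, rfl⟩]
  · rintro k (e | e)
    · have e4 := h.cyc.shift h.c0 e 4
      exact KH3.arcOK11 hcl h (conn_of (e ▸ l4) (e4 ▸ l5)) _ (fun x => by rw [e, e4])
    · have e4 := h.cyc.shift h.c0 e 4
      rw [show i + 4 + 4 = i + 8 by ring, h.per] at e4
      exact KH3.arcOK11 hcl h (Conn.symm (conn_of (e4 ▸ l4) (e ▸ l5))) _
        (fun x => by rw [e, e4, or_comm])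
  · rintro w rfl (e | e)
    exacts [h.dis _ 0 le_rfl (by omega) e.symm, h.dis _ 0 le_rfl (by omega) e.symm]
  · rintro w x rfl a
    have := n0 x a
    tauto
  · intro k
    exact h.dis k 0 le_rfl (by omega)

theorem killKh3 (hx : Ctx G d) {q : ℤ} (hq : 3 ≤ q)
    (hcl : ∀ s u1 u2, Stick G s q → Lk G s q u1 u2 →
      S2 G s q u1 u2 ∨ S11 G s q d u1 u2 ∨ Kh G s q d)
    {s : ℤ → V} (h : Stick G s q) (hk : Kh G s q d) : False := by
  obtain ⟨f, c, h⟩ := h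
  obtain ⟨X, k1, k2, k3, k4, k5⟩ := hk
  have H : KH3.KS G s f q c d X := ⟨h, k1, k2, k3, k4, k5⟩
  obtain ⟨i, j, k, l, t, u, a, b, e1, e2, t0, t1, u0, u1, atu⟩ := H.cross hx
  have g1 := H.gap a
  have g2 := H.gap b
  have n1 : j ≠ i + q + 1 := by
    intro e
    rcases (H.tight hx hq hcl a e).2 t _ t0 t1 atu with ⟨m, m0, m1, e3⟩ | e3
    · exact h.ne (by omega) (by omega) (by omega) e3
    · exact b.2.2.2 u u0 u1 e3
  have n2 : l ≠ k + q + 1 := by
    intro e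
    rcases (H.tight hx hq hcl b e).2 u _ u0 u1 atu.symm with ⟨m, m0, m1, e3⟩ | e3
    · exact h.ne (by omega) (by omega) (by omega) e3
    · exact a.2.2.2 t t0 t1 e3
  obtain ⟨s1, s2⟩ := H.sum2' hx hq a b (by omega) (by omega)
  obtain ⟨rfl, s3, rfl⟩ := s2 (by omega)
  obtain rfl : d = 5 := by omega
  obtain rfl : j = i + 5 := by omega
  obtain rfl : l = k + 5 := by omega
  by_cases e : k = i + 5
  · subst e
    refine KH3.final14 hx hcl (H.shift (i - 4)) ?_ ?_ ?_ (t := t - (i - 4)) (u := u - (i - 4))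
      (by omega) (by omega) (by omega) (by omega) (by simpa only [sub_add_cancel] using atu)
    · show f (0 + (i - 4)) ∈ X
      rw [← h.per, show 0 + (i - 4) + 14 = i + 5 + 5 by ring]
      exact b.2.2.1
    · show f (4 + (i - 4)) ∈ X
      rw [show 4 + (i - 4) = i by ring]
      exact a.2.1
    · show f (9 + (i - 4)) ∈ X
      rw [show 9 + (i - 4) = i + 5 by ring]
      exact a.2.2.1
  · have := H.gap' a.2.2.1 b.2.1 (by omega) (by omega)
    obtain rfl : k = i + 9 := by omega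
    refine KH3.final14 hx hcl (H.shift (i + 5)) ?_ ?_ ?_ (t := u - (i + 5))
      (u := t + 14 - (i + 5)) (by omega) (by omega) (by omega) (by omega)
      (by simpa only [sub_add_cancel, h.per] using atu.symm)
    · show f (0 + (i + 5)) ∈ X
      rw [zero_add]
      exact a.2.2.1
    · show f (4 + (i + 5)) ∈ X
      rw [show 4 + (i + 5) = i + 9 by ring]
      exact b.2.1
    · show f (9 + (i + 5)) ∈ X
      rw [show 9 + (i + 5) = i + 9 + 5 by ring]
      exact b.2.2.1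

end Pool.Agent.P.MP_422cad_co
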