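import Pool.Agent.P.MP_422cad_co.CS

set_option autoImplicit false
set_option linter.unusedSimpArgs false

namespace Pool.Agent.P.MP_422cad_co

open SimpleGraph Classical

variable {V : Type} [Fintype V] {G : SimpleGraph V} {d : ℤ}

namespace KS2

variable {s f : ℤ → V} {q c a : ℤ}

lemma cs_sh (h : CS G s f q c) (k : ℤ) : CS G s (fun i => f (k + i)) q c :=
  ⟨h.stick, ⟨fun i => by simpa only [add_assoc] using h.cyc.adj (k + i),
    fun i => by simpa only [add_assoc] using h.cyc.per (k + i),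
    fun i j h1 h2 => h.cyc.inj _ _ (by omega) (by omega)⟩, fun i => h.dis _, h.tot, h.q2, h.c0,
    h.min⟩

/-- The configuration: the stick is attached only at `f 0` and `f a`. -/
structure Cf (G : SimpleGraph V) (d : ℤ) (s f : ℤ → V) (q c a : ℤ) : Prop where
  hx : Ctx G d
  cl : ∀ s u1 u2, Stick G s q → Lk G s q u1 u2 → S2 G s q u1 u2
  cs : CS G s f q c
  a0 : 0 < a
  ac : a < c
  e1 : G.Adj (s 0) (f 0)
  e2 : G.Adj (s (q - 1)) (f a)
  s2 : S2 G s q (f 0) (f a)

omit [Fintype V] in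
lemma s2_rev {u1 u2 : V} (h : S2 G s q u1 u2) : S2 G (fun t => s (q - 1 - t)) q u2 u1 := by
  intro t w t0 t1 hw
  rw [inQ_rev]
  have := h (q - 1 - t) w (by omega) (by omega) hw
  tauto

lemma Cf.mir (h : Cf G d s f q c a) :
    Cf G d (fun t => s (q - 1 - t)) (fun i => f (a - i)) q c a := by
  refine ⟨h.hx, h.cl, ?_, h.a0, h.ac, by simpa using h.e2, by simpa using h.e1, ?_⟩
  · simpa only [sub_eq_add_neg] using (cs_sh h.cs a).revC.revS
  · simpa using s2_rev h.s2

lemma Cf.swap (h : Cf G d s f q c a) :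
    Cf G d (fun t => s (q - 1 - t)) (fun i => f (a + i)) q c (c - a) := by
  have e : f (a + (c - a)) = f 0 := by rw [← h.cs.per 0]; congr 1; ring
  have := h.a0
  have := h.ac
  refine ⟨h.hx, h.cl, (cs_sh h.cs a).revS, by omega, by omega, by simpa using h.e2, ?_, ?_⟩
  · simp only [e]; simpa using h.e1
  · simp only [e]; simpa using s2_rev h.s2

lemma Cf.eqf (h : Cf G d s f q c a) {i j : ℤ} (e : i = j ∨ i = j + c ∨ j = i + c) :
    f i = f j := by
  rcases e with rfl | rfl | rfl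
  exacts [rfl, h.cs.per _, (h.cs.per _).symm]

lemma Cf.tr (h : Cf G d s f q c a) {i j i' j' : ℤ} (A : G.Adj (f i) (f j))
    (e1 : i = i' ∨ i = i' + c ∨ i' = i + c) (e2 : j = j' ∨ j = j' + c ∨ j' = j + c) :
    G.Adj (f i') (f j') := by
  rwa [← h.eqf e1, ← h.eqf e2]

lemma Cf.up (h : Cf G d s f q c a) {i j : ℤ} (e : i + 1 = j ∨ i + 1 = j + c ∨ j = i + 1 + c) :
    G.Adj (f i) (f j) := h.tr (h.cs.cyc.adj i) (Or.inl rfl) e

lemma Cf.dn (h : Cf G d s f q c a) {i j : ℤ} (e : j + 1 = i ∨ j + 1 = i + c ∨ i = j + 1 + c) :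
    G.Adj (f i) (f j) := (h.up e).symm

lemma Cf.ec (h : Cf G d s f q c a) : G.Adj (f c) (s 0) := by
  rw [h.eqf (i := c) (j := 0) (by omega)]; exact h.e1.symm

lemma Cf.gapA (h : Cf G d s f q c a) : q + 1 ≤ a := by
  have := h.cs.gap (conn_of h.e1 h.e2) h.a0 (by have := h.ac; omega)
  omega

lemma Cf.gapB (h : Cf G d s f q c a) : q + 1 ≤ c - a := h.swap.gapA

/-- Vertices inside the arcs have no neighbour on the stick. -/
lemma Cf.nb (h : Cf G d s f q c a) {i : ℤ} (hi : 0 < i ∧ i < c ∧ i ≠ a) (w0 : ℤ) {w : V}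
    (A : G.Adj (f i) w) : ∃ k, w0 ≤ k ∧ k < w0 + c ∧ f k = w := by
  have := h.a0
  have := h.ac
  rcases h.cs.surj w0 w with ⟨t, t0, t1, rfl⟩ | e
  · rcases h.s2 t _ t0 t1 A.symm with e | e | e
    · exact absurd e (h.cs.notQ i)
    · exact absurd e (h.cs.ne (by omega) (by omega) (by omega))
    · exact absurd e (h.cs.ne (by omega) (by omega) (by omega))
  · exact e

omit [Fintype V] in
lemma card3 (f : ℤ → V) (lo hi m1 m2 m3 : ℤ)
    (hm : lo ≤ m1 ∧ m1 ≤ hi ∧ lo ≤ m2 ∧ m2 ≤ hi ∧ lo ≤ m3 ∧ m3 ≤ hi ∧ m1 ≠ m2 ∧ m1 ≠ m3 ∧ m2 ≠ m3) :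
    ((((((Finset.Icc lo hi).erase m1).erase m2).erase m3).image f).card : ℤ) ≤ hi - lo - 2 := by
  have h1 : ((((Finset.Icc lo hi).erase m1).erase m2).erase m3).card = (hi + 1 - lo).toNat - 1 - 1 - 1 := by
    rw [Finset.card_erase_of_mem, Finset.card_erase_of_mem, Finset.card_erase_of_mem, Int.card_Icc]
    all_goals simp only [Finset.mem_erase, Finset.mem_Icc]; omega
  have h2 : (((((Finset.Icc lo hi).erase m1).erase m2).erase m3).image f).card ≤ _ :=
    Finset.card_image_le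
  omega

/-- Degree count for a vertex inside an arc. -/
lemma Cf.deg3 (h : Cf G d s f q c a) {i : ℤ} (hi' : 0 < i ∧ i < c ∧ i ≠ a) (w0 lo hi m1 m2 m3 : ℤ)
    (hm : lo ≤ m1 ∧ m1 ≤ hi ∧ lo ≤ m2 ∧ m2 ≤ hi ∧ lo ≤ m3 ∧ m3 ≤ hi ∧ m1 ≠ m2 ∧ m1 ≠ m3 ∧ m2 ≠ m3)
    (hk : ∀ k, w0 ≤ k → k < w0 + c → G.Adj (f i) (f k) →
      lo ≤ k ∧ k ≤ hi ∧ k ≠ m1 ∧ k ≠ m2 ∧ k ≠ m3) : d ≤ hi - lo - 2 := by
  refine (h.hx.deg_le (f i) _ fun x A => ?_).trans (card3 f lo hi m1 m2 m3 hm)
  obtain ⟨k, k0, k1, rfl⟩ := h.nb hi' w0 A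
  have := hk k k0 k1 A
  exact Finset.mem_image.2 ⟨k, by simp only [Finset.mem_erase, Finset.mem_Icc]; omega, rfl⟩

/-- Count of the non-neighbours of `f 0` or `f a`. -/
lemma Cf.non3 (h : Cf G d s f q c a) (hd : d = q + 1) {u : ℤ} (hu : u = 0 ∨ u = a)
    (lo hi m1 m2 m3 : ℤ)
    (hm : lo ≤ m1 ∧ m1 ≤ hi ∧ lo ≤ m2 ∧ m2 ≤ hi ∧ lo ≤ m3 ∧ m3 ≤ hi ∧ m1 ≠ m2 ∧ m1 ≠ m3 ∧ m2 ≠ m3)
    (hk : ∀ k, 0 ≤ k → k < c → k ≠ u → ¬ G.Adj (f u) (f k) →
      lo ≤ k ∧ k ≤ hi ∧ k ≠ m1 ∧ k ≠ m2 ∧ k ≠ m3) : d ≤ hi - lo - 2 := by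
  refine (nonnb_card h.hx.mnh h.hx.nou h.hx.deg (f u) _ fun x hx A => ?_).trans
    (card3 f lo hi m1 m2 m3 hm)
  rcases h.cs.surj 0 x with ⟨t, t0, t1, rfl⟩ | ⟨k, k0, k1, rfl⟩
  · refine absurd (h.s2.full h.hx (by omega) t t0 t1 _ (Or.inr ?_) hx.symm).symm A
    rcases hu with rfl | rfl
    exacts [Or.inl rfl, Or.inr rfl]
  · have := hk k k0 (by omega) (fun e => hx (by rw [e])) A
    exact Finset.mem_image.2 ⟨k, by simp only [Finset.mem_erase, Finset.mem_Icc]; omega, rfl⟩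

lemma Cf.c12 (h : Cf G d s f q c a) : G.Adj (f 0) (f a) := by
  have := h.a0
  have := h.ac
  have := h.gapA
  have := h.cs.q2
  refine cut_adj h.hx.mnh (InQ s q) (h.cs.ne (by omega) (by omega) (by omega)) (h.cs.notQ _)
    (h.cs.notQ _) ⟨s 0, 0, le_rfl, by omega, rfl⟩
    ⟨f 1, h.cs.notQ _, h.cs.ne (by omega) (by omega) (by omega),
      h.cs.ne (by omega) (by omega) (by omega)⟩ ?_
  rintro w x ⟨t, t0, t1, rfl⟩ A
  exact h.s2 t x t0 t1 A

/-- What follows when an arc of the cycle is again a stick. -/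
lemma Cf.arc (h : Cf G d s f q c a) (b : ℤ) (hS : Stick G (fun t => f (b + t)) q) :
    (∀ i k, b ≤ i → i < b + q → (b + q < k ∧ k < b - 1 + c ∨ b + q - c < k ∧ k < b - 1) →
      ¬ G.Adj (f i) (f k)) ∧
    (d = q + 1 → ∀ i k, b ≤ i → i < b + q → b - 1 ≤ k → k ≤ b + q → k ≠ i → G.Adj (f i) (f k)) ∧
    G.Adj (f (b - 1)) (f (b + q)) := by
  have := h.gapA
  have := h.gapB
  have := h.cs.q2
  have n1 : ¬ InQ (fun t => f (b + t)) q (f (b - 1)) := fun ⟨t, t0, t1, e⟩ =>
    h.cs.ne (by omega) (by omega) (by omega) e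
  have n2 : ¬ InQ (fun t => f (b + t)) q (f (b + q)) := fun ⟨t, t0, t1, e⟩ =>
    h.cs.ne (by omega) (by omega) (by omega) e
  have n3 : f (b - 1) ≠ f (b + q) := h.cs.ne (by omega) (by omega) (by omega)
  have h2 := h.cl _ (f (b - 1)) (f (b + q)) hS
    ⟨n3, n1, n2, h.dn (by omega), h.up (by omega)⟩
  have h3 : ∀ i k, b ≤ i → i < b + q → b + q < k → k < b - 1 + c → ¬ G.Adj (f i) (f k) := by
    intro i k i0 i1 k0 k1 A
    rcases h2 (i - b) (f k) (by omega) (by omega) (by simpa using A) with ⟨t, t0, t1, e⟩ | e | e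
    all_goals exact h.cs.ne (by omega) (by omega) (by omega) e
  refine ⟨fun i k i0 i1 hk A => ?_, fun hd i k i0 i1 k0 k1 hk => ?_, ?_⟩
  · rcases hk with hk | hk
    · exact h3 i k i0 i1 hk.1 hk.2 A
    · exact h3 i (k + c) i0 i1 (by omega) (by omega) (h.tr A (by omega) (by omega))
  · have := h2.full h.hx (by omega) (i - b) (by omega) (by omega) (f k) (by
      by_cases e1 : k = b - 1
      · exact Or.inr (Or.inl (by rw [e1]))
      by_cases e2 : k = b + q
      · exact Or.inr (Or.inr (by rw [e2]))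
      exact Or.inl ⟨k - b, by omega, by omega, by simp⟩)
      (h.cs.ne (by omega) (by omega) (by omega))
    simpa using this
  · refine cut_adj h.hx.mnh _ n3 n1 n2 ⟨f b, 0, le_rfl, by omega, by simp⟩
      ⟨s 0, fun ⟨t, t0, t1, e⟩ => h.cs.dis _ 0 le_rfl (by omega) e,
        (h.cs.dis _ 0 le_rfl (by omega)).symm, (h.cs.dis _ 0 le_rfl (by omega)).symm⟩ ?_
    rintro w x ⟨t, t0, t1, rfl⟩ A
    exact h2 t x t0 t1 A

/-- The vertices at positions `lo, ..., hi`. -/
def Seg (f : ℤ → V) (lo hi : ℤ) (w : V) : Prop := ∃ k, lo ≤ k ∧ k ≤ hi ∧ f k = w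

lemma arc_tr (h : CS G s f q c) {S : V → Prop} {i j : ℤ} (e : f i = f j)
    (hA : ArcOK G f S j) : ArcOK G f S i := by
  have key : ∀ w, Arc f S j w → Arc f S i w := by
    rintro w ⟨k, k0, rfl, k1⟩
    refine ⟨i + (k - j), by omega, ?_, fun t t0 t1 => ?_⟩
    · rw [h.cyc.shift h.c0 e]; congr 1; ring
    · have := k1 (j + (t - i)) (by omega) (by omega)
      rwa [← h.cyc.shift h.c0 e, show i + (t - i) = t by ring] at this
  rcases hA with ⟨B, b1, b2⟩ | ⟨B1, B2, c1, c2, b1, b2, b3, b4, b5⟩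
  · exact Or.inl ⟨B, b1, fun w hw => key w (b2 w hw)⟩
  · exact Or.inr ⟨B1, B2, c1, c2, b1, b2, b3, fun w hw => key w (b4 w hw),
      fun w hw => key w (b5 w hw)⟩

lemma Cf.arcA (h : Cf G d s f q c a)
    (hn : ∀ i k, 0 < i → i < a → a < k → k < c → ¬ G.Adj (f i) (f k)) :
    ArcOK G f (fun x => x = f 0 ∨ x = f a) 0 := by
  have := h.gapA
  have := h.gapB
  have := h.cs.q2
  have hS : ∀ t, 0 < t → t < a → ¬ (f t = f 0 ∨ f t = f a) := by
    rintro t t0 t1 (e | e) <;> exact h.cs.ne (by omega) (by omega) (by omega) e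
  refine Or.inl ⟨Seg f 1 (a - 1), ⟨⟨_, 1, le_rfl, by omega, rfl⟩, ?_, ?_⟩, ?_⟩
  · rintro w ⟨k, k0, k1, rfl⟩
    exact hS k (by omega) (by omega)
  · rintro w x ⟨k, k0, k1, rfl⟩ A
    obtain ⟨l, l0, l1, rfl⟩ := h.nb (by omega) 0 A
    by_cases e1 : l = 0
    · exact Or.inr (Or.inl (by rw [e1]))
    by_cases e2 : l = a
    · exact Or.inr (Or.inr (by rw [e2]))
    by_cases e3 : l < a
    · exact Or.inl ⟨l, by omega, by omega, rfl⟩
    exact absurd A (hn k l (by omega) (by omega) (by omega) (by omega))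
  · rintro w ⟨k, k0, k1, rfl⟩
    exact ⟨k, by omega, rfl, fun t t0 t1 => hS t t0 (by omega)⟩

/-- There is an edge between the two arcs. -/
lemma Cf.cross (h : Cf G d s f q c a)
    (hn : ∀ i k, 0 < i → i < a → a < k → k < c → ¬ G.Adj (f i) (f k)) : False := by
  have := h.cs.q2
  have := h.a0
  have := h.ac
  have h1 := h.arcA hn
  have h2 := h.swap.arcA (fun i k i0 i1 k0 k1 A =>
    hn (a + k - c) (a + i) (by omega) (by omega) (by omega) (by omega)
      (h.tr (G.adj_symm A) (by omega) (by omega)))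
  have e : f (a + (c - a)) = f 0 := h.eqf (by omega)
  have h3 : ArcOK G f (fun x => x = f 0 ∨ x = f a) a := by
    simp only [e, add_zero, or_comm (a := _ = f a)] at h2
    have key : ∀ w, Arc (fun i => f (a + i)) (fun x => x = f 0 ∨ x = f a) 0 w →
        Arc f (fun x => x = f 0 ∨ x = f a) a w := by
      rintro w ⟨k, k0, rfl, k1⟩
      refine ⟨a + k, by omega, rfl, fun t t0 t1 => ?_⟩
      simpa using k1 (t - a) (by omega) (by omega)
    rcases h2 with ⟨B, b1, b2⟩ | ⟨B1, B2, c1, c2, b1, b2, b3, b4, b5⟩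
    · exact Or.inl ⟨B, b1, fun w hw => key w (b2 w hw)⟩
    · exact Or.inr ⟨B1, B2, c1, c2, b1, b2, b3, fun w hw => key w (b4 w hw),
        fun w hw => key w (b5 w hw)⟩
  refine arcs_blob h.hx.mnh h.hx.nou h.cs.cyc h.cs.c0 (fun x => x = f 0 ∨ x = f a) ?_
    ⟨_, Or.inl rfl⟩ ?_ (InQ s q) (f 0) ⟨⟨_, 0, le_rfl, by omega, rfl⟩, ?_, ?_⟩ h.cs.notQ
  · rintro x (rfl | rfl) <;> exact ⟨_, rfl⟩
  · rintro i (e | e)
    exacts [arc_tr h.cs e h1, arc_tr h.cs e h3]
  · rintro w hw (rfl | rfl) <;> exact h.cs.notQ _ hw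
  · rintro w x ⟨t, t0, t1, rfl⟩ A
    have := h.s2 t x t0 t1 A
    tauto

lemma Cf.r1 (h : Cf G d s f q c a) {k : ℤ} (k0 : a < k) (k1 : k < c) (A : G.Adj (f 1) (f k)) :
    q ≤ k - a - 1 := by
  have := h.gapA
  have := h.cs.q2
  by_cases e : k = a + 1
  · have := h.cs.short 1 [] (false, k, c) [(true, 0, q - 1), (false, a, 1)]
      (by simp only [tok, tinw, tin, tdisA, tdis1, tdis, ttot, slen, List.nil_append,
        List.cons_append, and_true, true_and]; omega)
      ⟨h.ec, h.e2, trivial⟩ A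
    simp only [ttot] at this
    omega
  · have := h.cs.short 1 [(false, a + 1, k - 1)] (false, k, c) [(true, 0, q - 1), (false, a, 1)]
      (by simp only [tok, tinw, tin, tdisA, tdis1, tdis, ttot, slen, List.nil_append,
        List.cons_append, and_true, true_and]; omega)
      ⟨h.up (by dsimp only; omega), h.ec, h.e2, trivial⟩ A
    simp only [ttot, slen] at this
    omega

lemma Cf.r2 (h : Cf G d s f q c a) {k : ℤ} (k0 : a < k) (k1 : k < c)
    (A : G.Adj (f (a - 1)) (f k)) : q ≤ c - k - 1 := by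
  have := h.mir.r1 (k := c + a - k) (by omega) (by omega) (h.tr A (by omega) (by omega))
  omega

lemma Cf.r3 (h : Cf G d s f q c a) {i : ℤ} (i0 : 0 < i) (i1 : i < a)
    (A : G.Adj (f (a + 1)) (f i)) : q ≤ i - 1 := by
  have := h.swap.r1 (k := c - a + i) (by omega) (by omega) (h.tr A (by omega) (by omega))
  omega

lemma Cf.r4 (h : Cf G d s f q c a) {i : ℤ} (i0 : 0 < i) (i1 : i < a)
    (A : G.Adj (f (c - 1)) (f i)) : q ≤ a - i - 1 := by
  have := h.swap.r2 (k := c - a + i) (by omega) (by omega) (h.tr A (by omega) (by omega))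
  omega

lemma Cf.tight (h : Cf G d s f q c a) (ha : a = q + 1) : False := by
  have := h.gapB
  have := h.cs.q2
  have hS := h.cs.stick_up 1 1 (false, a, c) [(true, 0, q - 1)]
      (by simp only [tok, tinw, tin, tdisA, tdis1, tdis, ttot, slen, List.nil_append,
        List.cons_append, and_true, true_and]; omega)
      ⟨h.up (by dsimp only; omega), h.ec, trivial⟩ h.e2
  exact h.cross fun i k i0 i1 k0 k1 => (h.arc 1 hS).1 i k (by omega) (by omega) (by omega)

/-- The remaining numerical case. -/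
structure Cg (G : SimpleGraph V) (d : ℤ) (s f : ℤ → V) (q c a : ℤ) : Prop
    extends Cf G d s f q c a where
  hd : d = q + 1
  ha : a = q + 2
  c1 : 2 * q + 4 ≤ c
  c2 : c ≤ 2 * q + 5

lemma Cg.mirr (h : Cg G d s f q c a) :
    Cg G d (fun t => s (q - 1 - t)) (fun i => f (a - i)) q c a :=
  ⟨h.toCf.mir, h.hd, h.ha, h.c1, h.c2⟩

lemma Cg.step1 (g : Cg G d s f q c a) : ¬ G.Adj (f 1) (f (c - 1)) := by
  intro A
  have h := g.toCf
  have hd := g.hd
  have ha := g.ha
  have hc1 := g.c1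
  have hc2 := g.c2
  have hq := h.cs.q2
  have hS := h.cs.stick_up 0 2 (false, a, c - 1) [(false, 1, 0), (true, 0, q - 1)]
      (by simp only [tok, tinw, tin, tdisA, tdis1, tdis, ttot, slen, List.nil_append,
        List.cons_append, and_true, true_and]; omega)
      ⟨h.up (by dsimp only; omega), A.symm, h.e1.symm, trivial⟩ h.e2
  obtain ⟨n1, n2, n3⟩ := h.arc 2 hS
  have n4 : ∀ k, 0 ≤ k → k ≠ a → ¬ G.Adj (f a) (f k) → a + 2 ≤ k := by
    intro k k0 k1 B
    by_contra k2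
    apply B
    by_cases e0 : k = 0
    · rw [e0]; exact h.c12.symm
    by_cases e1 : k = 1
    · exact h.tr n3.symm (by omega) (by omega)
    by_cases e2 : k = a + 1
    · exact h.up (by omega)
    exact (n2 hd k a (by omega) (by omega) (by omega) (by omega) (by omega)).symm
  have hc : c = 2 * q + 5 := by
    have := h.non3 hd (Or.inr rfl) (a - 1) (c - 1) (a - 1) a (a + 1) (by omega)
      (fun k k0 k1 k2 B => by have := n4 k k0 k2 B; omega)
    omega
  have n5 : ∀ k, a + 2 ≤ k → k < c → ¬ G.Adj (f a) (f k) := by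
    intro k k0 k1 B
    have := h.non3 hd (Or.inr rfl) a (c - 1) a (a + 1) k (by omega)
      (fun l l0 l1 l2 C => by
        have := n4 l l0 l2 C
        have : l ≠ k := fun e => C (e ▸ B)
        omega)
    omega
  have n6 : ¬ G.Adj (f (a + 1)) (f 0) := fun B => by
    have := h.cs.short 0 [] (false, 0, 0) [(true, 0, q - 1), (false, a, 1), (false, c - 1, a + 1)]
      (by simp only [tok, tinw, tin, tdisA, tdis1, tdis, ttot, slen, List.nil_append,
        List.cons_append, and_true, true_and]; omega)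
      ⟨h.e1.symm, h.e2, A, trivial⟩ B
    simp only [ttot] at this
    omega
  have n7 : ¬ G.Adj (f (a + 1)) (f 1) := fun B => by
    have := h.r1 (by omega) (by omega) B.symm
    omega
  have hp : ∀ k p r, a + 2 ≤ k → k ≤ c - 2 → (p = k - 1 ∧ r = a + 1 ∨ p = a + 1 ∧ r = k - 1) →
      G.Adj (f k) (f p) → G.Adj (f r) (f (k + 1)) → (G.Adj (f k) (f 0) ∨ G.Adj (f k) (f 1)) →
      False := by
    rintro k p r k0 k1 hpr B C (D | D)
    · have := h.cs.short 0 [] (false, 0, 0) [(true, 0, q - 1), (false, a, 1),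
        (false, c - 1, k + 1), (false, r, p), (false, k, k)]
        (by simp only [tok, tinw, tin, tdisA, tdis1, tdis, ttot, slen, List.nil_append,
        List.cons_append, and_true, true_and]; omega)
        ⟨h.e1.symm, h.e2, A, C.symm, B.symm, trivial⟩ D
      simp only [ttot] at this
      omega
    · have := h.cs.short 0 [] (false, 0, 0) [(true, 0, q - 1), (false, a, 1),
        (false, k, k), (false, p, r), (false, k + 1, c - 1)]
        (by simp only [tok, tinw, tin, tdisA, tdis1, tdis, ttot, slen, List.nil_append,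
        List.cons_append, and_true, true_and]; omega)
        ⟨h.e1.symm, h.e2, D.symm, B, C, trivial⟩ (h.up (i := c - 1) (j := 0) (by omega))
      simp only [ttot] at this
      omega
  -- neighbours of a vertex of the second arc that misses `f 0` and `f 1`
  have n8 : ∀ z k, a < z → z < c → ¬ (G.Adj (f z) (f 0) ∨ G.Adj (f z) (f 1)) → 0 ≤ k →
      G.Adj (f z) (f k) → a ≤ k ∧ k ≠ z := by
    intro z k z0 z1 hz k0 B
    have : k ≠ 0 := fun e => hz (Or.inl (e ▸ B))
    have : k ≠ 1 := fun e => hz (Or.inr (e ▸ B))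
    have : k ≠ z := fun e => G.irrefl (e ▸ B)
    by_contra hk
    exact n1 k z (by omega) (by omega) (by omega) B.symm
  have n9 : ∀ m1 m2, a + 2 ≤ m1 → m1 < c → a + 2 ≤ m2 → m2 < c → ¬ G.Adj (f (a + 1)) (f m1) →
      ¬ G.Adj (f (a + 1)) (f m2) → m1 = m2 := by
    intro m1 m2 a1 a2 a3 a4 B C
    by_contra e
    have := h.deg3 (i := a + 1) (by omega) 0 a (c - 1) (a + 1) m1 m2 (by omega)
      (fun k k0 k1 D => by
        have := n8 (a + 1) k (by omega) (by omega) (by tauto) k0 D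
        have : k ≠ m1 := fun e => B (e ▸ D)
        have : k ≠ m2 := fun e => C (e ▸ D)
        omega)
    omega
  have n10 : ∀ k, a + 2 ≤ k → k ≤ c - 2 → (G.Adj (f k) (f 0) ∨ G.Adj (f k) (f 1)) →
      ¬ G.Adj (f (a + 1)) (f (k + 1)) := fun k k0 k1 H B =>
    hp k (k - 1) (a + 1) k0 k1 (by omega) (h.dn (by omega)) B H
  have n11 : ∀ k, a + 1 ≤ k → k ≤ c - 2 → ¬ (G.Adj (f k) (f 0) ∨ G.Adj (f k) (f 1)) := by
    intro k k0 k1 H
    have k2 : k ≠ a + 1 := by rintro rfl; tauto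
    have M := n10 k (by omega) k1 H
    have U : ∀ z, a + 2 ≤ z → z ≤ c - 2 → z ≠ k → ¬ (G.Adj (f z) (f 0) ∨ G.Adj (f z) (f 1)) :=
      fun z z0 z1 z2 H' => by
        have := n9 (z + 1) (k + 1) (by omega) (by omega) (by omega) (by omega) (n10 z z0 z1 H') M
        omega
    by_cases e : k = c - 2
    · have B : G.Adj (f (k - 1)) (f (k + 1)) := by
        by_contra B
        have := h.deg3 (i := k - 1) (by omega) 0 a (c - 1) a (k - 1) (k + 1) (by omega)
          (fun l l0 l1 D => by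
            have := n8 (k - 1) l (by omega) (by omega) (U _ (by omega) (by omega) (by omega)) l0 D
            have : l ≠ a := fun e => n5 (k - 1) (by omega) (by omega) (e ▸ D.symm)
            have : l ≠ k + 1 := fun e => B (e ▸ D)
            omega)
        omega
      have C : G.Adj (f (a + 1)) (f k) := by
        by_contra C
        have := n9 k (k + 1) (by omega) (by omega) (by omega) (by omega) C M
        omega
      exact hp k (a + 1) (k - 1) (by omega) k1 (by omega) C.symm B H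
    · have := h.deg3 (i := k + 1) (by omega) 0 a (c - 1) a (a + 1) (k + 1) (by omega)
        (fun l l0 l1 D => by
          have := n8 (k + 1) l (by omega) (by omega) (U _ (by omega) (by omega) (by omega)) l0 D
          have : l ≠ a := fun e => n5 (k + 1) (by omega) (by omega) (e ▸ D.symm)
          have : l ≠ a + 1 := fun e => M (e ▸ D.symm)
          omega)
      omega
  have hA : ArcOK G f (fun x => x = f a) a := by
    have hn : ∀ t, a < t → t < a + c → ¬ f t = f a := fun t t0 t1 =>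
      h.cs.ne (by omega) (by omega) (by omega)
    refine Or.inr ⟨Seg f (a + 1) (c - 2), Seg f 2 (a - 1), f (c - 1), f 1,
      ⟨⟨_, a + 1, le_rfl, by omega, rfl⟩, ?_, ?_⟩, ⟨⟨_, 2, le_rfl, by omega, rfl⟩, ?_, ?_⟩,
      ?_, ?_, ?_⟩
    · rintro w ⟨k, k0, k1, rfl⟩
      exact hn k (by omega) (by omega)
    · rintro w x ⟨k, k0, k1, rfl⟩ B
      obtain ⟨l, l0, l1, rfl⟩ := h.nb (by omega) 0 B
      have := n8 k l (by omega) (by omega) (n11 k k0 k1) l0 B
      by_cases e1 : l = a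
      · exact Or.inr (Or.inl (by rw [e1]))
      by_cases e2 : l = c - 1
      · exact Or.inr (Or.inr (by rw [e2]))
      exact Or.inl ⟨l, by omega, by omega, rfl⟩
    · rintro w ⟨k, k0, k1, rfl⟩
      exact h.cs.ne (by omega) (by omega) (by omega)
    · rintro w x ⟨k, k0, k1, rfl⟩ B
      obtain ⟨l, l0, l1, rfl⟩ := h.nb (by omega) 1 B
      have : l ≤ a := by
        by_contra e
        exact n1 k l (by omega) (by omega) (by omega) B
      by_cases e1 : l = a
      · exact Or.inr (Or.inl (by rw [e1]))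
      by_cases e2 : l = 1
      · exact Or.inr (Or.inr (by rw [e2]))
      exact Or.inl ⟨l, by omega, by omega, rfl⟩
    · rintro w ⟨k, k0, k1, rfl⟩ ⟨l, l0, l1, e⟩
      exact h.cs.ne (by omega) (by omega) (by omega) e
    · rintro w ⟨k, k0, k1, rfl⟩
      exact ⟨k, by omega, rfl, fun t t0 t1 => hn t t0 (by omega)⟩
    · rintro w ⟨k, k0, k1, rfl⟩
      exact ⟨k + c, by omega, h.cs.per k, fun t t0 t1 => hn t t0 (by omega)⟩
  refine arcs_blob h.hx.mnh h.hx.nou h.cs.cyc h.cs.c0 (fun x => x = f a) ?_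
    ⟨_, rfl⟩ (fun i e => arc_tr h.cs e hA) (InQ s q) (f 0)
    ⟨⟨_, 0, le_rfl, by omega, rfl⟩, ?_, ?_⟩ h.cs.notQ
  · rintro x rfl; exact ⟨_, rfl⟩
  · rintro w hw rfl; exact h.cs.notQ _ hw
  · rintro w x ⟨t, t0, t1, rfl⟩ B
    have := h.s2 t x t0 t1 B
    tauto

lemma Cg.step2 (g : Cg G d s f q c a) (hc : c = 2 * q + 5) : ¬ G.Adj (f 1) (f (c - 2)) := by
  intro A
  have h := g.toCf
  have hd := g.hd
  have ha := g.ha
  have hq := h.cs.q2
  have hS := h.cs.stick_up 1 (a + 1) (false, c - 2, c) [(true, 0, q - 1), (false, a, 1)]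
      (by simp only [tok, tinw, tin, tdisA, tdis1, tdis, ttot, slen, List.nil_append,
        List.cons_append, and_true, true_and]; omega)
      ⟨h.up (by dsimp only; omega), h.ec, h.e2, trivial⟩ A
  obtain ⟨n1, n2, n3⟩ := h.arc (a + 1) hS
  have B : G.Adj (f (c - 1)) (f a) := by
    by_contra B
    have := h.deg3 (i := c - 1) (by omega) 1 (c - 4) c (c - 4) (c - 3) (c - 1) (by omega)
      (fun k k0 k1 D => by
        have : k ≠ a := fun e => B (e ▸ D)
        have : k ≠ 1 := fun e => g.step1 (e ▸ D.symm)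
        have : k ≠ c - 1 := fun e => G.irrefl (e ▸ D)
        have : ¬ k < a := fun e => by have := h.r4 (by omega) e D; omega
        have : ¬ k < c - 2 := fun e => n1 k (c - 1) (by omega) (by omega) (by omega) D.symm
        omega)
    omega
  have := h.non3 hd (Or.inr rfl) 1 (a + 1) (a - 1) a (a + 1) (by omega) (fun k k0 k1 k2 C => by
    have : k ≠ 0 := fun e => C (e ▸ h.c12.symm)
    have : k ≠ a - 1 := fun e => C (h.dn (by omega))
    have : k ≠ c - 1 := fun e => C (e ▸ B.symm)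
    have : k ≠ c - 2 := fun e => C (h.tr n3 (by omega) (by omega))
    have : ¬ a < k := fun e =>
      C (n2 hd k a (by omega) (by omega) (by omega) (by omega) (by omega)).symm
    omega)
  omega

lemma Cg.x1 (g : Cg G d s f q c a) {k : ℤ} (k0 : a < k) (k1 : k < c) : ¬ G.Adj (f 1) (f k) := by
  intro A
  have := g.toCf.r1 k0 k1 A
  have ha := g.ha
  have hc1 := g.c1
  have hc2 := g.c2
  by_cases e : k = c - 1
  · exact g.step1 (e ▸ A)
  · exact g.step2 (by omega) (g.toCf.tr A (by omega) (by omega))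

lemma Cg.xd (g : Cg G d s f q c a) {k : ℤ} (k0 : a < k) (k1 : k < c) :
    ¬ G.Adj (f (a - 1)) (f k) := fun A =>
  g.mirr.x1 (k := c + a - k) (by omega) (by omega) (g.toCf.tr A (by omega) (by omega))

lemma Cg.y1 (g : Cg G d s f q c a) {i : ℤ} (i0 : 0 < i) (i1 : i < a) :
    ¬ G.Adj (f (a + 1)) (f i) := fun A => by
  have := g.toCf.r3 i0 i1 A
  have ha := g.ha
  have hc1 := g.c1
  exact g.xd (k := a + 1) (by omega) (by omega) (g.toCf.tr A.symm (by omega) (by omega))

lemma Cg.yb (g : Cg G d s f q c a) {i : ℤ} (i0 : 0 < i) (i1 : i < a) :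
    ¬ G.Adj (f (c - 1)) (f i) := fun A => by
  have := g.toCf.r4 i0 i1 A
  have ha := g.ha
  have hc1 := g.c1
  exact g.x1 (k := c - 1) (by omega) (by omega) (g.toCf.tr A.symm (by omega) (by omega))

lemma Cg.rng (g : Cg G d s f q c a) {r k : ℤ} (r0 : 0 < r) (r1 : r < a) (k0 : a < k) (k1 : k < c)
    (A : G.Adj (f r) (f k)) : 2 ≤ r ∧ r ≤ a - 2 ∧ a + 2 ≤ k ∧ k ≤ c - 2 := by
  have : r ≠ 1 := fun e => g.x1 k0 k1 (e ▸ A)
  have : r ≠ a - 1 := fun e => g.xd k0 k1 (e ▸ A)
  have : k ≠ a + 1 := fun e => g.y1 r0 r1 (e ▸ A.symm)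
  have : k ≠ c - 1 := fun e => g.yb r0 r1 (e ▸ A.symm)
  omega

lemma Cg.step3 (g : Cg G d s f q c a) {r k : ℤ} (r0 : 0 < r) (r1 : r < a) (k0 : a < k)
    (k1 : k < c) (A : G.Adj (f r) (f k)) (a1 b1 a2 : ℤ)
    (hs : a1 = 1 ∧ b1 = r - 1 ∧ a2 = a - 1 ∨ a1 = r + 1 ∧ b1 = a - 1 ∧ a2 = 1)
    (B : G.Adj (f 0) (f a1)) (C : G.Adj (f b1) (f a2)) : False := by
  have h := g.toCf
  have hd := g.hd
  have ha := g.ha
  have hc1 := g.c1
  have hc2 := g.c2
  have hq := h.cs.q2
  have hr := g.rng r0 r1 k0 k1 A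
  have h1 := h.cs.short 0 [(false, k + 1, c - 1)] (false, 0, 0)
      [(false, a1, b1), (false, a2, r), (false, k, a), (true, q - 1, 0)]
      (by simp only [tok, tinw, tin, tdisA, tdis1, tdis, ttot, slen, List.nil_append,
        List.cons_append, and_true, true_and]; omega)
      ⟨h.up (by dsimp only; omega), B, C, A, h.e2.symm, trivial⟩ h.e1
  simp only [ttot, slen] at h1
  have hS := h.cs.stick_up 0 (a + 3) (false, 0, 0)
      [(false, a1, b1), (false, a2, r), (false, k, a), (true, q - 1, 0)]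
      (by simp only [tok, tinw, tin, tdisA, tdis1, tdis, ttot, slen, List.nil_append,
        List.cons_append, and_true, true_and]; omega)
      ⟨h.up (by dsimp only; omega), B, C, A, h.e2.symm, trivial⟩ h.e1
  obtain ⟨n1, n2, n3⟩ := h.arc (a + 3) hS
  have D : G.Adj (f (a + 1)) (f 0) := by
    by_contra D
    have := h.deg3 (i := a + 1) (by omega) 0 (a - 2) (a + 2) (a - 2) (a - 1) (a + 1) (by omega)
      (fun l l0 l1 E => by
        have : l ≠ 0 := fun e => D (e ▸ E)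
        have : l ≠ a + 1 := fun e => G.irrefl (e ▸ E)
        have : ¬ l < a := fun e => g.y1 (by omega) e E
        have : ¬ a + 2 < l := fun e => n1 l (a + 1) (by omega) (by omega) (by omega) E.symm
        omega)
    omega
  have := h.non3 hd (Or.inl rfl) 2 (a + 2) a (a + 1) (a + 2) (by omega) (fun l l0 l1 l2 E => by
    have : l ≠ 1 := fun e => E (h.up (by omega))
    have : l ≠ a := fun e => E (e ▸ h.c12)
    have : l ≠ a + 1 := fun e => E (e ▸ D.symm)
    have : l ≠ a + 2 := fun e => E (h.tr n3.symm (by omega) (by omega))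
    have : ¬ a + 2 < l := fun e =>
      E (h.tr (n2 hd l c (by omega) (by omega) (by omega) (by omega) (by omega)).symm
        (by omega) (by omega))
    omega)
  omega

lemma Cg.m1 (g : Cg G d s f q c a) {r k : ℤ} (r0 : 0 < r) (r1 : r < a) (k0 : a < k)
    (k1 : k < c) (A : G.Adj (f r) (f k)) : ¬ G.Adj (f (a - 1)) (f (r - 1)) := fun B =>
  g.step3 r0 r1 k0 k1 A 1 (r - 1) (a - 1) (by omega) (g.toCf.up (by omega)) B.symm

lemma Cg.m2 (g : Cg G d s f q c a) {r k : ℤ} (r0 : 0 < r) (r1 : r < a) (k0 : a < k)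
    (k1 : k < c) (A : G.Adj (f r) (f k)) : ¬ G.Adj (f 1) (f (r + 1)) := fun B =>
  g.mirr.m1 (r := a - r) (k := c + a - k) (by omega) (by omega) (by omega) (by omega)
    (g.toCf.tr A (by omega) (by omega)) (g.toCf.tr B (by omega) (by omega))

/-- A vertex of the first arc without neighbours in the second arc misses at most one vertex. -/
lemma Cg.only (g : Cg G d s f q c a) {i m k : ℤ} (hi : 0 < i ∧ i < a)
    (hn : ∀ l, a < l → l < c → ¬ G.Adj (f i) (f l))
    (hm : 0 ≤ m ∧ m ≤ a ∧ 0 ≤ k ∧ k ≤ a ∧ m ≠ i ∧ k ≠ i ∧ k ≠ m) (B : ¬ G.Adj (f i) (f m)) :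
    G.Adj (f i) (f k) := by
  by_contra C
  have hd := g.hd
  have ha := g.ha
  have hc1 := g.c1
  have := g.toCf.deg3 (i := i) (by omega) 0 0 a i m k (by omega) (fun l l0 l1 E => by
    have : l ≠ i := fun e => G.irrefl (e ▸ E)
    have : l ≠ m := fun e => B (e ▸ E)
    have : l ≠ k := fun e => C (e ▸ E)
    have : ¬ a < l := fun e => hn l e (by omega) E
    omega)
  omega

lemma Cg.step4 (g : Cg G d s f q c a) {r k : ℤ} (r0 : 0 < r) (r1 : r < a) (k0 : a < k)
    (k1 : k < c) (A : G.Adj (f r) (f k)) : r = 2 ∧ q = 2 := by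
  have ha := g.ha
  have hr := g.rng r0 r1 k0 k1 A
  have M1 := g.m1 r0 r1 k0 k1 A
  have M2 := g.m2 r0 r1 k0 k1 A
  have o1 : ∀ l, 0 ≤ l → l ≤ a → l ≠ 1 → l ≠ r + 1 → G.Adj (f 1) (f l) := fun l l0 l1 l2 l3 =>
    g.only (by omega) (fun _ => g.x1) (by omega) M2
  by_cases e : r + 1 < a - 1
  · exfalso
    have n : ∀ l, a < l → l < c → ¬ G.Adj (f (r + 1)) (f l) := fun l l0 l1 B =>
      g.m2 (by omega) (by omega) l0 l1 B (o1 _ (by omega) (by omega) (by omega) (by omega))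
    have B : G.Adj (f (r + 1)) (f 0) :=
      g.only (m := 1) (by omega) n (by omega) (fun B => M2 B.symm)
    exact g.step3 r0 r1 k0 k1 A (r + 1) (a - 1) 1 (by omega) B.symm
      (o1 _ (by omega) (by omega) (by omega) (by omega)).symm
  · have : r = 2 := by
      by_contra e2
      have B : G.Adj (f (a - 1)) (f 1) := g.only (by omega) (fun _ => g.xd) (by omega) M1
      exact M2 (g.toCf.tr B.symm (by omega) (by omega))
    omega

lemma Cg.s5a (g : Cg G d s f q c a) {k : ℤ} (k0 : a + 2 ≤ k) (k1 : k ≤ c - 2)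
    (A : G.Adj (f 2) (f k)) : ¬ G.Adj (f (a + 1)) (f (k + 1)) := fun B => by
  have h := g.toCf
  have ha := g.ha
  have hq := h.cs.q2
  have := h.cs.short 1 [(false, 1, 1)] (false, c, k + 1)
      [(false, a + 1, k), (false, 2, a), (true, q - 1, 0)]
      (by simp only [tok, tinw, tin, tdisA, tdis1, tdis, ttot, slen, List.nil_append,
        List.cons_append, and_true, true_and]; omega)
      ⟨h.dn (by dsimp only; omega), B.symm, A.symm, h.e2.symm, trivial⟩ h.ec.symm
  simp only [ttot, slen] at this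
  omega

lemma Cg.step5 (g : Cg G d s f q c a) (hq : q = 2) (A : G.Adj (f 2) (f (a + 2))) : False := by
  have h := g.toCf
  have ha := g.ha
  have hc1 := g.c1
  have hc2 := g.c2
  have M := g.m2 (by omega) (by omega) (by omega) (by omega) A
  have M1 := g.s5a (by omega) (by omega) A
  have M2 : ¬ G.Adj (f (c - 1)) (f (a + 1)) := fun B =>
    g.mirr.s5a (k := c - 2) (by omega) (by omega) (h.tr A (by omega) (by omega))
      (h.tr B (by omega) (by omega))
  have key : ∀ i z, (0 < i ∧ i < c ∧ i ≠ a) →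
      (∀ l, 0 < l → l < c → l ≠ a → l ≠ z → l ≠ i → ¬ G.Adj (f i) (f l)) →
      Bl G (fun x => x = f 0 ∨ x = f a) (· = f i) (f z) := by
    intro i z hi hl
    refine ⟨⟨_, rfl⟩, ?_, ?_⟩
    · rintro w rfl (e | e) <;> exact h.cs.ne (by omega) (by omega) (by omega) e
    · rintro w x rfl B
      obtain ⟨l, l0, l1, rfl⟩ := h.nb hi 0 B
      by_cases e1 : l = 0
      · exact Or.inr (Or.inl (Or.inl (by rw [e1])))
      by_cases e2 : l = a
      · exact Or.inr (Or.inl (Or.inr (by rw [e2])))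
      by_cases e3 : l = z
      · exact Or.inr (Or.inr (by rw [e3]))
      by_cases e4 : l = i
      · exact Or.inl (by rw [e4])
      exact absurd B (hl l (by omega) (by omega) e2 e3 e4)
  refine blob_five h.hx.mnh h.hx.nou (f 0) (f a) (InQ s q) (f 1) (f (a - 1)) (f (a + 1)) (f 2)
    (f 2) (f (a + 2)) ⟨⟨_, 0, le_rfl, by omega, rfl⟩, ?_, ?_⟩ (key _ _ (by omega) ?_)
    (key _ _ (by omega) ?_) (key _ _ (by omega) ?_) (h.cs.notQ _) (h.cs.notQ _) (h.cs.notQ _)
    (h.cs.ne (by omega) (by omega) (by omega)) (h.cs.ne (by omega) (by omega) (by omega))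
    (h.cs.ne (by omega) (by omega) (by omega))
  · rintro w hw (rfl | rfl) <;> exact h.cs.notQ _ hw
  · rintro w x ⟨t, t0, t1, rfl⟩ B
    exact h.s2 t x t0 t1 B
  · intro l l0 l1 l2 l3 l4 B
    by_cases e : a < l
    · exact g.x1 e l1 B
    · exact M (h.tr B (by omega) (by omega))
  · intro l l0 l1 l2 l3 l4 B
    by_cases e : a < l
    · exact g.xd e l1 B
    · exact M (h.tr B.symm (by omega) (by omega))
  · intro l l0 l1 l2 l3 l4 B
    by_cases e : l < a
    · exact g.y1 l0 e B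
    by_cases e2 : l = c - 1
    · exact M2 (e2 ▸ B.symm)
    · exact M1 (h.tr B (by omega) (by omega))

lemma Cg.false (g : Cg G d s f q c a) : False := by
  refine g.toCf.cross fun r k r0 r1 k0 k1 A => ?_
  obtain ⟨rfl, hq⟩ := g.step4 r0 r1 k0 k1 A
  have hr := g.rng r0 r1 k0 k1 A
  have ha := g.ha
  have hc2 := g.c2
  by_cases e : k = a + 2
  · exact g.step5 hq (e ▸ A)
  · exact g.mirr.step5 hq (g.toCf.tr A (by omega) (by omega))

lemma Cf.false (h : Cf G d s f q c a) : False := by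
  have h1 := h.gapA
  have h2 := h.gapB
  have h3 : a ≠ q + 1 := h.tight
  have h4 : c - a ≠ q + 1 := h.swap.tight
  have h5 := h.s2.deg_le h.hx (by have := h.cs.q2; omega)
  have h6 := h.hx.g2
  have h7 := h.cs.tot
  by_cases e : a = q + 2
  · exact Cg.false ⟨h, by omega, e, by omega, by omega⟩
  · exact Cg.false ⟨h.swap, by omega, by omega, by omega, by omega⟩

end KS2

theorem killS2 (hx : Ctx G d) {q : ℤ}
    (hcl : ∀ s u1 u2, Stick G s q → Lk G s q u1 u2 → S2 G s q u1 u2)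
    {s : ℤ → V} {u1 u2 : V} (h : Stick G s q) (hl : Lk G s q u1 u2) : False := by
  have h2 := hcl s u1 u2 h hl
  obtain ⟨f, c, h⟩ := h
  obtain ⟨l1, l2, l3, l4, l5⟩ := hl
  obtain ⟨i, -, -, rfl⟩ := (h.surj 0 u1).resolve_left l2
  obtain ⟨j, j0, j1, rfl⟩ := (h.surj i u2).resolve_left l3
  have : j ≠ i := fun e => l1 (by rw [e])
  refine KS2.Cf.false (a := j - i) ⟨hx, hcl, KS2.cs_sh h i, by omega, by omega, ?_, ?_, ?_⟩
  · simpa using l4
  · simpa using l5
  · simpa using h2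

end Pool.Agent.P.MP_422cad_co
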