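import Pool.Agent.P.MP_422cad_co.Segs

set_option autoImplicit false

namespace Pool.Agent.P.MP_422cad_co

open SimpleGraph

variable {V : Type} [Fintype V]

lemma IsP.lol1 {G : SimpleGraph V} {p : ℤ → V} (h : IsP G.Adj p (ord V)) (s : ℤ × ℤ)
    (m : List (ℤ × ℤ)) (t x : ℤ)
    (hl : ok 0 (ord V - 1) (ord V) (s :: m)) (hj : chn G.Adj p (s :: m))
    (ht0 : 0 ≤ t ∧ t < slen s ∧ sat s t = x) (hc : G.Adj (p (lst (s :: m))) (p x)) :
    Lol G (fun i => p (sig (s :: m) i)) t := by
  have h0 := tot_nonneg m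
  have h4 := hl.2.2
  simp only [tot] at h4
  obtain ⟨h1, h2, h3⟩ := h.re _ hl hj (by omega)
  refine ⟨h1, ht0.1, by omega, ?_⟩
  have : sig (s :: m) t = x := by rw [sig, if_pos ht0.2.1, ht0.2.2]
  simpa only [h3, this] using hc

lemma card3 {α : Type} [DecidableEq α] (A B C : Finset α) (W : Finset α) (a b c : α → α)
    (ha : Set.InjOn a A) (hb : Set.InjOn b B) (hc : Set.InjOn c C)
    (ha' : ∀ s ∈ A, a s ∈ W) (hb' : ∀ s ∈ B, b s ∈ W) (hc' : ∀ s ∈ C, c s ∈ W)
    (hab : ∀ s ∈ A, ∀ t ∈ B, a s ≠ b t) (hac : ∀ s ∈ A, ∀ t ∈ C, a s ≠ c t)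
    (hbc : ∀ s ∈ B, ∀ t ∈ C, b s ≠ c t) : A.card + B.card + C.card ≤ W.card := by
  rw [← Finset.card_image_of_injOn ha, ← Finset.card_image_of_injOn hb,
    ← Finset.card_image_of_injOn hc, ← Finset.card_union_of_disjoint,
    ← Finset.card_union_of_disjoint]
  · apply Finset.card_le_card
    intro x hx
    simp only [Finset.mem_union, Finset.mem_image] at hx
    rcases hx with (⟨s, hs, rfl⟩ | ⟨s, hs, rfl⟩) | ⟨s, hs, rfl⟩
    exacts [ha' s hs, hb' s hs, hc' s hs]
  · rw [Finset.disjoint_left]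
    intro x hx hx'
    simp only [Finset.mem_union, Finset.mem_image] at hx hx'
    obtain ⟨t, ht, rfl⟩ := hx'
    rcases hx with ⟨s, hs, e⟩ | ⟨s, hs, e⟩
    exacts [hac s hs t ht e, hbc s hs t ht e]
  · rw [Finset.disjoint_left]
    intro x hx hx'
    simp only [Finset.mem_image] at hx hx'
    obtain ⟨t, ht, rfl⟩ := hx'
    obtain ⟨s, hs, e⟩ := hx
    exact hab s hs t ht e

/-- No universal vertex. -/
def NoU (G : SimpleGraph V) : Prop := ∀ u, ∃ r, r ≠ u ∧ ¬ G.Adj u r

/-- Two-connectivity in the form of a crossing edge. -/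
lemma MNH.cross {G : SimpleGraph V} (hM : MNH G) (hU : NoU G) (c : V) (P : V → Prop)
    {x y : V} (hx : x ≠ c) (hy : y ≠ c) (px : P x) (py : ¬ P y) :
    ∃ x y, x ≠ c ∧ y ≠ c ∧ P x ∧ ¬ P y ∧ G.Adj x y := by
  obtain ⟨r, hr, hr'⟩ := hU c
  obtain ⟨p, hp, h0, -⟩ := hM.mx c r hr.symm hr'
  by_contra hcon
  push Not at hcon
  have hne : ∀ i, 1 ≤ i → i < ord V → p i ≠ c := fun i h1 h2 e =>
    hp.2 0 i le_rfl (by omega) h2 (by rw [h0, e])
  have key : ∀ k : ℕ, 1 + (k : ℤ) < ord V → (P (p (1 + k)) ↔ P (p 1)) := by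
    intro k
    induction k with
    | zero => simp
    | succ k ih =>
      intro hk
      push_cast at hk ⊢
      rw [← ih (by omega), ← add_assoc]
      have a := hp.1 (1 + k) (by omega) (by omega)
      have n1 := hne (1 + k) (by omega) (by omega)
      have n2 := hne (1 + k + 1) (by omega) (by omega)
      constructor
      · intro h1
        by_contra h2
        exact hcon _ _ n2 n1 h1 h2 a.symm
      · intro h1
        by_contra h2
        exact hcon _ _ n1 n2 h1 h2 a
  have all : ∀ w, w ≠ c → (P w ↔ P (p 1)) := by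
    intro w hw
    obtain ⟨i, i0, i1, rfl⟩ := hp.surj_univ w
    have : i ≠ 0 := fun e => hw (by rw [e, h0])
    have h2 := key (i - 1).toNat (by omega)
    rwa [show 1 + (((i - 1).toNat : ℕ) : ℤ) = i by omega] at h2
  exact py ((all y hy).2 ((all x hx).1 px))

/-- A lollipop with the shortest stick. -/
structure MinLol (G : SimpleGraph V) (p : ℤ → V) (q : ℤ) : Prop where
  lol : Lol G p q
  min : ∀ p' q', Lol G p' q' → q ≤ q'

lemma exists_minLol {G : SimpleGraph V} (hM : MNH G) (hU : NoU G) (hn : 2 ≤ ord V) :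
    ∃ p q, MinLol G p q := by
  classical
  have : Nonempty V := Fintype.card_pos_iff.1 (by unfold ord at hn; omega)
  obtain ⟨u⟩ := this
  obtain ⟨r, hr, hr'⟩ := hU u
  obtain ⟨p, hp, -, -⟩ := hM.mx u r hr.symm hr'
  have h1 : ∃ k : ℕ, ∃ p, Lol G p (k : ℤ) := by
    refine ⟨(ord V - 2).toNat, p, hp, by omega, by omega, ?_⟩
    have := hp.1 (ord V - 2) (by omega) (by omega)
    rw [show ord V - 2 + 1 = ord V - 1 by ring] at this
    rw [show (((ord V - 2).toNat : ℕ) : ℤ) = ord V - 2 by omega]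
    exact this.symm
  obtain ⟨p', hp'⟩ := Nat.find_spec h1
  refine ⟨p', Nat.find h1, hp', fun p'' q' h => ?_⟩
  have h0 := h.2.1
  have : Nat.find h1 ≤ q'.toNat := Nat.find_min' h1 ⟨p'', by
    rwa [show ((q'.toNat : ℕ) : ℤ) = q' by omega]⟩
  omega

section
variable {G : SimpleGraph V} {p : ℤ → V} {q : ℤ}

lemma MinLol.lt (h : MinLol G p q) : q < ord V - 1 := by
  have h1 := h.lol.2.2.1
  have h2 := h.lol.2.2.2
  by_contra h3
  have : q = ord V - 1 := by omega
  rw [this] at h2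
  exact G.irrefl h2

lemma MinLol.last (h : MinLol G p q) (j : ℤ) (h0 : 0 ≤ j) (h1 : j < q) :
    ¬ G.Adj (p (ord V - 1)) (p j) := fun a => by
  have := h.min p j ⟨h.lol.1, h0, by have := h.lt; omega, a⟩
  omega

lemma MinLol.u1 (h : MinLol G p q) (j : ℤ) (h0 : 0 ≤ j) (h1 : j < q) :
    ¬ G.Adj (p (q + 1)) (p j) := fun a => by
  have hl := h.lt
  have := h.min _ _ (h.lol.1.lol1 (0, q) [(ord V - 1, q + 1)] j j
    (by simp only [ok, inw, dis, dis1, sdis, tot, slen, and_true]; omega)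
    ⟨h.lol.2.2.2.symm, trivial⟩ (by simp only [slen, sat]; omega) a)
  omega

/-- The basic degree count on the cycle of a minimal lollipop. -/
lemma MinLol.count (h : MinLol G p q) (hq : 2 ≤ q) (b j : ℤ) (hb : q < b) (hb' : b < ord V - 1)
    (hj0 : 0 ≤ j) (hj : j < q) (hbj : G.Adj (p b) (p j))
    (hu2 : ∀ j, 0 ≤ j → j < q → ¬ G.Adj (p (b + 1)) (p j))
    (C : Finset ℤ) (hC : ∀ t ∈ C, q < t ∧ t < b ∧ G.Adj (p 0) (p t) ∧ G.Adj (p 0) (p b)) :
    ((nb G (p (q + 1))).card : ℤ) + (nb G (p (b + 1))).card + C.card ≤ ord V - q := by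
  have hp := h.lol.1
  have hc := h.lol.2.2.2
  have m1 : ∀ s ∈ nbi G p (p (q + 1)), q ≤ s ∧ s ≠ q + 1 ∧ s < ord V ∧
      G.Adj (p (q + 1)) (p s) := by
    intro s hs
    rw [mem_nbi] at hs
    refine ⟨?_, ?_, hs.2.1, hs.2.2⟩
    · by_contra h1
      exact h.u1 s hs.1 (by omega) hs.2.2
    · rintro rfl
      exact G.irrefl hs.2.2
  have m2 : ∀ s ∈ nbi G p (p (b + 1)), q ≤ s ∧ s ≠ b + 1 ∧ s < ord V ∧
      G.Adj (p (b + 1)) (p s) := by
    intro s hs
    rw [mem_nbi] at hs
    refine ⟨?_, ?_, hs.2.1, hs.2.2⟩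
    · by_contra h1
      exact hu2 s hs.1 (by omega) hs.2.2
    · rintro rfl
      exact G.irrefl hs.2.2
  have := card3 (nbi G p (p (q + 1))) (nbi G p (p (b + 1))) C (Finset.Ico q (ord V))
    (fun t => if q + 1 < t ∧ t ≤ b then t - 1 else t)
    (fun t => if t = q then ord V - 1 else if t ≤ b then t else t - 1) (fun t => t + 1)
    ?_ ?_ ?_ ?_ ?_ ?_ ?_ ?_ ?_
  · rw [card_nbi hp, card_nbi hp, Int.card_Ico] at this
    omega
  · intro s hs t ht e
    have := m1 s hs; have := m1 t ht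
    simp only at e
    split_ifs at e <;> omega
  · intro s hs t ht e
    have := m2 s hs; have := m2 t ht
    simp only at e
    split_ifs at e <;> omega
  · intro s _ t _ e
    simpa using e
  · intro s hs
    have := m1 s hs
    simp only [Finset.mem_Ico]
    split_ifs <;> omega
  · intro s hs
    have := m2 s hs
    simp only [Finset.mem_Ico]
    split_ifs <;> omega
  · intro s hs
    have := hC s hs
    simp only [Finset.mem_Ico]
    omega
  · intro s hs t ht e
    obtain ⟨s1, s2, s3, s4⟩ := m1 s hs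
    obtain ⟨t1, t2, t3, t4⟩ := m2 t ht
    have hcases : (s = t + 1 ∧ q < t ∧ t < b) ∨ (t = s + 1 ∧ b < s) ∨
        (t = q ∧ s = ord V - 1) := by
      split_ifs at e <;> omega
    rcases hcases with ⟨rfl, c1, c2⟩ | ⟨rfl, c1⟩ | ⟨e1, rfl⟩
    · have := h.min _ _ (hp.lol1 (0, q) [(ord V - 1, b + 1), (t, q + 1), (t + 1, b)] j j
        (by simp only [ok, inw, dis, dis1, sdis, tot, slen, and_true]; omega)
        ⟨hc.symm, t4, s4, trivial⟩ (by simp only [slen, sat]; omega) hbj)
      omega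
    · have := h.min _ _ (hp.lol1 (0, q) [(ord V - 1, s + 1), (b + 1, s), (q + 1, b)] j j
        (by simp only [ok, inw, dis, dis1, sdis, tot, slen, and_true]; omega)
        ⟨hc.symm, t4.symm, s4.symm, trivial⟩ (by simp only [slen, sat]; omega) hbj)
      omega
    · rw [e1] at t4
      have := h.min _ _ (hp.lol1 (0, q) [(b + 1, ord V - 1), (q + 1, b)] j j
        (by simp only [ok, inw, dis, dis1, sdis, tot, slen, and_true]; omega)
        ⟨t4.symm, s4.symm, trivial⟩ (by simp only [slen, sat]; omega) hbj)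
      omega
  · intro s hs t ht e
    obtain ⟨s1, s2, s3, s4⟩ := m1 s hs
    obtain ⟨t1, t2, t3, t4⟩ := hC t ht
    have hcases : s = t + 2 ∧ s ≤ b := by
      split_ifs at e <;> omega
    obtain ⟨rfl, c1⟩ := hcases
    have := h.min _ _ (hp.lol1 (t + 1, ord V - 1) [(q, 0), (t, q + 1)] 1 (t + 2)
      (by simp only [ok, inw, dis, dis1, sdis, tot, slen, and_true]; omega)
      ⟨hc, t3, trivial⟩ (by simp only [slen, sat]; omega) s4)
    omega
  · intro s hs t ht e
    obtain ⟨s1, s2, s3, s4⟩ := m2 s hs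
    obtain ⟨t1, t2, t3, t4⟩ := hC t ht
    have hcases : s = t + 1 := by
      split_ifs at e <;> omega
    subst hcases
    have := h.min _ _ (hp.lol1 (1, t) [(0, 0), (b, t + 1), (b + 1, ord V - 1)] (q - 1) q
      (by simp only [ok, inw, dis, dis1, sdis, tot, slen, and_true]; omega)
      ⟨t3.symm, t4, s4.symm, trivial⟩ (by simp only [slen, sat]; omega) hc)
    omega

lemma exists_max_int (P : ℤ → Prop) (N : ℤ) (hN : ∀ t, P t → t ≤ N) (h : ∃ t, P t) :
    ∃ t, P t ∧ ∀ s, P s → s ≤ t :=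
  Int.exists_greatest_of_bdd ⟨N, hN⟩ h

/-- If the shortest stick has two vertices or more, then `3 δ ≤ n + 1`. -/
lemma MinLol.bound (h : MinLol G p q) (hM : MNH G) (hU : NoU G) (hq : 2 ≤ q) (d : ℤ)
    (hd : ∀ w, d ≤ (nb G w).card) : 3 * d ≤ ord V + 1 := by
  classical
  have hp := h.lol.1
  have hc := h.lol.2.2.2
  have hl := h.lt
  by_cases hA : ∃ t, q < t ∧ t < ord V ∧ G.Adj (p 0) (p t)
  · obtain ⟨b, ⟨b1, b2, b3⟩, bmax⟩ := exists_max_int _ (ord V) (fun t ht => ht.2.1.le) hA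
    have b4 : b < ord V - 1 := by
      by_contra h1
      rw [show b = ord V - 1 by omega] at b3
      exact h.last 0 le_rfl (by omega) b3.symm
    have hu2 : ∀ j, 0 ≤ j → j < q → ¬ G.Adj (p (b + 1)) (p j) := by
      intro j j0 j1 a
      have := h.min _ _ (hp.lol1 (q - 1, 0) [(b, q), (ord V - 1, b + 1)] (q - 1 - j) j
        (by simp only [ok, inw, dis, dis1, sdis, tot, slen, and_true]; omega)
        ⟨b3, hc.symm, trivial⟩ (by simp only [slen, sat]; omega) a)
      omega
    have h1 := h.count hq b 0 b1 b4 le_rfl (by omega) b3.symm hu2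
      ((nbi G p (p 0)).filter (fun t => q < t ∧ t < b)) (by
        intro t ht
        simp only [Finset.mem_filter, mem_nbi] at ht
        exact ⟨ht.2.1, ht.2.2, ht.1.2.2, b3⟩)
    have h2 : nbi G p (p 0) ⊆ insert b (Finset.Icc 1 q) ∪
        (nbi G p (p 0)).filter (fun t => q < t ∧ t < b) := by
      intro t ht
      have ht' := mem_nbi.1 ht
      have : t ≠ 0 := by rintro rfl; exact G.irrefl ht'.2.2
      simp only [Finset.mem_union, Finset.mem_insert, Finset.mem_Icc, Finset.mem_filter, ht,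
        true_and]
      by_cases h3 : q < t
      · have := bmax t ⟨h3, ht'.2⟩
        omega
      · omega
    have h3 := (Finset.card_le_card h2).trans (Finset.card_union_le _ _)
    have h4 := Finset.card_insert_le b (Finset.Icc 1 q)
    rw [Int.card_Icc] at h4
    rw [card_nbi hp] at h3
    have := hd (p 0); have := hd (p (q + 1)); have := hd (p (b + 1))
    omega
  · have hB : ∃ t, q < t ∧ t < ord V ∧ ∃ j, 0 ≤ j ∧ j < q ∧ G.Adj (p t) (p j) := by
      obtain ⟨x, y, hx, hy, ⟨j, j0, j1, rfl⟩, py, a⟩ :=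
        hM.cross hU (p q) (fun w => ∃ j, 0 ≤ j ∧ j < q ∧ p j = w) (x := p 0) (y := p (q + 1))
        (hp.2 0 q le_rfl (by omega) (by omega)) (hp.2 q (q + 1) (by omega) (by omega) (by omega)).symm
        ⟨0, le_rfl, by omega, rfl⟩ (by
          rintro ⟨j, j0, j1, e⟩
          exact hp.2 j (q + 1) j0 (by omega) (by omega) e)
      obtain ⟨t, t0, t1, rfl⟩ := hp.surj_univ y
      refine ⟨t, ?_, t1, j, j0, j1, a.symm⟩
      by_contra h1
      by_cases h2 : t = q
      · exact hy (by rw [h2])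
      · exact py ⟨t, t0, by omega, rfl⟩
    obtain ⟨b, ⟨b1, b2, j, j0, j1, b3⟩, bmax⟩ :=
      exists_max_int _ (ord V) (fun t ht => ht.2.1.le) hB
    have b4 : b < ord V - 1 := by
      by_contra h1
      rw [show b = ord V - 1 by omega] at b3
      exact h.last j j0 j1 b3
    have h1 := h.count hq b j b1 b4 j0 j1 b3 (fun i i0 i1 a => by
      have := bmax (b + 1) ⟨by omega, by omega, i, i0, i1, a⟩
      omega) ∅ (by simp)
    have h2 : nbi G p (p 0) ⊆ Finset.Icc 1 q := by
      intro t ht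
      have ht' := mem_nbi.1 ht
      have : t ≠ 0 := by rintro rfl; exact G.irrefl ht'.2.2
      simp only [Finset.mem_Icc]
      by_cases h3 : q < t
      · exact absurd ⟨t, h3, ht'.2⟩ hA
      · omega
    have h3 := Finset.card_le_card h2
    rw [Int.card_Icc, card_nbi hp] at h3
    have := hd (p 0); have := hd (p (q + 1)); have := hd (p (b + 1))
    simp only [Finset.card_empty] at h1
    omega

/-- A cycle through all vertices but `v`. -/
def NCyc (G : SimpleGraph V) (f : ℤ → V) (v : V) : Prop :=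
  Cyc G.Adj f (ord V - 1) ∧ ∀ i, f i ≠ v

lemma MinLol.ncyc (h : MinLol G p q) (hM : MNH G) (hq : q < 2) : ∃ f v, NCyc G f v := by
  have hp := h.lol.1
  have hc := h.lol.2.2.2
  have hl := h.lt
  have h0 := h.lol.2.1
  by_cases h1 : q = 0
  · subst h1
    exact absurd (hp.ham (by omega) hc) hM.nh
  have h2 : q = 1 := by omega
  subst h2
  have h3 : IsP G.Adj (fun i => p (i + 1)) (ord V - 1) :=
    ⟨fun i i0 i1 => hp.1 (i + 1) (by omega) (by omega),
     fun i j i0 i1 i2 => hp.2 _ _ (by omega) (by omega) (by omega)⟩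
  refine ⟨_, p 0, h3.cyc (by omega) (by simpa using hc), fun i => ?_⟩
  have := Int.emod_nonneg i (show ord V - 1 ≠ 0 by omega)
  have := Int.emod_lt_of_pos i (show 0 < ord V - 1 by omega)
  exact (hp.2 0 _ le_rfl (by omega) (by omega)).symm

end

end Pool.Agent.P.MP_422cad_co
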