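import Pool.Agent.P.MP_422cad_co.Basic

set_option autoImplicit false

namespace Pool.Agent.P.MP_422cad_co

open SimpleGraph

variable {V : Type} [Fintype V]

/-- The order of the graph as an integer. -/
def ord (V : Type) [Fintype V] : ℤ := (Fintype.card V : ℤ)

def Ham (G : SimpleGraph V) : Prop := ∃ f, Cyc G.Adj f (ord V)

/-- Maximal non-hamiltonian graphs. -/
structure MNH (G : SimpleGraph V) : Prop where
  nh : ¬ Ham G
  mx : ∀ a b, a ≠ b → ¬ G.Adj a b → ∃ p, IsP G.Adj p (ord V) ∧ p 0 = a ∧ p (ord V - 1) = b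

omit [Fintype V] in
lemma walk_of_seq (G : SimpleGraph V) (f : ℤ → V) (h : ∀ i, G.Adj (f i) (f (i + 1))) (k : ℕ) :
    ∃ w : G.Walk (f 1) (f (1 + k)), w.length = k ∧
      w.support = (List.range (k + 1)).map (fun i : ℕ => f (1 + i)) := by
  induction k with
  | zero => exact ⟨Walk.nil.copy rfl (by simp), by simp, by simp⟩
  | succ k ih =>
    obtain ⟨w, h1, h2⟩ := ih
    refine ⟨(w.concat (h _)).copy rfl (by push_cast; ring_nf), by simp [h1], ?_⟩
    rw [Walk.support_copy, Walk.support_concat, h2, List.range_succ (n := k + 1)]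
    simp [add_assoc]

lemma Ham.isHamiltonian [DecidableEq V] {G : SimpleGraph V} (h : Ham G)
    (hn : 3 ≤ Fintype.card V) : G.IsHamiltonian := by
  obtain ⟨f, hf⟩ := h
  obtain ⟨w, h1, h2⟩ := walk_of_seq G f hf.adj (Fintype.card V - 1)
  have e : f (1 + ((Fintype.card V - 1 : ℕ) : ℤ)) = f 0 := by
    rw [← hf.per 0]; congr 1; unfold ord; omega
  intro _
  refine ⟨f 0, Walk.cons (by simpa using hf.adj 0) (w.copy rfl e), ?_⟩
  rw [Walk.isHamiltonianCycle_iff_isCycle_and_length_eq,
    Walk.isCycle_iff_isPath_tail_and_le_length]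
  refine ⟨⟨?_, by simp [h1]; omega⟩, by simp [h1]; omega⟩
  rw [Walk.isPath_def]
  rw [Walk.support_tail_of_not_nil _ (by simp), Walk.support_cons, List.tail_cons,
    Walk.support_copy, h2]
  refine List.Nodup.map_on ?_ List.nodup_range
  intro i hi j hj hij
  rw [List.mem_range] at hi hj
  have := hf.eq (by unfold ord; omega) (by unfold ord; omega) hij
  omega

lemma IsP.ham {G : SimpleGraph V} {p : ℤ → V} (h : IsP G.Adj p (ord V)) (hn : 0 < ord V)
    (hc : G.Adj (p (ord V - 1)) (p 0)) : Ham G := ⟨_, h.cyc hn hc⟩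

lemma IsP.surj_univ {R : V → V → Prop} {p : ℤ → V} (h : IsP R p (ord V)) (w : V) :
    ∃ i, 0 ≤ i ∧ i < ord V ∧ p i = w := by
  classical
  exact h.surj Finset.univ (by simp) (by simp [ord]) w (by simp)

lemma IsP.surj_ne {R : V → V → Prop} {p : ℤ → V} (h : IsP R p (ord V - 1)) (v : V)
    (hv : ∀ i, 0 ≤ i → i < ord V - 1 → p i ≠ v) (w : V) (hw : w ≠ v) :
    ∃ i, 0 ≤ i ∧ i < ord V - 1 ∧ p i = w := by
  classical
  refine h.surj (Finset.univ.erase v) (fun i h0 h1 => by simpa using hv i h0 h1) ?_ w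
    (by simpa using hw)
  rw [Finset.card_erase_of_mem (by simp)]
  have : 0 < Fintype.card V := Fintype.card_pos_iff.2 ⟨v⟩
  simp only [Finset.card_univ, ord]
  omega

lemma exists_mnh (G : SimpleGraph V) (h : ¬ Ham G) (hn : 3 ≤ ord V) :
    ∃ H, G ≤ H ∧ MNH H := by
  classical
  obtain ⟨H, hH⟩ := Set.Finite.exists_le_maximal (s := {H : SimpleGraph V | ¬ Ham H})
    (Set.toFinite _) (a := G) h
  refine ⟨H, hH.1, hH.2.1, fun a b hab hna => ?_⟩
  have h1 : Ham (H ⊔ edge a b) := by
    by_contra h2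
    have := hH.2.2 (y := H ⊔ edge a b) h2 le_sup_left
    apply hna
    apply this
    simp [edge_adj, hab]
  obtain ⟨f, hf⟩ := h1
  have h2 : ∃ i, ¬ H.Adj (f i) (f (i + 1)) := by
    by_contra h3
    push Not at h3
    exact hH.2.1 ⟨f, h3, hf.per, hf.inj⟩
  obtain ⟨i, hi⟩ := h2
  have key : ∀ j, i < j → j < i + ord V → H.Adj (f j) (f (j + 1)) := by
    intro j h1 h2
    by_contra h3
    have a1 := hf.adj i
    have a2 := hf.adj j
    simp only [sup_adj, hi, h3, false_or, edge_adj] at a1 a2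
    have n1 := hf.inj i j h1 h2
    have n2 := hf.inj (i + 1) (j + 1) (by omega) (by omega)
    by_cases hj : j = i + 1
    · subst hj
      have n3 := hf.inj i (i + 1 + 1) (by omega) (by omega)
      rcases a1.1 with ⟨e1, e2⟩ | ⟨e1, e2⟩ <;> rcases a2.1 with ⟨e3, e4⟩ | ⟨e3, e4⟩ <;> simp_all
    · have n3 := hf.inj (i + 1) j (by omega) (by omega)
      rcases a1.1 with ⟨e1, e2⟩ | ⟨e1, e2⟩ <;> rcases a2.1 with ⟨e3, e4⟩ | ⟨e3, e4⟩ <;> simp_all
  have a1 := hf.adj i
  simp only [sup_adj, hi, false_or, edge_adj] at a1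
  rcases a1.1 with ⟨e1, e2⟩ | ⟨e1, e2⟩
  · refine ⟨fun t => f (i + ord V - t), ⟨fun t h0 h1 => ?_, fun s t h0 h1 h2 => ?_⟩, ?_, ?_⟩
    · have := key (i + ord V - (t + 1)) (by omega) (by omega)
      rw [show i + ord V - (t + 1) + 1 = i + ord V - t by ring] at this
      exact this.symm
    · exact (hf.inj _ _ (by omega) (by omega)).symm
    · simp only [sub_zero, hf.per, e1]
    · rw [← e2]; show f _ = f _; congr 1; ring
  · refine ⟨fun t => f (i + 1 + t), ⟨fun t h0 h1 => ?_, fun s t h0 h1 h2 => ?_⟩, ?_, ?_⟩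
    · have := key (i + 1 + t) (by omega) (by omega)
      simpa only [add_assoc] using this
    · exact hf.inj _ _ (by omega) (by omega)
    · simp only [add_zero, e2]
    · rw [← e1, ← hf.per i]; show f _ = f _; congr 1; ring

lemma IsP.steps {G : SimpleGraph V} {p : ℤ → V} {k : ℤ} (h : IsP G.Adj p k) :
    ∀ i, 0 ≤ i → i < k - 1 → G.Adj (p i) (p (i + 1)) ∧ G.Adj (p (i + 1)) (p i) :=
  fun i h0 h1 => ⟨h.1 i h0 (by omega), (h.1 i h0 (by omega)).symm⟩

lemma IsP.injs {R : V → V → Prop} {p : ℤ → V} {k : ℤ} (h : IsP R p k) :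
    ∀ i j, 0 ≤ i → i < j → j ≤ k - 1 → p i ≠ p j :=
  fun i j h0 h1 h2 => h.2 i j h0 h1 (by omega)

/-- Closing a list of segments of a Hamilton path to a Hamilton cycle. -/
lemma ham_of_segs {G : SimpleGraph V} {p : ℤ → V} (h : IsP G.Adj p (ord V))
    (s t : ℤ × ℤ) (l : List (ℤ × ℤ))
    (hin : ∀ x ∈ s :: (l ++ [t]), 0 ≤ min x.1 x.2 ∧ max x.1 x.2 ≤ ord V - 1)
    (hd : (s :: (l ++ [t])).Pairwise sdis)
    (hj : (s :: (l ++ [t])).IsChain (fun s t => G.Adj (p s.2) (p t.1)))
    (ht : tot (s :: (l ++ [t])) = ord V) (hc : G.Adj (p t.2) (p s.1)) : Ham G := by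
  have h1 := segs_path G.Adj p 0 (ord V - 1) h.steps h.injs _ hin hd hj
  rw [ht] at h1
  refine h1.ham (by rw [← ht]; have := slen_pos s; have := tot_nonneg (l ++ [t])
                    simp only [tot]; omega) ?_
  have := sig_last (s :: l) t
  simp only [List.cons_append, ht] at this
  simp only [this, sig_zero]
  exact hc

/-- The successor map of a Hamilton path between two non-adjacent vertices. -/
lemma MNH.phi {G : SimpleGraph V} (h : MNH G) {a b : V} (hab : a ≠ b) (hna : ¬ G.Adj a b) :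
    ∃ φ : V ≃ V, φ b = a ∧ (∀ s, s ≠ b → G.Adj s (φ s)) ∧
      (∀ s, G.Adj b s → ¬ G.Adj a (φ s)) := by
  classical
  obtain ⟨p, hp, ha, hb⟩ := h.mx a b hab hna
  have hn : 0 < ord V := by
    have : 0 < Fintype.card V := Fintype.card_pos_iff.2 ⟨a⟩
    unfold ord; omega
  choose ix hix0 hix1 hix using hp.surj_univ
  let φ : V → V := fun w => if w = b then a else p (ix w + 1)
  have hlt : ∀ w, w ≠ b → ix w + 1 < ord V := by
    intro w hw
    by_contra h1
    have : ix w = ord V - 1 := by have := hix1 w; omega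
    apply hw
    rw [← hix w, this, hb]
  have hinj : Function.Injective φ := by
    intro s t hst
    simp only [φ] at hst
    by_cases hs : s = b <;> by_cases ht : t = b
    · rw [hs, ht]
    · simp only [hs, ht, if_true, if_false] at hst
      have := hp.eq (i := 0) (j := ix t + 1) le_rfl hn (by have := hix0 t; omega) (hlt t ht)
        (by rw [ha, hst])
      have := hix0 t
      omega
    · simp only [hs, ht, if_true, if_false] at hst
      have := hp.eq (i := 0) (j := ix s + 1) le_rfl hn (by have := hix0 s; omega) (hlt s hs)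
        (by rw [ha, hst])
      have := hix0 s
      omega
    · simp only [hs, ht, if_false] at hst
      have := hp.eq (by have := hix0 s; omega) (hlt s hs) (by have := hix0 t; omega) (hlt t ht) hst
      have h2 : ix s = ix t := by omega
      rw [← hix s, ← hix t, h2]
  refine ⟨Equiv.ofBijective φ (Finite.injective_iff_bijective.1 hinj), by simp [φ], ?_, ?_⟩
  · intro s hs
    simp only [Equiv.ofBijective_apply, φ, hs, if_false]
    have := hp.1 (ix s) (hix0 s) (hlt s hs)
    rwa [hix] at this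
  · intro s hs h2
    have hsb : s ≠ b := fun e => G.irrefl (e ▸ hs)
    simp only [Equiv.ofBijective_apply, φ, hsb, if_false] at h2
    have h0 := hix0 s
    have h1 := hlt s hsb
    apply h.nh
    refine ham_of_segs hp (0, ix s) (ord V - 1, ix s + 1) [] ?_ ?_ ?_ ?_ ?_
    · simp; omega
    · simp [sdis]; omega
    · simp [hix, hb, hs.symm]
    · simp only [tot, slen, List.nil_append]; omega
    · simp only [ha]; exact h2.symm

end Pool.Agent.P.MP_422cad_co
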