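import Pool.Agent.P.MP_422cad_co.Zero

set_option autoImplicit false

namespace Pool.Agent.P.MP_422cad_co

open SimpleGraph Classical

variable {V : Type} [Fintype V] {G : SimpleGraph V} {f : ℤ → V} {v : V} {d : ℤ}

/-- The case of hopping sets with one element: on every cycle that misses one vertex `w` no two
neighbours of `w` are at distance two. -/
structure O1 (G : SimpleGraph V) (f : ℤ → V) (v : V) (d : ℤ) : Prop where
  ctx : Ctx G d
  cyc : NCyc G f v
  sp : ∀ F w, NCyc G F w → ∀ t, G.Adj w (F t) → ¬ G.Adj w (F (t + 2))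

lemma St.o1 {Y : Finset V} {ν : V ≃ V} (h : St G f v Y ν d) (hg : ord V ≤ 3 * d + 2)
    (hy : Y.card = 1) : O1 G f v d := by
  refine ⟨⟨h.mnh, h.nou, h.deg, hg, h.n3⟩, h.hop.cyc, fun F w hF t a b => ?_⟩
  have := h.bigY hF {F (t + 1)} (by
    intro u hu
    rw [Finset.mem_singleton] at hu
    exact ⟨t + 1, hu.symm, by simpa using a, by simpa [add_assoc, one_add_one_eq_two] using b⟩)
  rw [Finset.card_singleton] at this
  omega

lemma NCyc.shift (h : NCyc G f v) (k : ℤ) : NCyc G (fun i => f (i + k)) v :=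
  ⟨⟨fun i => by simpa only [add_right_comm] using h.1.adj (i + k),
    fun i => by simpa only [add_right_comm] using h.1.per (i + k),
    fun i j a b => h.1.inj _ _ (by omega) (by omega)⟩, fun _ => h.2 _⟩

lemma O1.shift (h : O1 G f v d) (k : ℤ) : O1 G (fun i => f (i + k)) v d :=
  ⟨h.ctx, h.cyc.shift k, h.sp⟩

/-- The reflection `i ↦ k - i`. -/
lemma O1.refl (h : O1 G f v d) (k : ℤ) : O1 G (fun i => f (k - i)) v d := by
  have := (h.cyc.shift k).rev
  refine ⟨h.ctx, ?_, h.sp⟩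
  convert this using 3
  ring

lemma O1.n3 (h : O1 G f v d) : 3 ≤ ord V := h.ctx.n3

lemma O1.per (h : O1 G f v d) (i : ℤ) : f (i + (ord V - 1)) = f i := h.cyc.1.per i

/-- Positions that differ by the length of the cycle. -/
lemma O1.per' (h : O1 G f v d) {i j : ℤ} (e : j = i + (ord V - 1)) : f j = f i := by
  rw [e, h.per]

lemma O1.ne (h : O1 G f v d) {i j : ℤ} (h1 : i ≠ j) (h2 : i < j + (ord V - 1))
    (h3 : j < i + (ord V - 1)) : f i ≠ f j := fun e => h1 (h.cyc.1.eq h2 h3 e)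

/-- No Hamilton path of `G - v` has both ends adjacent to `v`. -/
lemma O1.seg (h : O1 G f v d) (lo : ℤ) (l : List (ℤ × ℤ))
    (hl : ok lo (lo + ord V - 2) (ord V - 1) l) (hj : chn G.Adj f l)
    (h1 : G.Adj v (f (fst l))) (h2 : G.Adj v (f (lst l))) : False :=
  h.cyc.seg h.ctx.mnh.nh (by have := h.n3; omega) lo l hl hj h1 h2

/-- Every neighbour of a cycle vertex is `v` or has a position in the window. -/
lemma O1.surj (h : O1 G f v d) (lo : ℤ) (w : V) :
    w = v ∨ ∃ i, lo ≤ i ∧ i < lo + (ord V - 1) ∧ f i = w := by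
  by_cases e : w = v
  exacts [Or.inl e, Or.inr (h.cyc.surj lo w e)]

lemma O1.sp1 (h : O1 G f v d) {F : ℤ → V} {w : V} (hF : NCyc G F w) (t : ℤ)
    (a : G.Adj w (F t)) : ¬ G.Adj w (F (t + 1)) := fun b =>
  (hop_base hF h.ctx.mnh.nh (by have := h.n3; omega)).nocons (by have := h.n3; omega) t
    ⟨w, by simp, a⟩ ⟨w, by simp, b⟩

lemma O1.sp3 (h : O1 G f v d) {F : ℤ → V} {w : V} (hF : NCyc G F w) {s t : ℤ}
    (a : G.Adj w (F s)) (b : G.Adj w (F t)) (hst : s < t) : s + 3 ≤ t := by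
  by_contra c
  obtain rfl | rfl : t = s + 1 ∨ t = s + 2 := by omega
  exacts [h.sp1 hF s a b, h.sp F w hF s a b]

/-- The neighbours of the missing vertex are every third vertex, up to one longer gap. -/
lemma O1.tee (h : O1 G f v d) {F : ℤ → V} {w : V} (hF : NCyc G F w) {p : ℤ} (a : G.Adj w (F p))
    (s : ℤ) (s0 : 0 ≤ s) (s1 : s < d) :
    G.Adj w (F (p + 3 * s)) ∨ (ord V = 3 * d + 2 ∧ G.Adj w (F (p + 3 * s + 1))) := by
  by_contra hc
  push Not at hc
  have hn := h.n3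
  have hg := h.ctx.g2
  choose ix h0 h1 hix using hF.surj p
  let ix' : V → ℤ := fun x => if hx : x = w then 0 else ix x hx
  have k : ∀ x ∈ nb G w, p ≤ ix' x ∧ ix' x + 3 ≤ p + (ord V - 1) ∧ F (ix' x) = x ∧
      G.Adj w (F (ix' x)) := by
    intro x hx
    rw [mem_nb] at hx
    simp only [ix', dif_neg hx.ne']
    have b : G.Adj w (F (ix x hx.ne')) := by rwa [hix]
    exact ⟨h0 _ _, h.sp3 hF b (by rwa [hF.1.per]) (h1 _ _), hix _ _, b⟩
  have := Finset.card_le_card_of_injOn (s := nb G w) (t := Finset.Ico (0 : ℤ) (d - 1))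
    (fun x => if ix' x < p + 3 * s then (ix' x - p) / 3
      else if ord V = 3 * d + 2 then (ix' x - p - 2) / 3 else (ix' x - p - 1) / 3) (by
      intro x hx
      obtain ⟨k1, k2, -, k4⟩ := k x hx
      have n1 : ix' x ≠ p + 3 * s := fun e => hc.1 (e ▸ k4)
      have n2 : ord V = 3 * d + 2 → ix' x ≠ p + 3 * s + 1 := fun e' e => hc.2 e' (e ▸ k4)
      simp only [Finset.coe_Ico, Set.mem_Ico]
      split_ifs <;> omega) (by
      intro x hx y hy e
      obtain ⟨k1, k2, k3, k4⟩ := k x hx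
      obtain ⟨l1, l2, l3, l4⟩ := k y hy
      have n1 : ix' x ≠ p + 3 * s := fun e => hc.1 (e ▸ k4)
      have n2 : ord V = 3 * d + 2 → ix' x ≠ p + 3 * s + 1 := fun e' e => hc.2 e' (e ▸ k4)
      have n3 : ix' y ≠ p + 3 * s := fun e => hc.1 (e ▸ l4)
      have n4 : ord V = 3 * d + 2 → ix' y ≠ p + 3 * s + 1 := fun e' e => hc.2 e' (e ▸ l4)
      have m1 := h.sp3 hF k4 l4
      have m2 := h.sp3 hF l4 k4
      have : ix' x = ix' y := by
        simp only at e
        split_ifs at e <;> omega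
      rw [← k3, ← l3, this])
  rw [Int.card_Ico] at this
  have := h.ctx.deg w
  omega

lemma O1.tee_up (h : O1 G f v d) {F : ℤ → V} {w : V} (hF : NCyc G F w) {p : ℤ}
    (a : G.Adj w (F p)) {s : ℤ} (s0 : 0 ≤ s) (b : ¬ G.Adj w (F (p + 3 * s))) (t : ℤ) (t0 : s ≤ t)
    (t1 : t < d) : G.Adj w (F (p + 3 * t + 1)) := by
  induction t, t0 using Int.le_induction with
  | base => exact ((h.tee hF a s s0 t1).resolve_left b).2
  | succ t ht ih =>
    refine ((h.tee hF a (t + 1) (by omega) t1).resolve_left fun c => ?_).2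
    have := h.sp3 hF (ih (by omega)) c (by omega)
    omega

lemma O1.tee_dn (h : O1 G f v d) {F : ℤ → V} {w : V} (hF : NCyc G F w) {p : ℤ}
    (a : G.Adj w (F p)) {s : ℤ} (s1 : s < d) (b : ¬ G.Adj w (F (p + 3 * s + 1))) (t : ℤ)
    (t0 : 0 ≤ t) (t1 : t ≤ s) : G.Adj w (F (p + 3 * t)) := by
  by_contra c
  exact b (h.tee_up hF a t0 c s t1 s1)

/-- The cycle `v, f α, f (α - 1), ..., f β, f γ, f (γ + 1), ..., f δ` that misses `f m`. -/
lemma O1.two (h : O1 G f v d) (lo m α β γ δ : ℤ) (h1 : β ≤ α) (h2 : γ ≤ δ)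
    (hl : ok lo (lo + ord V - 2) (ord V - 1) [(m, m), (α, β), (γ, δ)])
    (a : G.Adj (f β) (f γ)) (a1 : G.Adj v (f α)) (a2 : G.Adj v (f δ)) :
    ∃ F, NCyc G F (f m) ∧ (∀ t u, 0 ≤ t → t ≤ α - β → u = α - t → F t = f u) ∧
      ∀ t u, α - β < t → t < ord V - 2 → u = γ + t - (α - β + 1) → F t = f u := by
  obtain ⟨F, hF, -, -, e⟩ := h.cyc.build h.n3 lo m [(α, β), (γ, δ)] hl ⟨a, trivial⟩ a1 a2
  have ht := hl.2.2
  simp only [tot, slen] at ht
  refine ⟨F, hF, fun t u t0 t1 e1 => ?_, fun t u t0 t1 e1 => ?_⟩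
  · rw [e t t0 (by omega), sig, if_pos (by simp only [slen]; omega), sat]
    congr 1
    split_ifs <;> omega
  · rw [e t (by omega) t1, sig, if_neg (by simp only [slen]; omega), sig,
      if_pos (by simp only [slen]; omega), sat, if_pos h2]
    congr 1
    simp only [slen]
    omega

lemma O1.exists_x (h : O1 G f v d) : ∃ p, G.Adj v (f p) := by
  have h1 := h.ctx.deg v
  have := h.n3
  have := h.ctx.g2
  obtain ⟨x, hx⟩ := Finset.card_pos.1 (show 0 < (nb G v).card by omega)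
  rw [mem_nb] at hx
  obtain ⟨i, -, -, rfl⟩ := h.cyc.surj 0 x hx.ne'
  exact ⟨i, hx⟩

/-- Normal form for `n = 3 d + 1`. -/
lemma O1.norm1 (h : O1 G f v d) (hn : ord V = 3 * d + 1) :
    ∃ f, O1 G f v d ∧ ∀ t, G.Adj v (f t) ↔ t % 3 = 0 := by
  obtain ⟨p, hp⟩ := h.exists_x
  have h3 := h.n3
  have key : ∀ t, t % 3 = 0 → G.Adj v (f (t + p)) := by
    intro t ht
    obtain ⟨j, j0, j1, j2⟩ := h.cyc.1.win (by omega) p (t + p)
    have e : f j = f (t + p) := by simpa using j2 0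
    obtain ⟨k, hk⟩ : ∃ k, j = t + p + (ord V - 1) * k := by
      have h4 := Int.emod_add_mul_ediv (j - (t + p)) (ord V - 1)
      have h5 := h.cyc.1.per_mul (t + p + (j - (t + p)) % (ord V - 1)) ((j - (t + p)) / (ord V - 1))
      have h6 := Int.emod_nonneg (j - (t + p)) (show ord V - 1 ≠ 0 by omega)
      have h7 := Int.emod_lt_of_pos (j - (t + p)) (show 0 < ord V - 1 by omega)
      rw [show t + p + (j - (t + p)) % (ord V - 1) + (ord V - 1) * ((j - (t + p)) / (ord V - 1)) = j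
        by omega, e] at h5
      have := h.cyc.1.eq (by omega) (by omega) h5
      exact ⟨(j - (t + p)) / (ord V - 1), by omega⟩
    rw [show ord V - 1 = 3 * d by omega, mul_assoc] at hk
    have := (h.tee h.cyc hp ((j - p) / 3) (by omega) (by omega)).resolve_right (by omega)
    rwa [show p + 3 * ((j - p) / 3) = j by omega, e] at this
  refine ⟨_, h.shift p, fun t => ⟨fun a => ?_, key t⟩⟩
  by_contra c
  have := h.sp3 h.cyc (key (t - t % 3) (by omega)) a (by omega)
  omega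

/-- Normal form for `n = 3 d + 2`: the long segment is `f 1, f 2, f 3`. -/
lemma O1.norm2 (h : O1 G f v d) (hn : ord V = 3 * d + 2) :
    ∃ f, O1 G f v d ∧ ∀ t, -3 * d < t → t < 3 * d + 4 →
      (G.Adj v (f t) ↔ (t ≤ 0 ∧ t % 3 = 0) ∨ (4 ≤ t ∧ t % 3 = 1)) := by
  obtain ⟨p, hp⟩ := h.exists_x
  have h3 := h.n3
  obtain ⟨s, ⟨s0, s1, s2⟩, smax⟩ := exists_max_int
    (fun s => 0 ≤ s ∧ s < d ∧ G.Adj v (f (p + 3 * s))) d (fun _ a => a.2.1.le)
    ⟨0, le_rfl, by omega, by simpa using hp⟩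
  have k1 : G.Adj v (f (p + 3 * s + 4)) := by
    by_cases e : s + 1 = d
    · rwa [h.per' (show p + 3 * s + 4 = p + (ord V - 1) by omega)]
    · have := h.tee_up h.cyc hp (s := s + 1) (by omega)
        (fun a => by have := smax (s + 1) ⟨by omega, by omega, a⟩; omega) (s + 1) le_rfl (by omega)
      rwa [show p + 3 * (s + 1) + 1 = p + 3 * s + 4 by ring] at this
  have k2 : ∀ t, 1 ≤ t → t ≤ d → G.Adj v (f (3 * t + 1 + (p + 3 * s))) := by
    intro t t0 t1
    by_cases e : t = d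
    · rwa [h.per' (show 3 * t + 1 + (p + 3 * s) = p + 3 * s + (ord V - 1) by omega)]
    · have := h.tee_up h.cyc s2 (s := 1) (by omega)
        (fun a => by have := h.sp3 h.cyc a k1 (by omega); omega) t t0 (by omega)
      rwa [show p + 3 * s + 3 * t + 1 = 3 * t + 1 + (p + 3 * s) by ring] at this
  have k3 : ∀ t, -3 * d < t → t < 3 * d + 4 → (t ≤ 0 ∧ t % 3 = 0) ∨ (4 ≤ t ∧ t % 3 = 1) →
      G.Adj v (f (t + (p + 3 * s))) := by
    rintro t t0 t1 (⟨a, b⟩ | ⟨a, b⟩)
    · have := k2 (d + t / 3) (by omega) (by omega)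
      rwa [h.per' (show 3 * (d + t / 3) + 1 + (p + 3 * s) = t + (p + 3 * s) + (ord V - 1) by
        omega)] at this
    · have := k2 (t / 3) (by omega) (by omega)
      rwa [show 3 * (t / 3) + 1 = t by omega] at this
  refine ⟨_, h.shift (p + 3 * s), fun t t0 t1 => ⟨fun a => ?_, k3 t t0 t1⟩⟩
  by_contra c
  by_cases e : t ≤ 0
  · have := h.sp3 h.cyc a (k3 (t + (3 - t % 3)) (by omega) (by omega) (by omega)) (by omega)
    omega
  · by_cases e' : t ≤ 2
    · have := h.sp3 h.cyc (k3 0 (by omega) (by omega) (by omega)) a (by omega)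
      omega
    · by_cases e'' : t = 3
      · have := h.sp3 h.cyc a k1 (by omega)
        omega
      · have := h.sp3 h.cyc (k3 (t - (t - 1) % 3) (by omega) (by omega) (by omega)) a (by omega)
        omega

/-- The cycle `v, f α, f (α + 1), ..., f β, f γ, f (γ - 1), ..., f δ` that misses `f m`. -/
lemma O1.two' (h : O1 G f v d) (lo m α β γ δ : ℤ) (h1 : α ≤ β) (h2 : δ ≤ γ)
    (hl : ok lo (lo + ord V - 2) (ord V - 1) [(m, m), (α, β), (γ, δ)])
    (a : G.Adj (f β) (f γ)) (a1 : G.Adj v (f α)) (a2 : G.Adj v (f δ)) :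
    ∃ F, NCyc G F (f m) ∧ (∀ t u, 0 ≤ t → t ≤ β - α → u = α + t → F t = f u) ∧
      ∀ t u, β - α < t → t < ord V - 2 → u = γ - t + (β - α + 1) → F t = f u := by
  obtain ⟨F, hF, -, -, e⟩ := h.cyc.build h.n3 lo m [(α, β), (γ, δ)] hl ⟨a, trivial⟩ a1 a2
  have ht := hl.2.2
  simp only [tot, slen] at ht
  refine ⟨F, hF, fun t u t0 t1 e1 => ?_, fun t u t0 t1 e1 => ?_⟩
  · rw [e t t0 (by omega), sig, if_pos (by simp only [slen]; omega), sat, if_pos h1, e1]
  · rw [e t (by omega) t1, sig, if_neg (by simp only [slen]; omega), sig,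
      if_pos (by simp only [slen]; omega), sat]
    congr 1
    simp only [slen]
    split_ifs <;> omega

/-- A chord from a successor `f p` to a predecessor `f q` of neighbours of `v` that jumps over
the neighbour `f s`. -/
structure Jump (G : SimpleGraph V) (f : ℤ → V) (v : V) (p s q : ℤ) : Prop where
  l1 : p < s
  l2 : s < q
  l3 : q + 3 ≤ p + ord V
  x1 : G.Adj v (f (p - 1))
  x2 : G.Adj v (f (q + 1))
  x3 : G.Adj v (f s)
  adj : G.Adj (f p) (f q)

lemma O1.xx (h : O1 G f v d) {s t : ℤ} (a : G.Adj v (f s)) (b : G.Adj v (f t)) (hst : s < t) :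
    s + 3 ≤ t := h.sp3 h.cyc a b hst

lemma O1.e1 (h : O1 G f v d) {p s q : ℤ} (j : Jump G f v p s q) :
    ¬ G.Adj (f (s + 1)) (f (p - 1)) := fun a => by
  have := j.l1; have := j.l2; have := j.l3
  exact h.seg p [(q + 1, p - 1 + (ord V - 1)), (s + 1, q), (p, s)]
    (by simp only [ok, inw, dis, dis1, sdis, tot, slen, and_true]; omega)
    ⟨by simpa only [h.per] using a.symm, j.adj.symm, trivial⟩ j.x2 j.x3

lemma O1.e2 (h : O1 G f v d) {p s q : ℤ} (j : Jump G f v p s q) :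
    ¬ G.Adj (f (s + 1)) (f (q + 1)) := fun a => by
  have := j.l1; have := j.l2; have := j.l3
  exact h.seg p [(p - 1 + (ord V - 1), q + 1), (s + 1, q), (p, s)]
    (by simp only [ok, inw, dis, dis1, sdis, tot, slen, and_true]; omega)
    ⟨a.symm, j.adj.symm, trivial⟩ (by simpa only [fst, h.per] using j.x1) j.x3

lemma O1.e1' (h : O1 G f v d) {p s q : ℤ} (j : Jump G f v p s q) :
    ¬ G.Adj (f (s - 1)) (f (p - 1)) := fun a => by
  have := j.l1; have := j.l2; have := j.l3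
  exact h.seg p [(q + 1, p - 1 + (ord V - 1)), (s - 1, p), (q, s)]
    (by simp only [ok, inw, dis, dis1, sdis, tot, slen, and_true]; omega)
    ⟨by simpa only [h.per] using a.symm, j.adj, trivial⟩ j.x2 j.x3

lemma O1.e2' (h : O1 G f v d) {p s q : ℤ} (j : Jump G f v p s q) :
    ¬ G.Adj (f (s - 1)) (f (q + 1)) := fun a => by
  have := j.l1; have := j.l2; have := j.l3
  exact h.seg p [(p - 1 + (ord V - 1), q + 1), (s - 1, p), (q, s)]
    (by simp only [ok, inw, dis, dis1, sdis, tot, slen, and_true]; omega)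
    ⟨a.symm, j.adj, trivial⟩ (by simpa only [fst, h.per] using j.x1) j.x3

lemma O1.ell (h : O1 G f v d) {p s q : ℤ} (j : Jump G f v p s q) :
    ¬ G.Adj (f (s + 1)) (f (p + 1)) := fun a => by
  have := j.l1; have := j.l2; have := j.l3
  exact h.seg p [(q + 1, p - 1 + (ord V - 1)), (p, p), (q, s + 1), (p + 1, s)]
    (by simp only [ok, inw, dis, dis1, sdis, tot, slen, and_true]; omega)
    ⟨by simpa only [h.per, sub_add_cancel] using h.cyc.1.adj (p - 1), j.adj, a, trivial⟩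
    j.x2 j.x3

lemma O1.ell' (h : O1 G f v d) {p s q : ℤ} (j : Jump G f v p s q) :
    ¬ G.Adj (f (s - 1)) (f (q - 1)) := fun a => by
  have := j.l1; have := j.l2; have := j.l3
  exact h.seg p [(p - 1 + (ord V - 1), q), (p, s - 1), (q - 1, s)]
    (by simp only [ok, inw, dis, dis1, sdis, tot, slen, and_true]; omega)
    ⟨j.adj.symm, a, trivial⟩ (by simpa only [fst, h.per] using j.x1) j.x3

/-- Successors of neighbours of `v` are not adjacent. -/
lemma O1.aa (h : O1 G f v d) {p p' : ℤ} (h1 : p < p') (h3 : p' < p + (ord V - 1))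
    (x1 : G.Adj v (f (p - 1))) (x2 : G.Adj v (f (p' - 1))) : ¬ G.Adj (f p) (f p') := fun a =>
  h.seg p [(p - 1 + (ord V - 1), p'), (p, p' - 1)]
    (by simp only [ok, inw, dis, dis1, sdis, tot, slen, and_true]; omega)
    ⟨a.symm, trivial⟩ (by simpa only [fst, h.per] using x1) x2

lemma O1.bb (h : O1 G f v d) {q q' : ℤ} (h1 : q < q') (h3 : q' < q + (ord V - 1))
    (x1 : G.Adj v (f (q + 1))) (x2 : G.Adj v (f (q' + 1))) : ¬ G.Adj (f q) (f q') := fun a =>
  h.seg (q + 1) [(q' + 1, q + (ord V - 1)), (q', q + 1)]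
    (by simp only [ok, inw, dis, dis1, sdis, tot, slen, and_true]; omega)
    ⟨by simpa only [h.per] using a, trivial⟩ x2 x1

lemma O1.lamA (h : O1 G f v d) {p p' z : ℤ} (h1 : p ≤ z) (h2 : z + 1 < p')
    (h3 : p' < p + (ord V - 1)) (x1 : G.Adj v (f (p - 1))) (x2 : G.Adj v (f (p' - 1)))
    (a1 : G.Adj (f p) (f (z + 1))) (a2 : G.Adj (f p') (f z)) : False :=
  h.seg p [(p - 1 + (ord V - 1), p'), (z, p), (z + 1, p' - 1)]
    (by simp only [ok, inw, dis, dis1, sdis, tot, slen, and_true]; omega)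
    ⟨a2, a1, trivial⟩ (by simpa only [fst, h.per] using x1) x2

lemma O1.lamB (h : O1 G f v d) {q q' z : ℤ} (h1 : z ≤ q) (h2 : q' + 1 < z)
    (h3 : q < q' + (ord V - 1)) (x1 : G.Adj v (f (q + 1))) (x2 : G.Adj v (f (q' + 1)))
    (a1 : G.Adj (f q) (f (z - 1))) (a2 : G.Adj (f q') (f z)) : False :=
  h.seg (q' + 1) [(q + 1, q' + (ord V - 1)), (z, q), (z - 1, q' + 1)]
    (by simp only [ok, inw, dis, dis1, sdis, tot, slen, and_true]; omega)
    ⟨by simpa only [h.per] using a2, a1, trivial⟩ x1 x2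

/-- If `f p'` is adjacent to `f (p + 1)` then `f p` is missed by a cycle on which `v` lies between
`f (p - 1)` and `f (p' - 1)`. -/
lemma O1.r1 (h : O1 G f v d) {p p' : ℤ} (h1 : p + 2 < p') (h3 : p' < p + (ord V - 1))
    (x1 : G.Adj v (f (p - 1))) (x2 : G.Adj v (f (p' - 1))) (a : G.Adj (f p') (f (p + 1))) :
    ¬ G.Adj (f p) (f (p' - 1)) := fun b => by
  have hn := h.n3
  obtain ⟨F, hF, e1, e2⟩ := h.two p p (p' - 1) (p + 1) p' (p - 1 + (ord V - 1)) (by omega)
    (by omega) (by simp only [ok, inw, dis, dis1, sdis, tot, slen, and_true]; omega) a.symm x2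
    (by simpa only [h.per] using x1)
  refine h.sp F _ hF (ord V - 3) ?_ ?_
  · rw [e2 _ (p - 1 + (ord V - 1)) (by omega) (by omega) (by omega), h.per]
    simpa using (h.cyc.1.adj (p - 1)).symm
  · rw [show ord V - 3 + 2 = 0 + (ord V - 1) by ring, hF.1.per,
      e1 0 (p' - 1) le_rfl (by omega) (by omega)]
    exact b

lemma O1.r1' (h : O1 G f v d) {q q' : ℤ} (h1 : q' + 2 < q) (h3 : q < q' + (ord V - 1))
    (x1 : G.Adj v (f (q + 1))) (x2 : G.Adj v (f (q' + 1))) (a : G.Adj (f q') (f (q - 1))) :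
    ¬ G.Adj (f q) (f (q' + 1)) := by
  have := (h.refl 0).r1 (p := -q) (p' := -q') (by omega) (by omega)
    (by simpa [sub_eq_add_neg, add_comm] using x1) (by simpa [sub_eq_add_neg, add_comm] using x2)
    (by simpa [sub_eq_add_neg, add_comm] using a)
  simpa [sub_eq_add_neg, add_comm] using this

lemma O1.deg_v (h : O1 G f v d) : ((nb G v).card : ℤ) ≤ d := by
  obtain ⟨p, a⟩ := h.exists_x
  have hn := h.n3
  have hg := h.ctx.g2
  choose ix h0 h1 hix using h.cyc.surj p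
  let ix' : V → ℤ := fun x => if hx : x = v then 0 else ix x hx
  have k : ∀ x ∈ nb G v, p ≤ ix' x ∧ ix' x + 3 ≤ p + (ord V - 1) ∧ f (ix' x) = x ∧
      G.Adj v (f (ix' x)) := by
    intro x hx
    rw [mem_nb] at hx
    simp only [ix', dif_neg hx.ne']
    have b : G.Adj v (f (ix x hx.ne')) := by rwa [hix]
    exact ⟨h0 _ _, h.xx b (by rwa [h.per]) (h1 _ _), hix _ _, b⟩
  have := Finset.card_le_card_of_injOn (s := nb G v) (t := Finset.Ico (0 : ℤ) d)
    (fun x => (ix' x - p) / 3) (by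
      intro x hx
      obtain ⟨k1, k2, -, k4⟩ := k x hx
      simp only [Finset.coe_Ico, Set.mem_Ico]
      omega) (by
      intro x hx y hy e
      obtain ⟨k1, k2, k3, k4⟩ := k x hx
      obtain ⟨l1, l2, l3, l4⟩ := k y hy
      have m1 := h.xx k4 l4
      have m2 := h.xx l4 k4
      have : ix' x = ix' y := by
        simp only at e
        omega
      rw [← k3, ← l3, this])
  rw [Int.card_Ico] at this
  omega

/-- A vertex has as many neighbours outside `N(v)` as it misses vertices of `N(v)`. -/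
lemma O1.miss (h : O1 G f v d) (w : V) (Z W : Finset V) (hZ : ∀ z ∈ Z, G.Adj v z ∧ ¬ G.Adj w z)
    (hW : ∀ x, G.Adj w x → G.Adj v x ∨ x ∈ W) : Z.card ≤ W.card := by
  have h1 := h.ctx.deg_le w ((nb G v \ Z) ∪ W) (by
    intro x a
    rcases hW x a with b | b
    · exact Finset.mem_union_left _ (Finset.mem_sdiff.2 ⟨mem_nb.2 b, fun c => (hZ x c).2 a⟩)
    · exact Finset.mem_union_right _ b)
  have h2 := Finset.card_union_le (nb G v \ Z) W
  have h3 := Finset.card_sdiff_add_card_eq_card (s := Z) (t := nb G v)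
    (fun z hz => mem_nb.2 (hZ z hz).1)
  have := h.deg_v
  omega

/-- The normal form for `n = 3 d + 2`. -/
structure N2 (G : SimpleGraph V) (f : ℤ → V) (v : V) (d : ℤ) : Prop extends O1 G f v d where
  hn : ord V = 3 * d + 2
  hx : ∀ t, -3 * d < t → t < 3 * d + 4 →
    (G.Adj v (f t) ↔ (t ≤ 0 ∧ t % 3 = 0) ∨ (4 ≤ t ∧ t % 3 = 1))

lemma N2.refl (h : N2 G f v d) : N2 G (fun t => f (4 - t)) v d :=
  ⟨h.toO1.refl 4, h.hn, fun t a b => by rw [h.hx (4 - t) (by omega) (by omega)]; omega⟩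

lemma O1.n2 (h : O1 G f v d) (hn : ord V = 3 * d + 2) : ∃ f, N2 G f v d := by
  obtain ⟨f, h1, h2⟩ := h.norm2 hn
  exact ⟨f, h1, hn, h2⟩

/-- No chord from a successor to a predecessor of `N(v)` other than inside a segment or around a
neighbour of `v`. -/
def NoFar (G : SimpleGraph V) (f : ℤ → V) (v : V) : Prop :=
  ∀ p q, G.Adj v (f (p - 1)) → G.Adj v (f (q + 1)) → p + 3 ≤ q → q + 2 < p + (ord V - 1) →
    ¬ G.Adj (f p) (f q)

end Pool.Agent.P.MP_422cad_co
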