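import Pool.Agent.P.MP_422cad_co.Classify
import Pool.Agent.P.MP_422cad_co.CaseB
import Pool.Agent.P.MP_422cad_co.KillS2
import Pool.Agent.P.MP_422cad_co.KillKh3
import Pool.Agent.P.MP_422cad_co.KillKh2

set_option autoImplicit false

namespace Pool.Agent.P.MP_422cad_co

open SimpleGraph Classical

variable {V : Type} [Fintype V] {G : SimpleGraph V} {d : ℤ}

/-- Some vertex-deleted subgraph is hamiltonian. -/
theorem Ctx.exists_ncyc (hx : Ctx G d) : ∃ f v, NCyc G f v := by
  obtain ⟨p, q, h⟩ := exists_minLol hx.mnh hx.nou (by have := hx.n3; omega)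
  by_cases hq : q < 2
  · exact h.ncyc hx.mnh hq
  exfalso
  obtain ⟨s, u1, u2, hs, hl⟩ := caseB hx h (by omega)
  have hcl : ∀ s u1 u2, Stick G s q → Lk G s q u1 u2 →
      S2 G s q u1 u2 ∨ S11 G s q d u1 u2 ∨ Kh G s q d := fun s u1 u2 a b => classify hx a b
  refine killS2 hx (fun s u1 u2 a b => ?_) hs hl
  rcases hcl s u1 u2 a b with c | c | c
  · exact c
  · exact (killS11 hx hcl a b c).elim
  · by_cases e : q = 2
    · subst e
      exact (killKh2 hx hcl a c).elim
    · exact (killKh3 hx (by omega) hcl a c).elim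

end Pool.Agent.P.MP_422cad_co
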