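import Pool.Agent.P.MP_422cad_co.Chord

set_option autoImplicit false

namespace Pool.Agent.P.MP_422cad_co

open SimpleGraph

/-- Passing to a maximal non-hamiltonian supergraph. -/
lemma reduce (V : Type) [Fintype V] [DecidableEq V] (G : SimpleGraph V) [DecidableRel G.Adj]
    (hn : 3 ≤ Fintype.card V)
    (ht : ∀ S : Finset V, S.Nonempty → S ≠ Finset.univ →
        ∃ F : SimpleGraph V, F ≤ G ∧ F.IsAcyclic ∧
          (∀ v, (F.neighborSet v).ncard ≤ 2) ∧
          (∀ v w, F.Adj v w → v ∉ S ∧ w ∉ S) ∧
          (Finset.univ \ S).card ≤ S.card + Nat.card F.edgeSet)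
    (hG : ¬ G.IsHamiltonian) :
    ∃ H, G ≤ H ∧ MNH H ∧ NoU H ∧ ∀ w, (G.minDegree : ℤ) ≤ (nb H w).card := by
  have hn' : 3 ≤ ord V := by unfold ord; omega
  obtain ⟨H, h1, h2⟩ := exists_mnh G (fun h => hG (h.isHamiltonian hn)) hn'
  refine ⟨H, h1, h2, fun u => ?_, fun w => ?_⟩
  · by_contra h3
    push Not at h3
    obtain ⟨F, f1, f2, f3, f4, f5⟩ := ht {u} (by simp) (by
      intro e
      have := congrArg Finset.card e
      rw [Finset.card_singleton, Finset.card_univ] at this
      omega)
    rw [Finset.card_sdiff_of_subset (Finset.subset_univ _), Finset.card_univ,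
      Finset.card_singleton] at f5
    obtain ⟨p, hp, hv⟩ := path_of_forest F u f2 f3
      (fun a b h => by simpa using (f4 a b h).1) (by omega) (by omega)
    exact h2.nh (ham_of_univ u p (hp.mono fun a b h => h1 (f1 h)) hv h3 (by omega))
  · have a := G.minDegree_le_degree w
    have b : G.neighborFinset w ⊆ nb H w := by
      intro x hx
      rw [mem_nb]
      exact h1 (by simpa using hx)
    have c := Finset.card_le_card b
    rw [card_neighborFinset_eq_degree] at c
    omega

end Pool.Agent.P.MP_422cad_co
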