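import Pool.Agent.P.MP_422cad_co.Tough

set_option autoImplicit false

namespace Pool.Agent.P.MP_422cad_co

open SimpleGraph

variable {V : Type}

def inw (lo hi : ℤ) : List (ℤ × ℤ) → Prop
  | [] => True
  | s :: t => (lo ≤ min s.1 s.2 ∧ max s.1 s.2 ≤ hi) ∧ inw lo hi t

def dis1 (s : ℤ × ℤ) : List (ℤ × ℤ) → Prop
  | [] => True
  | u :: t => sdis s u ∧ dis1 s t

def dis : List (ℤ × ℤ) → Prop
  | [] => True
  | s :: t => dis1 s t ∧ dis t

/-- The segments lie in the window, are pairwise disjoint and have total size `k`. -/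
def ok (lo hi k : ℤ) (l : List (ℤ × ℤ)) : Prop := inw lo hi l ∧ dis l ∧ tot l = k

def chn (R : V → V → Prop) (f : ℤ → V) : List (ℤ × ℤ) → Prop
  | s :: u :: t => R (f s.2) (f u.1) ∧ chn R f (u :: t)
  | _ => True

def fst : List (ℤ × ℤ) → ℤ
  | [] => 0
  | s :: _ => s.1

def lst : List (ℤ × ℤ) → ℤ
  | [] => 0
  | [s] => s.2
  | _ :: u :: t => lst (u :: t)

lemma inw_iff (lo hi : ℤ) (l : List (ℤ × ℤ)) :
    inw lo hi l ↔ ∀ s ∈ l, lo ≤ min s.1 s.2 ∧ max s.1 s.2 ≤ hi := by
  induction l with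
  | nil => simp [inw]
  | cons s t ih => simp only [inw, ih, List.mem_cons, forall_eq_or_imp]

lemma dis1_iff (s : ℤ × ℤ) (l : List (ℤ × ℤ)) : dis1 s l ↔ ∀ u ∈ l, sdis s u := by
  induction l with
  | nil => simp [dis1]
  | cons u t ih => simp only [dis1, ih, List.mem_cons, forall_eq_or_imp]

lemma dis_iff (l : List (ℤ × ℤ)) : dis l ↔ l.Pairwise sdis := by
  induction l with
  | nil => simp [dis]
  | cons u t ih => simp only [dis, ih, List.pairwise_cons, dis1_iff]

lemma chn_iff (R : V → V → Prop) (f : ℤ → V) (l : List (ℤ × ℤ)) :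
    chn R f l ↔ l.IsChain (fun s t => R (f s.2) (f t.1)) := by
  induction l with
  | nil => simp [chn]
  | cons s t ih =>
    cases t with
    | nil => simp [chn]
    | cons u t' => simp only [chn, ih, List.isChain_cons_cons]

lemma sig_fst (l : List (ℤ × ℤ)) : sig l 0 = fst l := by
  cases l with
  | nil => rfl
  | cons s t => exact sig_zero s t

lemma sig_lst (l : List (ℤ × ℤ)) (h : 0 < tot l) : sig l (tot l - 1) = lst l := by
  induction l with
  | nil => rfl
  | cons s t ih =>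
    cases t with
    | nil => exact sig_last [] s
    | cons u t' =>
      have h1 : 0 < tot (u :: t') := by
        have := slen_pos u; have := tot_nonneg t'; simp only [tot]; omega
      have h2 : ¬ (tot (s :: u :: t') - 1 < slen s) := by
        simp only [tot] at h1 ⊢; omega
      rw [sig, if_neg h2, lst, ← ih h1]
      congr 1
      simp only [tot]; omega

/-- Main construction of paths out of segments. -/
lemma mkpath (R : V → V → Prop) (f : ℤ → V) (lo hi k : ℤ)
    (hs : ∀ i, lo ≤ i → i < hi → R (f i) (f (i + 1)) ∧ R (f (i + 1)) (f i))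
    (hinj : ∀ i j, lo ≤ i → i < j → j ≤ hi → f i ≠ f j)
    (l : List (ℤ × ℤ)) (h : ok lo hi k l) (hj : chn R f l) (hk : 0 < k) :
    IsP R (fun i => f (sig l i)) k ∧ f (sig l 0) = f (fst l) ∧ f (sig l (k - 1)) = f (lst l) ∧
      ∀ i, 0 ≤ i → i < k → lo ≤ sig l i ∧ sig l i ≤ hi := by
  obtain ⟨h1, h2, h3⟩ := h
  subst h3
  refine ⟨segs_path R f lo hi hs hinj l ((inw_iff _ _ _).1 h1) ((dis_iff _).1 h2)
    ((chn_iff _ _ _).1 hj), by rw [sig_fst], by rw [sig_lst _ hk], fun i h0 h4 => ?_⟩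
  obtain ⟨s, hs, h5⟩ := sig_mem l i h0 h4
  have := (inw_iff _ _ _).1 h1 s hs
  omega

variable [Fintype V]

lemma IsP.re {G : SimpleGraph V} {p : ℤ → V} (h : IsP G.Adj p (ord V)) (l : List (ℤ × ℤ))
    (hl : ok 0 (ord V - 1) (ord V) l) (hj : chn G.Adj p l) (hn : 0 < ord V) :
    IsP G.Adj (fun i => p (sig l i)) (ord V) ∧ p (sig l 0) = p (fst l) ∧
      p (sig l (ord V - 1)) = p (lst l) := by
  have := mkpath G.Adj p 0 (ord V - 1) (ord V) h.steps h.injs l hl hj hn
  exact ⟨this.1, this.2.1, this.2.2.1⟩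

lemma IsP.hamS {G : SimpleGraph V} {p : ℤ → V} (h : IsP G.Adj p (ord V)) (l : List (ℤ × ℤ))
    (hl : ok 0 (ord V - 1) (ord V) l) (hj : chn G.Adj p l) (hn : 0 < ord V)
    (hc : G.Adj (p (lst l)) (p (fst l))) : Ham G := by
  obtain ⟨h1, h2, h3⟩ := h.re l hl hj hn
  exact h1.ham hn (by simpa only [h2, h3] using hc)

open Classical in
/-- The neighbourhood as a finite set. -/
noncomputable def nb (G : SimpleGraph V) (v : V) : Finset V := Finset.univ.filter (G.Adj v)

@[simp] lemma mem_nb {G : SimpleGraph V} {v w : V} : w ∈ nb G v ↔ G.Adj v w := by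
  simp [nb]

/-- A lollipop: a Hamilton path whose last vertex is adjacent to the vertex number `q`. -/
def Lol (G : SimpleGraph V) (p : ℤ → V) (q : ℤ) : Prop :=
  IsP G.Adj p (ord V) ∧ 0 ≤ q ∧ q < ord V ∧ G.Adj (p (ord V - 1)) (p q)

lemma IsP.lol {G : SimpleGraph V} {p : ℤ → V} (h : IsP G.Adj p (ord V)) (l m : List (ℤ × ℤ))
    (hl : ok 0 (ord V - 1) (ord V) (l ++ m)) (hj : chn G.Adj p (l ++ m))
    (hm : 0 < tot m) (hc : G.Adj (p (lst (l ++ m))) (p (fst m))) :
    Lol G (fun i => p (sig (l ++ m) i)) (tot l) := by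
  have h0 := tot_nonneg l
  have h4 := hl.2.2
  rw [tot_append] at h4
  obtain ⟨h1, h2, h3⟩ := h.re _ hl hj (by omega)
  refine ⟨h1, h0, by omega, ?_⟩
  have := sig_append l m 0 le_rfl
  rw [add_zero, sig_fst] at this
  simpa only [h3, this] using hc

open Classical in
/-- Indices of the neighbours of a vertex along a Hamilton path. -/
noncomputable def nbi (G : SimpleGraph V) (p : ℤ → V) (w : V) : Finset ℤ :=
  (Finset.Ico 0 (ord V)).filter (fun i => G.Adj w (p i))

lemma mem_nbi {G : SimpleGraph V} {p : ℤ → V} {w : V} {i : ℤ} :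
    i ∈ nbi G p w ↔ 0 ≤ i ∧ i < ord V ∧ G.Adj w (p i) := by
  simp [nbi, and_assoc]

lemma card_nbi {G : SimpleGraph V} {p : ℤ → V} (h : IsP G.Adj p (ord V)) (w : V) :
    (nbi G p w).card = (nb G w).card := by
  apply Finset.card_bij (fun i _ => p i)
  · intro i hi; simpa using (mem_nbi.1 hi).2.2
  · intro i hi j hj e
    rw [mem_nbi] at hi hj
    exact h.eq hi.1 hi.2.1 hj.1 hj.2.1 e
  · intro x hx
    obtain ⟨i, h0, h1, rfl⟩ := h.surj_univ x
    exact ⟨i, mem_nbi.2 ⟨h0, h1, by simpa using hx⟩, rfl⟩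

end Pool.Agent.P.MP_422cad_co
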