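import Pool.Agent.P.MP_422cad_co.Hop

set_option autoImplicit false

namespace Pool.Agent.P.MP_422cad_co

open SimpleGraph Classical

variable {V : Type} [Fintype V]

lemma NCyc.nu {G : SimpleGraph V} {f : ℤ → V} {v : V} (h : NCyc G f v) (hn : 2 ≤ ord V) :
    ∃ ν : V ≃ V, ν v = v ∧ ∀ i, ν (f i) = f (i + 1) := by
  have hs := h.surj 0
  choose ix h0 h1 hix using hs
  let ν : V → V := fun w => if hw : w = v then v else f (ix w hw + 1)
  have hν : ∀ i, ν (f i) = f (i + 1) := by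
    intro i
    simp only [ν, h.2 i, dif_neg, not_false_iff]
    exact h.1.shift (by omega) (hix _ _) 1
  have hv : ν v = v := by simp [ν]
  have hsurj : Function.Surjective ν := by
    intro w
    by_cases hw : w = v
    · exact ⟨v, by rw [hv, hw]⟩
    · exact ⟨f (ix w hw - 1), by rw [hν, sub_add_cancel, hix]⟩
  exact ⟨Equiv.ofBijective ν (Finite.surjective_iff_bijective.1 hsurj), hv, hν⟩

structure St (G : SimpleGraph V) (f : ℤ → V) (v : V) (Y : Finset V) (ν : V ≃ V) (d : ℤ) :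
    Prop where
  mnh : MNH G
  nou : NoU G
  hop : MaxHop G f v Y
  nv : ν v = v
  nu : ∀ i, ν (f i) = f (i + 1)
  deg : ∀ w, d ≤ (nb G w).card
  n3 : 3 ≤ ord V

noncomputable def XX (G : SimpleGraph V) (Y : Finset V) : Finset V := Finset.univ.filter (NX G Y)

noncomputable def AA (G : SimpleGraph V) (Y : Finset V) (ν : V ≃ V) : Finset V :=
  (XX G Y).image ν \ Y

noncomputable def RR (G : SimpleGraph V) (Y : Finset V) (ν : V ≃ V) : Finset V :=
  Finset.univ \ (XX G Y ∪ Y ∪ AA G Y ν ∪ AA G Y ν.symm)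

/-- Complete to `Y`. -/
def IsU (G : SimpleGraph V) (Y : Finset V) (u : V) : Prop := ∀ y ∈ Y, G.Adj y u

noncomputable def TT (G : SimpleGraph V) (Y : Finset V) : Finset V :=
  (XX G Y).filter (fun u => ¬ IsU G Y u)

/-- A vertex that misses at least `|Y|` vertices of `X`. -/
def Poor (G : SimpleGraph V) (Y : Finset V) (r : V) : Prop :=
  (nb G r ∩ XX G Y).card + Y.card ≤ (XX G Y).card

/-- Non-neighbours outside `X ∪ Y`. -/
noncomputable def MM (G : SimpleGraph V) (Y : Finset V) (u : V) : Finset V :=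
  Finset.univ.filter (fun s => ¬ NX G Y s ∧ s ∉ Y ∧ ¬ G.Adj u s)

variable {G : SimpleGraph V} {f : ℤ → V} {v : V} {Y : Finset V} {ν : V ≃ V} {d : ℤ}

@[simp] lemma mem_XX {x : V} : x ∈ XX G Y ↔ NX G Y x := by simp [XX]

lemma mem_AA {x : V} : x ∈ AA G Y ν ↔ NX G Y (ν.symm x) ∧ x ∉ Y := by
  simp only [AA, Finset.mem_sdiff, Finset.mem_image, mem_XX]
  refine and_congr_left fun _ => ⟨?_, fun h => ⟨_, h, by simp⟩⟩
  rintro ⟨a, ha, rfl⟩
  simpa using ha

lemma mem_RR {x : V} : x ∈ RR G Y ν ↔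
    ¬ NX G Y x ∧ x ∉ Y ∧ x ∉ AA G Y ν ∧ x ∉ AA G Y ν.symm := by
  simp [RR]

lemma mem_TT {x : V} : x ∈ TT G Y ↔ NX G Y x ∧ ¬ IsU G Y x := by simp [TT]

lemma mem_MM {u x : V} : x ∈ MM G Y u ↔ ¬ NX G Y x ∧ x ∉ Y ∧ ¬ G.Adj u x := by simp [MM]

lemma RR_symm : RR G Y ν.symm = RR G Y ν := by
  ext x
  simp only [mem_RR, Equiv.symm_symm]
  tauto

lemma St.nus (h : St G f v Y ν d) (i : ℤ) : ν.symm (f i) = f (i - 1) := by
  rw [Equiv.symm_apply_eq, h.nu, sub_add_cancel]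

lemma St.nvs (h : St G f v Y ν d) : ν.symm v = v := by
  rw [Equiv.symm_apply_eq, h.nv]

lemma St.rev (h : St G f v Y ν d) : St G (fun i => f (-i)) v Y ν.symm d :=
  ⟨h.mnh, h.nou, h.hop.rev, h.nvs, fun i => by rw [h.nus]; congr 1; ring, h.deg, h.n3⟩

lemma St.n2 (h : St G f v Y ν d) : 2 ≤ ord V := by have := h.n3; omega

lemma St.surj (h : St G f v Y ν d) (lo : ℤ) {w : V} (hw : w ≠ v) :
    ∃ i, lo ≤ i ∧ i < lo + (ord V - 1) ∧ f i = w := h.hop.cyc.surj lo w hw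

lemma St.per (h : St G f v Y ν d) (i : ℤ) : f (i + (ord V - 1)) = f i := h.hop.cyc.1.per i

lemma St.per' (h : St G f v Y ν d) (i : ℤ) : f (i + ord V - 2) = f (i - 1) := by
  rw [← h.per (i - 1)]; congr 1; ring

lemma St.ne_of_nmem (h : St G f v Y ν d) {w : V} (hw : w ∉ Y) : w ≠ v :=
  fun e => hw (e ▸ h.hop.mem)

lemma St.nmem (h : St G f v Y ν d) {x : V} (hx : NX G Y x) : x ∉ Y := h.hop.toHop.nmem hx

lemma St.isU_adj (h : St G f v Y ν d) {u : V} (hu : IsU G Y u) : G.Adj v u := hu v h.hop.mem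

lemma St.isU_nx (h : St G f v Y ν d) {u : V} (hu : IsU G Y u) : NX G Y u :=
  ⟨v, h.hop.mem, h.isU_adj hu⟩

lemma St.aa_idx (h : St G f v Y ν d) {i : ℤ} :
    f i ∈ AA G Y ν ↔ NX G Y (f (i - 1)) ∧ f i ∉ Y := by rw [mem_AA, h.nus]

lemma St.bb_idx (h : St G f v Y ν d) {i : ℤ} :
    f i ∈ AA G Y ν.symm ↔ NX G Y (f (i + 1)) ∧ f i ∉ Y := by
  rw [mem_AA, Equiv.symm_symm, h.nu]

lemma St.card_AA (h : St G f v Y ν d) : (AA G Y ν).card + Y.card = (XX G Y).card + 1 := by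
  have h1 : (XX G Y).image ν ∩ Y = Y.erase v := by
    ext y
    simp only [Finset.mem_inter, Finset.mem_image, mem_XX, Finset.mem_erase]
    constructor
    · rintro ⟨⟨a, ha, rfl⟩, hy⟩
      refine ⟨fun e => ?_, hy⟩
      rw [← h.nv, Equiv.apply_eq_iff_eq] at e
      exact h.nmem ha (e ▸ h.hop.mem)
    · rintro ⟨hv, hy⟩
      obtain ⟨i, -, -, rfl⟩ := h.surj 0 hv
      exact ⟨⟨_, (h.hop.nbr i hy).1, by rw [h.nu, sub_add_cancel]⟩, hy⟩
  have h2 := Finset.card_sdiff_add_card_inter ((XX G Y).image ν) Y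
  rw [h1, Finset.card_erase_of_mem h.hop.mem, Finset.card_image_of_injective _ ν.injective] at h2
  have : 0 < Y.card := Finset.card_pos.2 ⟨v, h.hop.mem⟩
  unfold AA
  omega

lemma St.aa_nx (h : St G f v Y ν d) {a : V} (ha : a ∈ AA G Y ν) : ¬ NX G Y a := by
  intro hx
  obtain ⟨i, -, -, rfl⟩ := h.surj 0 (h.ne_of_nmem (mem_AA.1 ha).2)
  exact h.hop.toHop.nocons h.n2 (i - 1) (h.aa_idx.1 ha).1 (by simpa using hx)

lemma St.aa_bb (h : St G f v Y ν d) {a : V} (ha : a ∈ AA G Y ν) : a ∉ AA G Y ν.symm := by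
  intro hb
  obtain ⟨i, -, -, rfl⟩ := h.surj 0 (h.ne_of_nmem (mem_AA.1 ha).2)
  exact (mem_AA.1 ha).2 (h.hop.closed h.n2 i (h.aa_idx.1 ha).1 (h.bb_idx.1 hb).1)

lemma St.card_all (h : St G f v Y ν d) :
    ord V + Y.card = 3 * (XX G Y).card + 2 + (RR G Y ν).card := by
  have h1 := h.card_AA
  have h2 := h.rev.card_AA
  have h3 : (XX G Y ∪ Y ∪ AA G Y ν ∪ AA G Y ν.symm).card =
      (XX G Y).card + Y.card + (AA G Y ν).card + (AA G Y ν.symm).card := by
    rw [Finset.card_union_of_disjoint, Finset.card_union_of_disjoint,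
      Finset.card_union_of_disjoint]
    · rw [Finset.disjoint_left]
      intro x hx
      exact h.nmem (by simpa using hx)
    · rw [Finset.disjoint_right]
      intro x hx
      simp only [Finset.mem_union, mem_XX, not_or]
      exact ⟨h.aa_nx hx, (mem_AA.1 hx).2⟩
    · rw [Finset.disjoint_right]
      intro x hx
      simp only [Finset.mem_union, mem_XX, not_or]
      exact ⟨⟨h.rev.aa_nx hx, (mem_AA.1 hx).2⟩, h.rev.aa_bb hx⟩
  have h4 := Finset.card_sdiff_add_card_eq_card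
    (Finset.subset_univ (XX G Y ∪ Y ∪ AA G Y ν ∪ AA G Y ν.symm))
  rw [Finset.card_univ] at h4
  unfold RR ord
  omega

lemma St.aa_indep (h : St G f v Y ν d) {a b : V} (ha : a ∈ AA G Y ν) (hb : b ∈ AA G Y ν) :
    ¬ G.Adj a b := by
  intro hab
  have hn := h.n3
  obtain ⟨i, -, -, rfl⟩ := h.surj 0 (h.ne_of_nmem (mem_AA.1 ha).2)
  obtain ⟨j, j0, j1, rfl⟩ := h.surj i (h.ne_of_nmem (mem_AA.1 hb).2)
  have : j ≠ i := by rintro rfl; exact G.irrefl hab
  rw [h.aa_idx] at ha hb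
  refine h.hop.toHop.seg h.n2 i [(i + ord V - 2, j), (i, j - 1)]
    (by simp only [ok, inw, dis, dis1, sdis, tot, slen, and_true]; omega)
    ⟨good_of hab.symm hb.2 ha.2, trivial⟩ ?_ hb.1
  simpa only [fst, h.per'] using ha.1

lemma St.deg_AA (h : St G f v Y ν d) {a : V} (ha : a ∈ AA G Y ν) :
    d ≤ (nb G a ∩ XX G Y).card + (nb G a ∩ AA G Y ν.symm).card + (nb G a ∩ RR G Y ν).card := by
  have h1 : nb G a ⊆ (nb G a ∩ XX G Y) ∪ (nb G a ∩ AA G Y ν.symm) ∪ (nb G a ∩ RR G Y ν) := by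
    intro w hw
    simp only [Finset.mem_union, Finset.mem_inter, hw, true_and, mem_XX, mem_RR]
    rw [mem_nb] at hw
    have h2 : w ∉ Y := fun hy => h.aa_nx ha ⟨w, hy, hw.symm⟩
    have h3 : w ∉ AA G Y ν := fun hb => h.aa_indep ha hb hw
    tauto
  have h2 := (Finset.card_le_card h1).trans (Finset.card_union_le _ _)
  have h3 := Finset.card_union_le (nb G a ∩ XX G Y) (nb G a ∩ AA G Y ν.symm)
  have := h.deg a
  omega

lemma St.d_le (h : St G f v Y ν d) {y : V} (hy : y ∈ Y) : d ≤ (nb G y ∩ XX G Y).card := by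
  have : nb G y ∩ XX G Y = nb G y := by
    rw [Finset.inter_eq_left]
    intro w hw
    exact mem_XX.2 ⟨y, hy, mem_nb.1 hw⟩
  rw [this]
  exact h.deg y

lemma St.d_le_x (h : St G f v Y ν d) : d ≤ (XX G Y).card := by
  have h1 := h.d_le h.hop.mem
  have := Finset.card_le_card (Finset.inter_subset_right (s₁ := nb G v) (s₂ := XX G Y))
  omega

lemma St.deg_TT (h : St G f v Y ν d) {t : V} (ht : t ∈ TT G Y) :
    (nb G t ∩ Y).card + d ≤ (XX G Y).card := by
  obtain ⟨h1, h2⟩ := mem_TT.1 ht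
  unfold IsU at h2
  push Not at h2
  obtain ⟨y, hy, h2⟩ := h2
  obtain ⟨φ, p1, p2, p3⟩ := h.mnh.phi (a := y) (b := t)
    (fun e => h.nmem h1 (e ▸ hy)) h2
  have h3 : (nb G t ∩ Y).image φ ∪ (nb G y ∩ XX G Y) ⊆ XX G Y := by
    intro w hw
    simp only [Finset.mem_union, Finset.mem_image, Finset.mem_inter, mem_nb] at hw
    rcases hw with ⟨s, ⟨hs1, hs2⟩, rfl⟩ | hw
    · exact mem_XX.2 ⟨s, hs2, p2 s hs1.ne'⟩
    · exact hw.2
  have h4 := Finset.card_le_card h3
  rw [Finset.card_union_of_disjoint, Finset.card_image_of_injective _ φ.injective] at h4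
  · have := h.d_le hy
    omega
  · rw [Finset.disjoint_left]
    intro w hw hw'
    simp only [Finset.mem_image, Finset.mem_inter, mem_nb] at hw hw'
    obtain ⟨s, ⟨hs1, -⟩, rfl⟩ := hw
    exact p3 s hs1 hw'.1

lemma St.card_TT (h : St G f v Y ν d) :
    ((TT G Y).card : ℤ) * (Y.card - ((XX G Y).card - d)) ≤ Y.card * ((XX G Y).card - d) := by
  have h1 : ∑ y ∈ Y, ((nb G y ∩ XX G Y).card : ℤ) = ∑ x ∈ XX G Y, ((nb G x ∩ Y).card : ℤ) := by
    have := Finset.sum_card_bipartiteAbove_eq_sum_card_bipartiteBelow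
      (s := Y) (t := XX G Y) (r := fun y x => G.Adj y x)
    norm_cast
    convert this using 2 with y _ x _
    · congr 1; ext w; simp [Finset.bipartiteAbove, and_comm]
    · congr 1; ext w; simp [Finset.bipartiteBelow, and_comm, G.adj_comm]
  have h2 : (Y.card : ℤ) * d ≤ ∑ y ∈ Y, ((nb G y ∩ XX G Y).card : ℤ) := by
    have := Finset.card_nsmul_le_sum Y (fun y => ((nb G y ∩ XX G Y).card : ℤ)) d
      (fun y hy => h.d_le hy)
    simpa using this
  have h3 : TT G Y ⊆ XX G Y := Finset.filter_subset _ _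
  rw [← Finset.sum_sdiff h3] at h1
  have h4 : ∑ x ∈ XX G Y \ TT G Y, ((nb G x ∩ Y).card : ℤ) ≤
      ((XX G Y \ TT G Y).card : ℤ) * Y.card := by
    have := Finset.sum_le_card_nsmul (XX G Y \ TT G Y) (fun x => ((nb G x ∩ Y).card : ℤ))
      (Y.card : ℤ) (fun x _ => by
        exact_mod_cast Finset.card_le_card Finset.inter_subset_right)
    simpa using this
  have h5 : ∑ x ∈ TT G Y, ((nb G x ∩ Y).card : ℤ) ≤
      ((TT G Y).card : ℤ) * ((XX G Y).card - d) := by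
    have := Finset.sum_le_card_nsmul (TT G Y) (fun x => ((nb G x ∩ Y).card : ℤ))
      ((XX G Y).card - d) (fun x hx => by have := h.deg_TT hx; omega)
    simpa using this
  have h6 : ((XX G Y \ TT G Y).card : ℤ) = (XX G Y).card - (TT G Y).card := by
    have := Finset.card_sdiff_add_card_eq_card h3
    omega
  rw [h6] at h4
  nlinarith

lemma poor_of_miss {r : V} (Z : Finset V) (h1 : ∀ z ∈ Z, NX G Y z ∧ ¬ G.Adj r z)
    (h2 : Y.card ≤ Z.card) : Poor G Y r := by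
  have h3 : (nb G r ∩ XX G Y) ∪ Z ⊆ XX G Y := by
    intro w hw
    rcases Finset.mem_union.1 hw with hw | hw
    · exact (Finset.mem_inter.1 hw).2
    · exact mem_XX.2 (h1 w hw).1
  have h4 := Finset.card_le_card h3
  rw [Finset.card_union_of_disjoint] at h4
  · unfold Poor; omega
  · rw [Finset.disjoint_right]
    intro w hw hw'
    exact (h1 w hw).2 (mem_nb.1 (Finset.mem_inter.1 hw').1)

lemma St.poor_of_nadj (h : St G f v Y ν d) {u r : V} (hu : IsU G Y u) (hr : r ≠ u)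
    (hur : ¬ G.Adj u r) : Poor G Y r := by
  obtain ⟨φ, p1, p2, p3⟩ := h.mnh.phi hr.symm hur
  refine poor_of_miss (Y.image φ.symm) ?_
    (by rw [Finset.card_image_of_injective _ φ.symm.injective])
  intro z hz
  obtain ⟨y, hy, rfl⟩ := Finset.mem_image.1 hz
  have : φ.symm y ≠ r := by
    intro e
    rw [Equiv.symm_apply_eq, p1] at e
    exact h.nmem (h.isU_nx hu) (e ▸ hy)
  refine ⟨⟨y, hy, by simpa using (p2 _ this).symm⟩, fun a => p3 _ a ?_⟩
  simpa using (hu y hy).symm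

lemma St.deg_of_nadj (h : St G f v Y ν d) {u r : V} (hu : IsU G Y u) (hr : r ≠ u)
    (hur : ¬ G.Adj u r) :
    (nb G r).card + Y.card + 1 ≤ (nb G r ∩ Y).card + (XX G Y).card + (MM G Y u).card := by
  obtain ⟨φ, p1, p2, p3⟩ := h.mnh.phi hr.symm hur
  have h1 : Y.image φ ⊆ (XX G Y).erase u := by
    intro z hz
    obtain ⟨y, hy, rfl⟩ := Finset.mem_image.1 hz
    have : y ≠ r := fun e => hur (e ▸ (hu y hy).symm)
    refine Finset.mem_erase.2 ⟨fun e => this ?_, mem_XX.2 ⟨y, hy, p2 y this⟩⟩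
    rwa [← p1, Equiv.apply_eq_iff_eq] at e
  have h2 : (nb G r \ Y).image φ ⊆ ((XX G Y).erase u \ Y.image φ) ∪ MM G Y u := by
    intro z hz
    obtain ⟨s, hs, rfl⟩ := Finset.mem_image.1 hz
    simp only [Finset.mem_sdiff, mem_nb] at hs
    have a1 := p3 s hs.1
    have a2 : φ s ≠ u := by
      intro e
      rw [← p1, Equiv.apply_eq_iff_eq] at e
      exact G.irrefl (e ▸ hs.1)
    simp only [Finset.mem_union, Finset.mem_sdiff, Finset.mem_erase, mem_XX, mem_MM,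
      Finset.mem_image, Equiv.apply_eq_iff_eq, exists_eq_right]
    by_cases a3 : NX G Y (φ s)
    · exact Or.inl ⟨⟨a2, a3⟩, hs.2⟩
    · exact Or.inr ⟨a3, fun b => a1 (hu _ b).symm, a1⟩
  have h3 := (Finset.card_le_card h2).trans (Finset.card_union_le _ _)
  have h4 := Finset.card_sdiff_add_card_eq_card h1
  rw [Finset.card_image_of_injective _ φ.injective] at h3 h4
  rw [Finset.card_erase_of_mem (mem_XX.2 (h.isU_nx hu))] at h4
  have h5 := Finset.card_sdiff_add_card_inter (nb G r) Y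
  have : 0 < (XX G Y).card := Finset.card_pos.2 ⟨u, mem_XX.2 (h.isU_nx hu)⟩
  omega

end Pool.Agent.P.MP_422cad_co
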