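import Pool.Agent.P.MP_422cad_co.MNH

set_option autoImplicit false

namespace Pool.Agent.P.MP_422cad_co

open SimpleGraph

variable {V : Type} [Fintype V]

lemma acyclic_card_le (F : SimpleGraph V) (h : F.IsAcyclic) [Nonempty V] :
    Nat.card F.edgeSet + 1 ≤ Fintype.card V := by
  classical
  obtain ⟨T, h1, -, h2⟩ := (connected_top (V := V)).exists_isTree_le_of_le_of_isAcyclic le_top h
  have h3 := (isTree_iff_connected_and_card.1 h2).2
  rw [Nat.card_eq_fintype_card (α := V)] at h3
  have : Nat.card F.edgeSet ≤ Nat.card T.edgeSet :=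
    Nat.card_mono (Set.toFinite _) (edgeSet_mono h1)
  omega

lemma card_sup_edge (F : SimpleGraph V) {a b : V} (hab : a ≠ b) (h : ¬ F.Adj a b) :
    Nat.card (F ⊔ edge a b).edgeSet = Nat.card F.edgeSet + 1 := by
  rw [edgeSet_sup, edgeSet_edge_of_ne hab, Set.union_singleton]
  simp only [Nat.card_coe_set_eq]
  exact Set.ncard_insert_of_notMem (by simpa using h) (Set.toFinite _)

omit [Fintype V] in
lemma closed_reach (F : SimpleGraph V) (P : Set V) (h : ∀ a b, a ∈ P → F.Adj a b → b ∈ P)
    {a b : V} (ha : a ∈ P) (hr : F.Reachable a b) : b ∈ P := by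
  obtain ⟨w⟩ := hr
  induction w with
  | nil => exact ha
  | cons h1 _ ih => exact ih (h _ _ ha h1)

lemma IsP.le_card [DecidableEq V] {R : V → V → Prop} {p : ℤ → V} {k : ℤ} (h : IsP R p k)
    (W : Finset V) (hW : ∀ i, 0 ≤ i → i < k → p i ∈ W) : k ≤ W.card := by
  have hinj : Set.InjOn p (Finset.Ico (0 : ℤ) k : Set ℤ) := by
    intro i hi j hj hij
    simp only [Finset.coe_Ico, Set.mem_Ico] at hi hj
    exact h.eq hi.1 hi.2 hj.1 hj.2 hij
  have := Finset.card_le_card_of_injOn p (t := W) (fun i hi => by
    simp only [Finset.coe_Ico, Set.mem_Ico] at hi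
    exact hW i hi.1 hi.2) hinj
  rw [Int.card_Ico] at this
  omega

lemma path_of_forest (F : SimpleGraph V) (v : V) (hac : F.IsAcyclic)
    (hdeg : ∀ w, (F.neighborSet w).ncard ≤ 2) (hv : ∀ a b, F.Adj a b → a ≠ v)
    (hcard : Fintype.card V ≤ 2 + Nat.card F.edgeSet) (hn : 2 ≤ Fintype.card V) :
    ∃ p, IsP F.Adj p (ord V - 1) ∧ ∀ i, 0 ≤ i → i < ord V - 1 → p i ≠ v := by
  classical
  have : Nonempty V := ⟨v⟩
  let Q : ℕ → Prop := fun k => ∃ p, IsP F.Adj p (k : ℤ) ∧ ∀ i, 0 ≤ i → i < (k : ℤ) → p i ≠ v
  have hbd : ∀ k, Q k → k ≤ Fintype.card V - 1 := by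
    rintro k ⟨p, hp, h1⟩
    have := hp.le_card (Finset.univ.erase v) (fun i h0 h2 => by simpa using h1 i h0 h2)
    rw [Finset.card_erase_of_mem (by simp), Finset.card_univ] at this
    omega
  have h1 : Q 1 := by
    obtain ⟨w, hw⟩ := Fintype.exists_ne_of_one_lt_card (by omega : 1 < Fintype.card V) v
    exact ⟨fun _ => w, ⟨fun i h0 h1 => by omega, fun i j h0 h1 h2 => by omega⟩,
      fun _ _ _ => hw⟩
  let k := Nat.findGreatest Q (Fintype.card V - 1)
  have hk1 : 1 ≤ k := Nat.le_findGreatest (by omega) h1
  have hkQ : Q k := Nat.findGreatest_spec (P := Q) (m := 1) (by omega) h1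
  have hkmax : ¬ Q (k + 1) := fun h =>
    Nat.findGreatest_is_greatest (Nat.lt_succ_self _) (hbd _ h) h
  obtain ⟨p, hp, hpv⟩ := hkQ
  by_cases hk : (k : ℤ) = ord V - 1
  · exact ⟨p, hk ▸ hp, hk ▸ hpv⟩
  exfalso
  have hkl : k < Fintype.card V - 1 := by
    have := hbd k ⟨p, hp, hpv⟩
    unfold ord at hk
    omega
  let P : Set V := {x | ∃ i, 0 ≤ i ∧ i < (k : ℤ) ∧ p i = x}
  have hw : ∃ w, w ≠ v ∧ w ∉ P := by
    by_contra h2
    push Not at h2
    have h3 : (Finset.univ.erase v) ⊆ (Finset.Ico (0 : ℤ) k).image p := by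
      intro w hw
      obtain ⟨i, h0, h1, h4⟩ := h2 w (by simpa using hw)
      exact Finset.mem_image.2 ⟨i, by simp [h0, h1], h4⟩
    have h4 := (Finset.card_le_card h3).trans Finset.card_image_le
    rw [Finset.card_erase_of_mem (by simp), Finset.card_univ, Int.card_Ico] at h4
    omega
  obtain ⟨w, hwv, hwP⟩ := hw
  have hcl : ∀ a b, a ∈ P → F.Adj a b → b ∈ P := by
    rintro a b ⟨i, h0, h1, rfl⟩ hab
    by_contra hb
    have hb' : ∀ j, 0 ≤ j → j < (k : ℤ) → p j ≠ b := fun j h0 h1 e => hb ⟨j, h0, h1, e⟩
    have hbv : b ≠ v := hv _ _ hab.symm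
    by_cases e1 : i = k - 1
    · apply hkmax
      refine ⟨fun t => if t = k then b else p t, ⟨fun t h0 h1 => ?_, fun s t h0 h1 h2 => ?_⟩,
        fun t h0 h1 => ?_⟩
      · push_cast at h1
        have : t ≠ k := by omega
        by_cases h3 : t + 1 = k
        · simp only [this, h3, if_true, if_false]
          rw [show t = i by omega]; exact hab
        · simp only [this, h3, if_false]
          exact hp.1 t h0 (by omega)
      · push_cast at h2
        have : s ≠ k := by omega
        by_cases h3 : t = k
        · simp only [this, h3, if_true, if_false]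
          exact hb' s h0 (by omega)
        · simp only [this, h3, if_false]
          exact hp.2 s t h0 h1 (by omega)
      · push_cast at h1
        by_cases h3 : t = k
        · simp only [h3, if_true]; exact hbv
        · simp only [h3, if_false]; exact hpv t h0 (by omega)
    by_cases e0 : i = 0
    · apply hkmax
      refine ⟨fun t => if t = 0 then b else p (t - 1),
        ⟨fun t h0 h1 => ?_, fun s t h0 h1 h2 => ?_⟩, fun t h0 h1 => ?_⟩
      · push_cast at h1
        have : t + 1 ≠ 0 := by omega
        by_cases h3 : t = 0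
        · simp only [h3, if_true, zero_add, one_ne_zero, if_false, sub_self]
          rw [← e0]; exact hab.symm
        · simp only [this, h3, if_false]
          have := hp.1 (t - 1) (by omega) (by omega)
          simpa using this
      · push_cast at h2
        have : t ≠ 0 := by omega
        by_cases h3 : s = 0
        · simp only [this, h3, if_true, if_false]
          exact (hb' _ (by omega) (by omega)).symm
        · simp only [this, h3, if_false]
          exact hp.2 _ _ (by omega) (by omega) (by omega)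
      · push_cast at h1
        by_cases h3 : t = 0
        · simp only [h3, if_true]; exact hbv
        · simp only [h3, if_false]; exact hpv _ (by omega) (by omega)
    have a1 := hp.1 i h0 (by omega)
    have a2 := hp.1 (i - 1) (by omega) (by omega)
    rw [sub_add_cancel] at a2
    have n1 := hp.2 (i - 1) (i + 1) (by omega) (by omega) (by omega)
    have n2 := hb' (i - 1) (by omega) (by omega)
    have n3 := hb' (i + 1) (by omega) (by omega)
    have hsub : ({p (i - 1), p (i + 1), b} : Set V) ⊆ F.neighborSet (p i) := by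
      intro x hx
      simp only [Set.mem_insert_iff, Set.mem_singleton_iff] at hx
      rcases hx with rfl | rfl | rfl
      · exact a2.symm
      · exact a1
      · exact hab
    have h3 := Set.ncard_le_ncard hsub (Set.toFinite _)
    rw [Set.ncard_insert_of_notMem (by simp [n1, n2]), Set.ncard_pair n3] at h3
    have := hdeg (p i)
    omega
  have hp0 : p 0 ∈ P := ⟨0, le_rfl, by omega, rfl⟩
  have hp0v : p 0 ≠ v := hpv 0 le_rfl (by omega)
  have r1 : ¬ F.Reachable (p 0) v := by
    intro h
    obtain ⟨i, h0, h1, e⟩ := closed_reach F P hcl hp0 h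
    exact hpv i h0 h1 e
  have r2 : ¬ (F ⊔ edge (p 0) v).Reachable v w := by
    intro h
    have := closed_reach (F ⊔ edge (p 0) v) (insert v P) (by
      intro a b ha hab
      simp only [sup_adj, edge_adj] at hab
      rcases hab with hab | ⟨⟨-, rfl⟩ | ⟨-, rfl⟩, -⟩
      · rcases ha with rfl | ha
        · exact absurd rfl (hv _ _ hab)
        · exact Or.inr (hcl _ _ ha hab)
      · exact Or.inl rfl
      · exact Or.inr hp0) (Or.inl rfl) h
    rcases this with h | h
    · exact hwv h
    · exact hwP h
  have c1 := card_sup_edge F hp0v (fun h => r1 h.reachable)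
  have c2 := card_sup_edge (F ⊔ edge (p 0) v) hwv.symm (fun h => r2 h.reachable)
  have := acyclic_card_le _ ((hac.sup_edge_of_not_reachable r1).sup_edge_of_not_reachable r2)
  omega

/-- A graph all of whose vertex-deleted subgraphs are traceable and which has a universal vertex
is hamiltonian. -/
lemma ham_of_univ {G : SimpleGraph V} (v : V) (p : ℤ → V) (hp : IsP G.Adj p (ord V - 1))
    (hv : ∀ i, 0 ≤ i → i < ord V - 1 → p i ≠ v) (hu : ∀ w, w ≠ v → G.Adj v w)
    (hn : 2 ≤ ord V) : Ham G := by
  have h1 : IsP G.Adj (fun t => if t = ord V - 1 then v else p t) (ord V) := by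
    refine ⟨fun t h0 h1 => ?_, fun s t h0 h1 h2 => ?_⟩
    · have : t ≠ ord V - 1 := by omega
      by_cases h3 : t + 1 = ord V - 1
      · simp only [this, h3, if_true, if_false]
        exact (hu _ (hv t h0 (by omega))).symm
      · simp only [this, h3, if_false]
        exact hp.1 t h0 (by omega)
    · have : s ≠ ord V - 1 := by omega
      by_cases h3 : t = ord V - 1
      · simp only [this, h3, if_true, if_false]
        exact hv s h0 (by omega)
      · simp only [this, h3, if_false]
        exact hp.2 s t h0 h1 (by omega)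
  refine h1.ham (by omega) ?_
  have : (0 : ℤ) ≠ ord V - 1 := by omega
  simp only [this, if_true, if_false]
  exact hu _ (hv 0 le_rfl (by omega))

end Pool.Agent.P.MP_422cad_co
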