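import Pool.Agent.P.MP_422cad_co.Blob

set_option autoImplicit false

namespace Pool.Agent.P.MP_422cad_co

open SimpleGraph

variable {V : Type}

lemma sig_step' (R : ℤ → ℤ → Prop) (l : List (ℤ × ℤ))
    (hs : ∀ s ∈ l, ∀ i, min s.1 s.2 ≤ i → i < max s.1 s.2 → R i (i + 1) ∧ R (i + 1) i)
    (hj : l.IsChain (fun s t => R s.2 t.1)) (i : ℤ) (h0 : 0 ≤ i) (h1 : i + 1 < tot l) :
    R (sig l i) (sig l (i + 1)) := by
  induction l generalizing i with
  | nil => simp [tot] at h1; omega
  | cons s t ih =>
    have hs' := hs s (by simp)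
    simp only [tot] at h1
    by_cases hi : i + 1 < slen s
    · have hi' : i < slen s := by omega
      simp only [sig, hi, hi', if_true, sat]
      unfold slen at hi
      split_ifs with h
      · rw [← add_assoc]; exact (hs' _ (by omega) (by omega)).1
      · have := (hs' (s.1 - (i + 1)) (by omega) (by omega)).2
        rwa [show s.1 - (i + 1) + 1 = s.1 - i by ring] at this
    · by_cases hi' : i < slen s
      · have he : i + 1 - slen s = 0 := by omega
        simp only [sig, hi, hi', if_true, if_false, he]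
        cases t with
        | nil => simp only [tot] at h1; omega
        | cons u t' =>
          rw [sig_zero]
          have h2 : sat s i = s.2 := by
            unfold sat; unfold slen at he; split_ifs <;> omega
          rw [h2]
          exact (List.isChain_cons_cons.1 hj).1
      · simp only [sig, hi, hi', if_false]
        have := ih (fun u hu => hs u (by simp [hu])) (List.IsChain.tail hj) (i - slen s)
          (by omega) (by omega)
        rwa [show i - slen s + 1 = i + 1 - slen s by ring] at this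

/-- Tagged segments: `true` refers to the stick `s`, `false` to the cycle `f`. -/
abbrev TS := Bool × ℤ × ℤ

def tv (s f : ℤ → V) : Bool → ℤ → V
  | true, i => s i
  | false, i => f i

def tin (q lo hi : ℤ) : TS → Prop
  | (true, a, b) => 0 ≤ min a b ∧ max a b ≤ q - 1
  | (false, a, b) => lo ≤ min a b ∧ max a b ≤ hi

def tdis : TS → TS → Prop
  | (true, a, b), (true, c, d) => max a b < min c d ∨ max c d < min a b
  | (false, a, b), (false, c, d) => max a b < min c d ∨ max c d < min a b
  | _, _ => True

def tinw (q lo hi : ℤ) : List TS → Prop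
  | [] => True
  | s :: t => tin q lo hi s ∧ tinw q lo hi t

def tdis1 (s : TS) : List TS → Prop
  | [] => True
  | u :: t => tdis s u ∧ tdis1 s t

def tdisA : List TS → Prop
  | [] => True
  | s :: t => tdis1 s t ∧ tdisA t

def ttot : List TS → ℤ
  | [] => 0
  | s :: t => slen s.2 + ttot t

def tok (q lo hi k : ℤ) (l : List TS) : Prop := tinw q lo hi l ∧ tdisA l ∧ ttot l = k

def tchn (R : V → V → Prop) (s f : ℤ → V) : List TS → Prop
  | x :: u :: t => R (tv s f x.1 x.2.2) (tv s f u.1 u.2.1) ∧ tchn R s f (u :: t)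
  | _ => True

def tfst (s f : ℤ → V) : List TS → V
  | [] => f 0
  | x :: _ => tv s f x.1 x.2.1

def tlst (s f : ℤ → V) : List TS → V
  | [] => f 0
  | [x] => tv s f x.1 x.2.2
  | _ :: u :: t => tlst s f (u :: t)

def enc (lo : ℤ) : TS → ℤ × ℤ
  | (true, a, b) => (lo - 2 - a, lo - 2 - b)
  | (false, a, b) => (a, b)

def comb (s f : ℤ → V) (lo : ℤ) (i : ℤ) : V := if i < lo then s (lo - 2 - i) else f i

/-- The path described by a list of tagged segments. -/
def tpath (s f : ℤ → V) (lo : ℤ) (l : List TS) (i : ℤ) : V := comb s f lo (sig (l.map (enc lo)) i)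

lemma slen_enc (lo : ℤ) (x : TS) : slen (enc lo x) = slen x.2 := by
  obtain ⟨b, a, c⟩ := x
  cases b <;> simp only [enc, slen] <;> omega

lemma tot_enc (lo : ℤ) (l : List TS) : tot (l.map (enc lo)) = ttot l := by
  induction l with
  | nil => rfl
  | cons s t ih => simp only [List.map_cons, tot, ttot, ih, slen_enc]

lemma ttot_append (l m : List TS) : ttot (l ++ m) = ttot l + ttot m := by
  rw [← tot_enc 0, List.map_append, tot_append, tot_enc, tot_enc]

lemma ttot_nonneg (l : List TS) : 0 ≤ ttot l := by rw [← tot_enc 0]; exact tot_nonneg _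

lemma tinw_iff (q lo hi : ℤ) (l : List TS) : tinw q lo hi l ↔ ∀ x ∈ l, tin q lo hi x := by
  induction l with
  | nil => simp [tinw]
  | cons s t ih => simp only [tinw, ih, List.mem_cons, forall_eq_or_imp]

lemma comb_enc1 (s f : ℤ → V) {q lo hi : ℤ} {x : TS} (h : tin q lo hi x) :
    comb s f lo (enc lo x).1 = tv s f x.1 x.2.1 := by
  obtain ⟨b, a, c⟩ := x
  cases b
  · simp only [tin] at h
    simp only [enc, comb, tv]
    rw [if_neg (by omega)]
  · simp only [tin] at h
    simp only [enc, comb, tv]
    rw [if_pos (by omega)]; congr 1; ring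

lemma comb_enc2 (s f : ℤ → V) {q lo hi : ℤ} {x : TS} (h : tin q lo hi x) :
    comb s f lo (enc lo x).2 = tv s f x.1 x.2.2 := by
  obtain ⟨b, a, c⟩ := x
  cases b
  · simp only [tin] at h
    simp only [enc, comb, tv]
    rw [if_neg (by omega)]
  · simp only [tin] at h
    simp only [enc, comb, tv]
    rw [if_pos (by omega)]; congr 1; ring

lemma dis_enc {q lo hi : ℤ} (l : List TS) (h1 : tinw q lo hi l) (h2 : tdisA l) :
    dis (l.map (enc lo)) := by
  induction l with
  | nil => trivial
  | cons x t ih =>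
    refine ⟨?_, ih h1.2 h2.2⟩
    have a := h1.1
    have b := h1.2
    have c := h2.1
    clear ih h1 h2
    induction t with
    | nil => trivial
    | cons u t ih =>
      refine ⟨?_, ih b.2 c.2⟩
      have b1 := b.1
      have c1 := c.1
      obtain ⟨xb, x1, x2⟩ := x
      obtain ⟨ub, u1, u2⟩ := u
      cases xb <;> cases ub <;> simp only [tin, tdis, enc, sdis] at a b1 c1 ⊢ <;> omega

lemma chn_enc (R : V → V → Prop) (s f : ℤ → V) {q lo hi : ℤ} (l : List TS)
    (h1 : tinw q lo hi l) (h2 : tchn R s f l) : chn R (comb s f lo) (l.map (enc lo)) := by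
  induction l with
  | nil => trivial
  | cons x t ih =>
    cases t with
    | nil => trivial
    | cons u t =>
      refine ⟨?_, ih h1.2 h2.2⟩
      rw [comb_enc2 s f h1.1, comb_enc1 s f h1.2.1]
      exact h2.1

lemma fst_enc (s f : ℤ → V) {q lo hi : ℤ} (l : List TS) (h1 : tinw q lo hi l) (h : 0 < ttot l) :
    comb s f lo (fst (l.map (enc lo))) = tfst s f l := by
  cases l with
  | nil => simp [ttot] at h
  | cons x t => exact comb_enc1 s f h1.1

lemma lst_enc (s f : ℤ → V) {q lo hi : ℤ} (l : List TS) (h1 : tinw q lo hi l) (h : 0 < ttot l) :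
    comb s f lo (lst (l.map (enc lo))) = tlst s f l := by
  induction l with
  | nil => simp [ttot] at h
  | cons x t ih =>
    cases t with
    | nil => exact comb_enc2 s f h1.1
    | cons u t =>
      refine ih h1.2 ?_
      have := slen_pos u.2; have := ttot_nonneg t; simp only [ttot]; omega

lemma tpath_append (s f : ℤ → V) (lo : ℤ) (l m : List TS) (i : ℤ) (h : 0 ≤ i) :
    tpath s f lo (l ++ m) (ttot l + i) = tpath s f lo m i := by
  unfold tpath
  rw [List.map_append, ← tot_enc lo, sig_append _ _ _ h]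

lemma tpath_head (s f : ℤ → V) {q lo hi : ℤ} (x : TS) (m : List TS) (hx : tin q lo hi x)
    (i : ℤ) (h0 : 0 ≤ i) (h1 : i < slen x.2) :
    tpath s f lo (x :: m) i = tv s f x.1 (sat x.2 i) := by
  unfold tpath
  rw [List.map_cons, sig, if_pos (by rwa [slen_enc])]
  obtain ⟨b, a, c⟩ := x
  cases b
  · simp only [tin, slen] at hx h1
    simp only [enc, comb, tv, sat]
    rw [if_neg (by split_ifs <;> omega)]
  · simp only [tin, slen] at hx h1
    simp only [enc, comb, tv, sat]
    rw [if_pos (by split_ifs <;> omega)]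
    congr 1
    split_ifs <;> omega

/-- Every vertex of the path comes from one of the segments. -/
lemma tpath_mem (s f : ℤ → V) {q lo hi : ℤ} (l : List TS) (h1 : tinw q lo hi l) (i : ℤ)
    (h0 : 0 ≤ i) (h2 : i < ttot l) :
    ∃ x ∈ l, ∃ k, min x.2.1 x.2.2 ≤ k ∧ k ≤ max x.2.1 x.2.2 ∧
      tpath s f lo l i = tv s f x.1 k := by
  obtain ⟨y, hy, a, b⟩ := sig_mem (l.map (enc lo)) i h0 (by rwa [tot_enc])
  obtain ⟨x, hx, rfl⟩ := List.mem_map.1 hy
  have hx' := (tinw_iff _ _ _ _).1 h1 x hx
  refine ⟨x, hx, ?_⟩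
  unfold tpath
  generalize sig (l.map (enc lo)) i = k at a b
  obtain ⟨bb, c, d⟩ := x
  cases bb
  · simp only [tin, enc] at hx' a b
    exact ⟨k, a, b, by simp only [comb, tv]; rw [if_neg (by omega)]⟩
  · simp only [tin, enc] at hx' a b
    exact ⟨lo - 2 - k, by simp only; omega, by simp only; omega,
      by simp only [comb, tv]; rw [if_pos (by omega)]⟩

/-- Paths out of segments of a path `s` and of a sequence `f`. -/
lemma mkpath2 (G : SimpleGraph V) (s f : ℤ → V) (q lo hi k : ℤ) (hs : IsP G.Adj s q)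
    (hf : ∀ i, lo ≤ i → i < hi → G.Adj (f i) (f (i + 1)))
    (hinj : ∀ i j, lo ≤ i → i < j → j ≤ hi → f i ≠ f j)
    (hsf : ∀ i t, lo ≤ i → i ≤ hi → 0 ≤ t → t < q → f i ≠ s t)
    (l : List TS) (h : tok q lo hi k l) (hj : tchn G.Adj s f l) (hk : 0 < k) :
    IsP G.Adj (tpath s f lo l) k ∧ tpath s f lo l 0 = tfst s f l ∧
      tpath s f lo l (k - 1) = tlst s f l := by
  obtain ⟨h1, h2, h3⟩ := h
  subst h3
  have hin : ∀ y ∈ l.map (enc lo), (lo ≤ min y.1 y.2 ∧ max y.1 y.2 ≤ hi) ∨
      (lo - 1 - q ≤ min y.1 y.2 ∧ max y.1 y.2 ≤ lo - 2) := by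
    intro y hy
    obtain ⟨x, hx, rfl⟩ := List.mem_map.1 hy
    have hx' := (tinw_iff _ _ _ _).1 h1 x hx
    obtain ⟨b, c, d⟩ := x
    cases b <;> simp only [tin, enc] at hx' ⊢ <;> omega
  refine ⟨⟨fun i h0 h4 => ?_, fun i j h0 hij h4 => ?_⟩, ?_, ?_⟩
  · refine sig_step' (fun a b => G.Adj (comb s f lo a) (comb s f lo b)) _ ?_
      ((chn_iff _ _ _).1 (chn_enc _ s f l h1 hj)) i h0 (by rwa [tot_enc])
    intro y hy t t0 t1
    have : G.Adj (comb s f lo t) (comb s f lo (t + 1)) := by
      rcases hin y hy with a | a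
      · simp only [comb]
        rw [if_neg (by omega), if_neg (by omega)]
        exact hf t (by omega) (by omega)
      · simp only [comb]
        rw [if_pos (by omega), if_pos (by omega)]
        have := hs.1 (lo - 2 - (t + 1)) (by omega) (by omega)
        rw [show lo - 2 - (t + 1) + 1 = lo - 2 - t by ring] at this
        exact this.symm
    exact ⟨this, this.symm⟩
  · have h5 := sig_inj _ ((dis_iff _).1 (dis_enc l h1 h2)) i j h0 hij (by rwa [tot_enc])
    obtain ⟨x, hx, x1, x2⟩ := sig_mem (l.map (enc lo)) i h0 (by rw [tot_enc]; omega)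
    obtain ⟨y, hy, y1, y2⟩ := sig_mem (l.map (enc lo)) j (by omega) (by rwa [tot_enc])
    unfold tpath
    generalize sig (l.map (enc lo)) i = a at x1 x2 h5
    generalize sig (l.map (enc lo)) j = b at y1 y2 h5
    simp only [comb]
    rcases hin x hx with c | c <;> rcases hin y hy with d | d
    · rw [if_neg (by omega), if_neg (by omega)]
      rcases lt_or_gt_of_ne h5 with e | e
      · exact hinj _ _ (by omega) e (by omega)
      · exact (hinj _ _ (by omega) e (by omega)).symm
    · rw [if_neg (by omega), if_pos (by omega)]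
      exact hsf _ _ (by omega) (by omega) (by omega) (by omega)
    · rw [if_pos (by omega), if_neg (by omega)]
      exact (hsf _ _ (by omega) (by omega) (by omega) (by omega)).symm
    · rw [if_pos (by omega), if_pos (by omega)]
      intro e
      have := hs.eq (by omega) (by omega) (by omega) (by omega) e
      omega
  · unfold tpath; rw [sig_fst, fst_enc s f l h1 hk]
  · unfold tpath
    rw [← tot_enc lo, sig_lst _ (by rwa [tot_enc]), lst_enc s f l h1 hk]

end Pool.Agent.P.MP_422cad_co
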