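import Pool.Agent.P.MP_422cad_co.CS

set_option autoImplicit false

namespace Pool.Agent.P.MP_422cad_co

open SimpleGraph Classical

/-- The position `p` is an inner position of one of the segments. -/
def inn (p : ℤ) : List (ℤ × ℤ) → Prop
  | [] => False
  | s :: t => (min s.1 s.2 < p ∧ p < max s.1 s.2) ∨ inn p t

lemma inn_sig (p : ℤ) (l : List (ℤ × ℤ)) (h : inn p l) :
    ∃ t, 0 < t ∧ t + 1 < tot l ∧ sig l t = p ∧
      ((sig l (t - 1) = p - 1 ∧ sig l (t + 1) = p + 1) ∨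
        (sig l (t - 1) = p + 1 ∧ sig l (t + 1) = p - 1)) := by
  induction l with
  | nil => exact h.elim
  | cons s m ih =>
    have h0 := tot_nonneg m
    rcases h with h | h
    · by_cases e : s.1 ≤ s.2
      · refine ⟨p - s.1, by omega, by simp only [tot, slen]; omega, ?_, Or.inl ⟨?_, ?_⟩⟩ <;>
          (rw [sig, if_pos (by simp only [slen]; omega), sat, if_pos e]; omega)
      · refine ⟨s.1 - p, by omega, by simp only [tot, slen]; omega, ?_, Or.inr ⟨?_, ?_⟩⟩ <;>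
          (rw [sig, if_pos (by simp only [slen]; omega), sat, if_neg e]; omega)
    · obtain ⟨t, t0, t1, t2, t3⟩ := ih h
      have := slen_pos s
      refine ⟨t + slen s, by omega, by simp only [tot]; omega, ?_, ?_⟩
      · rw [sig, if_neg (by omega), add_sub_cancel_right, t2]
      · rw [sig, if_neg (by omega), sig, if_neg (by omega),
          show t + slen s - 1 - slen s = t - 1 by ring, show t + slen s + 1 - slen s = t + 1 by ring]
        exact t3

variable {V : Type} [Fintype V] {G : SimpleGraph V} {f : ℤ → V} {v : V} {Y : Finset V}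
  {ν : V ≃ V} {d : ℤ}

/-- A Hamilton path of `G - v` between two neighbours of `v` gives a Hamilton cycle. -/
lemma NCyc.seg (h : NCyc G f v) (hG : ¬ Ham G) (hn : 2 ≤ ord V) (lo : ℤ) (l : List (ℤ × ℤ))
    (hl : ok lo (lo + ord V - 2) (ord V - 1) l) (hj : chn G.Adj f l)
    (h1 : G.Adj v (f (fst l))) (h2 : G.Adj v (f (lst l))) : False := by
  obtain ⟨a, b, c, -⟩ := mkpath G.Adj f lo (lo + ord V - 2) (ord V - 1)
    (fun i _ _ => ⟨h.1.adj i, (h.1.adj i).symm⟩)
    (fun i j _ h1 h2 => h.1.inj i j h1 (by omega)) l hl hj (by omega)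
  exact hG (ham_of_path v _ a (fun i _ _ => h.2 _) (by simpa only [b] using h1)
    (by simpa only [c] using h2) hn)

/-- A path through all vertices of the cycle but `f m`, closed through `v`. -/
lemma NCyc.build (h : NCyc G f v) (hn : 3 ≤ ord V) (lo m : ℤ) (l : List (ℤ × ℤ))
    (hl : ok lo (lo + ord V - 2) (ord V - 1) ((m, m) :: l)) (hj : chn G.Adj f l)
    (h1 : G.Adj v (f (fst l))) (h2 : G.Adj v (f (lst l))) :
    ∃ F, NCyc G F (f m) ∧ F (-1) = v ∧ F (ord V - 2) = v ∧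
      ∀ t, 0 ≤ t → t < ord V - 2 → F t = f (sig l t) := by
  have ht : tot l = ord V - 2 := by
    have := hl.2.2
    simp only [tot, slen] at this
    omega
  obtain ⟨a, b, c, e⟩ := mkpath G.Adj f lo (lo + ord V - 2) (ord V - 2)
    (fun i _ _ => ⟨h.1.adj i, (h.1.adj i).symm⟩)
    (fun i j _ h1 h2 => h.1.inj i j h1 (by omega)) l ⟨hl.1.2, hl.2.1.2, ht⟩ hj (by omega)
  have hp : IsP G.Adj (fun t => if t = ord V - 2 then v else f (sig l t)) (ord V - 1) := by
    refine ⟨fun t h0 h3 => ?_, fun s t h0 h3 h4 => ?_⟩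
    · have : t ≠ ord V - 2 := by omega
      by_cases h5 : t + 1 = ord V - 2
      · simp only [this, h5, if_true, if_false]
        rw [show t = ord V - 2 - 1 by omega, c]
        exact h2.symm
      · simp only [this, h5, if_false]
        exact a.1 t h0 (by omega)
    · have : s ≠ ord V - 2 := by omega
      by_cases h5 : t = ord V - 2
      · simp only [this, h5, if_true, if_false]
        exact h.2 _
      · simp only [this, h5, if_false]
        exact a.2 s t h0 h3 (by omega)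
  have hc := hp.cyc (by omega) (by
    have : (0 : ℤ) ≠ ord V - 2 := by omega
    simp only [show ord V - 1 - 1 = ord V - 2 by ring, this, if_true, if_false, b]
    exact h1)
  have e2 : (ord V - 2) % (ord V - 1) = ord V - 2 := Int.emod_eq_of_lt (by omega) (by omega)
  refine ⟨_, ⟨hc, fun i => ?_⟩, ?_, ?_, fun t t0 t1 => ?_⟩
  · have i0 := Int.emod_nonneg i (show ord V - 1 ≠ 0 by omega)
    have i1 := Int.emod_lt_of_pos i (show 0 < ord V - 1 by omega)
    split_ifs with x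
    · exact (h.2 m).symm
    · obtain ⟨s, hs, h5⟩ := sig_mem l (i % (ord V - 1)) i0 (by omega)
      have h6 := (dis1_iff _ _).1 hl.2.1.1 s hs
      have h7 := e _ i0 (by omega)
      have h8 := hl.1.1
      simp only [sdis] at h6 h8
      intro x
      have := h.1.eq (by omega) (by omega) x
      omega
  · have := hc.per (-1)
    rw [show -1 + (ord V - 1) = ord V - 2 by ring] at this
    rw [← this]
    simp only [e2, if_true]
  · simp only [e2, if_true]
  · simp only [Int.emod_eq_of_lt t0 (show t < ord V - 1 by omega)]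
    rw [if_neg (by omega)]

lemma St.bigY (h : St G f v Y ν d) {F : ℤ → V} {w : V} (hc : NCyc G F w) (W : Finset V)
    (hW : ∀ u ∈ W, ∃ t, F t = u ∧ G.Adj w (F (t - 1)) ∧ G.Adj w (F (t + 1))) :
    W.card + 1 ≤ Y.card := by
  have key : ∀ W : Finset V, (∀ u ∈ W, ∃ t, F t = u ∧ G.Adj w (F (t - 1)) ∧ G.Adj w (F (t + 1))) →
      Hop G F w (insert w W) := by
    intro W
    induction W using Finset.induction_on with
    | empty => intro _; simpa using hop_base hc h.mnh.nh h.n2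
    | insert u W hu ih =>
      intro hW
      obtain ⟨t, rfl, a, b⟩ := hW u (by simp)
      have h1 := ih (fun x hx => hW x (Finset.mem_insert_of_mem hx))
      rw [Finset.insert_comm]
      exact h1.step h.n2 t (by simp [hu, hc.2 t]) ⟨w, by simp, a⟩ ⟨w, by simp, b⟩
  have := h.hop.max _ _ _ (key W hW)
  rwa [Finset.card_insert_of_notMem (fun x => by
    obtain ⟨t, e, -⟩ := hW w x
    exact hc.2 t e)] at this

/-- The cycle given by `l` and `v` misses `f m`; the set `W` of its vertices both of whose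
neighbours on it are adjacent to `f m` is smaller than `Y`. -/
lemma St.big (h : St G f v Y ν d) (lo m : ℤ) (l : List (ℤ × ℤ))
    (hl : ok lo (lo + ord V - 2) (ord V - 1) ((m, m) :: l)) (hj : chn G.Adj f l)
    (h1 : G.Adj v (f (fst l))) (h2 : G.Adj v (f (lst l))) (W : Finset V)
    (hW : ∀ u ∈ W, (u = v ∧ G.Adj (f m) (f (fst l)) ∧ G.Adj (f m) (f (lst l))) ∨
      ∃ p, f p = u ∧ inn p l ∧ G.Adj (f m) (f (p - 1)) ∧ G.Adj (f m) (f (p + 1))) :
    W.card + 1 ≤ Y.card := by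
  have hn := h.n3
  obtain ⟨F, hF, e1, -, e3⟩ := h.hop.cyc.build hn lo m l hl hj h1 h2
  have ht : tot l = ord V - 2 := by
    have := hl.2.2
    simp only [tot, slen] at this
    omega
  refine h.bigY hF W fun u hu => ?_
  rcases hW u hu with ⟨rfl, a, b⟩ | ⟨p, rfl, hp, a, b⟩
  · refine ⟨-1, e1, ?_, ?_⟩
    · rw [← hF.1.per, show -1 - 1 + (ord V - 1) = tot l - 1 by omega, e3 _ (by omega) (by omega),
        sig_lst _ (by omega)]
      exact b
    · rw [show (-1 : ℤ) + 1 = 0 by ring, e3 _ le_rfl (by omega), sig_fst]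
      exact a
  · obtain ⟨t, t0, t1, t2, t3⟩ := inn_sig p l hp
    refine ⟨t, by rw [e3 _ (by omega) (by omega), t2], ?_⟩
    rw [e3 _ (by omega) (by omega), e3 _ (by omega) (by omega)]
    rcases t3 with ⟨x, y⟩ | ⟨x, y⟩ <;> rw [x, y]
    exacts [⟨a, b⟩, ⟨b, a⟩]

/-- The case `|X| = d`. -/
structure S0 (G : SimpleGraph V) (f : ℤ → V) (v : V) (Y : Finset V) (ν : V ≃ V) (d : ℤ) : Prop
    extends St G f v Y ν d where
  xd : ((XX G Y).card : ℤ) = d
  g2 : ord V ≤ 3 * d + 2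

lemma S0.rev (h : S0 G f v Y ν d) : S0 G (fun i => f (-i)) v Y ν.symm d :=
  ⟨h.toSt.rev, h.xd, h.g2⟩

lemma S0.isU (h : S0 G f v Y ν d) {x : V} (hx : NX G Y x) : IsU G Y x := by
  intro y hy
  have h1 := h.d_le hy
  have h2 := h.xd
  have h3 := Finset.eq_of_subset_of_card_le
    (Finset.inter_subset_right (s₁ := nb G y) (s₂ := XX G Y)) (by omega)
  have : x ∈ nb G y ∩ XX G Y := by rw [h3]; exact mem_XX.2 hx
  exact mem_nb.1 (Finset.mem_inter.1 this).1

lemma S0.yx (h : S0 G f v Y ν d) {x y : V} (hy : y ∈ Y) (hx : NX G Y x) : G.Adj y x :=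
  h.isU hx y hy

lemma S0.vx (h : S0 G f v Y ν d) {x : V} (hx : NX G Y x) : G.Adj v x := h.yx h.hop.mem hx

/-- No Hamilton path of `G - v` has both ends in `X`. -/
lemma S0.seg (h : S0 G f v Y ν d) (lo : ℤ) (l : List (ℤ × ℤ))
    (hl : ok lo (lo + ord V - 2) (ord V - 1) l) (hj : chn G.Adj f l)
    (h1 : NX G Y (f (fst l))) (h2 : NX G Y (f (lst l))) : False :=
  h.hop.cyc.seg h.mnh.nh h.n2 lo l hl hj (h.vx h1) (h.vx h2)

lemma S0.rr_le (h : S0 G f v Y ν d) : (RR G Y ν).card ≤ Y.card := by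
  have := h.card_all
  have := h.xd
  have := h.g2
  omega

/-- Every vertex of `X` misses at least `|Y| + 1` vertices outside `X ∪ Y`. -/
lemma S0.mm_ge (h : S0 G f v Y ν d) {u : V} (hu : NX G Y u) : Y.card + 1 ≤ (MM G Y u).card := by
  have h1 := nonnb_card h.mnh h.nou h.deg u ((XX G Y).erase u ∪ MM G Y u) (by
    intro w hw hn
    simp only [Finset.mem_union, Finset.mem_erase, mem_XX, mem_MM]
    by_cases a : NX G Y w
    · exact Or.inl ⟨hw, a⟩
    · exact Or.inr ⟨a, fun b => hn (h.yx b hu).symm, hn⟩)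
  have h2 := Finset.card_union_le ((XX G Y).erase u) (MM G Y u)
  rw [Finset.card_erase_of_mem (mem_XX.2 hu)] at h2
  have h3 := h.xd
  have h4 : 0 < (XX G Y).card := Finset.card_pos.2 ⟨u, mem_XX.2 hu⟩
  obtain ⟨w, hw⟩ := Finset.card_pos.1 (show 0 < (MM G Y u).card by omega)
  obtain ⟨w1, w2, w3⟩ := mem_MM.1 hw
  have h5 := h.deg_of_nadj (h.isU hu) (r := w) (fun e => w1 (e ▸ hu)) w3
  have h6 : nb G w ∩ Y = ∅ := by
    rw [Finset.eq_empty_iff_forall_notMem]
    intro z hz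
    simp only [Finset.mem_inter, mem_nb] at hz
    exact w1 ⟨z, hz.2, hz.1.symm⟩
  rw [h6, Finset.card_empty] at h5
  have := h.deg w
  omega

/-- A vertex outside `X` that misses one vertex of `X` misses `|Y|` of them. -/
lemma S0.poor (h : S0 G f v Y ν d) {u r : V} (hu : NX G Y u) (hr : ¬ NX G Y r)
    (hur : ¬ G.Adj r u) : Poor G Y r :=
  h.poor_of_nadj (h.isU hu) (fun e => hr (e ▸ hu)) (fun a => hur a.symm)

/-- Complete to `X`. -/
def Rich (G : SimpleGraph V) (Y : Finset V) (r : V) : Prop := ∀ u, NX G Y u → G.Adj r u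

lemma S0.poor_or (h : S0 G f v Y ν d) {r : V} (hr : ¬ NX G Y r) : Rich G Y r ∨ Poor G Y r := by
  by_cases a : Rich G Y r
  · exact Or.inl a
  · unfold Rich at a
    push Not at a
    obtain ⟨u, a, b⟩ := a
    exact Or.inr (h.poor a hr b)

lemma S0.not_rich (h : S0 G f v Y ν d) {r : V} (hp : Poor G Y r) : ¬ Rich G Y r := by
  intro a
  have h1 : nb G r ∩ XX G Y = XX G Y :=
    Finset.inter_eq_right.2 fun u hu => mem_nb.2 (a u (mem_XX.1 hu))
  have : 0 < Y.card := Finset.card_pos.2 ⟨v, h.hop.mem⟩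
  unfold Poor at hp
  rw [h1] at hp
  omega

/-- A vertex outside `X` has as many neighbours outside `X` as it misses vertices of `X`. -/
lemma S0.wdeg (h : S0 G f v Y ν d) (r : V) (W : Finset V)
    (hW : ∀ w, G.Adj r w → NX G Y w ∨ w ∈ W) :
    ((XX G Y).card : ℤ) ≤ (nb G r ∩ XX G Y).card + W.card := by
  have h1 : nb G r ⊆ (nb G r ∩ XX G Y) ∪ W := by
    intro w hw
    simp only [Finset.mem_union, Finset.mem_inter, hw, true_and, mem_XX]
    exact hW w (mem_nb.1 hw)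
  have h2 := (Finset.card_le_card h1).trans (Finset.card_union_le _ _)
  have := h.deg r
  have := h.xd
  omega

lemma miss_card (r : V) (Z : Finset V) (hZ : ∀ z ∈ Z, NX G Y z ∧ ¬ G.Adj r z) :
    (nb G r ∩ XX G Y).card + Z.card ≤ (XX G Y).card := by
  rw [← Finset.card_union_of_disjoint]
  · apply Finset.card_le_card
    intro w hw
    rcases Finset.mem_union.1 hw with hw | hw
    · exact (Finset.mem_inter.1 hw).2
    · exact mem_XX.2 (hZ w hw).1
  · rw [Finset.disjoint_right]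
    intro w hw hw'
    exact (hZ w hw).2 (mem_nb.1 (Finset.mem_inter.1 hw').1)

/-- A segment of the cycle between two consecutive vertices of `X`, with two vertices or more. -/
structure Sg (G : SimpleGraph V) (f : ℤ → V) (Y : Finset V) (p q : ℤ) : Prop where
  lt : p < q
  x1 : NX G Y (f (p - 1))
  x2 : NX G Y (f (q + 1))
  no : ∀ t, p ≤ t → t ≤ q → ¬ NX G Y (f t)

omit [Fintype V] in
lemma Sg.rev {p q : ℤ} (s : Sg G f Y p q) : Sg G (fun i => f (-i)) Y (-q) (-p) :=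
  ⟨by have := s.lt; omega, by simpa [add_comm] using s.x2,
    by simpa [sub_eq_add_neg, add_comm] using s.x1,
    fun t a b => s.no (-t) (by omega) (by omega)⟩

omit [Fintype V] in
lemma Sg.rev' {p q : ℤ} (s : Sg G (fun i => f (-i)) Y p q) : Sg G f Y (-q) (-p) := by
  simpa using s.rev

omit [Fintype V] in
lemma Sg.sep {p q p' q' : ℤ} (s : Sg G f Y p q) (s' : Sg G f Y p' q') (h : p < p') :
    q + 1 < p' := by
  by_contra a
  by_cases b : p' = q + 1
  · exact s'.no p' le_rfl s'.lt.le (b ▸ s.x2)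
  · exact s.no (p' - 1) (by omega) (by omega) s'.x1

omit [Fintype V] in
/-- Two segments are equal or separated. -/
lemma Sg.cmp {p q p' q' : ℤ} (s : Sg G f Y p q) (s' : Sg G f Y p' q') :
    (p = p' ∧ q = q') ∨ q + 1 < p' ∨ q' + 1 < p := by
  rcases lt_trichotomy p p' with a | a | a
  · exact Or.inr (Or.inl (s.sep s' a))
  · subst a
    refine Or.inl ⟨rfl, ?_⟩
    have := s.lt
    have := s'.lt
    rcases lt_trichotomy q q' with b | b | b
    · exact absurd s.x2 (s'.no _ (by omega) (by omega))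
    · exact b
    · exact absurd s'.x2 (s.no _ (by omega) (by omega))
  · exact Or.inr (Or.inr (s'.sep s a))

lemma St.sg_up (h : St G f v Y ν d) {p q : ℤ} (s : Sg G f Y p q) :
    Sg G f Y (p + (ord V - 1)) (q + (ord V - 1)) :=
  ⟨by have := s.lt; omega,
    by rw [show p + (ord V - 1) - 1 = p - 1 + (ord V - 1) by ring, h.per]; exact s.x1,
    by rw [show q + (ord V - 1) + 1 = q + 1 + (ord V - 1) by ring, h.per]; exact s.x2,
    fun t a b => by
      rw [← h.hop.cyc.1.per_sub]; exact s.no _ (by omega) (by omega)⟩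

lemma St.sg_le (h : St G f v Y ν d) {p q : ℤ} (s : Sg G f Y p q) : q + 3 ≤ p + ord V := by
  have := s.sep (h.sg_up s) (by have := h.n3; omega)
  omega

lemma St.sg_ny (h : St G f v Y ν d) {p q : ℤ} (s : Sg G f Y p q) (t : ℤ) (h1 : p ≤ t)
    (h2 : t ≤ q) : f t ∉ Y := by
  intro a
  have := s.lt
  obtain ⟨b, c⟩ := h.hop.nbr t a
  by_cases e : t = q
  · exact s.no _ (by omega) (by omega) b
  · exact s.no _ (by omega) (by omega) c

lemma St.sg_aa (h : St G f v Y ν d) {p q : ℤ} (s : Sg G f Y p q) : f p ∈ AA G Y ν :=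
  h.aa_idx.2 ⟨s.x1, h.sg_ny s p le_rfl s.lt.le⟩

lemma St.sg_bb (h : St G f v Y ν d) {p q : ℤ} (s : Sg G f Y p q) : f q ∈ AA G Y ν.symm :=
  h.bb_idx.2 ⟨s.x2, h.sg_ny s q s.lt.le le_rfl⟩

lemma St.sg_rr (h : St G f v Y ν d) {p q : ℤ} (s : Sg G f Y p q) (t : ℤ) (h1 : p < t)
    (h2 : t < q) : f t ∈ RR G Y ν :=
  mem_RR.2 ⟨s.no t h1.le h2.le, h.sg_ny s t h1.le h2.le,
    fun a => s.no _ (by omega) (by omega) (h.aa_idx.1 a).1,
    fun a => s.no _ (by omega) (by omega) (h.bb_idx.1 a).1⟩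

lemma St.exists_sg (h : St G f v Y ν d) (hd : 0 < d) {t : ℤ} (h1 : ¬ NX G Y (f t))
    (h2 : f t ∉ Y) : ∃ p q, p ≤ t ∧ t ≤ q ∧ Sg G f Y p q := by
  have h3 := h.d_le_x
  obtain ⟨x, hx⟩ := Finset.card_pos.1 (show 0 < (XX G Y).card by omega)
  rw [mem_XX] at hx
  obtain ⟨k, k0, k1, rfl⟩ := h.surj t (h.ne_of_nmem (h.nmem hx))
  obtain ⟨a, ⟨a0, a1⟩, amax⟩ := exists_max_int (fun a => a ≤ t ∧ NX G Y (f a)) t (fun _ a => a.1)
    ⟨k - (ord V - 1), by omega, by rwa [h.hop.cyc.1.per_sub]⟩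
  obtain ⟨b, ⟨b0, b1⟩, bmin⟩ := Int.exists_least_of_bdd (P := fun b => t ≤ b ∧ NX G Y (f b))
    ⟨t, fun _ a => a.1⟩ ⟨k, k0, hx⟩
  have n1 : a ≠ t := fun e => h1 (e ▸ a1)
  have n2 : b ≠ t := fun e => h1 (e ▸ b1)
  refine ⟨a + 1, b - 1, by omega, by omega, ?_, by simpa using a1, by simpa using b1, ?_⟩
  · by_contra c
    exact h2 (h.hop.closed h.n2 t (by rwa [show t - 1 = a by omega])
      (by rwa [show t + 1 = b by omega]))
  · intro s s0 s1 c
    by_cases e : s ≤ t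
    · have := amax s ⟨e, c⟩; omega
    · have := bmin s ⟨by omega, c⟩; omega

lemma S0.d_pos (h : S0 G f v Y ν d) : 0 < d := by
  have := h.n3; have := h.g2; omega

lemma S0.aa_sg (h : S0 G f v Y ν d) {p : ℤ} (ha : f p ∈ AA G Y ν) : ∃ q, Sg G f Y p q := by
  obtain ⟨p', q, a, b, s⟩ := h.exists_sg h.d_pos (h.aa_nx ha) (mem_AA.1 ha).2
  by_cases e : p' = p
  · exact ⟨q, e ▸ s⟩
  · exact absurd (h.aa_idx.1 ha).1 (s.no _ (by omega) (by omega))

lemma S0.bb_sg (h : S0 G f v Y ν d) {q : ℤ} (hb : f q ∈ AA G Y ν.symm) : ∃ p, Sg G f Y p q := by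
  obtain ⟨p, q', a, b, s⟩ := h.exists_sg h.d_pos (h.toSt.rev.aa_nx hb) (mem_AA.1 hb).2
  by_cases e : q' = q
  · exact ⟨p, e ▸ s⟩
  · exact absurd (h.bb_idx.1 hb).1 (s.no _ (by omega) (by omega))

lemma S0.rr_sg (h : S0 G f v Y ν d) {t : ℤ} (hr : f t ∈ RR G Y ν) :
    ∃ p q, p < t ∧ t < q ∧ Sg G f Y p q := by
  obtain ⟨r1, r2, r3, r4⟩ := mem_RR.1 hr
  obtain ⟨p, q, a, b, s⟩ := h.exists_sg h.d_pos r1 r2
  have n1 : p ≠ t := fun e => r3 (e ▸ h.sg_aa s)
  have n2 : q ≠ t := fun e => r4 (e ▸ h.sg_bb s)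
  exact ⟨p, q, by omega, by omega, s⟩

/-- Classification of the vertices, with positions in a given window. -/
lemma S0.cls (h : S0 G f v Y ν d) (lo : ℤ) (w : V) : NX G Y w ∨ w ∈ Y ∨
    ∃ t p q, lo ≤ t ∧ t < lo + (ord V - 1) ∧ f t = w ∧ p ≤ t ∧ t ≤ q ∧ Sg G f Y p q := by
  by_cases a : NX G Y w
  · exact Or.inl a
  by_cases b : w ∈ Y
  · exact Or.inr (Or.inl b)
  obtain ⟨t, t0, t1, rfl⟩ := h.surj lo (h.ne_of_nmem b)
  obtain ⟨p, q, c1, c2, s⟩ := h.exists_sg h.d_pos a b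
  exact Or.inr (Or.inr ⟨t, p, q, t0, t1, rfl, c1, c2, s⟩)

/-- The neighbours of a vertex outside `X`. -/
lemma S0.nbr (h : S0 G f v Y ν d) (lo : ℤ) {r w : V} (hr : ¬ NX G Y r) (a : G.Adj r w) :
    NX G Y w ∨
    ∃ t p q, lo ≤ t ∧ t < lo + (ord V - 1) ∧ f t = w ∧ p ≤ t ∧ t ≤ q ∧ Sg G f Y p q := by
  rcases h.cls lo w with b | b | b
  exacts [Or.inl b, absurd ⟨w, b, a.symm⟩ hr, Or.inr b]

/-- The only possible neighbour of `a` in `B` is `b`. -/
def Only (G : SimpleGraph V) (B : Finset V) (a b : V) : Prop := ∀ w ∈ B, G.Adj a w → w = b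

/-- The first vertex of a segment without proper chord: misses in `X` and misses in
`RR ∪ {b}`. -/
lemma S0.miss (h : S0 G f v Y ν d) {a b : V} (ha : a ∈ AA G Y ν)
    (ho : Only G (AA G Y ν.symm) a b) (M : Finset V)
    (hM : ∀ w ∈ M, (w ∈ RR G Y ν ∨ w = b) ∧ ¬ G.Adj a w) :
    (XX G Y).card + M.card ≤ (nb G a ∩ XX G Y).card + (RR G Y ν).card + 1 := by
  have h1 := h.wdeg a (insert b (RR G Y ν) \ M) (by
    intro w hw
    by_cases x : NX G Y w
    · exact Or.inl x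
    · refine Or.inr (Finset.mem_sdiff.2 ⟨?_, fun m => (hM w m).2 hw⟩)
      rw [Finset.mem_insert, mem_RR]
      by_cases y : w ∈ AA G Y ν.symm
      · exact Or.inl (ho w y hw)
      · exact Or.inr ⟨x, fun z => h.aa_nx ha ⟨w, z, hw.symm⟩, fun z => h.aa_indep ha z hw, y⟩)
  have h2 : M ⊆ insert b (RR G Y ν) := fun w hw => by
    rw [Finset.mem_insert]; exact (hM w hw).1.symm
  have h3 := Finset.card_sdiff_add_card_eq_card h2
  have h4 := Finset.card_insert_le b (RR G Y ν)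
  omega

/-- A poor first vertex without proper chord misses at most one vertex of `RR ∪ {b}`. -/
lemma S0.miss2 (h : S0 G f v Y ν d) {a b : V} (ha : a ∈ AA G Y ν)
    (ho : Only G (AA G Y ν.symm) a b) (hp : Poor G Y a) {w1 w2 : V} (hne : w1 ≠ w2)
    (h1 : w1 ∈ RR G Y ν ∨ w1 = b) (h2 : w2 ∈ RR G Y ν ∨ w2 = b) (n1 : ¬ G.Adj a w1) :
    G.Adj a w2 := by
  by_contra n2
  have h3 := h.miss ha ho {w1, w2} (by
    intro w hw
    simp only [Finset.mem_insert, Finset.mem_singleton] at hw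
    rcases hw with rfl | rfl
    exacts [⟨h1, n1⟩, ⟨h2, n2⟩])
  rw [Finset.card_pair hne] at h3
  have := h.rr_le
  unfold Poor at hp
  omega

lemma S0.miss2' (h : S0 G f v Y ν d) {a b : V} (hb : b ∈ AA G Y ν.symm)
    (ho : Only G (AA G Y ν) b a) (hp : Poor G Y b) {w1 w2 : V} (hne : w1 ≠ w2)
    (h1 : w1 ∈ RR G Y ν ∨ w1 = a) (h2 : w2 ∈ RR G Y ν ∨ w2 = a) (n1 : ¬ G.Adj b w1) :
    G.Adj b w2 :=
  h.rev.miss2 hb ho hp hne (by rwa [RR_symm]) (by rwa [RR_symm]) n1

/-- Two successors of `X` and two consecutive vertices between them. -/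
lemma S0.lamA (h : S0 G f v Y ν d) {p p' z : ℤ} (h1 : p ≤ z) (h2 : z + 1 < p')
    (h3 : p' < p + (ord V - 1)) (x1 : NX G Y (f (p - 1))) (x2 : NX G Y (f (p' - 1)))
    (a1 : G.Adj (f p) (f (z + 1))) (a2 : G.Adj (f p') (f z)) : False :=
  h.seg p [(p - 1 + (ord V - 1), p'), (z, p), (z + 1, p' - 1)]
    (by simp only [ok, inw, dis, dis1, sdis, tot, slen, and_true]; omega)
    ⟨a2, a1, trivial⟩ (by simpa only [fst, h.per] using x1) x2

/-- Two predecessors of `X` and two consecutive vertices between them. -/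
lemma S0.lamB (h : S0 G f v Y ν d) {q q' z : ℤ} (h1 : z ≤ q) (h2 : q' + 1 < z)
    (h3 : q < q' + (ord V - 1)) (x1 : NX G Y (f (q + 1))) (x2 : NX G Y (f (q' + 1)))
    (a1 : G.Adj (f q) (f (z - 1))) (a2 : G.Adj (f q') (f z)) : False :=
  h.seg (q' + 1) [(q + 1, q' + (ord V - 1)), (z, q), (z - 1, q' + 1)]
    (by simp only [ok, inw, dis, dis1, sdis, tot, slen, and_true]; omega)
    ⟨by simpa only [h.per] using a2, a1, trivial⟩ x1 x2

/-- The arc from a successor to a predecessor of `X` cannot be inserted elsewhere. -/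
lemma S0.lamAB (h : S0 G f v Y ν d) {p q z : ℤ} (h1 : p ≤ q) (h2 : q < z)
    (h3 : z + 1 < p + (ord V - 1)) (x1 : NX G Y (f (p - 1))) (x2 : NX G Y (f (q + 1)))
    (a : (G.Adj (f p) (f (z + 1)) ∧ G.Adj (f q) (f z)) ∨
      (G.Adj (f p) (f z) ∧ G.Adj (f q) (f (z + 1)))) : False := by
  rcases a with ⟨a1, a2⟩ | ⟨a1, a2⟩
  · exact h.seg p [(p - 1 + (ord V - 1), z + 1), (p, q), (z, q + 1)]
      (by simp only [ok, inw, dis, dis1, sdis, tot, slen, and_true]; omega)
      ⟨a1.symm, a2, trivial⟩ (by simpa only [fst, h.per] using x1) x2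
  · exact h.seg p [(p - 1 + (ord V - 1), z + 1), (q, p), (z, q + 1)]
      (by simp only [ok, inw, dis, dis1, sdis, tot, slen, and_true]; omega)
      ⟨a2.symm, a1, trivial⟩ (by simpa only [fst, h.per] using x1) x2

/-- If `f p` follows a vertex of `X` and is complete to `X`, then its successor is adjacent to no
other successor of `X`. -/
lemma S0.r1 (h : S0 G f v Y ν d) {p p' : ℤ} (h1 : p + 1 < p') (h3 : p' < p + (ord V - 1))
    (x1 : NX G Y (f (p - 1))) (x2 : NX G Y (f (p' - 1))) (y1 : f p ∉ Y) (y2 : f p' ∉ Y)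
    (y3 : ¬ NX G Y (f (p + 1))) (hr : Rich G Y (f p)) : ¬ G.Adj (f p') (f (p + 1)) := by
  intro a
  have e : p' - 1 ≠ p + 1 := fun e => y3 (e ▸ x2)
  have := h.big p p [(p' - 1, p + 1), (p', p - 1 + (ord V - 1))]
    (by simp only [ok, inw, dis, dis1, sdis, tot, slen, and_true]; omega) ⟨a.symm, trivial⟩
    (h.vx x2) (by simpa only [lst, h.per] using h.vx x1) Y (by
      intro u hu
      by_cases e : u = v
      · exact Or.inl ⟨e, hr _ x2, by simpa only [lst, h.per] using hr _ x1⟩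
      · obtain ⟨t, t0, t1, rfl⟩ := h.surj p e
        obtain ⟨b, c⟩ := h.hop.nbr t hu
        refine Or.inr ⟨t, rfl, ?_, hr _ b, hr _ c⟩
        have n1 : t ≠ p := fun e => y1 (e ▸ hu)
        have n2 : t ≠ p' := fun e => y2 (e ▸ hu)
        have n3 : t ≠ p' - 1 := fun e => h.nmem x2 (e ▸ hu)
        have n4 : t ≠ p - 1 + (ord V - 1) := fun e => h.nmem x1 (by rwa [e, h.per] at hu)
        have n5 : t ≠ p + 1 := fun e =>
          h.hop.toHop.nocons h.n2 (p - 1) x1 (by simpa [e] using b)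
        simp only [inn, or_false]
        omega)
  omega

/-- The mirror image of `S0.r1`. -/
lemma S0.r1' (h : S0 G f v Y ν d) {q q' : ℤ} (h1 : q' + 1 < q) (h3 : q < q' + (ord V - 1))
    (x1 : NX G Y (f (q + 1))) (x2 : NX G Y (f (q' + 1))) (y1 : f q ∉ Y) (y2 : f q' ∉ Y)
    (y3 : ¬ NX G Y (f (q - 1))) (hr : Rich G Y (f q)) : ¬ G.Adj (f q') (f (q - 1)) := by
  have := h.rev.r1 (p := -q) (p' := -q') (by omega) (by omega)
    (by simpa [sub_eq_add_neg, add_comm] using x1) (by simpa [sub_eq_add_neg, add_comm] using x2)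
    (by simpa using y1) (by simpa using y2) (by simpa [sub_eq_add_neg, add_comm] using y3)
    (by simpa using hr)
  simpa [sub_eq_add_neg, add_comm] using this

/-- If no first vertex has a proper chord then no last vertex has one. -/
lemma S0.only_rev (h : S0 G f v Y ν d)
    (hnp : ∀ p q, Sg G f Y p q → Only G (AA G Y ν.symm) (f p) (f q)) {p q : ℤ}
    (s : Sg G f Y p q) : Only G (AA G Y ν) (f q) (f p) := by
  intro w hw a
  obtain ⟨t, t0, t1, rfl⟩ := h.surj p (h.ne_of_nmem (mem_AA.1 hw).2)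
  obtain ⟨q', s'⟩ := h.aa_sg hw
  have e := hnp t q' s' _ (h.sg_bb s) a.symm
  have h1 := h.sg_le s
  have h2 := h.sg_le s'
  have h3 := s.lt
  have h4 := s'.lt
  rcases s.cmp s' with ⟨b, -⟩ | b | b
  · rw [b]
  · rcases s'.cmp (h.sg_up s) with ⟨c, -⟩ | c | c
    · omega
    · have := h.hop.cyc.1.eq (by omega) (by omega) e
      omega
    · omega
  · omega

omit [Fintype V] in
/-- The arc between positions `i` and `j` is closed in `G - S`. -/
lemma arcOK_one {S : V → Prop} {i j : ℤ} (h1 : i + 1 < j) (h2 : ∀ t, i < t → t < j → ¬ S (f t))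
    (h3 : ∀ t x, i < t → t < j → G.Adj (f t) x → S x ∨ ∃ u, i < u ∧ u < j ∧ f u = x) :
    ArcOK G f S i := by
  refine Or.inl ⟨fun w => ∃ u, i < u ∧ u < j ∧ f u = w, ⟨⟨_, i + 1, by omega, h1, rfl⟩, ?_, ?_⟩, ?_⟩
  · rintro w ⟨u, a, b, rfl⟩
    exact h2 u a b
  · rintro w x ⟨u, a, b, rfl⟩ c
    exact (h3 u x a b c).symm
  · rintro w ⟨u, a, b, rfl⟩
    exact ⟨u, a, rfl, fun t t0 t1 => h2 t t0 (by omega)⟩

omit [Fintype V] in
/-- The arc after position `i` contains the pendant pieces `a1..b1` and `a2..b2`. -/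
lemma arcOK_two {S : V → Prop} {c i a1 b1 a2 b2 : ℤ} (hf : Cyc G.Adj f c) (c1 c2 : V)
    (h1 : i < a1 ∧ a1 ≤ b1 ∧ b1 < a2 ∧ a2 ≤ b2 ∧ b2 ≤ i + c)
    (h2 : ∀ t, i < t → t ≤ b2 → ¬ S (f t))
    (h3 : ∀ t x, a1 ≤ t → t ≤ b1 → G.Adj (f t) x →
      (∃ u, a1 ≤ u ∧ u ≤ b1 ∧ f u = x) ∨ S x ∨ x = c1)
    (h4 : ∀ t x, a2 ≤ t → t ≤ b2 → G.Adj (f t) x →
      (∃ u, a2 ≤ u ∧ u ≤ b2 ∧ f u = x) ∨ S x ∨ x = c2) : ArcOK G f S i := by
  refine Or.inr ⟨fun w => ∃ u, a1 ≤ u ∧ u ≤ b1 ∧ f u = w, fun w => ∃ u, a2 ≤ u ∧ u ≤ b2 ∧ f u = w,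
    c1, c2, ⟨⟨_, a1, le_rfl, h1.2.1, rfl⟩, ?_, ?_⟩, ⟨⟨_, a2, le_rfl, h1.2.2.2.1, rfl⟩, ?_, ?_⟩,
    ?_, ?_, ?_⟩
  · rintro w ⟨u, a, b, rfl⟩
    exact h2 u (by omega) (by omega)
  · rintro w x ⟨u, a, b, rfl⟩ c
    exact h3 u x a b c
  · rintro w ⟨u, a, b, rfl⟩
    exact h2 u (by omega) b
  · rintro w x ⟨u, a, b, rfl⟩ c
    exact h4 u x a b c
  · rintro w ⟨u, a, b, rfl⟩ ⟨t, a', b', e⟩
    exact hf.inj u t (by omega) (by omega) e.symm
  · rintro w ⟨u, a, b, rfl⟩
    exact ⟨u, by omega, rfl, fun t t0 t1 => h2 t t0 (by omega)⟩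
  · rintro w ⟨u, a, b, rfl⟩
    exact ⟨u, by omega, rfl, fun t t0 t1 => h2 t t0 (by omega)⟩

/-- The toughness argument for a cycle missing `v`, when all neighbours of `v` but `e` are in
`S`. -/
lemma NCyc.blob (h : NCyc G f v) (hM : MNH G) (hU : NoU G) (hn : 2 ≤ ord V) (S : V → Prop) (e : V)
    (hne : ∃ x, S x) (hv : ¬ S v) (hvS : ∀ x, G.Adj v x → S x ∨ x = e)
    (hA : ∀ i, S (f i) → ArcOK G f S i) : False :=
  arcs_blob hM hU h.1 (by omega) S (fun x hx => by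
      obtain ⟨i, -, -, e⟩ := h.surj 0 x (fun e => hv (e ▸ hx))
      exact ⟨i, e⟩) hne hA (· = v) e
    ⟨⟨v, rfl⟩, by rintro w rfl; exact hv, by rintro w x rfl a; exact Or.inr (hvS x a)⟩ h.2

end Pool.Agent.P.MP_422cad_co
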